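import Mathlib
import Pool.Agent.TH278.DX.Defs
import Pool.Agent.H768R2.FQ.Tens
set_option autoImplicit false

/-!
# Tensor product of two homomorphisms into the invertible operators of Hilbert spaces
-/

open scoped InnerProductSpace TensorProduct

namespace Pool.Agent.TH89.J4450

open UniformSpace Pool.Agent.H768R2.FQ

variable {E F : Type} [NormedAddCommGroup E] [InnerProductSpace ℂ E]
  [NormedAddCommGroup F] [InnerProductSpace ℂ F]

variable (E F) in
/-- the completed tensor product -/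
abbrev KK := Completion (E ⊗[ℂ] F)

/-- elementary tensors -/
noncomputable def tt (x : E) (y : F) : KK E F := ((x ⊗ₜ[ℂ] y : E ⊗[ℂ] F) : KK E F)

variable (F) in
/-- first amplification -/
noncomputable def A1 (T : E →L[ℂ] E) : KK E F →L[ℂ] KK E F :=
  ((LinearMap.rTensor F (T : E →ₗ[ℂ] E)).mkContinuous ‖T‖ (norm_rT_le T)).completion

variable (E) in
/-- second amplification -/
noncomputable def A2 (T : F →L[ℂ] F) : KK E F →L[ℂ] KK E F :=
  ((LinearMap.lTensor E (T : F →ₗ[ℂ] F)).mkContinuous ‖T‖ (norm_lT_le T)).completion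

theorem A1_tt (T : E →L[ℂ] E) (x : E) (y : F) : A1 F T (tt x y) = tt (T x) y := by
  unfold A1 tt
  rw [ContinuousLinearMap.completion_apply_coe]
  rfl

theorem A2_tt (T : F →L[ℂ] F) (x : E) (y : F) : A2 E T (tt x y) = tt x (T y) := by
  unfold A2 tt
  rw [ContinuousLinearMap.completion_apply_coe]
  rfl

theorem norm_A1 (T : E →L[ℂ] E) : ‖A1 F T‖ ≤ ‖T‖ := by
  refine ContinuousLinearMap.opNorm_le_bound _ (norm_nonneg _) fun z => ?_
  refine Completion.induction_on z ?_ fun w => ?_
  · exact isClosed_le (A1 F T).continuous.norm (continuous_const.mul continuous_norm)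
  · unfold A1
    rw [ContinuousLinearMap.completion_apply_coe, Completion.norm_coe, Completion.norm_coe]
    exact norm_rT_le T w

theorem norm_A2 (T : F →L[ℂ] F) : ‖A2 E T‖ ≤ ‖T‖ := by
  refine ContinuousLinearMap.opNorm_le_bound _ (norm_nonneg _) fun z => ?_
  refine Completion.induction_on z ?_ fun w => ?_
  · exact isClosed_le (A2 E T).continuous.norm (continuous_const.mul continuous_norm)
  · unfold A2
    rw [ContinuousLinearMap.completion_apply_coe, Completion.norm_coe, Completion.norm_coe]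
    exact norm_lT_le T w

/-- induction on elements of the completed tensor product -/
theorem ind {p : KK E F → Prop} (z : KK E F) (hc : IsClosed {z | p z}) (h0 : p 0)
    (ht : ∀ x y, p (tt x y)) (ha : ∀ a b, p a → p b → p (a + b)) : p z := by
  refine Completion.induction_on z hc fun w => ?_
  induction w using TensorProduct.induction_on with
  | zero => rw [Completion.coe_zero]; exact h0
  | tmul x y => exact ht x y
  | add a b h1 h2 => rw [Completion.coe_add]; exact ha _ _ h1 h2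

theorem ext_tt {A B : KK E F →L[ℂ] KK E F} (h : ∀ x y, A (tt x y) = B (tt x y)) : A = B := by
  ext z
  refine ind z (isClosed_eq A.continuous B.continuous) (by rw [map_zero, map_zero]) h ?_
  intro a b ha hb
  rw [map_add, map_add, ha, hb]

variable (E F) in
/-- the first amplification, a homomorphism of monoids -/
noncomputable def h1 : (E →L[ℂ] E) →* (KK E F →L[ℂ] KK E F) where
  toFun := A1 F
  map_one' := ext_tt fun x y => by rw [A1_tt]; rfl
  map_mul' S T := ext_tt fun x y => by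
    rw [A1_tt]
    show _ = A1 F S (A1 F T (tt x y))
    rw [A1_tt, A1_tt]; rfl

variable (E F) in
/-- the second amplification, a homomorphism of monoids -/
noncomputable def h2 : (F →L[ℂ] F) →* (KK E F →L[ℂ] KK E F) where
  toFun := A2 E
  map_one' := ext_tt fun x y => by rw [A2_tt]; rfl
  map_mul' S T := ext_tt fun x y => by
    rw [A2_tt]
    show _ = A2 E S (A2 E T (tt x y))
    rw [A2_tt, A2_tt]; rfl

theorem comm (S : E →L[ℂ] E) (T : F →L[ℂ] F) : A1 F S * A2 E T = A2 E T * A1 F S :=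
  ext_tt fun x y => by
    show A1 F S (A2 E T (tt x y)) = A2 E T (A1 F S (tt x y))
    rw [A1_tt, A2_tt, A2_tt, A1_tt]

variable (E F) in
/-- the bilinear map -/
noncomputable def tau : E →ₗ[ℂ] F →ₗ[ℂ] KK E F :=
  LinearMap.mk₂ ℂ tt
    (fun x x' y => by unfold tt; rw [TensorProduct.add_tmul, Completion.coe_add])
    (fun c x y => by unfold tt; rw [← TensorProduct.smul_tmul', Completion.coe_smul])
    (fun x y y' => by unfold tt; rw [TensorProduct.tmul_add, Completion.coe_add])
    (fun c x y => by unfold tt; rw [TensorProduct.tmul_smul, Completion.coe_smul])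

theorem tau_apply (x : E) (y : F) : tau E F x y = tt x y := rfl

theorem inner_tt (x x' : E) (y y' : F) :
    ⟪tt x y, tt x' y'⟫_ℂ = ⟪x, x'⟫_ℂ * ⟪y, y'⟫_ℂ := by
  unfold tt
  rw [Completion.inner_coe, TensorProduct.inner_tmul]

theorem tensor_rep {G K E F : Type} [Group G] [Group K] [NormedAddCommGroup E]
    [InnerProductSpace ℂ E] [CompleteSpace E] [NormedAddCommGroup F] [InnerProductSpace ℂ F]
    [CompleteSpace F] (π : G →* (E →L[ℂ] E)ˣ) (ρ : K →* (F →L[ℂ] F)ˣ) :
    ∃ (L : Type) (_ : NormedAddCommGroup L) (_ : InnerProductSpace ℂ L) (_ : CompleteSpace L)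
      (τ : E →ₗ[ℂ] F →ₗ[ℂ] L) (Ω : G × K →* (L →L[ℂ] L)ˣ),
      (∀ x y x' y', inner ℂ (τ x y) (τ x' y') = inner ℂ x x' * inner ℂ y y') ∧
      (∀ (p : G × K) (x : E) (y : F), ((Ω p : (L →L[ℂ] L)ˣ) : L →L[ℂ] L) (τ x y) =
        τ (((π p.1 : (E →L[ℂ] E)ˣ) : E →L[ℂ] E) x) (((ρ p.2 : (F →L[ℂ] F)ˣ) : F →L[ℂ] F) y)) ∧
      (∀ p : G × K, ‖((Ω p : (L →L[ℂ] L)ˣ) : L →L[ℂ] L)‖ ≤
        ‖((π p.1 : (E →L[ℂ] E)ˣ) : E →L[ℂ] E)‖ * ‖((ρ p.2 : (F →L[ℂ] F)ˣ) : F →L[ℂ] F)‖) ∧
      Dense (Submodule.span ℂ {z : L | ∃ x y, z = τ x y} : Set L) := by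
  let Ω : G × K →* (KK E F →L[ℂ] KK E F)ˣ :=
    MonoidHom.noncommCoprod ((Units.map (h1 E F)).comp π) ((Units.map (h2 E F)).comp ρ)
      (fun g k => Units.ext (comm _ _))
  have hΩ : ∀ p : G × K, ((Ω p : (KK E F →L[ℂ] KK E F)ˣ) : KK E F →L[ℂ] KK E F) =
      A1 F ((π p.1 : (E →L[ℂ] E)ˣ) : E →L[ℂ] E) * A2 E ((ρ p.2 : (F →L[ℂ] F)ˣ) : F →L[ℂ] F) :=
    fun p => rfl
  refine ⟨KK E F, inferInstance, inferInstance, inferInstance, tau E F, Ω, ?_, ?_, ?_, ?_⟩
  · exact fun x y x' y' => inner_tt x x' y y'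
  · intro p x y
    rw [hΩ]
    show A1 F _ (A2 E _ (tt x y)) = tt _ _
    rw [A2_tt, A1_tt]
  · intro p
    rw [hΩ]
    refine (norm_mul_le _ _).trans ?_
    exact mul_le_mul (norm_A1 _) (norm_A2 _) (norm_nonneg _) (norm_nonneg _)
  · intro z
    refine ind (p := fun z => z ∈ closure (Submodule.span ℂ {z : KK E F | ∃ x y, z = tau E F x y} :
      Set (KK E F))) z isClosed_closure ?_ ?_ ?_
    · exact subset_closure (Submodule.zero_mem _)
    · exact fun x y => subset_closure (Submodule.subset_span ⟨x, y, rfl⟩)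
    · intro a b ha hb
      rw [← Submodule.topologicalClosure_coe] at ha hb ⊢
      exact Submodule.add_mem _ ha hb

end Pool.Agent.TH89.J4450
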