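import Mathlib
import Pool.Agent.TH813.Ell0K

/-!
# The multiplications of a lattice: degree, reality, generation (job 2168)
-/

set_option autoImplicit false
open Filter Finset
open scoped Topology PeriodPair ComplexConjugate
noncomputable section
namespace Pool.Agent.TH813.Ell
open H667R3 Pool.Agent.W245.EB
variable {L : PeriodPair}

/-- the quadratic equation of a multiplication with a given matrix -/
theorem mat_quad {α : ℂ} {a b c d : ℤ} (h1 : (a : ℂ) * L.ω₁ + b * L.ω₂ = α * L.ω₁)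
    (h2 : (c : ℂ) * L.ω₁ + d * L.ω₂ = α * L.ω₂) :
    α * (((a + d : ℤ) : ℂ) - α) = ((a * d - b * c : ℤ) : ℂ) := by
  apply mul_right_cancel₀ (ω₁_ne_zero L)
  push_cast
  linear_combination (α - d) * h1 + b * h2

/-- the matrix of a real multiplication is scalar -/
theorem mat_real {α : ℂ} {a b c d : ℤ} (h1 : (a : ℂ) * L.ω₁ + b * L.ω₂ = α * L.ω₁)
    (h2 : (c : ℂ) * L.ω₁ + d * L.ω₂ = α * L.ω₂) (h : conj α = α) :
    b = 0 ∧ c = 0 ∧ α = a ∧ α = d := by
  obtain ⟨r, hr⟩ := Complex.conj_eq_iff_real.1 h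
  have h3 := LinearIndependent.pair_iff.1 L.indep ((a : ℝ) - r) (b : ℝ) (by
    simp only [Complex.real_smul]
    push_cast
    rw [hr] at h1
    linear_combination h1)
  have h4 := LinearIndependent.pair_iff.1 L.indep (c : ℝ) ((d : ℝ) - r) (by
    simp only [Complex.real_smul]
    push_cast
    rw [hr] at h2
    linear_combination h2)
  refine ⟨by exact_mod_cast h3.2, by exact_mod_cast h4.1, ?_, ?_⟩
  · have h5 : r = (a : ℝ) := by linarith [h3.1]
    rw [hr, h5]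
    norm_cast
  · have h5 : r = (d : ℝ) := by linarith [h4.2]
    rw [hr, h5]
    norm_cast

/-- the norm of a multiplication is the determinant of its matrix -/
theorem mat_norm {α : ℂ} {a b c d : ℤ} (h1 : (a : ℂ) * L.ω₁ + b * L.ω₂ = α * L.ω₁)
    (h2 : (c : ℂ) * L.ω₁ + d * L.ω₂ = α * L.ω₂) :
    α * conj α = ((a * d - b * c : ℤ) : ℂ) := by
  by_cases h : conj α = α
  · obtain ⟨hb, hc, ha, hd⟩ := mat_real h1 h2 h
    rw [h, hb]
    have h3 : α * α = (a : ℂ) * d := by rw [← ha, ← hd]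
    rw [h3]
    push_cast
    ring
  · have h3 := mat_quad h1 h2
    have h4 := congrArg conj h3
    rw [map_mul, map_sub, map_intCast, map_intCast] at h4
    have h5 : (conj α - α) * (((a + d : ℤ) : ℂ) - α - conj α) = 0 := by
      linear_combination h4 - h3
    have h6 := (mul_eq_zero.1 h5).resolve_left (sub_ne_zero.2 h)
    rw [← h3]
    linear_combination -α * h6

/-- the Legendre determinant is not zero -/
theorem leg_ne (L : PeriodPair) : L.ω₁ * eta L L.ω₂ - L.ω₂ * eta L L.ω₁ ≠ 0 := by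
  intro h
  obtain ⟨w, hw, hne⟩ := exists_quasi_period L (s := L.ω₁) (ρ := -eta L L.ω₁)
    (Or.inl (ω₁_ne_zero L))
  apply hne
  obtain ⟨m, n, rfl⟩ := PeriodPair.mem_lattice.1 hw
  have m1 : (m : ℂ) * L.ω₁ ∈ L.lattice := by
    have := L.lattice.smul_mem m L.ω₁_mem_lattice
    rwa [zsmul_eq_mul] at this
  have m2 : (n : ℂ) * L.ω₂ ∈ L.lattice := by
    have := L.lattice.smul_mem n L.ω₂_mem_lattice
    rwa [zsmul_eq_mul] at this
  rw [eta_add L m1 m2, eta_zsmul L L.ω₁_mem_lattice, eta_zsmul L L.ω₂_mem_lattice]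
  linear_combination (n : ℂ) * h

/-- the quasi-periods and a multiplication -/
theorem eta_mult {α : ℂ} (hα : α ≠ 0) (hm : ∀ w ∈ L.lattice, α * w ∈ L.lattice) :
    ∃ κ : ℂ, ∀ w ∈ L.lattice, α * eta L (α * w) = (ker hα hm).card * eta L w - κ * w := by
  obtain ⟨z₀, hz₀⟩ : ∃ z₀, z₀ ∉ (scL L α hα).lattice :=
    ⟨_, (scL L α hα).ω₁_div_two_notMem_lattice⟩
  have hz₀' : α * z₀ ∉ L.lattice := fun h => hz₀ (mem_scL.2 h)
  obtain ⟨c₂, hc₂⟩ := zeta_mul hα hm
    (c := α ^ 2 * ℘[L] (α * z₀) - ∑ x ∈ ker hα hm, ℘[L] (z₀ - x.out)) (by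
      intro z hz
      have := wp_mul_const hα hm z z₀ hz hz₀'
      linear_combination this)
  refine ⟨α ^ 2 * ℘[L] (α * z₀) - ∑ x ∈ ker hα hm, ℘[L] (z₀ - x.out), fun w hw => ?_⟩
  have hw' : α * (z₀ + w) ∉ L.lattice := by
    intro h
    apply hz₀'
    have := sub_mem h (hm w hw)
    rwa [show α * (z₀ + w) - α * w = α * z₀ by ring] at this
  have e1 := hc₂ _ hw'
  have e2 := hc₂ _ hz₀'
  rw [mul_add, zeta_add_coe L hz₀' (hm w hw)] at e1
  have e3 : ∑ x ∈ ker hα hm, zeta L (z₀ + w - x.out) =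
      ∑ x ∈ ker hα hm, zeta L (z₀ - x.out) + (ker hα hm).card * eta L w := by
    rw [← nsmul_eq_mul, ← Finset.sum_const, ← Finset.sum_add_distrib]
    apply Finset.sum_congr rfl
    intro x hx
    rw [show z₀ + w - x.out = z₀ - x.out + w by ring,
      zeta_add_coe L (sub_out_notMem hz₀' hx) hw]
  rw [e3] at e1
  linear_combination e1 - e2

/-- the degree of a multiplication -/
theorem card_ker {α : ℂ} (hα : α ≠ 0) (hm : ∀ w ∈ L.lattice, α * w ∈ L.lattice) :
    ((ker hα hm).card : ℂ) = α * conj α := by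
  obtain ⟨a, b, h1⟩ := PeriodPair.mem_lattice.1 (hm _ L.ω₁_mem_lattice)
  obtain ⟨c, d, h2⟩ := PeriodPair.mem_lattice.1 (hm _ L.ω₂_mem_lattice)
  rw [mat_norm h1 h2]
  obtain ⟨κ, hκ⟩ := eta_mult hα hm
  have k1 := hκ _ L.ω₁_mem_lattice
  have k2 := hκ _ L.ω₂_mem_lattice
  have hz : ∀ (n : ℤ) {w : ℂ}, w ∈ L.lattice → (n : ℂ) * w ∈ L.lattice := fun n w hw => by
    have := L.lattice.smul_mem n hw
    rwa [zsmul_eq_mul] at this
  have g1 : eta L (α * L.ω₁) = a * eta L L.ω₁ + b * eta L L.ω₂ := by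
    rw [← h1, eta_add L (hz a L.ω₁_mem_lattice) (hz b L.ω₂_mem_lattice),
      eta_zsmul L L.ω₁_mem_lattice, eta_zsmul L L.ω₂_mem_lattice]
  have g2 : eta L (α * L.ω₂) = c * eta L L.ω₁ + d * eta L L.ω₂ := by
    rw [← h2, eta_add L (hz c L.ω₁_mem_lattice) (hz d L.ω₂_mem_lattice),
      eta_zsmul L L.ω₁_mem_lattice, eta_zsmul L L.ω₂_mem_lattice]
  rw [g1] at k1
  rw [g2] at k2
  apply mul_right_cancel₀ (leg_ne L)
  push_cast
  linear_combination L.ω₂ * k1 - L.ω₁ * k2 - (c * eta L L.ω₁ + d * eta L L.ω₂) * h1 +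
    (a * eta L L.ω₁ + b * eta L L.ω₂) * h2

/-- a real multiplication is an integer -/
theorem mult_real {α : ℂ} (hm : ∀ w ∈ L.lattice, α * w ∈ L.lattice) (h : conj α = α) :
    ∃ n : ℤ, α = n := by
  obtain ⟨a, b, h1⟩ := PeriodPair.mem_lattice.1 (hm _ L.ω₁_mem_lattice)
  obtain ⟨c, d, h2⟩ := PeriodPair.mem_lattice.1 (hm _ L.ω₂_mem_lattice)
  exact ⟨a, (mat_real h1 h2 h).2.2.1⟩

/-- the field of the multiplications is generated by each multiplication which is not real -/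
theorem kL_eq {α : ℂ} (hm : ∀ w ∈ L.lattice, α * w ∈ L.lattice) (h : conj α ≠ α) {c : ℂ}
    (hc : c ∈ kL L) : ∃ p q : ℚ, c = p + q * α := by
  obtain ⟨n, hn, hc⟩ := hc
  obtain ⟨a, b, h1⟩ := PeriodPair.mem_lattice.1 (hm _ L.ω₁_mem_lattice)
  obtain ⟨p, q, h2⟩ := PeriodPair.mem_lattice.1 (hc _ L.ω₁_mem_lattice)
  have hω := ω₁_ne_zero L
  have hb : b ≠ 0 := by
    intro hb
    apply h
    have h3 : α = a := by
      apply mul_right_cancel₀ hω
      rw [← h1, hb]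
      push_cast
      ring
    rw [h3, map_intCast]
  have hbC : (b : ℂ) ≠ 0 := by exact_mod_cast hb
  have hnC : (n : ℂ) ≠ 0 := by exact_mod_cast hn.ne'
  refine ⟨(p - q * a / b) / n, q / (b * n), ?_⟩
  push_cast
  field_simp
  apply mul_right_cancel₀ hω
  linear_combination -(b : ℂ) * h2 + q * h1

end Pool.Agent.TH813.Ell
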