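import Mathlib
import Pool.Agent.H438R2.PD.A3
import Pool.Agent.H789R2.FR.Planch
set_option autoImplicit false

/-! # Job 1620: the Fourier extension operator of the paraboloid with one coordinate frozen -/

namespace Pool.Agent.TH89.J1620

open MeasureTheory Set Complex
open scoped ENNReal NNReal RealInnerProductSpace
open Pool.Agent.H789R2.FR (E sg T)
open Pool.Agent.H438R2.PD (E1)

/-- the Fourier extension operator of the paraboloid at the point (a, b, t) -/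
noncomputable def ex (f : ℝ × ℝ → ℂ) (a b t : ℝ) : ℂ :=
  ∫ x : ℝ × ℝ, cexp (-(I * ((x.1 * a + x.2 * b + (x.1 ^ 2 + x.2 ^ 2) * t : ℝ) : ℂ))) * f x

/-- the integrand -/
noncomputable def G (f : ℝ × ℝ → ℂ) (a b t x y : ℝ) : ℂ :=
  cexp (-(I * ((x * a + y * b + (x ^ 2 + y ^ 2) * t : ℝ) : ℂ))) * f (x, y)

theorem ph_norm (x : ℝ) : ‖cexp (-(I * (x : ℂ)))‖ = 1 := by
  rw [Complex.norm_exp]; simp

theorem G_norm (f : ℝ × ℝ → ℂ) (a b t x y : ℝ) : ‖G f a b t x y‖ = ‖f (x, y)‖ := by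
  unfold G
  rw [norm_mul, ph_norm, one_mul]

theorem G_meas_y (f : ℝ × ℝ → ℂ) (hf : Measurable f) (a b t x : ℝ) :
    Measurable fun y : ℝ => G f a b t x y := by
  unfold G
  have h1 : Measurable fun y : ℝ => f (x, y) := hf.comp (by fun_prop)
  exact Measurable.mul (by fun_prop) h1

theorem G_meas_x (f : ℝ × ℝ → ℂ) (hf : Measurable f) (a b t y : ℝ) :
    Measurable fun x : ℝ => G f a b t x y := by
  unfold G
  have h1 : Measurable fun x : ℝ => f (x, y) := hf.comp (by fun_prop)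
  exact Measurable.mul (by fun_prop) h1

theorem G_meas_1 (f : ℝ × ℝ → ℂ) (hf : Measurable f) (a t : ℝ) :
    Measurable fun z : (ℝ × ℝ) × ℝ => G f a z.1.1 t z.1.2 z.2 := by
  unfold G
  have h1 : Measurable fun z : (ℝ × ℝ) × ℝ => f (z.1.2, z.2) := hf.comp (by fun_prop)
  exact Measurable.mul (by fun_prop) h1

theorem G_meas_2 (f : ℝ × ℝ → ℂ) (hf : Measurable f) (a b : ℝ) :
    Measurable fun z : (ℝ × ℝ) × ℝ => G f a b z.1.1 z.2 z.1.2 := by
  unfold G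
  have h1 : Measurable fun z : (ℝ × ℝ) × ℝ => f (z.2, z.1.2) := hf.comp (by fun_prop)
  exact Measurable.mul (by fun_prop) h1

/-- general two-dimensional `L²` bound -/
theorem lemC (Φ : ℝ → ℝ → ℂ) (hΦ : Measurable (Function.uncurry Φ)) (B : ℝ)
    (hB : ∀ u y, ‖Φ u y‖ ≤ B) (A : ℝ≥0∞) (hA : ∀ y, ∫⁻ u, ‖Φ u y‖ₑ ^ (2 : ℕ) ≤ A) :
    ∫⁻ b : ℝ, ∫⁻ u : ℝ, ‖∫ y in Ioo (-1 : ℝ) 1, cexp (-((b * y : ℝ) : ℂ) * I) * Φ u y‖ₑ ^ (2 : ℕ) ≤
      ENNReal.ofReal (2 * Real.pi) * (2 * A) := by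
  have hm1 : StronglyMeasurable (Function.uncurry fun (q : ℝ × ℝ) (y : ℝ) =>
      cexp (-((q.1 * y : ℝ) : ℂ) * I) * Φ q.2 y) := by
    apply Measurable.stronglyMeasurable
    have h1 : Measurable fun z : (ℝ × ℝ) × ℝ => Function.uncurry Φ (z.1.2, z.2) :=
      hΦ.comp (by fun_prop)
    exact Measurable.mul (by fun_prop) h1
  have hm2 : Measurable fun q : ℝ × ℝ =>
      ∫ y in Ioo (-1 : ℝ) 1, cexp (-((q.1 * y : ℝ) : ℂ) * I) * Φ q.2 y :=
    (hm1.integral_prod_right (ν := volume.restrict (Ioo (-1 : ℝ) 1))).measurable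
  rw [lintegral_lintegral_swap (hm2.enorm.pow_const 2).aemeasurable]
  have h1 : ∀ u, ∫⁻ b : ℝ, ‖∫ y in Ioo (-1 : ℝ) 1, cexp (-((b * y : ℝ) : ℂ) * I) * Φ u y‖ₑ ^ (2 : ℕ)
      ≤ ENNReal.ofReal (2 * Real.pi) * ∫⁻ y in Ioo (-1 : ℝ) 1, ‖Φ u y‖ₑ ^ (2 : ℕ) := by
    intro u
    have hu : Measurable (Φ u) := hΦ.comp (by fun_prop : Measurable fun y : ℝ => (u, y))
    have := Pool.Agent.H789R2.FR.pl_phase (Ioo (-1 : ℝ) 1) measurableSet_Ioo (by simp)
      (fun y => y) (fun _ => 1) measurable_id measurable_const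
      (fun c _ => hasDerivWithinAt_id c _) (fun _ _ => one_ne_zero) (fun x _ y _ h => h)
      (Φ u) hu ⟨B, hB u⟩
    simpa [ENNReal.ofReal_pow, ofReal_norm] using this
  have h2 : Measurable fun q : ℝ × ℝ => ‖Φ q.1 q.2‖ₑ ^ (2 : ℕ) := hΦ.enorm.pow_const 2
  calc ∫⁻ u : ℝ, ∫⁻ b : ℝ, ‖∫ y in Ioo (-1 : ℝ) 1, cexp (-((b * y : ℝ) : ℂ) * I) * Φ u y‖ₑ ^ (2 : ℕ)
      ≤ ∫⁻ u : ℝ, ENNReal.ofReal (2 * Real.pi) * ∫⁻ y in Ioo (-1 : ℝ) 1, ‖Φ u y‖ₑ ^ (2 : ℕ) :=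
        lintegral_mono h1
    _ = ENNReal.ofReal (2 * Real.pi) * ∫⁻ u : ℝ, ∫⁻ y in Ioo (-1 : ℝ) 1, ‖Φ u y‖ₑ ^ (2 : ℕ) := by
        rw [lintegral_const_mul' _ _ ENNReal.ofReal_ne_top]
    _ = ENNReal.ofReal (2 * Real.pi) * ∫⁻ y in Ioo (-1 : ℝ) 1, ∫⁻ u : ℝ, ‖Φ u y‖ₑ ^ (2 : ℕ) := by
        rw [lintegral_lintegral_swap]
        exact h2.aemeasurable
    _ ≤ ENNReal.ofReal (2 * Real.pi) * ∫⁻ _ in Ioo (-1 : ℝ) 1, A := by
        gcongr with y
        exact hA y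
    _ = ENNReal.ofReal (2 * Real.pi) * (2 * A) := by
        rw [lintegral_const, Measure.restrict_apply_univ, Real.volume_Ioo]
        norm_num
        rw [mul_comm A 2]

/-- interpolation between `L²` and `L^∞` -/
theorem lemD (F : ℝ → ℝ → ℂ) (S : ℝ) (hS0 : 0 ≤ S) (hS : ∀ b u, ‖F b u‖ ≤ S) (A : ℝ≥0∞)
    (hA : ∫⁻ b, ∫⁻ u, ‖F b u‖ₑ ^ (2 : ℕ) ≤ A) (r : ℝ) (hr : 2 ≤ r) :
    ∫⁻ b, ∫⁻ u, ‖F b u‖ₑ ^ r ≤ ENNReal.ofReal (S ^ (r - 2)) * A := by
  have h1 : ∀ b u, ‖F b u‖ₑ ^ r ≤ ENNReal.ofReal (S ^ (r - 2)) * ‖F b u‖ₑ ^ (2 : ℕ) := by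
    intro b u
    have e1 : ‖F b u‖ₑ ^ r = ‖F b u‖ₑ ^ (r - 2) * ‖F b u‖ₑ ^ (2 : ℕ) := by
      rw [← ENNReal.rpow_natCast, ← ENNReal.rpow_add_of_nonneg _ _ (by linarith) (by norm_num)]
      congr 1
      push_cast
      ring
    rw [e1]
    gcongr
    rw [← ENNReal.ofReal_rpow_of_nonneg hS0 (by linarith)]
    refine ENNReal.rpow_le_rpow ?_ (by linarith)
    rw [← ofReal_norm]
    exact ENNReal.ofReal_le_ofReal (hS b u)
  calc ∫⁻ b, ∫⁻ u, ‖F b u‖ₑ ^ r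
      ≤ ∫⁻ b, ∫⁻ u, ENNReal.ofReal (S ^ (r - 2)) * ‖F b u‖ₑ ^ (2 : ℕ) :=
        lintegral_mono fun b => lintegral_mono fun u => h1 b u
    _ = ENNReal.ofReal (S ^ (r - 2)) * ∫⁻ b, ∫⁻ u, ‖F b u‖ₑ ^ (2 : ℕ) := by
        simp_rw [lintegral_const_mul' _ _ ENNReal.ofReal_ne_top]
    _ ≤ _ := by gcongr

/-- product form of the integral -/
theorem ex_eq (f : ℝ × ℝ → ℂ) (hf : Measurable f) (M : ℝ) (hM : ∀ z, ‖f z‖ ≤ M)
    (hs : ∀ x : ℝ × ℝ, 1 ≤ x.1 ^ 2 + x.2 ^ 2 → f x = 0) (a b t : ℝ) :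
    ex f a b t = ∫ x in Ioo (-1 : ℝ) 1, ∫ y in Ioo (-1 : ℝ) 1, G f a b t x y := by
  unfold ex
  have h0 : ∀ z : ℝ × ℝ, z ∉ Ioo (-1 : ℝ) 1 ×ˢ Ioo (-1 : ℝ) 1 →
      cexp (-(I * ((z.1 * a + z.2 * b + (z.1 ^ 2 + z.2 ^ 2) * t : ℝ) : ℂ))) * f z = 0 := by
    intro z hz
    rw [hs z, mul_zero]
    by_contra hcon
    push Not at hcon
    apply hz
    have h1 : z.1 ^ 2 < 1 := by nlinarith [sq_nonneg z.2]
    have h2 : z.2 ^ 2 < 1 := by nlinarith [sq_nonneg z.1]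
    exact ⟨abs_lt.1 (by nlinarith [abs_nonneg z.1, sq_abs z.1]),
      abs_lt.1 (by nlinarith [abs_nonneg z.2, sq_abs z.2])⟩
  rw [← setIntegral_eq_integral_of_forall_compl_eq_zero h0]
  have hv : (volume : Measure (ℝ × ℝ)) = (volume : Measure ℝ).prod volume := rfl
  rw [hv, setIntegral_prod]
  · rfl
  · refine Measure.integrableOn_of_bounded (M := M) ?_ ?_ ?_
    · rw [Measure.prod_prod, Real.volume_Ioo]
      exact ENNReal.mul_ne_top ENNReal.ofReal_ne_top ENNReal.ofReal_ne_top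
    · apply Measurable.aestronglyMeasurable
      exact Measurable.mul (by fun_prop) hf
    · refine Filter.Eventually.of_forall fun z => ?_
      rw [norm_mul, ph_norm, one_mul]
      exact hM z

theorem fac_b (f : ℝ × ℝ → ℂ) (a b t x y : ℝ) :
    G f a b t x y = cexp (-((b * y : ℝ) : ℂ) * I) * G f a 0 t x y := by
  unfold G
  rw [← mul_assoc, ← Complex.exp_add]
  congr 2
  push_cast
  ring

theorem fac_a (f : ℝ × ℝ → ℂ) (a b t x y : ℝ) :
    G f a b t x y = cexp (-((a * x : ℝ) : ℂ) * I) * G f 0 b t x y := by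
  unfold G
  rw [← mul_assoc, ← Complex.exp_add]
  congr 2
  push_cast
  ring

theorem ex_t (r : ℝ) (hr : 2 ≤ r) : ∃ C : ℝ≥0, ∀ f : ℝ × ℝ → ℂ, Measurable f →
      ∀ M : ℝ, (∀ z, ‖f z‖ ≤ M) → (∀ x : ℝ × ℝ, 1 ≤ x.1 ^ 2 + x.2 ^ 2 → f x = 0) →
      ∀ t : ℝ, ∫⁻ a : ℝ, ∫⁻ b : ℝ, ‖ex f a b t‖ₑ ^ r ≤ C * ENNReal.ofReal M ^ r := by
  refine ⟨Real.toNNReal (4 ^ (r - 2) * (16 * Real.pi ^ 2)), ?_⟩
  intro f hf M hM hs t
  have hM0 : 0 ≤ M := (norm_nonneg _).trans (hM 0)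
  set Φ : ℝ → ℝ → ℂ := fun b x => ∫ y in Ioo (-1 : ℝ) 1, G f 0 b t x y with hΦ
  have hm1 : StronglyMeasurable (Function.uncurry fun (q : ℝ × ℝ) (y : ℝ) =>
      G f 0 q.1 t q.2 y) := by
    exact (G_meas_1 f hf 0 t).stronglyMeasurable
  have hΦm : Measurable (Function.uncurry Φ) :=
    (hm1.integral_prod_right (ν := volume.restrict (Ioo (-1 : ℝ) 1))).measurable
  have hvol : (volume (Ioo (-1 : ℝ) 1)) < ∞ := by simp
  have hΦb : ∀ u x, ‖Φ u x‖ ≤ M * 2 := by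
    intro u x
    refine (norm_setIntegral_le_of_norm_le_const (C := M) hvol
      (fun y _ => by rw [G_norm]; exact hM _)).trans (le_of_eq ?_)
    rw [Measure.real, Real.volume_Ioo, ENNReal.toReal_ofReal (by norm_num)]
    ring
  have hex : ∀ a b, ex f a b t = ∫ x in Ioo (-1 : ℝ) 1, cexp (-((a * x : ℝ) : ℂ) * I) * Φ b x := by
    intro a b
    rw [ex_eq f hf M hM hs]
    refine setIntegral_congr_fun measurableSet_Ioo fun x _ => ?_
    simp only [hΦ]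
    rw [← integral_const_mul]
    refine setIntegral_congr_fun measurableSet_Ioo fun y _ => ?_
    exact fac_a f a b t x y
  have hA : ∀ x, ∫⁻ b, ‖Φ b x‖ₑ ^ (2 : ℕ) ≤ ENNReal.ofReal (4 * Real.pi * M ^ 2) := by
    intro x
    have h := Pool.Agent.H789R2.FR.pl_phase (Ioo (-1 : ℝ) 1) measurableSet_Ioo (by simp)
      (fun y => y) (fun _ => 1) measurable_id measurable_const
      (fun c _ => hasDerivWithinAt_id c _) (fun _ _ => one_ne_zero) (fun x _ y _ h => h)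
      (fun y => G f 0 0 t x y)
      (G_meas_y f hf 0 0 t x)
      ⟨M, fun y => by rw [G_norm]; exact hM _⟩
    have e1 : ∀ b, ‖Φ b x‖ₑ ^ (2 : ℕ) = ENNReal.ofReal
        (‖∫ c in Ioo (-1 : ℝ) 1, cexp (-((b * c : ℝ) : ℂ) * I) * G f 0 0 t x c‖ ^ 2) := by
      intro b
      rw [ENNReal.ofReal_pow (norm_nonneg _), ofReal_norm]
      congr 2
      simp only [hΦ]
      refine setIntegral_congr_fun measurableSet_Ioo fun y _ => ?_
      exact fac_b f 0 b t x y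
    simp_rw [e1]
    refine h.trans ?_
    calc ENNReal.ofReal (2 * Real.pi) * ∫⁻ c in Ioo (-1 : ℝ) 1,
          ENNReal.ofReal (‖G f 0 0 t x c‖ ^ 2 / |(1 : ℝ)|)
        ≤ ENNReal.ofReal (2 * Real.pi) * ∫⁻ c in Ioo (-1 : ℝ) 1, ENNReal.ofReal (M ^ 2) := by
          gcongr with c
          rw [abs_one, div_one, G_norm]
          gcongr
          exact hM _
      _ = ENNReal.ofReal (4 * Real.pi * M ^ 2) := by
          rw [lintegral_const, Measure.restrict_apply_univ, Real.volume_Ioo,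
            ← ENNReal.ofReal_mul (by positivity), ← ENNReal.ofReal_mul (by positivity)]
          congr 1
          ring
  have hC := lemC Φ hΦm (M * 2) hΦb _ hA
  have hsup : ∀ a b, ‖ex f a b t‖ ≤ 4 * M := by
    intro a b
    rw [hex]
    refine (norm_setIntegral_le_of_norm_le_const (C := M * 2) hvol
      (fun x _ => ?_)).trans (le_of_eq ?_)
    · rw [norm_mul]
      have : ‖cexp (-((a * x : ℝ) : ℂ) * I)‖ = 1 := by
        rw [Complex.norm_exp]; simp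
      rw [this, one_mul]
      exact hΦb b x
    · rw [Measure.real, Real.volume_Ioo, ENNReal.toReal_ofReal (by norm_num)]
      ring
  have hD := lemD (fun a b => ex f a b t) (4 * M) (by positivity) hsup _
    (by simp_rw [hex]; exact hC) r hr
  refine hD.trans (le_of_eq ?_)
  rw [show (2 : ℝ≥0∞) = ENNReal.ofReal 2 by simp, ← ENNReal.ofReal_mul (by norm_num),
    ← ENNReal.ofReal_mul (by positivity), ← ENNReal.ofReal_mul (by positivity),
    ENNReal.ofReal_rpow_of_nonneg hM0 (by linarith),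
    show ((Real.toNNReal (4 ^ (r - 2) * (16 * Real.pi ^ 2)) : ℝ≥0) : ℝ≥0∞) =
      ENNReal.ofReal (4 ^ (r - 2) * (16 * Real.pi ^ 2)) from rfl,
    ← ENNReal.ofReal_mul (by positivity), Real.mul_rpow (by norm_num) hM0]
  congr 1
  have h3 : M ^ r = M ^ (r - 2) * M ^ 2 := by
    rw [← Real.rpow_natCast, ← Real.rpow_add_of_nonneg hM0 (by linarith) (by norm_num)]
    congr 1
    push_cast
    ring
  rw [h3]
  ring


/-! ### one horizontal coordinate frozen -/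

theorem fac_t (f : ℝ × ℝ → ℂ) (a b t x y : ℝ) :
    G f a b t x y = cexp (-((t * (x ^ 2 + y ^ 2) : ℝ) : ℂ) * I) * G f a b 0 x y := by
  unfold G
  rw [← mul_assoc, ← Complex.exp_add]
  congr 2
  push_cast
  ring

theorem lemA (f : ℝ × ℝ → ℂ) (hf : Measurable f) (M : ℝ) (hM : ∀ z, ‖f z‖ ≤ M)
    (S : Set ℝ) (hS : MeasurableSet S) (δ : ℝ) (hδ : 0 < δ) (hx : ∀ x ∈ S, δ ≤ 2 * |x|)
    (hv : volume S ≤ ENNReal.ofReal (δ / 2)) (hinj : InjOn (fun x : ℝ => x ^ 2) S) (a y : ℝ) :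
    ∫⁻ t, ENNReal.ofReal (‖∫ x in S, G f a 0 t x y‖ ^ 2) ≤ ENNReal.ofReal (Real.pi * M ^ 2) := by
  have hM0 : 0 ≤ M := (norm_nonneg _).trans (hM 0)
  have h := Pool.Agent.H789R2.FR.pl_phase S hS (hv.trans_lt ENNReal.ofReal_lt_top)
    (fun x => x ^ 2 + y ^ 2) (fun x => 2 * x) (by fun_prop) (by fun_prop)
    (fun c _ => by
      have h1 := ((hasDerivAt_pow 2 c).add_const (y ^ 2)).hasDerivWithinAt (s := S)
      simpa using h1)
    (fun c hc => by
      have h1 := hx c hc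
      intro h2
      have h3 : c = 0 := by linarith
      rw [h3, abs_zero] at h1
      linarith)
    (fun u hu v hv' huv => hinj hu hv' (by simpa using huv))
    (fun x => G f a 0 0 x y) (G_meas_x f hf a 0 0 y) ⟨M, fun x => by rw [G_norm]; exact hM _⟩
  have e1 : ∀ t, ∫ x in S, G f a 0 t x y =
      ∫ c in S, cexp (-((t * (c ^ 2 + y ^ 2) : ℝ) : ℂ) * I) * G f a 0 0 c y := by
    intro t
    refine setIntegral_congr_fun hS fun x _ => ?_
    exact fac_t f a 0 t x y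
  simp_rw [e1]
  refine h.trans ?_
  calc ENNReal.ofReal (2 * Real.pi) * ∫⁻ c in S, ENNReal.ofReal (‖G f a 0 0 c y‖ ^ 2 / |2 * c|)
      ≤ ENNReal.ofReal (2 * Real.pi) * ∫⁻ c in S, ENNReal.ofReal (M ^ 2 / δ) := by
        gcongr 1
        refine setLIntegral_mono' hS fun c hc => ENNReal.ofReal_le_ofReal ?_
        rw [G_norm]
        have h1 := hx c hc
        have h2 : δ ≤ |2 * c| := by rw [abs_mul]; simpa using h1
        exact div_le_div₀ (by positivity) (pow_le_pow_left₀ (norm_nonneg _) (hM _) 2) hδ h2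
    _ = ENNReal.ofReal (2 * Real.pi) * (ENNReal.ofReal (M ^ 2 / δ) * volume S) := by
        rw [lintegral_const, Measure.restrict_apply_univ]
    _ ≤ ENNReal.ofReal (2 * Real.pi) *
        (ENNReal.ofReal (M ^ 2 / δ) * ENNReal.ofReal (δ / 2)) := by gcongr
    _ = ENNReal.ofReal (Real.pi * M ^ 2) := by
        rw [← ENNReal.ofReal_mul (by positivity), ← ENNReal.ofReal_mul (by positivity)]
        congr 1
        field_simp

/-- positive half of a dyadic shell -/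
def P (k : ℕ) : Set ℝ := Ioc ((1 / 2 : ℝ) ^ (k + 1)) ((1 / 2 : ℝ) ^ k)

/-- negative half of a dyadic shell -/
def N (k : ℕ) : Set ℝ := Ico (-((1 / 2 : ℝ) ^ k)) (-((1 / 2 : ℝ) ^ (k + 1)))

/-- dyadic shell -/
def D (k : ℕ) : Set ℝ := P k ∪ N k

theorem P_meas (k : ℕ) : MeasurableSet (P k) := measurableSet_Ioc
theorem N_meas (k : ℕ) : MeasurableSet (N k) := measurableSet_Ico
theorem D_meas (k : ℕ) : MeasurableSet (D k) := (P_meas k).union (N_meas k)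

theorem P_vol (k : ℕ) : volume (P k) = ENNReal.ofReal ((1 / 2 : ℝ) ^ k / 2) := by
  rw [P, Real.volume_Ioc]
  congr 1
  rw [pow_succ]
  ring

theorem N_vol (k : ℕ) : volume (N k) = ENNReal.ofReal ((1 / 2 : ℝ) ^ k / 2) := by
  rw [N, Real.volume_Ico]
  congr 1
  rw [pow_succ]
  ring

theorem PN_disj (k : ℕ) : Disjoint (P k) (N k) := by
  rw [Set.disjoint_left]
  intro x h1 h2
  have h3 := h1.1
  have h4 := h2.2
  have h5 : (0 : ℝ) < (1 / 2) ^ (k + 1) := by positivity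
  linarith

theorem mem_D (k : ℕ) (x : ℝ) : x ∈ D k ↔ (1 / 2 : ℝ) ^ (k + 1) < |x| ∧ |x| ≤ (1 / 2 : ℝ) ^ k := by
  have h5 : (0 : ℝ) < (1 / 2) ^ (k + 1) := by positivity
  have h6 : (0 : ℝ) < (1 / 2) ^ k := by positivity
  constructor
  · rintro (h | h)
    · rw [abs_of_pos (h5.trans h.1)]
      exact h
    · have h7 : x < 0 := by linarith [h.2]
      rw [abs_of_neg h7]
      exact ⟨by linarith [h.2], by linarith [h.1]⟩
  · rintro ⟨h1, h2⟩
    rcases le_or_gt 0 x with h | h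
    · rw [abs_of_nonneg h] at h1 h2
      exact Or.inl ⟨h1, h2⟩
    · rw [abs_of_neg h] at h1 h2
      exact Or.inr ⟨by linarith, by linarith⟩

theorem D_disj : Pairwise (Function.onFun Disjoint D) := by
  have h1 : ∀ i j : ℕ, i < j → Disjoint (D i) (D j) := by
    intro i j hij
    rw [Set.disjoint_left]
    intro d hd hd'
    rw [mem_D] at hd hd'
    have h2 : (1 / 2 : ℝ) ^ j ≤ (1 / 2) ^ (i + 1) :=
      pow_le_pow_of_le_one (by norm_num) (by norm_num) hij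
    linarith [hd.1, hd'.2]
  intro i j hij
  rcases lt_or_gt_of_ne hij with h | h
  · exact h1 i j h
  · exact (h1 j i h).symm

theorem D_cover (x : ℝ) (h0 : x ≠ 0) (h1 : |x| ≤ 1) : ∃ k, x ∈ D k := by
  have h3 : ∃ k : ℕ, (1 / 2 : ℝ) ^ (k + 1) < |x| := by
    obtain ⟨k, hk⟩ := exists_pow_lt_of_lt_one (abs_pos.2 h0) (by norm_num : (1 / 2 : ℝ) < 1)
    refine ⟨k, lt_of_le_of_lt ?_ hk⟩
    exact pow_le_pow_of_le_one (by norm_num) (by norm_num) (Nat.le_succ k)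
  classical
  refine ⟨Nat.find h3, (mem_D _ _).2 ⟨Nat.find_spec h3, ?_⟩⟩
  rcases Nat.eq_zero_or_pos (Nat.find h3) with h4 | h4
  · rw [h4]
    simpa using h1
  · obtain ⟨m, hm⟩ : ∃ m, Nat.find h3 = m + 1 := ⟨Nat.find h3 - 1, by omega⟩
    have h5 : ¬ (1 / 2 : ℝ) ^ (m + 1) < |x| := Nat.find_min h3 (by omega)
    rw [hm]
    push Not at h5
    exact h5

theorem D_sub (k : ℕ) : D k ⊆ Icc (-1 : ℝ) 1 := by
  intro x hx
  rw [mem_D] at hx
  have h4 : (1 / 2 : ℝ) ^ k ≤ 1 := pow_le_one₀ (by norm_num) (by norm_num)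
  exact abs_le.1 (hx.2.trans h4)

theorem sq_inj_P (k : ℕ) : InjOn (fun x : ℝ => x ^ 2) (P k) := by
  intro x hx y hy hxy
  have h5 : (0 : ℝ) < (1 / 2) ^ (k + 1) := by positivity
  have hx0 : 0 < x := h5.trans hx.1
  have hy0 : 0 < y := h5.trans hy.1
  exact (pow_left_inj₀ hx0.le hy0.le two_ne_zero).1 hxy

theorem sq_inj_N (k : ℕ) : InjOn (fun x : ℝ => x ^ 2) (N k) := by
  intro x hx y hy hxy
  have h5 : (0 : ℝ) < (1 / 2) ^ (k + 1) := by positivity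
  have hx0 : 0 < -x := by linarith [hx.2]
  have hy0 : 0 < -y := by linarith [hy.2]
  have h6 := (pow_left_inj₀ hx0.le hy0.le two_ne_zero).1 (by simpa using hxy)
  linarith

/-- inner integral -/
noncomputable def Ph (f : ℝ × ℝ → ℂ) (a : ℝ) (k : ℕ) (t y : ℝ) : ℂ := ∫ x in D k, G f a 0 t x y

/-- dyadic piece of the extension operator -/
noncomputable def K (f : ℝ × ℝ → ℂ) (a : ℝ) (k : ℕ) (b t : ℝ) : ℂ :=
  ∫ y in Ioo (-1 : ℝ) 1, cexp (-((b * y : ℝ) : ℂ) * I) * Ph f a k t y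

theorem int_on (f : ℝ × ℝ → ℂ) (hf : Measurable f) (M : ℝ) (hM : ∀ z, ‖f z‖ ≤ M) (a b t y : ℝ)
    (S : Set ℝ) (hv : volume S ≠ ∞) : IntegrableOn (fun x => G f a b t x y) S := by
  refine Measure.integrableOn_of_bounded (M := M) hv (G_meas_x f hf a b t y).aestronglyMeasurable
    (Filter.Eventually.of_forall fun x => ?_)
  rw [G_norm]; exact hM _

theorem Ph_split (f : ℝ × ℝ → ℂ) (hf : Measurable f) (M : ℝ) (hM : ∀ z, ‖f z‖ ≤ M) (a : ℝ) (k : ℕ)
    (t y : ℝ) : Ph f a k t y = (∫ x in P k, G f a 0 t x y) + ∫ x in N k, G f a 0 t x y := by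
  unfold Ph D
  refine setIntegral_union (PN_disj k) (N_meas k) ?_ ?_
  · exact int_on f hf M hM a 0 t y _ (by rw [P_vol]; exact ENNReal.ofReal_ne_top)
  · exact int_on f hf M hM a 0 t y _ (by rw [N_vol]; exact ENNReal.ofReal_ne_top)

theorem Ph_bound (f : ℝ × ℝ → ℂ) (hf : Measurable f) (M : ℝ) (hM : ∀ z, ‖f z‖ ≤ M) (a : ℝ) (k : ℕ)
    (t y : ℝ) : ‖Ph f a k t y‖ ≤ M * (1 / 2) ^ k := by
  have hk : (0 : ℝ) < (1 / 2) ^ k := by positivity
  rw [Ph_split f hf M hM]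
  have h1 : ‖∫ x in P k, G f a 0 t x y‖ ≤ M * ((1 / 2) ^ k / 2) := by
    refine (norm_setIntegral_le_of_norm_le_const (C := M) (by
      rw [P_vol]; exact ENNReal.ofReal_lt_top) (fun x _ => by rw [G_norm]; exact hM _)).trans ?_
    rw [Measure.real, P_vol, ENNReal.toReal_ofReal (by positivity)]
  have h2 : ‖∫ x in N k, G f a 0 t x y‖ ≤ M * ((1 / 2) ^ k / 2) := by
    refine (norm_setIntegral_le_of_norm_le_const (C := M) (by
      rw [N_vol]; exact ENNReal.ofReal_lt_top) (fun x _ => by rw [G_norm]; exact hM _)).trans ?_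
    rw [Measure.real, N_vol, ENNReal.toReal_ofReal (by positivity)]
  calc _ ≤ _ := norm_add_le _ _
    _ ≤ M * ((1 / 2) ^ k / 2) + M * ((1 / 2) ^ k / 2) := add_le_add h1 h2
    _ = _ := by ring

theorem int_meas (f : ℝ × ℝ → ℂ) (hf : Measurable f) (a : ℝ) (S : Set ℝ) :
    Measurable fun q : ℝ × ℝ => ∫ x in S, G f a 0 q.1 x q.2 :=
  ((G_meas_2 f hf a 0).stronglyMeasurable.integral_prod_right
    (f := fun (q : ℝ × ℝ) (x : ℝ) => G f a 0 q.1 x q.2) (ν := volume.restrict S)).measurable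

theorem Ph_meas (f : ℝ × ℝ → ℂ) (hf : Measurable f) (a : ℝ) (k : ℕ) :
    Measurable (Function.uncurry (Ph f a k)) := int_meas f hf a (D k)

theorem Ph_l2 (f : ℝ × ℝ → ℂ) (hf : Measurable f) (M : ℝ) (hM : ∀ z, ‖f z‖ ≤ M) (a : ℝ) (k : ℕ)
    (y : ℝ) : ∫⁻ t, ‖Ph f a k t y‖ₑ ^ (2 : ℕ) ≤ ENNReal.ofReal (4 * Real.pi * M ^ 2) := by
  have hM0 : 0 ≤ M := (norm_nonneg _).trans (hM 0)
  have hk : (0 : ℝ) < (1 / 2) ^ k := by positivity
  have h1 : ∀ t, ‖Ph f a k t y‖ₑ ^ (2 : ℕ) ≤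
      2 * (ENNReal.ofReal (‖∫ x in P k, G f a 0 t x y‖ ^ 2) +
        ENNReal.ofReal (‖∫ x in N k, G f a 0 t x y‖ ^ 2)) := by
    intro t
    rw [Ph_split f hf M hM, ← ofReal_norm, ← ENNReal.ofReal_pow (norm_nonneg _),
      ← ENNReal.ofReal_add (by positivity) (by positivity),
      show (2 : ℝ≥0∞) = ENNReal.ofReal 2 by simp, ← ENNReal.ofReal_mul (by norm_num)]
    refine ENNReal.ofReal_le_ofReal ?_
    have h2 := norm_add_le (∫ x in P k, G f a 0 t x y) (∫ x in N k, G f a 0 t x y)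
    have h3 := pow_le_pow_left₀ (norm_nonneg _) h2 2
    nlinarith [sq_nonneg (‖∫ x in P k, G f a 0 t x y‖ - ‖∫ x in N k, G f a 0 t x y‖)]
  have hm : Measurable fun t : ℝ => ENNReal.ofReal (‖∫ x in P k, G f a 0 t x y‖ ^ 2) := by
    have h2 : Measurable fun t : ℝ => ∫ x in P k, G f a 0 t x y :=
      Measurable.comp (g := fun q : ℝ × ℝ => ∫ x in P k, G f a 0 q.1 x q.2)
        (f := fun t : ℝ => (t, y)) (int_meas f hf a (P k)) (by fun_prop)
    exact (h2.norm.pow_const 2).ennreal_ofReal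
  calc ∫⁻ t, ‖Ph f a k t y‖ₑ ^ (2 : ℕ)
      ≤ ∫⁻ t, 2 * (ENNReal.ofReal (‖∫ x in P k, G f a 0 t x y‖ ^ 2) +
        ENNReal.ofReal (‖∫ x in N k, G f a 0 t x y‖ ^ 2)) := lintegral_mono h1
    _ = 2 * ((∫⁻ t, ENNReal.ofReal (‖∫ x in P k, G f a 0 t x y‖ ^ 2)) +
        ∫⁻ t, ENNReal.ofReal (‖∫ x in N k, G f a 0 t x y‖ ^ 2)) := by
        rw [lintegral_const_mul' _ _ (by simp), lintegral_add_left hm]
    _ ≤ 2 * (ENNReal.ofReal (Real.pi * M ^ 2) + ENNReal.ofReal (Real.pi * M ^ 2)) := by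
        gcongr
        · refine lemA f hf M hM (P k) (P_meas k) ((1 / 2) ^ k) hk (fun x hx => ?_)
            (P_vol k).le (sq_inj_P k) a y
          have h5 := ((mem_D k x).1 (Or.inl hx)).1
          rw [pow_succ] at h5
          linarith
        · refine lemA f hf M hM (N k) (N_meas k) ((1 / 2) ^ k) hk (fun x hx => ?_)
            (N_vol k).le (sq_inj_N k) a y
          have h5 := ((mem_D k x).1 (Or.inr hx)).1
          rw [pow_succ] at h5
          linarith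
    _ = _ := by
        rw [show (2 : ℝ≥0∞) = ENNReal.ofReal 2 by simp,
          ← ENNReal.ofReal_add (by positivity) (by positivity), ← ENNReal.ofReal_mul (by norm_num)]
        congr 1
        ring

theorem K_bound (f : ℝ × ℝ → ℂ) (hf : Measurable f) (M : ℝ) (hM : ∀ z, ‖f z‖ ≤ M) (a : ℝ) (k : ℕ)
    (b t : ℝ) : ‖K f a k b t‖ ≤ 2 * M * (1 / 2) ^ k := by
  unfold K
  refine (norm_setIntegral_le_of_norm_le_const (C := M * (1 / 2) ^ k) (by simp)
    (fun y _ => ?_)).trans (le_of_eq ?_)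
  · rw [norm_mul]
    have : ‖cexp (-((b * y : ℝ) : ℂ) * I)‖ = 1 := by
      rw [Complex.norm_exp]; simp
    rw [this, one_mul]
    exact Ph_bound f hf M hM a k t y
  · rw [Measure.real, Real.volume_Ioo, ENNReal.toReal_ofReal (by norm_num)]
    ring

theorem K_meas (f : ℝ × ℝ → ℂ) (hf : Measurable f) (a : ℝ) (k : ℕ) :
    Measurable fun q : ℝ × ℝ => K f a k q.1 q.2 := by
  have hm1 : Measurable (Function.uncurry fun (q : ℝ × ℝ) (y : ℝ) =>
      cexp (-((q.1 * y : ℝ) : ℂ) * I) * Ph f a k q.2 y) := by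
    have h1 : Measurable fun z : (ℝ × ℝ) × ℝ => Ph f a k z.1.2 z.2 :=
      Measurable.comp (g := Function.uncurry (Ph f a k))
        (f := fun z : (ℝ × ℝ) × ℝ => (z.1.2, z.2)) (Ph_meas f hf a k) (by fun_prop)
    exact Measurable.mul (by fun_prop) h1
  exact (hm1.stronglyMeasurable.integral_prod_right (ν := volume.restrict (Ioo (-1 : ℝ) 1))).measurable

theorem K_l2 (f : ℝ × ℝ → ℂ) (hf : Measurable f) (M : ℝ) (hM : ∀ z, ‖f z‖ ≤ M) (a : ℝ) (k : ℕ) :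
    ∫⁻ b, ∫⁻ t, ‖K f a k b t‖ₑ ^ (2 : ℕ) ≤ ENNReal.ofReal (16 * Real.pi ^ 2 * M ^ 2) := by
  have hM0 : 0 ≤ M := (norm_nonneg _).trans (hM 0)
  refine (lemC (Ph f a k) (Ph_meas f hf a k) _ (Ph_bound f hf M hM a k) _
    (Ph_l2 f hf M hM a k)).trans (le_of_eq ?_)
  rw [show (2 : ℝ≥0∞) = ENNReal.ofReal 2 by simp, ← ENNReal.ofReal_mul (by norm_num),
    ← ENNReal.ofReal_mul (by positivity)]
  congr 1
  ring

theorem K_hasSum (f : ℝ × ℝ → ℂ) (hf : Measurable f) (M : ℝ) (hM : ∀ z, ‖f z‖ ≤ M)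
    (hs : ∀ x : ℝ × ℝ, 1 ≤ x.1 ^ 2 + x.2 ^ 2 → f x = 0) (a b t : ℝ) :
    HasSum (fun k => K f a k b t) (ex f a b t) := by
  have hM0 : 0 ≤ M := (norm_nonneg _).trans (hM 0)
  set h : ℝ → ℂ := fun x => ∫ y in Ioo (-1 : ℝ) 1, G f a b t x y with hh
  have hz : ∀ x, 1 ≤ |x| → h x = 0 := by
    intro x hx
    simp only [hh]
    rw [← integral_zero ℝ ℂ (μ := volume.restrict (Ioo (-1 : ℝ) 1))]
    refine integral_congr_ae (Filter.Eventually.of_forall fun y => ?_)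
    unfold G
    simp only
    rw [hs (x, y), mul_zero]
    have h1 : 1 ≤ x ^ 2 := by rw [← sq_abs]; nlinarith
    simp only
    nlinarith [sq_nonneg y]
  have hm : Measurable h := by
    have h1 : StronglyMeasurable (Function.uncurry fun (x y : ℝ) => G f a b t x y) := by
      apply Measurable.stronglyMeasurable
      unfold G
      exact Measurable.mul (by fun_prop) hf
    exact (h1.integral_prod_right (ν := volume.restrict (Ioo (-1 : ℝ) 1))).measurable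
  have hb : ∀ x, ‖h x‖ ≤ M * 2 := by
    intro x
    refine (norm_setIntegral_le_of_norm_le_const (C := M) (by simp)
      (fun y _ => by rw [G_norm]; exact hM _)).trans (le_of_eq ?_)
    rw [Measure.real, Real.volume_Ioo, ENNReal.toReal_ofReal (by norm_num)]
    ring
  have hsub : (⋃ k, D k) ⊆ Icc (-1 : ℝ) 1 := iUnion_subset D_sub
  have hint : IntegrableOn h (⋃ k, D k) := by
    refine Measure.integrableOn_of_bounded (M := M * 2) ?_ hm.aestronglyMeasurable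
      (Filter.Eventually.of_forall hb)
    refine ne_top_of_le_ne_top ?_ (measure_mono hsub)
    simp
  have h1 := hasSum_integral_iUnion (μ := volume) (f := h) (s := D) D_meas D_disj hint
  have h2 : ∫ x in ⋃ k, D k, h x = ex f a b t := by
    rw [ex_eq f hf M hM hs]
    have e1 : ∫ x in ⋃ k, D k, h x = ∫ x, h x := by
      refine setIntegral_eq_integral_of_ae_compl_eq_zero ?_
      have h0 : ∀ᵐ x : ℝ, x ≠ 0 := by
        rw [ae_iff]
        simp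
      filter_upwards [h0] with x hx hxD
      apply hz
      by_contra hcon
      push Not at hcon
      obtain ⟨k, hk⟩ := D_cover x hx hcon.le
      exact hxD (mem_iUnion.2 ⟨k, hk⟩)
    rw [e1]
    refine (setIntegral_eq_integral_of_forall_compl_eq_zero (fun x hx => hz x ?_)).symm
    by_contra hcon
    push Not at hcon
    exact hx (abs_lt.1 hcon)
  rw [h2] at h1
  have h3 : (fun k => K f a k b t) = fun k => ∫ x in D k, h x := by
    funext k
    have e1 : ∫ x in D k, h x = ∫ y in Ioo (-1 : ℝ) 1, ∫ x in D k, G f a b t x y := by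
      simp only [hh]
      rw [integral_integral_swap]
      have hfin : IsFiniteMeasure (volume.restrict (D k)) := ⟨by
        rw [Measure.restrict_apply_univ]
        exact (measure_mono (D_sub k)).trans_lt (by simp)⟩
      refine Integrable.of_bound (C := M) ?_ (Filter.Eventually.of_forall fun z => ?_)
      · apply Measurable.aestronglyMeasurable
        unfold G
        exact Measurable.mul (by fun_prop) hf
      · show ‖G f a b t z.1 z.2‖ ≤ M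
        rw [G_norm]; exact hM _
    rw [e1]
    unfold K Ph
    refine setIntegral_congr_fun measurableSet_Ioo fun y _ => ?_
    rw [← integral_const_mul]
    refine setIntegral_congr_fun (D_meas k) fun x _ => ?_
    exact (fac_b f a b t x y).symm
  rw [h3]
  exact h1

theorem ex_le (f : ℝ × ℝ → ℂ) (hf : Measurable f) (M : ℝ) (hM : ∀ z, ‖f z‖ ≤ M)
    (hs : ∀ x : ℝ × ℝ, 1 ≤ x.1 ^ 2 + x.2 ^ 2 → f x = 0) (a b t : ℝ) :
    ‖ex f a b t‖ₑ ≤ ∑' k, ‖K f a k b t‖ₑ := by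
  have h1 := K_hasSum f hf M hM hs a b t
  have h2 : Summable fun k => ‖K f a k b t‖ := by
    refine Summable.of_nonneg_of_le (fun k => norm_nonneg _)
      (fun k => K_bound f hf M hM a k b t) ?_
    exact (summable_geometric_of_lt_one (by norm_num) (by norm_num)).mul_left _
  simp_rw [← ofReal_norm]
  rw [← ENNReal.ofReal_tsum_of_nonneg (fun k => norm_nonneg _) h2]
  apply ENNReal.ofReal_le_ofReal
  rw [← h1.tsum_eq]
  exact norm_tsum_le_tsum_norm h2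

theorem ex_1 (r : ℝ) (hr : 2 < r) : ∃ C : ℝ≥0, ∀ f : ℝ × ℝ → ℂ, Measurable f →
      ∀ M : ℝ, (∀ z, ‖f z‖ ≤ M) → (∀ x : ℝ × ℝ, 1 ≤ x.1 ^ 2 + x.2 ^ 2 → f x = 0) →
      ∀ a : ℝ, ∫⁻ b : ℝ, ∫⁻ t : ℝ, ‖ex f a b t‖ₑ ^ r ≤ C * ENNReal.ofReal M ^ r := by
  have hr1 : 1 < r := by linarith
  set e : ℝ := (r - 2) / (2 * (r - 1)) with he
  have he0 : 0 < e := div_pos (by linarith) (by linarith)
  set q : ℝ := (1 / 2 : ℝ) ^ e with hq
  have hq0 : 0 < q := Real.rpow_pos_of_pos (by norm_num) _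
  have hq1 : q < 1 := Real.rpow_lt_one (by norm_num) (by norm_num) he0
  set ρ : ℝ := (1 / 2 : ℝ) ^ ((r - 2) / 2) with hρ
  have hρ0 : 0 < ρ := Real.rpow_pos_of_pos (by norm_num) _
  have hρ1 : ρ < 1 := Real.rpow_lt_one (by norm_num) (by norm_num) (by linarith)
  have hq1' : 0 < 1 - q := by linarith
  have hρ1' : 0 < 1 - ρ := by linarith
  set C : ℝ := ((1 - q)⁻¹) ^ (r - 1) * ((1 - ρ)⁻¹ * (2 ^ (r - 2) * (16 * Real.pi ^ 2))) with hC
  have hC0 : 0 ≤ C := by positivity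
  refine ⟨Real.toNNReal C, ?_⟩
  intro f hf M hM hs a
  have hM0 : 0 ≤ M := (norm_nonneg _).trans (hM 0)
  set c : ℕ → ℝ≥0∞ := fun k => ENNReal.ofReal (q ^ k) with hc
  have hc0 : ∀ k, c k ≠ 0 := fun k => by
    rw [hc]
    simp only [ne_eq, ENNReal.ofReal_eq_zero, not_le]
    positivity
  have hc1 : ∀ k, c k ≠ ∞ := fun k => ENNReal.ofReal_ne_top
  have step1 : ∀ b t, ‖ex f a b t‖ₑ ^ r ≤
      (∑' k, c k) ^ (r - 1) * ∑' k, c k ^ (1 - r) * ‖K f a k b t‖ₑ ^ r := by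
    intro b t
    exact (ENNReal.rpow_le_rpow (ex_le f hf M hM hs a b t) (by linarith)).trans
      (Pool.Agent.H438R2.PD.A3.jensen_tsum r hr1 _ c hc0 hc1)
  have hmeas : ∀ k, Measurable fun x : ℝ × ℝ => c k ^ (1 - r) * ‖K f a k x.2 x.1‖ₑ ^ r := fun k =>
    ((((K_meas f hf a k).comp measurable_swap).enorm).pow_const r).const_mul _
  have step2 : ∫⁻ b, ∫⁻ t, (∑' k, c k) ^ (r - 1) * ∑' k, c k ^ (1 - r) * ‖K f a k b t‖ₑ ^ r =
      (∑' k, c k) ^ (r - 1) * ∑' k, ∫⁻ b, ∫⁻ t, c k ^ (1 - r) * ‖K f a k b t‖ₑ ^ r :=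
    Pool.Agent.H438R2.PD.A3.swap ((∑' k, c k) ^ (r - 1))
      (fun k x => c k ^ (1 - r) * ‖K f a k x.2 x.1‖ₑ ^ r) hmeas
  have step3 : ∀ k, ∫⁻ b, ∫⁻ t, c k ^ (1 - r) * ‖K f a k b t‖ₑ ^ r ≤
      ENNReal.ofReal (ρ ^ k * (2 ^ (r - 2) * (16 * Real.pi ^ 2) * M ^ r)) := by
    intro k
    have hck : c k ^ (1 - r) = ENNReal.ofReal ((q ^ k) ^ (1 - r)) := by
      rw [hc, ENNReal.ofReal_rpow_of_pos (by positivity)]
    have h1 := lemD (K f a k) (2 * M * (1 / 2) ^ k) (by positivity) (K_bound f hf M hM a k) _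
      (K_l2 f hf M hM a k) r hr.le
    rw [hck]
    simp_rw [lintegral_const_mul' _ _ ENNReal.ofReal_ne_top]
    refine (mul_le_mul' le_rfl h1).trans (le_of_eq ?_)
    rw [← ENNReal.ofReal_mul (by positivity), ← ENNReal.ofReal_mul (by positivity)]
    congr 1
    have h3 : (2 * M * (1 / 2) ^ k) ^ (r - 2) =
        2 ^ (r - 2) * M ^ (r - 2) * ((1 / 2 : ℝ) ^ k) ^ (r - 2) := by
      rw [Real.mul_rpow (by positivity) (by positivity), Real.mul_rpow (by norm_num) hM0]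
    have h4 := Pool.Agent.H438R2.PD.A3.exps r hr k
    rw [← he, ← hq, ← hρ] at h4
    have h5 : M ^ r = M ^ (r - 2) * M ^ 2 := by
      rw [← Real.rpow_natCast, ← Real.rpow_add_of_nonneg hM0 (by linarith) (by norm_num)]
      congr 1
      push_cast
      ring
    rw [h3, ← h4, h5]
    ring
  calc ∫⁻ b : ℝ, ∫⁻ t : ℝ, ‖ex f a b t‖ₑ ^ r
      ≤ ∫⁻ b, ∫⁻ t, (∑' k, c k) ^ (r - 1) * ∑' k, c k ^ (1 - r) * ‖K f a k b t‖ₑ ^ r :=
        lintegral_mono fun b => lintegral_mono fun t => step1 b t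
    _ = (∑' k, c k) ^ (r - 1) * ∑' k, ∫⁻ b, ∫⁻ t, c k ^ (1 - r) * ‖K f a k b t‖ₑ ^ r := step2
    _ ≤ (∑' k, c k) ^ (r - 1) *
        ∑' k, ENNReal.ofReal (ρ ^ k * (2 ^ (r - 2) * (16 * Real.pi ^ 2) * M ^ r)) :=
        mul_le_mul' le_rfl (ENNReal.tsum_le_tsum step3)
    _ = _ := by
        have h6 : ∀ k : ℕ, ENNReal.ofReal (ρ ^ k * (2 ^ (r - 2) * (16 * Real.pi ^ 2) * M ^ r)) =
            ENNReal.ofReal (ρ ^ k) * ENNReal.ofReal (2 ^ (r - 2) * (16 * Real.pi ^ 2) * M ^ r) :=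
          fun k => ENNReal.ofReal_mul (by positivity)
        simp only [h6]
        rw [ENNReal.tsum_mul_right, Pool.Agent.H438R2.PD.A3.tsum_geo ρ hρ0.le hρ1, hc,
          Pool.Agent.H438R2.PD.A3.tsum_geo q hq0.le hq1,
          ENNReal.ofReal_rpow_of_nonneg (by positivity) (by linarith),
          ← ENNReal.ofReal_mul (by positivity), ← ENNReal.ofReal_mul (by positivity),
          ENNReal.ofReal_rpow_of_nonneg hM0 (by linarith),
          show ((Real.toNNReal C : ℝ≥0) : ℝ≥0∞) = ENNReal.ofReal C from rfl,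
          ← ENNReal.ofReal_mul hC0]
        congr 1
        rw [hC]
        ring

end Pool.Agent.TH89.J1620
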