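import Mathlib
import Pool.Agent.TH202.FlRes
import Pool.Agent.TH202.RL
import Pool.Agent.TH202.Cen
import Pool.Agent.TH202.NegC
import Pool.Agent.TH796.C8_XM2
import Pool.Agent.TH551.C8_XM1
import Pool.Agent.TH573.C8_BPF
import Pool.Agent.TH573.C8_NEFA
import Pool.Agent.TH828.FL_RA
import Pool.Agent.TH75.FL_PAIR
import Pool.Agent.TH75.FL_DOM
import Pool.Agent.TH142.FL_PRIME
import Pool.Agent.TH592.FL_IR
set_option autoImplicit false
namespace Pool.Agent.TH89.FL_SMT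
open Pool.Agent.H436R3.Fol Pool.Agent.TH202 MvPolynomial Pool.Agent.TH828.FL_RA
open Pool.Agent.TH592.FL_IR (ind2_of_RA ind2_ne)

section aux

variable {K : Type} [Field K] [Algebra ℂ K]

/-! points -/

theorem reg_iff {w : DVal K} {f : K} (hf : f ≠ 0) : w.Reg f ↔ 0 ≤ w.ord f :=
  ⟨fun h => h.resolve_left hf, fun h => Or.inr h⟩

theorem pos_iff {w : DVal K} {f : K} (hf : f ≠ 0) : w.Pos f ↔ 0 < w.ord f :=
  ⟨fun h => h.resolve_left hf, fun h => Or.inr h⟩

/-- A unit of the valuation ring in the local ring at the centre is a unit there. -/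
theorem mem_inv_of_ord {X : Model K} (x : Pt X) (w : DVal K)
    (hx : ∀ s : X.R x.i, s ∈ x.p ↔ w.Pos (s : K)) (hreg : ∀ f ∈ X.R x.i, w.Reg f) {u : K}
    (hu0 : u ≠ 0) (hu : x.Mem u) (h0 : w.ord u = 0) : x.Mem u⁻¹ := by
  obtain ⟨s, hs, hsu⟩ := hu
  have hs0 : (s : K) ≠ 0 := by
    intro h
    apply hs
    rw [hx]
    exact Or.inl h
  have hws : w.ord (s : K) = 0 := by
    have h1 : ¬ w.Pos (s : K) := fun h => hs ((hx s).2 h)
    have h2 := (reg_iff hs0).1 (hreg _ s.2)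
    have h3 : ¬ 0 < w.ord (s : K) := fun h => h1 (Or.inr h)
    omega
  have h1 : (⟨(s : K) * u, hsu⟩ : X.R x.i) ∉ x.p := by
    rw [hx]
    rw [pos_iff (mul_ne_zero hs0 hu0)]
    rw [w.map_mul _ _ hs0 hu0]
    omega
  have h2 := x.mem_inv h1
  have h3 := x.mem_mul (x.mem_of_R s.2) h2
  have e : (s : K) * (((⟨(s : K) * u, hsu⟩ : X.R x.i)) : K)⁻¹ = u⁻¹ := by
    change (s : K) * ((s : K) * u)⁻¹ = u⁻¹
    field_simp
  rwa [e] at h3

theorem mem_of_or {X : Model K} (x : Pt X) (w : DVal K)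
    (hx : ∀ s : X.R x.i, s ∈ x.p ↔ w.Pos (s : K)) (hreg : ∀ f ∈ X.R x.i, w.Reg f)
    (hthr : x.Thr w) {u : K} (hu0 : u ≠ 0) (hu : x.Mem u ∨ x.Mem u⁻¹) (h0 : w.Reg u) :
    x.Mem u := by
  rcases hu with h | h
  · exact h
  · have h1 := (reg_iff (inv_ne_zero hu0)).1 (hthr _ h)
    rw [w.ord_inv hu0] at h1
    have h2 := (reg_iff hu0).1 h0
    have h3 := mem_inv_of_ord x w hx hreg (inv_ne_zero hu0) h (by rw [w.ord_inv hu0]; omega)
    rwa [inv_inv] at h3

/-! ratios of the chart coordinates -/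

theorem pm_RA {m n : ℕ} {f : Fin (m + 1) → K} {g : Fin (n + 1) → K} (hf : ∀ j, f j ≠ 0)
    (hg : ∀ j, g j ≠ 0) {w : DVal K} {S : Set K} {l : Fin ((m + 1) * n + m + 1)}
    {i : Fin (m + 1)} {j : Fin (n + 1)} (hl : pm f g l = f i * g j)
    (h1 : ∀ i', RA w S (f i' / f i)) (h2 : ∀ j', RA w S (g j' / g j))
    (l' : Fin ((m + 1) * n + m + 1)) : RA w S (pm f g l' / pm f g l) := by
  obtain ⟨i', j', hl'⟩ := pm_form f g l'
  have e : pm f g l' / pm f g l = (f i' / f i) * (g j' / g j) := by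
    rw [hl', hl]
    have := hf i
    have := hg j
    field_simp
  rw [e]
  exact RA_mul (h1 i') (h2 j')

/-! deep indices -/

/-- two out of three -/
def Tri (P : ℕ → Prop) : Prop := ∀ n, 1 ≤ n → (P n → P (n + 1) → P (n + 2)) ∧
  (P (n + 1) → P (n + 2) → P n) ∧ (P n → P (n + 2) → P (n + 1))

theorem tri_up {P : ℕ → Prop} (h : Tri P) {k : ℕ} (hk : 1 ≤ k) (h0 : P k) (h1 : P (k + 1)) :
    ∀ n, P (k + n) ∧ P (k + n + 1) := by
  intro n
  induction n with
  | zero => exact ⟨h0, h1⟩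
  | succ n ih => exact ⟨ih.2, (h (k + n) (by omega)).1 ih.1 ih.2⟩

theorem tri_down {P : ℕ → Prop} (h : Tri P) : ∀ k : ℕ, 1 ≤ k → P k → P (k + 1) → P 1 ∧ P 2 := by
  intro k
  induction k with
  | zero => intro h; omega
  | succ k ih =>
    intro _ h0 h1
    rcases Nat.eq_zero_or_pos k with rfl | hk
    · exact ⟨h0, h1⟩
    · exact ih hk ((h k hk).2.1 h0 h1) h0

theorem tri_all {P : ℕ → Prop} (h : Tri P) {k : ℕ} (hk : 1 ≤ k) (h0 : P k) (h1 : P (k + 1))
    {j : ℕ} (hj : 1 ≤ j) : P j := by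
  obtain ⟨h2, h3⟩ := tri_down h k hk h0 h1
  have := (tri_up h le_rfl h2 h3 (j - 1)).1
  rwa [show 1 + (j - 1) = j by omega] at this

theorem tri_of {d : Dat K} {s : Sq d} (hfil : FilV s) (V : ValuationSubring K)
    (hV : ∀ z : ℂ, algebraMap ℂ K z ∈ V) {e : K} (he0 : e ≠ 0) (he : e ∈ V) (he' : e⁻¹ ∉ V) :
    Tri fun j => (s.y j)⁻¹ * e⁻¹ ∈ V := fun n hn => hfil V hV e he0 he he' n hn

theorem deep_iff {d : Dat K} (s : Sq d) (w : DVal K) (j : ℕ) :
    (s.y j)⁻¹ * d.c⁻¹ ∈ VS w ↔ w.ord (s.y j) + w.ord d.c ≤ 0 := by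
  rw [mem_VS, reg_iff (mul_ne_zero (inv_ne_zero (s.y_ne j)) (inv_ne_zero d.c_ne)),
    w.map_mul _ _ (inv_ne_zero (s.y_ne j)) (inv_ne_zero d.c_ne), w.ord_inv (s.y_ne j),
    w.ord_inv d.c_ne]
  constructor <;> intro h <;> omega

theorem tri_ord {d : Dat K} {s : Sq d} (hfil : FilV s) {w : DVal K} (hc : 0 < w.ord d.c) :
    Tri fun j => (s.y j)⁻¹ * d.c⁻¹ ∈ VS w :=
  tri_of hfil (VS w) (fun z => w.reg_const z) d.c_ne
    (mem_VS.2 (Or.inr hc.le)) (by
      rw [mem_VS, reg_iff (inv_ne_zero d.c_ne), w.ord_inv d.c_ne]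
      omega)

theorem ab_of_deep {d : Dat K} (s : Sq d) {w : DVal K}
    (h1 : (s.y 1)⁻¹ * d.c⁻¹ ∈ VS w) (h2 : (s.y 2)⁻¹ * d.c⁻¹ ∈ VS w) :
    w.ord d.c ≤ w.ord d.a ∧ w.ord d.c ≤ w.ord d.b := by
  rw [deep_iff] at h1 h2
  rw [s.y1, w.ord_inv d.b_ne] at h1
  rw [s.y2, w.ord_inv d.a_ne] at h2
  omega

theorem deep_of_ab {d : Dat K} (s : Sq d) {w : DVal K}
    (h : w.ord d.c ≤ w.ord d.a ∧ w.ord d.c ≤ w.ord d.b) :
    (s.y 1)⁻¹ * d.c⁻¹ ∈ VS w ∧ (s.y 2)⁻¹ * d.c⁻¹ ∈ VS w := by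
  rw [deep_iff, deep_iff, s.y1, s.y2, w.ord_inv d.b_ne, w.ord_inv d.a_ne]
  omega

theorem Sb_zero_of_nonpos {d : Dat K} {w : DVal K} (hc : w.ord d.c ≤ 0) : Sb d w = 0 := by
  have h1 := Sb_nonneg d w
  have h2 := Sb_le d w
  have h3 : ps (w.ord d.c) = 0 := by
    rw [ps, max_eq_left]
    exact_mod_cast hc
  rw [h3] at h2
  exact le_antisymm h2 h1

theorem Sb_zero_of_ab {d : Dat K} {w : DVal K} (hc : 0 < w.ord d.c)
    (h : w.ord d.c ≤ w.ord d.a ∧ w.ord d.c ≤ w.ord d.b) : Sb d w = 0 := by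
  have h1 : (w.ord d.c : ℝ) ≤ w.ord d.a := by exact_mod_cast h.1
  have h2 : (w.ord d.c : ℝ) ≤ w.ord d.b := by exact_mod_cast h.2
  have h3 : (0 : ℝ) < w.ord d.c := by exact_mod_cast hc
  rw [Sb, ps, mn, min_eq_right h2, min_eq_right h1, sub_self]

theorem ab_of_Sb {d : Dat K} {w : DVal K} (hc : 0 < w.ord d.c) (h : Sb d w = 0) :
    w.ord d.c ≤ w.ord d.a ∧ w.ord d.c ≤ w.ord d.b := by
  have h3 : (0 : ℝ) < w.ord d.c := by exact_mod_cast hc
  rw [Sb, ps, mn, max_eq_right h3.le, sub_eq_zero] at h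
  have h4 : (w.ord d.c : ℝ) ≤ min (w.ord d.a : ℝ) (min (w.ord d.b : ℝ) (w.ord d.c : ℝ)) := by
    rcases le_total 0 (min (w.ord d.a : ℝ) (min (w.ord d.b : ℝ) (w.ord d.c : ℝ))) with h5 | h5
    · rw [max_eq_right h5] at h
      exact h.le
    · rw [max_eq_left h5] at h
      linarith
  have h5 := (le_min_iff.1 h4).1
  have h6 := (le_min_iff.1 (le_min_iff.1 h4).2).1
  exact ⟨by exact_mod_cast h5, by exact_mod_cast h6⟩

/-- all coordinates of `X` have order at least `w(c)` -/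
theorem xi_ge {d : Dat K} {w : DVal K} (hc : 0 < w.ord d.c)
    (h : w.ord d.c ≤ w.ord d.a ∧ w.ord d.c ≤ w.ord d.b) (j : Fin 10) :
    w.ord d.c ≤ w.ord (xi d j) := by
  have ha := d.a_ne
  have hb := d.b_ne
  have hc0 := d.c_ne
  obtain ⟨h1, h2⟩ := h
  have a2 : w.ord (d.a ^ 2) = 2 * w.ord d.a := by rw [w.ord_pow ha]; norm_num
  have b2 : w.ord (d.b ^ 2) = 2 * w.ord d.b := by rw [w.ord_pow hb]; norm_num
  have c2 : w.ord (d.c ^ 2) = 2 * w.ord d.c := by rw [w.ord_pow hc0]; norm_num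
  have ab : w.ord (d.a ^ 2 * d.b ^ 2) = 2 * w.ord d.a + 2 * w.ord d.b := by
    rw [w.map_mul _ _ (pow_ne_zero _ ha) (pow_ne_zero _ hb), a2, b2]
  have bc : w.ord (d.b ^ 2 * d.c ^ 2) = 2 * w.ord d.b + 2 * w.ord d.c := by
    rw [w.map_mul _ _ (pow_ne_zero _ hb) (pow_ne_zero _ hc0), b2, c2]
  have ac : w.ord (d.a ^ 2 * d.c ^ 2) = 2 * w.ord d.a + 2 * w.ord d.c := by
    rw [w.map_mul _ _ (pow_ne_zero _ ha) (pow_ne_zero _ hc0), a2, c2]
  have abc : w.ord (d.a ^ 2 * d.b ^ 2 * d.c ^ 2) =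
      2 * w.ord d.a + 2 * w.ord d.b + 2 * w.ord d.c := by
    rw [w.map_mul _ _ (mul_ne_zero (pow_ne_zero _ ha) (pow_ne_zero _ hb)) (pow_ne_zero _ hc0),
      ab, c2]
  fin_cases j
  · change w.ord d.c ≤ w.ord d.a; exact h1
  · change w.ord d.c ≤ w.ord d.b; exact h2
  · change w.ord d.c ≤ w.ord d.c; exact le_rfl
  · change w.ord d.c ≤ w.ord (d.a ^ 2); omega
  · change w.ord d.c ≤ w.ord (d.b ^ 2); omega
  · change w.ord d.c ≤ w.ord (d.c ^ 2); omega
  · change w.ord d.c ≤ w.ord (d.a ^ 2 * d.b ^ 2); omega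
  · change w.ord d.c ≤ w.ord (d.b ^ 2 * d.c ^ 2); omega
  · change w.ord d.c ≤ w.ord (d.a ^ 2 * d.c ^ 2); omega
  · change w.ord d.c ≤ w.ord (d.a ^ 2 * d.b ^ 2 * d.c ^ 2); omega

/-- the facts on the centre on `X` in the case of a zero of `c` -/
theorem mem_centre {d : Dat K} (h : XiAlg d) {w : DVal K} (hc : 0 < w.ord d.c)
    (hab : w.ord d.c ≤ w.ord d.a ∧ w.ord d.c ≤ w.ord d.b) (x : Pt (Xd d h)) (hthr : x.Thr w)
    (hmin : ∀ j, w.ord ((Xd d h).ξ x.i) ≤ w.ord ((Xd d h).ξ j))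
    (hx : ∀ s : (Xd d h).R x.i, s ∈ x.p ↔ w.Pos (s : K)) :
    x.Mem d.c ∧ ¬ x.Mem d.c⁻¹ ∧ x.Mem (d.a * d.c⁻¹) ∧ x.Mem (d.b * d.c⁻¹) := by
  have hreg := ((x.thr_iff w).1 hthr).1
  have hnc : ¬ x.Mem d.c⁻¹ := by
    intro h1
    have h2 := (reg_iff (inv_ne_zero d.c_ne)).1 (hthr _ h1)
    rw [w.ord_inv d.c_ne] at h2
    omega
  have hmc : x.Mem d.c := by
    rcases Pool.Agent.TH573.C8_BPF.st_of_free (Pool.Agent.TH551.C8_XM1.free_c d h) x with h1 | h1
    · exact h1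
    · exact absurd h1 hnc
  have hξ0 : (Xd d h).ξ x.i ≠ 0 := (Xd d h).ne x.i
  have hord : w.ord ((Xd d h).ξ x.i) = w.ord d.c := by
    apply le_antisymm
    · exact hmin (2 : Fin 10)
    · exact xi_ge hc hab x.i
  have h1 : x.Mem (d.c / (Xd d h).ξ x.i) :=
    x.mem_of_R (ratio_mem_R (Xd d h) x.i (2 : Fin 10))
  have h2 : x.Mem (d.c / (Xd d h).ξ x.i)⁻¹ :=
    mem_inv_of_ord x w hx hreg (div_ne_zero d.c_ne hξ0) h1 (by
      rw [w.ord_div d.c_ne hξ0, hord, sub_self])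
  refine ⟨hmc, hnc, ?_, ?_⟩
  · have h3 : x.Mem (d.a / (Xd d h).ξ x.i) :=
      x.mem_of_R (ratio_mem_R (Xd d h) x.i (0 : Fin 10))
    have h4 := x.mem_mul h3 h2
    have e : d.a / (Xd d h).ξ x.i * (d.c / (Xd d h).ξ x.i)⁻¹ = d.a * d.c⁻¹ := by
      have := d.c_ne
      field_simp
    rwa [e] at h4
  · have h3 : x.Mem (d.b / (Xd d h).ξ x.i) :=
      x.mem_of_R (ratio_mem_R (Xd d h) x.i (1 : Fin 10))
    have h4 := x.mem_mul h3 h2
    have e : d.b / (Xd d h).ξ x.i * (d.c / (Xd d h).ξ x.i)⁻¹ = d.b * d.c⁻¹ := by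
      have := d.c_ne
      field_simp
    rwa [e] at h4

end aux

variable {K : Type} [Field K] [Algebra ℂ K] [Algebra.EssFiniteType ℂ K]

/-- The common part of the statements on the varieties of the sequence. -/
theorem core {d : Dat K} (h : XiAlg d) (s : Sq d) (hfil : FilV s) (k : ℕ) (hk : 1 ≤ k)
    (J : Set ℕ) (hJ1 : ∀ j ∈ J, 1 ≤ j)
    (hJ : ∀ P : ℕ → Prop, Tri P → ∀ i ∈ J, ∀ j ∈ J, i ≠ j → P i → P j → P k ∧ P (k + 1))
    (T : Set K) (hTfin : T.Finite) (halg : ∀ f : K, IsAlgebraic (Algebra.adjoin ℂ T) f)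
    (w : DVal K) (hw : IsLocalRing' (ICs T) w) (ι : ℕ → Fin (2 + 1)) (ι' : Fin (1 + 1))
    (hι : ∀ j ∈ J, ∀ a, w.Reg (e3 s j a / e3 s j (ι j)))
    (hι' : ∀ a, w.Reg (e2 d a / e2 d ι'))
    (hT : ∀ S : Set K, (∀ j ∈ J, ∀ a, RA w S (e3 s j a / e3 s j (ι j))) →
      (∀ a, RA w S (e2 d a / e2 d ι')) → ∀ t ∈ T, RA w S t) :
    IsPrimeOn (Xd d h) w ∧ Sb d w = 0 := by
  have hc0 := d.c_ne
  obtain ⟨f, g, hfg⟩ := Pool.Agent.TH75.FL_PAIR.exists_pair
    (Pool.Agent.TH142.FL_PRIME.trdeg_eq d) T hTfin halg w hw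
  obtain ⟨x, hthr, hmin, hx⟩ := exists_cen (Xd d h) w
  have hreg := ((x.thr_iff w).1 hthr).1
  have key : ∀ S : Set K, (∀ t ∈ S, w.Reg t) →
      (∀ j ∈ J, ∀ a, RA w S (e3 s j a / e3 s j (ι j))) → (∀ a, RA w S (e2 d a / e2 d ι')) →
      ∃ f' ∈ S, ∃ g' ∈ S, Ind2 w f' g' := by
    intro S hS h1 h2
    have hTS := hT S h1 h2
    exact ind2_of_RA hS hfg (RA_all hTS hw hfg.1) (RA_all hTS hw hfg.2.1)
  rcases le_or_gt (w.ord d.c) 0 with hc | hc
  · -- `1 / c` is regular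
    refine ⟨?_, Sb_zero_of_nonpos hc⟩
    let t : ℕ → K := fun j => if 0 ≤ w.ord (s.y j) then s.y j else (s.y j)⁻¹
    let S : Set K := insert d.c⁻¹ (t '' J)
    have hlam : w.Reg d.c⁻¹ := Or.inr (by rw [w.ord_inv hc0]; omega)
    have ht : ∀ j, w.Reg (t j) := by
      intro j
      by_cases hj : 0 ≤ w.ord (s.y j)
      · simp only [t, if_pos hj]
        exact Or.inr hj
      · simp only [t, if_neg hj]
        exact Or.inr (by rw [w.ord_inv (s.y_ne j)]; omega)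
    have hS : ∀ u ∈ S, w.Reg u := by
      rintro u (rfl | ⟨j, _, rfl⟩)
      · exact hlam
      · exact ht j
    have r1 : RA w S d.c⁻¹ := RA_mem hlam (Set.mem_insert _ _)
    have r2 : w.ord d.c = 0 → RA w S d.c := by
      intro h0
      have := RA_inv (inv_ne_zero hc0) r1 (by rw [w.ord_inv hc0, h0, neg_zero])
      rwa [inv_inv] at this
    have r3 : ∀ j ∈ J, 0 ≤ w.ord (s.y j) → RA w S (s.y j) := by
      intro j hj h0
      have : RA w S (t j) := RA_mem (ht j) (Set.mem_insert_of_mem _ ⟨j, hj, rfl⟩)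
      simpa only [t, if_pos h0] using this
    have r4 : ∀ j ∈ J, w.ord (s.y j) ≤ 0 → RA w S (s.y j)⁻¹ := by
      intro j hj h0
      rcases h0.eq_or_lt with h1 | h1
      · exact RA_inv (s.y_ne j) (r3 j hj h1.ge) h1
      · have : RA w S (t j) := RA_mem (ht j) (Set.mem_insert_of_mem _ ⟨j, hj, rfl⟩)
        simpa only [t, if_neg (not_le.2 h1)] using this
    have rone : RA w S 1 := by
      have := RA_const (w := w) (S := S) 1
      rwa [map_one] at this
    have k3 : ∀ j ∈ J, ∀ a, RA w S (e3 s j a / e3 s j (ι j)) := by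
      -- the ratios of `e3`
      intro j hj
      have hy0 := s.y_ne j
      have hreg3 := hι j hj
      have hcases : ι j = 0 ∨ ι j = 1 ∨ ι j = 2 := by
        have : ∀ z : Fin (2 + 1), z = 0 ∨ z = 1 ∨ z = 2 := by decide
        exact this _
      rcases hcases with hz | hz | hz <;> rw [hz] at hreg3 ⊢
      · have h1 : w.Reg (s.y j) := by simpa [e3] using hreg3 1
        have h1' := (reg_iff hy0).1 h1
        intro a
        fin_cases a
        · simpa [e3] using rone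
        · simpa [e3] using r3 j hj h1'
        · simpa [e3] using r1
      · have h1 : w.Reg (s.y j)⁻¹ := by simpa [e3] using hreg3 0
        have h1' := (reg_iff (inv_ne_zero hy0)).1 h1
        rw [w.ord_inv hy0] at h1'
        have h2 := r4 j hj (by omega)
        intro a
        fin_cases a
        · simpa [e3] using h2
        · simpa [e3, div_self hy0] using rone
        · simpa [e3, div_eq_mul_inv] using RA_mul r1 h2
      · have h1 : w.Reg d.c := by simpa [e3] using hreg3 0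
        have h1' := (reg_iff hc0).1 h1
        have h2 : w.Reg (s.y j * d.c) := by simpa [e3] using hreg3 1
        have h2' := (reg_iff (mul_ne_zero hy0 hc0)).1 h2
        rw [w.map_mul _ _ hy0 hc0] at h2'
        have h3 := r2 (by omega)
        intro a
        fin_cases a
        · simpa [e3] using h3
        · simpa [e3] using RA_mul (r3 j hj (by omega)) h3
        · simpa [e3, hc0] using rone
    have k2 : ∀ a, RA w S (e2 d a / e2 d ι') := by
      -- the ratios of `e2`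
      have hcases : ι' = 0 ∨ ι' = 1 := by
        have : ∀ z : Fin (1 + 1), z = 0 ∨ z = 1 := by decide
        exact this _
      rcases hcases with hz | hz <;> rw [hz] at hι' ⊢
      · intro a
        fin_cases a
        · simpa [e2] using rone
        · simpa [e2] using r1
      · have h1 : w.Reg d.c := by simpa [e2] using hι' 0
        have h1' := (reg_iff hc0).1 h1
        have h3 := r2 (by omega)
        intro a
        fin_cases a
        · simpa [e2] using h3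
        · simpa [e2, hc0] using rone
    obtain ⟨f', hf', g', hg', hi⟩ := key S hS k3 k2
    -- the elements of `S` are regular at the centre
    have hmem : ∀ u ∈ S, x.Mem u := by
      rintro u (rfl | ⟨j, _, rfl⟩)
      · refine mem_of_or x w hx hreg hthr (inv_ne_zero hc0) ?_ hlam
        exact (Pool.Agent.TH573.C8_BPF.st_of_free (Pool.Agent.TH551.C8_XM1.free_c d h) x).inv
      · have hst : Pool.Agent.TH573.C8_BPF.St x (s.y j) :=
          Pool.Agent.TH573.C8_BPF.st_of_free (Pool.Agent.TH573.C8_BPF.free_y (Xd d h)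
            (Pool.Agent.TH551.C8_XM1.free_a d h) (Pool.Agent.TH551.C8_XM1.free_b d h) s j) x
        have hr := ht j
        by_cases hj : 0 ≤ w.ord (s.y j)
        · simp only [t, if_pos hj] at hr ⊢
          exact mem_of_or x w hx hreg hthr (s.y_ne j) hst hr
        · simp only [t, if_neg hj] at hr ⊢
          exact mem_of_or x w hx hreg hthr (inv_ne_zero (s.y_ne j)) hst.inv hr
    exact Pool.Agent.TH142.FL_PRIME.prime_of_ind2 (Pool.Agent.TH142.FL_PRIME.trdeg_eq d) x w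
      hx hreg (hmem _ hf') (hmem _ hg') hi
  · -- `c` has a zero
    let S : Set K := (fun j => (s.y j)⁻¹ * d.c⁻¹) '' {j | j ∈ J ∧ (s.y j)⁻¹ * d.c⁻¹ ∈ VS w}
    have hS : ∀ u ∈ S, w.Reg u := by
      rintro u ⟨j, ⟨_, hj⟩, rfl⟩
      exact hj
    have rone : RA w S 1 := by
      have := RA_const (w := w) (S := S) 1
      rwa [map_one] at this
    have rc : RA w S d.c := RA_pos (Or.inr hc)
    have hlam : ¬ w.Reg d.c⁻¹ := by
      rw [reg_iff (inv_ne_zero hc0), w.ord_inv hc0]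
      omega
    have rd : ∀ j ∈ J, (s.y j)⁻¹ * d.c⁻¹ ∈ VS w → RA w S ((s.y j)⁻¹ * d.c⁻¹) :=
      fun j hj hd => RA_mem hd ⟨j, ⟨hj, hd⟩, rfl⟩
    have k3 : ∀ j ∈ J, ∀ a, RA w S (e3 s j a / e3 s j (ι j)) := by
      -- the ratios of `e3`
      intro j hj
      have hy0 := s.y_ne j
      have hreg3 := hι j hj
      have hcases : ι j = 0 ∨ ι j = 1 ∨ ι j = 2 := by
        have : ∀ z : Fin (2 + 1), z = 0 ∨ z = 1 ∨ z = 2 := by decide
        exact this _
      rcases hcases with hz | hz | hz <;> rw [hz] at hreg3 ⊢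
      · exact absurd (by simpa [e3] using hreg3 2) hlam
      · have h1 : w.Reg (d.c⁻¹ * (s.y j)⁻¹) := by
          simpa [e3, div_eq_mul_inv] using hreg3 2
        rw [mul_comm] at h1
        have h2 := rd j hj h1
        have h3 : RA w S (s.y j)⁻¹ := by
          have := RA_mul rc h2
          have e : d.c * ((s.y j)⁻¹ * d.c⁻¹) = (s.y j)⁻¹ := by field_simp
          rwa [e] at this
        intro a
        fin_cases a
        · simpa [e3] using h3
        · simpa [e3, div_self hy0] using rone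
        · simpa [e3, div_eq_mul_inv, mul_comm] using h2
      · have h2 : w.Reg (s.y j * d.c) := by simpa [e3] using hreg3 1
        have h2' := (reg_iff (mul_ne_zero hy0 hc0)).1 h2
        have h3 : RA w S (s.y j * d.c) := by
          rcases h2'.eq_or_lt with h4 | h4
          · have h5 : (s.y j)⁻¹ * d.c⁻¹ ∈ VS w := by
              rw [mem_VS, ← mul_inv]
              exact Or.inr (by rw [w.ord_inv (mul_ne_zero hy0 hc0), ← h4, neg_zero])
            have h6 := RA_inv (mul_ne_zero (inv_ne_zero hy0) (inv_ne_zero hc0)) (rd j hj h5) (by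
              rw [← mul_inv, w.ord_inv (mul_ne_zero hy0 hc0), ← h4, neg_zero])
            rwa [← mul_inv, inv_inv] at h6
          · exact RA_pos (Or.inr h4)
        intro a
        fin_cases a
        · simpa [e3] using rc
        · simpa [e3] using h3
        · simpa [e3, hc0] using rone
    have k2 : ∀ a, RA w S (e2 d a / e2 d ι') := by
      -- the ratios of `e2`
      have hcases : ι' = 0 ∨ ι' = 1 := by
        have : ∀ z : Fin (1 + 1), z = 0 ∨ z = 1 := by decide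
        exact this _
      rcases hcases with hz | hz <;> rw [hz] at hι' ⊢
      · exact absurd (by simpa [e2] using hι' 1) hlam
      · intro a
        fin_cases a
        · simpa [e2] using rc
        · simpa [e2, hc0] using rone

    obtain ⟨f', hf', g', hg', hi⟩ := key S hS k3 k2
    obtain ⟨i, ⟨hiJ, hiD⟩, rfl⟩ := hf'
    obtain ⟨j, ⟨hjJ, hjD⟩, rfl⟩ := hg'
    have hij : i ≠ j := by
      rintro rfl
      exact (ind2_ne hi).2.2.2.2 rfl
    have htri := tri_ord hfil hc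
    obtain ⟨d1, d2⟩ := hJ _ htri i hiJ j hjJ hij hiD hjD
    have hall : ∀ n, 1 ≤ n → (s.y n)⁻¹ * d.c⁻¹ ∈ VS w := fun n hn => tri_all htri hk d1 d2 hn
    have hab := ab_of_deep s (hall 1 le_rfl) (hall 2 (by norm_num))
    refine ⟨?_, Sb_zero_of_ab hc hab⟩
    obtain ⟨m1, m2, m3, m4⟩ := mem_centre h hc hab x hthr hmin hx
    have hmem : ∀ n, 1 ≤ n → x.Mem ((s.y n)⁻¹ * d.c⁻¹) := by
      intro n hn
      refine Pool.Agent.TH75.FL_DOM.mem_of_dom x _ ?_
      intro V hV1 hV2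
      have htriV := tri_of hfil V (fun z => hV1 _ (x.mem_of_R ((Xd d h).R x.i |>.algebraMap_mem z)))
        hc0 (hV1 _ m1) (hV2 _ m1 m2)
      refine tri_all htriV le_rfl ?_ ?_ hn
      · rw [s.y1, inv_inv]
        exact hV1 _ m4
      · rw [s.y2, inv_inv]
        exact hV1 _ m3
    exact Pool.Agent.TH142.FL_PRIME.prime_of_ind2 (Pool.Agent.TH142.FL_PRIME.trdeg_eq d) x w
      hx hreg (hmem i (hJ1 i hiJ)) (hmem j (hJ1 j hjJ)) hi
/-- The prime divisors of the varieties of the sequence are prime divisors of `X`, other than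
`c = 0`. -/
theorem small_three {d : Dat K} (h : XiAlg d) (s : Sq d) (hfil : FilV s) (k : ℕ) (hk : 1 ≤ k)
    (w : DVal K) (hw : IsPrimeOn (M3 s k hk) w) : IsPrimeOn (Xd d h) w ∧ Sb d w = 0 := by
  obtain ⟨i, hw⟩ := hw
  obtain ⟨i1, i2, e1, h1, h2⟩ := pm_ratio (pm_ne (pm_ne (e3_ne s k) (e3_ne s (k + 1)))
    (e3_ne s (k + 2))) (e2_ne d) i
  obtain ⟨i5, i6, e5, h5, h6⟩ := pm_ratio (pm_ne (e3_ne s k) (e3_ne s (k + 1)))
    (e3_ne s (k + 2)) i1
  obtain ⟨i3, i4, e3', h3, h4⟩ := pm_ratio (e3_ne s k) (e3_ne s (k + 1)) i5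
  have hR : ∀ l, w.Reg (sys3 s k l / sys3 s k i) := fun l =>
    hw.1 _ (ratio_mem_R (M3 s k hk) i l)
  have m1 : ∀ i', w.Reg (pm (pm (e3 s k) (e3 s (k + 1))) (e3 s (k + 2)) i' /
      pm (pm (e3 s k) (e3 s (k + 1))) (e3 s (k + 2)) i1) := by
    intro i'
    obtain ⟨l, hl⟩ := h1 i'
    rw [← hl]
    exact hR l
  have m5 : ∀ i', w.Reg (pm (e3 s k) (e3 s (k + 1)) i' / pm (e3 s k) (e3 s (k + 1)) i5) := by
    intro i'
    obtain ⟨l, hl⟩ := h5 i'
    rw [← hl]
    exact m1 l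
  have m2 : ∀ i', w.Reg (e2 d i' / e2 d i2) := by
    intro i'
    obtain ⟨l, hl⟩ := h2 i'
    rw [← hl]
    exact hR l
  have m6 : ∀ i', w.Reg (e3 s (k + 2) i' / e3 s (k + 2) i6) := by
    intro i'
    obtain ⟨l, hl⟩ := h6 i'
    rw [← hl]
    exact m1 l
  have m3 : ∀ i', w.Reg (e3 s k i' / e3 s k i3) := by
    intro i'
    obtain ⟨l, hl⟩ := h3 i'
    rw [← hl]
    exact m5 l
  have m4 : ∀ i', w.Reg (e3 s (k + 1) i' / e3 s (k + 1) i4) := by
    intro i'
    obtain ⟨l, hl⟩ := h4 i'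
    rw [← hl]
    exact m5 l
  refine core h s hfil k hk {k, k + 1, k + 2} ?_ ?_
    (Set.range fun l => sys3 s k l / sys3 s k i) (Set.finite_range _) (sys3_alg s hk i) w hw
    (fun j => if j = k then i3 else if j = k + 1 then i4 else i6) i2 ?_ m2 ?_
  · rintro j (rfl | rfl | rfl) <;> omega
  · intro P hP i hi j hj hij pi pj
    have hk' := hP k hk
    rcases hi with rfl | rfl | rfl <;> rcases hj with rfl | rfl | rfl
    · exact absurd rfl hij
    · exact ⟨pi, pj⟩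
    · exact ⟨pi, hk'.2.2 pi pj⟩
    · exact ⟨pj, pi⟩
    · exact absurd rfl hij
    · exact ⟨hk'.2.1 pi pj, pi⟩
    · exact ⟨pj, hk'.2.2 pj pi⟩
    · exact ⟨hk'.2.1 pj pi, pj⟩
    · exact absurd rfl hij
  · rintro j (rfl | rfl | rfl) a
    · simpa using m3 a
    · simpa using m4 a
    · simpa using m6 a
  · rintro S hS hS' _ ⟨l, rfl⟩
    have n3 : ∀ a, RA w S (e3 s k a / e3 s k i3) := by
      intro a
      simpa using hS k (by simp) a
    have n4 : ∀ a, RA w S (e3 s (k + 1) a / e3 s (k + 1) i4) := by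
      intro a
      simpa using hS (k + 1) (by simp) a
    have n6 : ∀ a, RA w S (e3 s (k + 2) a / e3 s (k + 2) i6) := by
      intro a
      simpa using hS (k + 2) (by simp) a
    have n5 := pm_RA (e3_ne s k) (e3_ne s (k + 1)) e3' n3 n4
    have n1 := pm_RA (pm_ne (e3_ne s k) (e3_ne s (k + 1))) (e3_ne s (k + 2)) e5 n5 n6
    exact pm_RA (pm_ne (pm_ne (e3_ne s k) (e3_ne s (k + 1))) (e3_ne s (k + 2))) (e2_ne d) e1
      n1 hS' l

theorem small_two {d : Dat K} (h : XiAlg d) (s : Sq d) (hfil : FilV s) (k : ℕ) (hk : 1 ≤ k)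
    (w : DVal K) (hw : IsPrimeOn (M2 s k hk) w) : IsPrimeOn (Xd d h) w ∧ Sb d w = 0 := by
  obtain ⟨i, hw⟩ := hw
  obtain ⟨i1, i2, e1, h1, h2⟩ := pm_ratio (pm_ne (e3_ne s k) (e3_ne s (k + 1))) (e2_ne d) i
  obtain ⟨i3, i4, e3', h3, h4⟩ := pm_ratio (e3_ne s k) (e3_ne s (k + 1)) i1
  have hR : ∀ l, w.Reg (sys2 s k l / sys2 s k i) := fun l =>
    hw.1 _ (ratio_mem_R (M2 s k hk) i l)
  have m1 : ∀ i', w.Reg (pm (e3 s k) (e3 s (k + 1)) i' / pm (e3 s k) (e3 s (k + 1)) i1) := by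
    intro i'
    obtain ⟨l, hl⟩ := h1 i'
    rw [← hl]
    exact hR l
  have m2 : ∀ i', w.Reg (e2 d i' / e2 d i2) := by
    intro i'
    obtain ⟨l, hl⟩ := h2 i'
    rw [← hl]
    exact hR l
  have m3 : ∀ i', w.Reg (e3 s k i' / e3 s k i3) := by
    intro i'
    obtain ⟨l, hl⟩ := h3 i'
    rw [← hl]
    exact m1 l
  have m4 : ∀ i', w.Reg (e3 s (k + 1) i' / e3 s (k + 1) i4) := by
    intro i'
    obtain ⟨l, hl⟩ := h4 i'
    rw [← hl]
    exact m1 l
  refine core h s hfil k hk {k, k + 1} ?_ ?_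
    (Set.range fun l => sys2 s k l / sys2 s k i) (Set.finite_range _) (sys2_alg s hk i) w hw
    (fun j => if j = k then i3 else i4) i2 ?_ m2 ?_
  · rintro j (rfl | rfl) <;> omega
  · intro P hP i hi j hj hij pi pj
    rcases hi with rfl | rfl <;> rcases hj with rfl | rfl
    · exact absurd rfl hij
    · exact ⟨pi, pj⟩
    · exact ⟨pj, pi⟩
    · exact absurd rfl hij
  · rintro j (rfl | rfl) a
    · simpa using m3 a
    · simpa using m4 a
  · rintro S hS hS' _ ⟨l, rfl⟩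
    have n3 : ∀ a, RA w S (e3 s k a / e3 s k i3) := by
      intro a
      simpa using hS k (by simp) a
    have n4 : ∀ a, RA w S (e3 s (k + 1) a / e3 s (k + 1) i4) := by
      intro a
      simpa using hS (k + 1) (by simp) a
    have n1 := pm_RA (e3_ne s k) (e3_ne s (k + 1)) e3' n3 n4
    exact pm_RA (pm_ne (e3_ne s k) (e3_ne s (k + 1))) (e2_ne d) e1 n1 hS' l

omit [Algebra.EssFiniteType ℂ K] in
theorem L_eq_Th {d : Dat K} (s : Sq d) (hfil : FilV s) (w : DVal K) (hw : Sb d w = 0) (j : ℕ)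
    (hj : 1 ≤ j) : Lk s j w = Th s j w := by
  have hc0 := d.c_ne
  have hbound : w.ord d.c ≤ 0 ∨ w.ord d.c ≤ -w.ord (s.y j) := by
    rcases le_or_gt (w.ord d.c) 0 with hc | hc
    · left; exact hc
    · right
      obtain ⟨h1, h2⟩ := deep_of_ab s (ab_of_Sb hc hw)
      have := (deep_iff s w j).1 (tri_all (tri_ord hfil hc) le_rfl h1 h2 hj)
      omega
  unfold Lk Th
  apply le_antisymm
  · rw [Lin_le_iff]
    intro a
    fin_cases a
    · exact Lin_le (m := 1) ![1, s.y j] w 0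
    · exact Lin_le (m := 1) ![1, s.y j] w 1
    · change -(w.ord (d.c⁻¹) : ℝ) ≤ _
      rw [w.ord_inv hc0]
      rcases hbound with hb | hb
      · have h1 := Lin_le (m := 1) ![1, s.y j] w 0
        change -(w.ord (1 : K) : ℝ) ≤ _ at h1
        rw [w.ord_one] at h1
        have h2 : (w.ord d.c : ℝ) ≤ 0 := by exact_mod_cast hb
        push_cast at h1 ⊢
        linarith
      · have h1 := Lin_le (m := 1) ![1, s.y j] w 1
        change -(w.ord (s.y j) : ℝ) ≤ _ at h1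
        have h2 : (w.ord d.c : ℝ) ≤ -(w.ord (s.y j) : ℝ) := by exact_mod_cast hb
        push_cast at h1 ⊢
        linarith
  · rw [Lin_le_iff]
    intro a
    fin_cases a
    · exact Lin_le (e3 s j) w 0
    · exact Lin_le (e3 s j) w 1

end Pool.Agent.TH89.FL_SMT
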