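import Mathlib
import Pool.Agent.TH280.LS.Stm

set_option autoImplicit false

/-! # LS-F (job 2042): the Fourier transform of piecewise monotone functions -/

namespace Pool.Agent.TH89.F

open MeasureTheory Set Complex
open scoped ENNReal
open Pool.Agent.TH280.LS

/-! ### Hardy's inequality -/

theorem lint_pow (c U : ℝ) (hc : -1 < c) (hU : 0 ≤ U) :
    ∫⁻ s in Ioo 0 U, ENNReal.ofReal (s ^ c) = ENNReal.ofReal (U ^ (c + 1) / (c + 1)) := by
  have h1 : IntervalIntegrable (fun s : ℝ => s ^ c) volume 0 U :=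
    intervalIntegral.intervalIntegrable_rpow' hc
  have h2 : ∫ s in Ioo 0 U, s ^ c = U ^ (c + 1) / (c + 1) := by
    rw [← integral_Ioc_eq_integral_Ioo, ← intervalIntegral.integral_of_le hU,
      integral_rpow (Or.inl hc), Real.zero_rpow (by linarith), sub_zero]
  have h3 : IntegrableOn (fun s : ℝ => s ^ c) (Ioo 0 U) :=
    ((intervalIntegrable_iff_integrableOn_Ioo_of_le hU).1 h1)
  rw [← h2, ofReal_integral_eq_lintegral_ofReal h3]
  exact (ae_restrict_iff' measurableSet_Ioo).2 (Filter.Eventually.of_forall fun s hs =>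
    Real.rpow_nonneg hs.1.le _)

theorem lint_abs_pow (c V : ℝ) (hc : -1 < c) (hV : 0 ≤ V) :
    ∫⁻ s in Ioo (-V) V, ENNReal.ofReal (|s| ^ c) ≤ ENNReal.ofReal (2 * (V ^ (c + 1) / (c + 1))) := by
  set f : ℝ → ℝ≥0∞ := (Ioo 0 V).indicator fun s => ENNReal.ofReal (s ^ c) with hf
  have hfm : Measurable f := by
    have : Measurable fun s : ℝ => ENNReal.ofReal (s ^ c) := by fun_prop
    exact this.indicator measurableSet_Ioo
  have h1 : ∫⁻ s, f s = ENNReal.ofReal (V ^ (c + 1) / (c + 1)) := by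
    rw [lintegral_indicator measurableSet_Ioo, lint_pow c V hc hV]
  have h2 : ∫⁻ s, f (-s) = ENNReal.ofReal (V ^ (c + 1) / (c + 1)) := by
    rw [← h1]
    exact (Measure.measurePreserving_neg (volume : Measure ℝ)).lintegral_comp hfm
  have h0 : ∀ᵐ x : ℝ, x ≠ 0 := by
    rw [ae_iff]
    simp
  have hc1 : 0 ≤ V ^ (c + 1) / (c + 1) := div_nonneg (Real.rpow_nonneg hV _) (by linarith)
  rw [← lintegral_indicator measurableSet_Ioo]
  calc ∫⁻ s, (Ioo (-V) V).indicator (fun s => ENNReal.ofReal (|s| ^ c)) s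
      ≤ ∫⁻ s, (f s + f (-s)) := by
        refine lintegral_mono_ae ?_
        filter_upwards [h0] with s hs
        by_cases h3 : s ∈ Ioo (-V) V
        · rw [indicator_of_mem h3]
          rcases lt_or_gt_of_ne hs with h4 | h4
          · have h5 : -s ∈ Ioo 0 V := ⟨by linarith, by linarith [h3.1]⟩
            have : f (-s) = ENNReal.ofReal (|s| ^ c) := by
              rw [hf, indicator_of_mem h5, abs_of_neg h4]
            rw [this]
            exact le_add_self
          · have h5 : s ∈ Ioo 0 V := ⟨h4, h3.2⟩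
            have : f s = ENNReal.ofReal (|s| ^ c) := by
              rw [hf, indicator_of_mem h5, abs_of_pos h4]
            rw [this]
            exact le_self_add
        · rw [indicator_of_notMem h3]
          exact zero_le
    _ = ENNReal.ofReal (2 * (V ^ (c + 1) / (c + 1))) := by
        rw [lintegral_add_left hfm, h1, h2, ← ENNReal.ofReal_add hc1 hc1, two_mul]

/-- Hölder's inequality with a weight -/
theorem holder (p : ℝ) (hp : 2 ≤ p) (G : ℝ → ℝ≥0∞) (hG : Measurable G) (U : ℝ) (hU : 0 ≤ U) :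
    (∫⁻ s in Ioo 0 U, G s) ^ p ≤
      ENNReal.ofReal ((2 * U ^ (1 / 2 : ℝ)) ^ (p - 1)) *
        ∫⁻ s in Ioo 0 U, G s ^ p * ENNReal.ofReal (s ^ ((p - 1) / 2)) := by
  have hp0 : 0 < p := by linarith
  have hp1 : 0 < p - 1 := by linarith
  have hpq : p.HolderConjugate (p / (p - 1)) := by
    rw [Real.holderConjugate_iff]
    refine ⟨by linarith, ?_⟩
    field_simp
    ring
  set a : ℝ := (p - 1) / (2 * p) with ha
  have h := ENNReal.lintegral_mul_le_Lp_mul_Lq (volume.restrict (Ioo 0 U)) hpq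
    (f := fun s => G s * ENNReal.ofReal (s ^ a)) (g := fun s => ENNReal.ofReal (s ^ (-a)))
    (by
      have : Measurable fun s : ℝ => ENNReal.ofReal (s ^ a) := by fun_prop
      exact (hG.mul this).aemeasurable)
    (by
      have : Measurable fun s : ℝ => ENNReal.ofReal (s ^ (-a)) := by fun_prop
      exact this.aemeasurable)
  have e1 : ∫⁻ s in Ioo 0 U, ((fun s => G s * ENNReal.ofReal (s ^ a)) *
      fun s => ENNReal.ofReal (s ^ (-a))) s = ∫⁻ s in Ioo 0 U, G s := by
    refine setLIntegral_congr_fun measurableSet_Ioo fun s hs => ?_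
    simp only [Pi.mul_apply]
    rw [mul_assoc, ← ENNReal.ofReal_mul (Real.rpow_nonneg hs.1.le _), ← Real.rpow_add hs.1,
      add_neg_cancel, Real.rpow_zero, ENNReal.ofReal_one, mul_one]
  have e2 : ∫⁻ s in Ioo 0 U, (G s * ENNReal.ofReal (s ^ a)) ^ p =
      ∫⁻ s in Ioo 0 U, G s ^ p * ENNReal.ofReal (s ^ ((p - 1) / 2)) := by
    refine setLIntegral_congr_fun measurableSet_Ioo fun s hs => ?_
    rw [ENNReal.mul_rpow_of_nonneg _ _ hp0.le, ENNReal.ofReal_rpow_of_nonneg
      (Real.rpow_nonneg hs.1.le _) hp0.le, ← Real.rpow_mul hs.1.le]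
    congr 3
    rw [ha]
    field_simp
  have e3 : ∫⁻ s in Ioo 0 U, (ENNReal.ofReal (s ^ (-a))) ^ (p / (p - 1)) =
      ENNReal.ofReal (2 * U ^ (1 / 2 : ℝ)) := by
    have e4 : ∫⁻ s in Ioo 0 U, (ENNReal.ofReal (s ^ (-a))) ^ (p / (p - 1)) =
        ∫⁻ s in Ioo 0 U, ENNReal.ofReal (s ^ (-(1 / 2) : ℝ)) := by
      refine setLIntegral_congr_fun measurableSet_Ioo fun s hs => ?_
      rw [ENNReal.ofReal_rpow_of_nonneg (Real.rpow_nonneg hs.1.le _) (by positivity),
        ← Real.rpow_mul hs.1.le]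
      congr 2
      rw [ha]
      field_simp
    rw [e4, lint_pow _ _ (by norm_num) hU]
    congr 1
    have : (-(1 / 2) + 1 : ℝ) = 1 / 2 := by norm_num
    rw [this]
    ring
  rw [e1, e2, e3] at h
  have h2 := ENNReal.rpow_le_rpow h hp0.le
  refine h2.trans (le_of_eq ?_)
  rw [ENNReal.mul_rpow_of_nonneg _ _ hp0.le, ← ENNReal.rpow_mul, ← ENNReal.rpow_mul,
    one_div_mul_cancel hp0.ne', ENNReal.rpow_one, mul_comm]
  congr 1
  have : 1 / (p / (p - 1)) * p = p - 1 := by field_simp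
  rw [this, ENNReal.ofReal_rpow_of_nonneg (by positivity) hp1.le]

theorem hardy (p : ℝ) (hp : 2 ≤ p) (G : ℝ → ℝ≥0∞) (hG : Measurable G) :
    ∫⁻ ξ : ℝ, ENNReal.ofReal (|ξ| ^ (p - 2)) * (∫⁻ s in Ioo 0 (1 / (2 * |ξ|)), G s) ^ p ≤
      ENNReal.ofReal (4 / (p - 1)) * ∫⁻ s in Ioi (0 : ℝ), G s ^ p := by
  have hp0 : 0 < p := by linarith
  have hp1 : 0 < p - 1 := by linarith
  set H : ℝ → ℝ≥0∞ := fun s => G s ^ p * ENNReal.ofReal (s ^ ((p - 1) / 2)) with hH
  have hHm : Measurable H := by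
    have : Measurable fun s : ℝ => ENNReal.ofReal (s ^ ((p - 1) / 2)) := by fun_prop
    exact (hG.pow_const p).mul this
  set w : ℝ → ℝ≥0∞ := fun ξ => ENNReal.ofReal (2 ^ ((p - 1) / 2) * |ξ| ^ ((p - 3) / 2)) with hw
  have hwm : Measurable w := by
    simp only [hw]
    fun_prop
  set S : Set (ℝ × ℝ) := {z | 0 < z.2 ∧ 2 * |z.1| * z.2 < 1} with hS
  have hSm : MeasurableSet S := by
    apply MeasurableSet.inter
    · exact measurableSet_lt measurable_const measurable_snd
    · exact measurableSet_lt (f := fun z : ℝ × ℝ => 2 * |z.1| * z.2) (by fun_prop)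
        measurable_const
  have h1 : ∀ ξ : ℝ, ξ ≠ 0 → ENNReal.ofReal (|ξ| ^ (p - 2)) *
      (∫⁻ s in Ioo 0 (1 / (2 * |ξ|)), G s) ^ p ≤ ∫⁻ s, S.indicator (fun z => w z.1 * H z.2) (ξ, s) := by
    intro ξ hξ
    have hξ0 : 0 < |ξ| := abs_pos.2 hξ
    have h2 := holder p hp G hG (1 / (2 * |ξ|)) (by positivity)
    have e1 : ∫⁻ s, S.indicator (fun z => w z.1 * H z.2) (ξ, s) =
        w ξ * ∫⁻ s in Ioo 0 (1 / (2 * |ξ|)), H s := by
      rw [← lintegral_indicator measurableSet_Ioo, ← lintegral_const_mul _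
        (hHm.indicator measurableSet_Ioo)]
      refine lintegral_congr fun s => ?_
      by_cases hs : s ∈ Ioo 0 (1 / (2 * |ξ|))
      · have : (ξ, s) ∈ S := by
          refine ⟨hs.1, ?_⟩
          have := hs.2
          rw [lt_div_iff₀ (by positivity)] at this
          simp only
          linarith
        rw [indicator_of_mem this, indicator_of_mem hs]
      · have : (ξ, s) ∉ S := by
          intro h3
          apply hs
          refine ⟨h3.1, ?_⟩
          rw [lt_div_iff₀ (by positivity)]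
          have := h3.2
          simp only at this
          linarith
        rw [indicator_of_notMem this, indicator_of_notMem hs, mul_zero]
    rw [e1]
    calc ENNReal.ofReal (|ξ| ^ (p - 2)) * (∫⁻ s in Ioo 0 (1 / (2 * |ξ|)), G s) ^ p
        ≤ ENNReal.ofReal (|ξ| ^ (p - 2)) * (ENNReal.ofReal
          ((2 * (1 / (2 * |ξ|)) ^ (1 / 2 : ℝ)) ^ (p - 1)) *
          ∫⁻ s in Ioo 0 (1 / (2 * |ξ|)), H s) := by gcongr
      _ = w ξ * ∫⁻ s in Ioo 0 (1 / (2 * |ξ|)), H s := by
          rw [← mul_assoc, ← ENNReal.ofReal_mul (by positivity)]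
          congr 2
          have e2 : (2 : ℝ) * (1 / (2 * |ξ|)) ^ (1 / 2 : ℝ) = (2 : ℝ) ^ (1 / 2 : ℝ) *
              |ξ| ^ (-(1 / 2) : ℝ) := by
            rw [one_div (2 * |ξ|), Real.inv_rpow (by positivity),
              Real.mul_rpow (by norm_num) hξ0.le, mul_inv, ← Real.rpow_neg (by norm_num),
              ← Real.rpow_neg hξ0.le, ← mul_assoc]
            congr 1
            nth_rewrite 1 [← Real.rpow_one 2]
            rw [← Real.rpow_add (by norm_num)]
            norm_num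
          rw [e2, Real.mul_rpow (by positivity) (by positivity), ← Real.rpow_mul (by norm_num),
            ← Real.rpow_mul hξ0.le, mul_left_comm, ← Real.rpow_add hξ0]
          congr 2
          · ring
          · ring
  calc ∫⁻ ξ : ℝ, ENNReal.ofReal (|ξ| ^ (p - 2)) * (∫⁻ s in Ioo 0 (1 / (2 * |ξ|)), G s) ^ p
      ≤ ∫⁻ ξ : ℝ, ∫⁻ s, S.indicator (fun z => w z.1 * H z.2) (ξ, s) := by
        refine lintegral_mono_ae ?_
        have h0 : ∀ᵐ x : ℝ, x ≠ 0 := by
          rw [ae_iff]
          simp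
        filter_upwards [h0] with ξ hξ
        exact h1 ξ hξ
    _ = ∫⁻ s : ℝ, ∫⁻ ξ, S.indicator (fun z => w z.1 * H z.2) (ξ, s) := by
        rw [lintegral_lintegral_swap]
        exact (((hwm.comp measurable_fst).mul (hHm.comp measurable_snd)).indicator hSm).aemeasurable
    _ ≤ ∫⁻ s : ℝ, (Ioi (0 : ℝ)).indicator (fun s => ENNReal.ofReal (4 / (p - 1)) * G s ^ p) s := by
        refine lintegral_mono fun s => ?_
        by_cases hs : s ∈ Ioi (0 : ℝ)
        · have hs0 : 0 < s := hs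
          rw [indicator_of_mem hs]
          have e1 : ∫⁻ ξ, S.indicator (fun z => w z.1 * H z.2) (ξ, s) =
              (∫⁻ ξ in Ioo (-(1 / (2 * s))) (1 / (2 * s)), w ξ) * H s := by
            rw [← lintegral_indicator measurableSet_Ioo, ← lintegral_mul_const _
              (hwm.indicator measurableSet_Ioo)]
            refine lintegral_congr fun ξ => ?_
            by_cases hξ : ξ ∈ Ioo (-(1 / (2 * s))) (1 / (2 * s))
            · have : (ξ, s) ∈ S := by
                refine ⟨hs0, ?_⟩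
                have h3 := abs_lt.2 hξ
                rw [lt_div_iff₀ (by positivity)] at h3
                simp only
                linarith
              rw [indicator_of_mem this, indicator_of_mem hξ]
            · have : (ξ, s) ∉ S := by
                intro h3
                apply hξ
                refine abs_lt.1 ?_
                rw [lt_div_iff₀ (by positivity)]
                have := h3.2
                simp only at this
                linarith
              rw [indicator_of_notMem this, indicator_of_notMem hξ, zero_mul]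
          rw [e1]
          have e2 : ∫⁻ ξ in Ioo (-(1 / (2 * s))) (1 / (2 * s)), w ξ ≤
              ENNReal.ofReal (2 ^ ((p - 1) / 2) *
                (2 * ((1 / (2 * s)) ^ ((p - 1) / 2) / ((p - 1) / 2)))) := by
            have e3 := lint_abs_pow ((p - 3) / 2) (1 / (2 * s)) (by linarith) (by positivity)
            have e4 : (p - 3) / 2 + 1 = (p - 1) / 2 := by ring
            rw [e4] at e3
            simp only [hw]
            have e5 : ∀ ξ : ℝ, ENNReal.ofReal (2 ^ ((p - 1) / 2) * |ξ| ^ ((p - 3) / 2)) =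
                ENNReal.ofReal (2 ^ ((p - 1) / 2)) * ENNReal.ofReal (|ξ| ^ ((p - 3) / 2)) :=
              fun ξ => ENNReal.ofReal_mul (by positivity)
            simp_rw [e5]
            rw [lintegral_const_mul' _ _ ENNReal.ofReal_ne_top, ENNReal.ofReal_mul (by positivity)]
            gcongr
          refine (mul_le_mul' e2 le_rfl).trans (le_of_eq ?_)
          simp only [hH]
          rw [mul_comm (G s ^ p), ← mul_assoc, ← ENNReal.ofReal_mul (by positivity)]
          congr 2
          rw [one_div, Real.inv_rpow (by positivity), Real.mul_rpow (by norm_num) hs0.le]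
          have h5 : (s : ℝ) ^ ((p - 1) / 2) ≠ 0 := (Real.rpow_pos_of_pos hs0 _).ne'
          have h6 : (2 : ℝ) ^ ((p - 1) / 2) ≠ 0 := (Real.rpow_pos_of_pos (by norm_num) _).ne'
          field_simp
          norm_num
        · rw [indicator_of_notMem hs]
          refine le_of_eq ?_
          rw [lintegral_eq_zero_iff ?_]
          · refine Filter.Eventually.of_forall fun ξ => ?_
            refine indicator_of_notMem (fun h3 => hs h3.1) _
          · exact (((hwm.comp measurable_fst).mul (hHm.comp measurable_snd)).indicator hSm).comp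
              measurable_prodMk_right
    _ = ENNReal.ofReal (4 / (p - 1)) * ∫⁻ s in Ioi (0 : ℝ), G s ^ p := by
        rw [lintegral_indicator measurableSet_Ioi, lintegral_const_mul _ (hG.pow_const p)]

theorem hardy' (p : ℝ) (hp : 2 ≤ p) (G : ℝ → ℝ≥0∞) (hG : AEMeasurable G) :
    ∫⁻ ξ : ℝ, ENNReal.ofReal (|ξ| ^ (p - 2)) * (∫⁻ s in Ioo 0 (1 / (2 * |ξ|)), G s) ^ p ≤
      ENNReal.ofReal (4 / (p - 1)) * ∫⁻ s in Ioi (0 : ℝ), G s ^ p := by
  have h := hardy p hp (hG.mk G) hG.measurable_mk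
  have h1 : ∀ ξ : ℝ, ∫⁻ s in Ioo 0 (1 / (2 * |ξ|)), G s =
      ∫⁻ s in Ioo 0 (1 / (2 * |ξ|)), hG.mk G s := fun ξ =>
    lintegral_congr_ae (ae_restrict_of_ae hG.ae_eq_mk)
  have h2 : ∫⁻ s in Ioi (0 : ℝ), G s ^ p = ∫⁻ s in Ioi (0 : ℝ), hG.mk G s ^ p := by
    refine lintegral_congr_ae (ae_restrict_of_ae ?_)
    filter_upwards [hG.ae_eq_mk] with s hs
    rw [hs]
  simp_rw [h1]
  rw [h2]
  exact h

/-! ### one monotone piece -/

theorem e_half (ξ : ℝ) (hξ : ξ ≠ 0) : e (-(1 / (2 * |ξ|) * ξ)) = -1 := by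
  rcases lt_or_gt_of_ne hξ with h | h
  · have h1 : -(1 / (2 * |ξ|) * ξ) = 1 / 2 := by
      rw [abs_of_neg h]
      field_simp
    rw [h1]
    unfold e
    have : (((2 * Real.pi * (1 / 2) : ℝ) : ℂ) * I) = Real.pi * I := by
      push_cast; ring
    rw [this, Complex.exp_pi_mul_I]
  · have h1 : -(1 / (2 * |ξ|) * ξ) = -(1 / 2) := by
      rw [abs_of_pos h]
      field_simp
    rw [h1]
    unfold e
    have : (((2 * Real.pi * -(1 / 2) : ℝ) : ℂ) * I) = -(Real.pi * I) := by
      push_cast; ring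
    rw [this, Complex.exp_neg, Complex.exp_pi_mul_I]
    norm_num

theorem two_ft (R : ℝ → ℝ) (hR : Integrable R) (ξ : ℝ) (hξ : ξ ≠ 0) :
    2 * ft (fun x => (R x : ℂ)) ξ =
      ∫ x : ℝ, e (-(x * ξ)) * ((R x - R (x - 1 / (2 * |ξ|)) : ℝ) : ℂ) := by
  set h : ℝ := 1 / (2 * |ξ|) with hh
  have hRc : Integrable fun x => (R x : ℂ) := hR.ofReal
  have hm : ∀ y : ℝ, Continuous fun x : ℝ => e (-(x * ξ)) := fun _ =>
    continuous_e.comp (by fun_prop)
  have hi : ∀ S : ℝ → ℂ, Integrable S → Integrable fun x => e (-(x * ξ)) * S x := by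
    intro S hS
    refine hS.bdd_mul (c := 1) (hm 0).aestronglyMeasurable (Filter.Eventually.of_forall fun x => ?_)
    rw [norm_e]
  have h1 : ∫ x : ℝ, e (-(x * ξ)) * (R (x - h) : ℂ) = - ft (fun x => (R x : ℂ)) ξ := by
    have h2 := integral_sub_right_eq_self (μ := (volume : Measure ℝ))
      (fun x => e (-((x + h) * ξ)) * (R x : ℂ)) h
    simp only [sub_add_cancel] at h2
    rw [h2]
    unfold ft
    rw [← integral_neg]
    refine integral_congr_ae (Filter.Eventually.of_forall fun x => ?_)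
    simp only
    have h3 : -((x + h) * ξ) = -(x * ξ) + -(h * ξ) := by ring
    rw [h3, e_add, hh, e_half ξ hξ]
    ring
  have h4 : Integrable fun x => (R (x - h) : ℂ) := hRc.comp_sub_right h
  have h5 : ∫ x : ℝ, e (-(x * ξ)) * ((R x - R (x - h) : ℝ) : ℂ) =
      (∫ x : ℝ, e (-(x * ξ)) * (R x : ℂ)) - ∫ x : ℝ, e (-(x * ξ)) * (R (x - h) : ℂ) := by
    rw [← integral_sub (hi _ hRc) (hi _ h4)]
    refine integral_congr_ae (Filter.Eventually.of_forall fun x => ?_)
    simp only
    push_cast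
    ring
  rw [h5, h1]
  unfold ft
  ring

theorem ft_bound (R : ℝ → ℝ) (hR : Integrable R) (h0 : ∀ x, 0 ≤ R x) (β : ℝ)
    (hz : ∀ x, β < x → R x = 0) (hm : ∀ x y, x ≤ y → y < β → R x ≤ R y) (ξ : ℝ) (hξ : ξ ≠ 0) :
    ‖ft (fun x => (R x : ℂ)) ξ‖ₑ ≤
      ∫⁻ s in Ioo 0 (1 / (2 * |ξ|)), ENNReal.ofReal (R (β - s)) := by
  have hξ0 : 0 < |ξ| := abs_pos.2 hξ
  have h2 := two_ft R hR ξ hξ
  set h : ℝ := 1 / (2 * |ξ|) with hh
  have hh0 : 0 < h := by positivity
  have hRs : Integrable fun x => R (x - h) := hR.comp_sub_right h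
  have hind : Integrable ((Ici β).indicator fun x => R (x - h)) := hRs.indicator measurableSet_Ici
  have h3 : 2 * ‖ft (fun x => (R x : ℂ)) ξ‖ ≤ ∫ x, |R x - R (x - h)| := by
    have h4 : 2 * ‖ft (fun x => (R x : ℂ)) ξ‖ = ‖2 * ft (fun x => (R x : ℂ)) ξ‖ := by
      rw [norm_mul]; norm_num
    rw [h4, h2]
    refine (norm_integral_le_integral_norm _).trans (le_of_eq ?_)
    refine integral_congr_ae (Filter.Eventually.of_forall fun x => ?_)
    simp only
    rw [norm_mul, norm_e, one_mul, Complex.norm_real, Real.norm_eq_abs]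
  have h5 : ∫ x, |R x - R (x - h)| =
      ∫ x, (R x - R (x - h) + 2 * (Ici β).indicator (fun x => R (x - h)) x) := by
    refine integral_congr_ae ?_
    have hne : ∀ᵐ x : ℝ, x ≠ β := by
      rw [ae_iff]
      simp
    filter_upwards [hne] with x hx
    rcases lt_or_gt_of_ne hx with h6 | h6
    · have h7 : x ∉ Ici β := not_le.2 h6
      rw [indicator_of_notMem h7, mul_zero, add_zero, abs_of_nonneg]
      have := hm (x - h) x (by linarith) h6
      linarith
    · have h7 : x ∈ Ici β := le_of_lt h6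
      rw [indicator_of_mem h7, hz x h6, zero_sub, abs_neg, abs_of_nonneg (h0 _)]
      ring
  have h6 : ∫ x, (R x - R (x - h) + 2 * (Ici β).indicator (fun x => R (x - h)) x) =
      2 * ∫ x, (Ici β).indicator (fun x => R (x - h)) x := by
    have hsub : Integrable (fun x => R x - R (x - h)) := hR.sub hRs
    rw [integral_add hsub (hind.const_mul 2), integral_sub hR hRs,
      integral_sub_right_eq_self (μ := (volume : Measure ℝ)) R h, sub_self, zero_add,
      integral_const_mul]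
  have h7 : ‖ft (fun x => (R x : ℂ)) ξ‖ ≤ ∫ x, (Ici β).indicator (fun x => R (x - h)) x := by
    rw [h5, h6] at h3
    linarith
  have h8 : ∀ x, 0 ≤ (Ici β).indicator (fun x => R (x - h)) x := fun x =>
    indicator_nonneg (fun y _ => h0 _) x
  rw [← ofReal_norm]
  refine (ENNReal.ofReal_le_ofReal h7).trans ?_
  rw [ofReal_integral_eq_lintegral_ofReal hind (Filter.Eventually.of_forall h8)]
  have h9 : ∫⁻ x, ENNReal.ofReal ((Ici β).indicator (fun x => R (x - h)) x) =
      ∫⁻ s, (Iic h).indicator (fun s => ENNReal.ofReal (R (β - s))) s := by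
    rw [← lintegral_sub_left_eq_self
      (fun s => (Iic h).indicator (fun s => ENNReal.ofReal (R (β - s))) s) (β + h)]
    refine lintegral_congr fun x => ?_
    by_cases hx : x ∈ Ici β
    · have hx' : β + h - x ∈ Iic h := by
        have : β ≤ x := hx
        show β + h - x ≤ h
        linarith
      rw [indicator_of_mem hx, indicator_of_mem hx']
      congr 2
      ring
    · have hx' : β + h - x ∉ Iic h := by
        have : ¬ β ≤ x := hx
        show ¬ β + h - x ≤ h
        intro h10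
        apply this
        linarith
      rw [indicator_of_notMem hx, indicator_of_notMem hx', ENNReal.ofReal_zero]
  rw [h9, ← lintegral_indicator measurableSet_Ioo]
  refine lintegral_mono_ae ?_
  have hne : ∀ᵐ x : ℝ, x ≠ 0 := by
    rw [ae_iff]
    simp
  have hne' : ∀ᵐ x : ℝ, x ≠ h := by
    rw [ae_iff]
    simp
  filter_upwards [hne, hne'] with s hs hs'
  by_cases h10 : s ∈ Ioo 0 h
  · rw [indicator_of_mem h10, indicator_of_mem (show s ∈ Iic h from h10.2.le)]
  · by_cases h11 : s ∈ Iic h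
    · have h12 : s < 0 := by
        by_contra h13
        push Not at h13
        exact h10 ⟨lt_of_le_of_ne h13 (Ne.symm hs), lt_of_le_of_ne h11 hs'⟩
      rw [indicator_of_mem h11, hz (β - s) (by linarith), ENNReal.ofReal_zero]
      exact zero_le
    · rw [indicator_of_notMem h11]
      exact zero_le

theorem piece (p : ℝ) (hp : 2 ≤ p) (R : ℝ → ℝ) (hR : Integrable R) (h0 : ∀ x, 0 ≤ R x) (β : ℝ)
    (hz : ∀ x, β < x → R x = 0) (hm : ∀ x y, x ≤ y → y < β → R x ≤ R y) :
    ∫⁻ ξ : ℝ, ENNReal.ofReal (|ξ| ^ (p - 2)) * ‖ft (fun x => (R x : ℂ)) ξ‖ₑ ^ p ≤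
      ENNReal.ofReal (4 / (p - 1)) * ∫⁻ x, ‖R x‖ₑ ^ p := by
  have hG : AEMeasurable fun s : ℝ => ENNReal.ofReal (R (β - s)) := by
    have h1 : AEStronglyMeasurable (fun s : ℝ => R (β - s)) :=
      hR.aestronglyMeasurable.comp_measurePreserving (Measure.measurePreserving_sub_left volume β)
    exact h1.aemeasurable.ennreal_ofReal
  have h1 := hardy' p hp _ hG
  have hne : ∀ᵐ x : ℝ, x ≠ 0 := by
    rw [ae_iff]
    simp
  calc ∫⁻ ξ : ℝ, ENNReal.ofReal (|ξ| ^ (p - 2)) * ‖ft (fun x => (R x : ℂ)) ξ‖ₑ ^ p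
      ≤ ∫⁻ ξ : ℝ, ENNReal.ofReal (|ξ| ^ (p - 2)) *
          (∫⁻ s in Ioo 0 (1 / (2 * |ξ|)), ENNReal.ofReal (R (β - s))) ^ p := by
        refine lintegral_mono_ae ?_
        filter_upwards [hne] with ξ hξ
        have := ft_bound R hR h0 β hz hm ξ hξ
        gcongr
    _ ≤ ENNReal.ofReal (4 / (p - 1)) * ∫⁻ s in Ioi (0 : ℝ), ENNReal.ofReal (R (β - s)) ^ p := h1
    _ ≤ ENNReal.ofReal (4 / (p - 1)) * ∫⁻ s : ℝ, ENNReal.ofReal (R (β - s)) ^ p := by
        gcongr
        exact Measure.restrict_le_self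
    _ = _ := by
        congr 1
        rw [lintegral_sub_left_eq_self (fun s => ENNReal.ofReal (R s) ^ p) β]
        refine lintegral_congr fun s => ?_
        rw [← ofReal_norm, Real.norm_of_nonneg (h0 s)]


theorem exists_beta (R : ℝ → ℝ) (hR : Integrable R) (h0 : ∀ x, 0 ≤ R x) (I : Set ℝ)
    (hI : I.OrdConnected) (hz : ∀ x, x ∉ I → R x = 0) (hm : MonotoneOn R I) :
    ∃ β : ℝ, (∀ x, β < x → R x = 0) ∧ ∀ x y, x ≤ y → y < β → R x ≤ R y := by
  by_cases hb : BddAbove I
  · rcases I.eq_empty_or_nonempty with he | hne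
    · have hz' : ∀ x, R x = 0 := fun x => hz x (by rw [he]; exact notMem_empty x)
      exact ⟨0, fun x _ => hz' x, fun x y _ _ => by rw [hz', hz']⟩
    · refine ⟨sSup I, fun x hx => hz x fun hxI => ?_, fun x y hxy hy => ?_⟩
      · exact absurd (le_csSup hb hxI) (not_le.2 hx)
      · by_cases hxI : x ∈ I
        · obtain ⟨z, hz1, hz2⟩ := exists_lt_of_lt_csSup hne hy
          have hyI : y ∈ I := hI.out hxI hz1 ⟨hxy, hz2.le⟩
          exact hm hxI hyI hxy
        · rw [hz x hxI]
          exact h0 y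
  · have hz' : ∀ x, R x = 0 := by
      intro x0
      by_contra hne
      have hpos : 0 < R x0 := lt_of_le_of_ne (h0 x0) (Ne.symm hne)
      have hx0 : x0 ∈ I := by
        by_contra h
        exact hne (hz x0 h)
      have hge : ∀ x ∈ Ici x0, R x0 ≤ R x := by
        intro x hx
        obtain ⟨z, hz1, hz2⟩ := not_bddAbove_iff.1 hb x
        have hxI : x ∈ I := hI.out hx0 hz1 ⟨hx, hz2.le⟩
        exact hm hx0 hxI hx
      have h1 : IntegrableOn (fun _ : ℝ => R x0) (Ici x0) := by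
        refine Integrable.mono' hR.integrableOn aestronglyMeasurable_const ?_
        refine (ae_restrict_iff' measurableSet_Ici).2 (Filter.Eventually.of_forall fun x hx => ?_)
        rw [Real.norm_of_nonneg (h0 x0)]
        exact hge x hx
      rw [integrableOn_const_iff] at h1
      rcases h1 with h2 | h2
      · exact hne (enorm_eq_zero.1 h2)
      · rw [Real.volume_Ici] at h2
        exact lt_irrefl _ h2
    exact ⟨0, fun x _ => hz' x, fun x y _ _ => by rw [hz', hz']⟩

theorem mono_piece (p : ℝ) (hp : 2 ≤ p) (R : ℝ → ℝ) (hR : Integrable R) (h0 : ∀ x, 0 ≤ R x)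
    (I : Set ℝ) (hI : I.OrdConnected) (hz : ∀ x, x ∉ I → R x = 0) (hm : MonotoneOn R I) :
    ∫⁻ ξ : ℝ, ENNReal.ofReal (|ξ| ^ (p - 2)) * ‖ft (fun x => (R x : ℂ)) ξ‖ₑ ^ p ≤
      ENNReal.ofReal (4 / (p - 1)) * ∫⁻ x, ‖R x‖ₑ ^ p := by
  obtain ⟨β, h1, h2⟩ := exists_beta R hR h0 I hI hz hm
  exact piece p hp R hR h0 β h1 h2

theorem anti_piece (p : ℝ) (hp : 2 ≤ p) (R : ℝ → ℝ) (hR : Integrable R) (h0 : ∀ x, 0 ≤ R x)
    (I : Set ℝ) (hI : I.OrdConnected) (hz : ∀ x, x ∉ I → R x = 0) (hm : AntitoneOn R I) :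
    ∫⁻ ξ : ℝ, ENNReal.ofReal (|ξ| ^ (p - 2)) * ‖ft (fun x => (R x : ℂ)) ξ‖ₑ ^ p ≤
      ENNReal.ofReal (4 / (p - 1)) * ∫⁻ x, ‖R x‖ₑ ^ p := by
  have hc : (Neg.neg ⁻¹' I).OrdConnected := by
    refine ⟨fun x hx y hy z hz => ?_⟩
    exact hI.out hy hx ⟨neg_le_neg hz.2, neg_le_neg hz.1⟩
  have h := mono_piece p hp (fun x => R (-x)) hR.comp_neg (fun x => h0 _) (Neg.neg ⁻¹' I) hc
    (fun x hx => hz _ hx) (fun x hx y hy hxy => hm hy hx (neg_le_neg hxy))
  have e1 : ∀ ξ : ℝ, ft (fun x => ((R (-x) : ℝ) : ℂ)) ξ = ft (fun x => (R x : ℂ)) (-ξ) := by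
    intro ξ
    unfold ft
    have := integral_neg_eq_self (fun x : ℝ => e (-(x * -ξ)) * (R x : ℂ)) volume
    rw [← this]
    refine integral_congr_ae (Filter.Eventually.of_forall fun x => ?_)
    simp only
    congr 2
    ring
  have e2 : ∫⁻ ξ : ℝ, ENNReal.ofReal (|ξ| ^ (p - 2)) *
      ‖ft (fun x => ((R (-x) : ℝ) : ℂ)) ξ‖ₑ ^ p =
      ∫⁻ ξ : ℝ, ENNReal.ofReal (|ξ| ^ (p - 2)) * ‖ft (fun x => (R x : ℂ)) ξ‖ₑ ^ p := by
    rw [← (Measure.measurePreserving_neg (volume : Measure ℝ)).lintegral_comp_emb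
      (MeasurableEquiv.neg ℝ).measurableEmbedding
      (fun ξ => ENNReal.ofReal (|ξ| ^ (p - 2)) * ‖ft (fun x => (R x : ℂ)) ξ‖ₑ ^ p)]
    refine lintegral_congr fun ξ => ?_
    rw [e1]
    change _ = ENNReal.ofReal (|-ξ| ^ (p - 2)) * ‖ft (fun x => (R x : ℂ)) (-ξ)‖ₑ ^ p
    rw [abs_neg]
  have e3 : ∫⁻ x : ℝ, ‖R (-x)‖ₑ ^ p = ∫⁻ x : ℝ, ‖R x‖ₑ ^ p := by
    rw [← (Measure.measurePreserving_neg (volume : Measure ℝ)).lintegral_comp_emb
      (MeasurableEquiv.neg ℝ).measurableEmbedding (fun x => ‖R x‖ₑ ^ p)]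
  rw [e2, e3] at h
  exact h

/-! ### the decomposition -/

/-- positive and negative parts on the pieces -/
noncomputable def Q {k : ℕ} (I : Fin k → Set ℝ) (F : ℝ → ℝ) (j : Fin k × Bool) : ℝ → ℝ :=
  (I j.1).indicator fun x => if j.2 then max (F x) 0 else max (-F x) 0

theorem f_thm : S_F := by
  intro k p hp
  have hp0 : 0 < p := by linarith
  have hp1 : 0 < p - 1 := by linarith
  refine ⟨(2 * k) ^ (p - 1) * (2 * k * (4 / (p - 1))) + 1, by positivity, ?_⟩
  rintro F ⟨I, hI, hdisj, hun, hmon⟩ hF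
  have hQ0 : ∀ j x, 0 ≤ Q I F j x := by
    intro j x
    refine indicator_nonneg (fun y _ => ?_) x
    split_ifs
    · exact le_max_right _ _
    · exact le_max_right _ _
  have hQz : ∀ j x, x ∉ I j.1 → Q I F j x = 0 := fun j x hx => indicator_of_notMem hx _
  have hQle : ∀ j x, Q I F j x ≤ |F x| := by
    intro j x
    by_cases hx : x ∈ I j.1
    · unfold Q
      rw [indicator_of_mem hx]
      split_ifs
      · exact max_le (le_abs_self _) (abs_nonneg _)
      · exact max_le (neg_le_abs _) (abs_nonneg _)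
    · rw [hQz j x hx]
      exact abs_nonneg _
  have hQi : ∀ j, Integrable (Q I F j) := by
    intro j
    unfold Q
    refine Integrable.indicator ?_ (hI j.1).measurableSet
    by_cases h : j.2 = true
    · simp only [h, if_true]
      exact hF.pos_part
    · simp only [h]
      exact hF.neg_part
  have hQe : ∀ j, ∫⁻ ξ : ℝ, ENNReal.ofReal (|ξ| ^ (p - 2)) *
      ‖ft (fun x => (Q I F j x : ℂ)) ξ‖ₑ ^ p ≤
      ENNReal.ofReal (4 / (p - 1)) * ∫⁻ x, ‖Q I F j x‖ₑ ^ p := by
    intro j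
    have hind : ∀ x ∈ I j.1, Q I F j x = if j.2 then max (F x) 0 else max (-F x) 0 :=
      fun x hx => indicator_of_mem hx _
    have hmono : MonotoneOn (Q I F j) (I j.1) ∨ AntitoneOn (Q I F j) (I j.1) := by
      rcases hmon j.1 with h | h
      · by_cases hj : j.2 = true
        · left
          intro x hx y hy hxy
          rw [hind x hx, hind y hy, if_pos hj, if_pos hj]
          exact max_le_max (h hx hy hxy) le_rfl
        · right
          intro x hx y hy hxy
          rw [hind x hx, hind y hy, if_neg hj, if_neg hj]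
          exact max_le_max (neg_le_neg (h hx hy hxy)) le_rfl
      · by_cases hj : j.2 = true
        · right
          intro x hx y hy hxy
          rw [hind x hx, hind y hy, if_pos hj, if_pos hj]
          exact max_le_max (h hx hy hxy) le_rfl
        · left
          intro x hx y hy hxy
          rw [hind x hx, hind y hy, if_neg hj, if_neg hj]
          exact max_le_max (neg_le_neg (h hx hy hxy)) le_rfl
    rcases hmono with h | h
    · exact mono_piece p hp _ (hQi j) (hQ0 j) (I j.1) (hI j.1) (hQz j) h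
    · exact anti_piece p hp _ (hQi j) (hQ0 j) (I j.1) (hI j.1) (hQz j) h
  -- pointwise decomposition
  have hdec : ∀ x, F x = ∑ i : Fin k, (Q I F (i, true) x - Q I F (i, false) x) := by
    intro x
    obtain ⟨i, hi⟩ : ∃ i, x ∈ I i := by
      have : x ∈ ⋃ i, I i := by rw [hun]; trivial
      exact mem_iUnion.1 this
    rw [Finset.sum_eq_single i]
    · unfold Q
      simp only
      rw [indicator_of_mem hi, indicator_of_mem hi]
      simp only [if_true, Bool.false_eq_true, if_false]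
      rcases le_total 0 (F x) with h | h
      · rw [max_eq_left h, max_eq_right (by linarith)]; ring
      · rw [max_eq_right h, max_eq_left (by linarith)]; ring
    · intro i' _ hi'
      have hx : x ∉ I i' := fun h => (Set.disjoint_left.1 (hdisj hi')) h hi
      rw [hQz (i', true) x hx, hQz (i', false) x hx, sub_zero]
    · intro h
      exact absurd (Finset.mem_univ i) h
  have hft : ∀ ξ, ft (fun x => (F x : ℂ)) ξ =
      ∑ i : Fin k, (ft (fun x => (Q I F (i, true) x : ℂ)) ξ -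
        ft (fun x => (Q I F (i, false) x : ℂ)) ξ) := by
    intro ξ
    have hi : ∀ j, Integrable fun x : ℝ => e (-(x * ξ)) * (Q I F j x : ℂ) := by
      intro j
      refine (hQi j).ofReal.bdd_mul (c := 1)
        (continuous_e.comp (by fun_prop)).aestronglyMeasurable
        (Filter.Eventually.of_forall fun x => ?_)
      rw [norm_e]
    unfold ft
    have e1 : ∀ i : Fin k, (∫ x : ℝ, e (-(x * ξ)) * (Q I F (i, true) x : ℂ)) -
        (∫ x : ℝ, e (-(x * ξ)) * (Q I F (i, false) x : ℂ)) =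
        ∫ x : ℝ, (e (-(x * ξ)) * (Q I F (i, true) x : ℂ) -
          e (-(x * ξ)) * (Q I F (i, false) x : ℂ)) := fun i =>
      (integral_sub (hi _) (hi _)).symm
    simp_rw [e1]
    have hsub : ∀ i : Fin k, Integrable fun x : ℝ => (e (-(x * ξ)) * (Q I F (i, true) x : ℂ) -
          e (-(x * ξ)) * (Q I F (i, false) x : ℂ)) := fun i => (hi _).sub (hi _)
    rw [← integral_finsetSum _ (fun i _ => hsub i)]
    refine integral_congr_ae (Filter.Eventually.of_forall fun x => ?_)
    simp only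
    rw [hdec x, Complex.ofReal_sum, Finset.mul_sum]
    refine Finset.sum_congr rfl fun i _ => ?_
    push_cast
    ring
  have hle : ∀ ξ, ‖ft (fun x => (F x : ℂ)) ξ‖ₑ ^ p ≤
      ENNReal.ofReal ((2 * k) ^ (p - 1)) *
        ∑ j : Fin k × Bool, ‖ft (fun x => (Q I F j x : ℂ)) ξ‖ₑ ^ p := by
    intro ξ
    have h1 : ‖ft (fun x => (F x : ℂ)) ξ‖ₑ ≤
        ∑ j : Fin k × Bool, ‖ft (fun x => (Q I F j x : ℂ)) ξ‖ₑ := by
      rw [hft ξ, Fintype.sum_prod_type]
      refine (enorm_sum_le _ _).trans (Finset.sum_le_sum fun i _ => ?_)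
      rw [Fintype.sum_bool]
      exact enorm_sub_le
    refine (ENNReal.rpow_le_rpow h1 hp0.le).trans ?_
    refine (ENNReal.rpow_sum_le_const_mul_sum_rpow Finset.univ _ (by linarith)).trans ?_
    gcongr
    rw [← ENNReal.ofReal_rpow_of_nonneg (by positivity) hp1.le]
    refine ENNReal.rpow_le_rpow (le_of_eq ?_) hp1.le
    rw [Finset.card_univ, Fintype.card_prod, Fintype.card_fin, Fintype.card_bool]
    rw [show (2 * (k : ℝ)) = ((k * 2 : ℕ) : ℝ) by push_cast; ring, ENNReal.ofReal_natCast]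
  have hmeas : ∀ j, Measurable fun ξ : ℝ => ENNReal.ofReal (|ξ| ^ (p - 2)) *
      ‖ft (fun x => (Q I F j x : ℂ)) ξ‖ₑ ^ p := by
    intro j
    have h1 : Measurable fun ξ : ℝ => ENNReal.ofReal (|ξ| ^ (p - 2)) := by fun_prop
    exact h1.mul (((continuous_ft (hQi j).ofReal).measurable.enorm).pow_const p)
  calc ∫⁻ ξ : ℝ, ENNReal.ofReal (|ξ| ^ (p - 2)) * ‖ft (fun x => (F x : ℂ)) ξ‖ₑ ^ p
      ≤ ∫⁻ ξ : ℝ, ENNReal.ofReal ((2 * k) ^ (p - 1)) * ∑ j : Fin k × Bool,
          ENNReal.ofReal (|ξ| ^ (p - 2)) * ‖ft (fun x => (Q I F j x : ℂ)) ξ‖ₑ ^ p := by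
        refine lintegral_mono fun ξ => ?_
        refine (mul_le_mul' le_rfl (hle ξ)).trans (le_of_eq ?_)
        rw [← Finset.mul_sum]
        ring
    _ = ENNReal.ofReal ((2 * k) ^ (p - 1)) * ∑ j : Fin k × Bool, ∫⁻ ξ : ℝ,
          ENNReal.ofReal (|ξ| ^ (p - 2)) * ‖ft (fun x => (Q I F j x : ℂ)) ξ‖ₑ ^ p := by
        rw [lintegral_const_mul' _ _ ENNReal.ofReal_ne_top, lintegral_finsetSum _ fun j _ => hmeas j]
    _ ≤ ENNReal.ofReal ((2 * k) ^ (p - 1)) * ∑ j : Fin k × Bool,
          ENNReal.ofReal (4 / (p - 1)) * ∫⁻ x, ‖F x‖ₑ ^ p := by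
        gcongr with j _
        refine (hQe j).trans ?_
        gcongr with x
        rw [← ofReal_norm, ← ofReal_norm, Real.norm_of_nonneg (hQ0 j x)]
        exact ENNReal.ofReal_le_ofReal (hQle j x)
    _ = ENNReal.ofReal ((2 * k) ^ (p - 1) * (2 * k * (4 / (p - 1)))) * ∫⁻ x, ‖F x‖ₑ ^ p := by
        rw [Finset.sum_const, Finset.card_univ, Fintype.card_prod, Fintype.card_fin,
          Fintype.card_bool, nsmul_eq_mul, ← mul_assoc, ← mul_assoc,
          ENNReal.ofReal_mul (by positivity), ENNReal.ofReal_mul (by positivity)]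
        congr 1
        rw [mul_assoc, show (2 * (k : ℝ)) = ((k * 2 : ℕ) : ℝ) by push_cast; ring,
          ENNReal.ofReal_natCast]
    _ ≤ ENNReal.ofReal ((2 * k) ^ (p - 1) * (2 * k * (4 / (p - 1))) + 1) *
          ∫⁻ x, ‖F x‖ₑ ^ p := by
        gcongr
        linarith

end Pool.Agent.TH89.F
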