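import Mathlib
import Pool.Agent.TH109.M.Defs

set_option autoImplicit false
open scoped Classical
namespace Pool.Agent.TH109.M.J
open Pool.Agent.Helper943.LM (UA wpow)
open Pool.Agent.TH109.M
variable {G : Type} [Group G]

open Module TensorProduct

/-- In an artinian ring, if no `θ^N - 1` is nilpotent, then there is a maximal ideal which contains
none of them. -/
lemma J1555_max {R : Type} [CommRing R] [IsArtinianRing R] (θ : R)
    (hθ : ∀ N : ℕ, 0 < N → ¬ IsNilpotent (θ ^ N - 1)) :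
    ∃ m : Ideal R, m.IsMaximal ∧ ∀ N : ℕ, 0 < N → θ ^ N - 1 ∉ m := by
  by_contra hcon
  push Not at hcon
  have h1 : ∀ m : MaximalSpectrum R, ∃ N : ℕ, 0 < N ∧ θ ^ N - 1 ∈ m.asIdeal :=
    fun m => hcon m.asIdeal m.isMaximal
  choose N hN hNm using h1
  have : Fintype (MaximalSpectrum R) := Fintype.ofFinite _
  refine hθ (∏ m, N m) (Finset.prod_pos fun m _ => hN m) ?_
  rw [nilpotent_iff_mem_prime]
  intro J hJ
  have hJm : J.IsMaximal := IsArtinianRing.isMaximal_of_isPrime J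
  let mJ : MaximalSpectrum R := ⟨J, hJm⟩
  obtain ⟨c, hc⟩ : N mJ ∣ ∏ m, N m := Finset.dvd_prod_of_mem N (Finset.mem_univ mJ)
  have h2 := hNm mJ
  have h3 : θ ^ N mJ - 1 ∣ (θ ^ N mJ) ^ c - 1 := by
    simpa using sub_dvd_pow_sub_pow (θ ^ N mJ) 1 c
  rw [hc, pow_mul]
  exact Ideal.mem_of_dvd J h3 h2

lemma J1555_nf {R L : Type} [CommRing R] [Algebra ℚ R] [FiniteDimensional ℚ R] [Field L]
    [CharZero L] (g : R →+ L) (hg : Function.Surjective g) : NumberField L :=
  { to_charZero := inferInstance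
    to_finiteDimensional := Module.Finite.of_surjective g.toRatLinearMap hg }

lemma J1555_gen {R : Type} [CommRing R] [Algebra ℚ R] [FiniteDimensional ℚ R]
    {V : Type} [AddCommGroup V] [Module ℚ V] [Module R V] [IsScalarTower ℚ R V]
    [FiniteDimensional ℚ V]
    (hf : ∀ r : R, (∀ v : V, r • v = 0) → r = 0) (θ : R)
    (hθ : ∀ N : ℕ, 0 < N → ¬ IsNilpotent (θ ^ N - 1)) :
    ∃ (L : Type) (_ : Field L) (_ : NumberField L) (π : R →+* L) (φ : V →+ L),
      Function.Surjective φ ∧ (∀ r v, φ (r • v) = π r * φ v) ∧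
      ∀ N : ℕ, 0 < N → π θ ^ N ≠ 1 := by
  have hart : IsArtinianRing R := IsArtinianRing.of_finite ℚ R
  obtain ⟨m, hm, hmθ⟩ := J1555_max θ hθ
  let _ : Field (R ⧸ m) := Ideal.Quotient.field m
  have hchar : CharZero (R ⧸ m) := algebraRat.charZero (R ⧸ m)
  have hnf : NumberField (R ⧸ m) := by
    exact J1555_nf (Ideal.Quotient.mk m).toAddMonoidHom Ideal.Quotient.mk_surjective
  have hfin : Module.Finite R V := Module.Finite.of_restrictScalars_finite ℚ R V
  -- Nakayama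
  have hne : (m • (⊤ : Submodule R V)) ≠ ⊤ := by
    intro htop
    obtain ⟨r, hr1, hr2⟩ := Submodule.exists_sub_one_mem_and_smul_eq_zero_of_fg_of_le_smul m
      (⊤ : Submodule R V) (Module.Finite.fg_top) (by rw [htop])
    have hr0 : r = 0 := hf r (fun v => hr2 v trivial)
    rw [hr0, zero_sub] at hr1
    exact hm.ne_top ((Ideal.eq_top_iff_one m).2 (by simpa using m.neg_mem hr1))
  have hnt : Nontrivial (V ⧸ (m • (⊤ : Submodule R V))) := Submodule.Quotient.nontrivial_iff.2 hne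
  obtain ⟨u, hu⟩ := exists_ne (0 : V ⧸ (m • (⊤ : Submodule R V)))
  have hdual : ∃ f : Module.Dual (R ⧸ m) (V ⧸ (m • (⊤ : Submodule R V))), f u ≠ 0 := by
    by_contra hcon
    push Not at hcon
    exact hu ((Module.forall_dual_apply_eq_zero_iff (R ⧸ m) u).1 hcon)
  obtain ⟨f, hfu⟩ := hdual
  obtain ⟨u', rfl⟩ := Submodule.mkQ_surjective _ u
  let φ : V →+ (R ⧸ m) := f.toAddMonoidHom.comp (m • (⊤ : Submodule R V)).mkQ.toAddMonoidHom
  have hφ : ∀ r v, φ (r • v) = (Ideal.Quotient.mk m r) * φ v := by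
    intro r v
    change f ((m • (⊤ : Submodule R V)).mkQ (r • v)) = _ * f ((m • (⊤ : Submodule R V)).mkQ v)
    rw [← smul_eq_mul, ← f.map_smul]
    rfl
  refine ⟨R ⧸ m, inferInstance, hnf, Ideal.Quotient.mk m, φ, ?_, hφ, ?_⟩
  · intro y
    obtain ⟨r, hr⟩ := Ideal.Quotient.mk_surjective (y * (φ u')⁻¹)
    refine ⟨r • u', ?_⟩
    rw [hφ, hr]
    have : φ u' ≠ 0 := hfu
    field_simp
  · intro N hN h
    apply hmθ N hN
    rw [← Ideal.Quotient.eq_zero_iff_mem, map_sub, map_pow, h, map_one, sub_self]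

theorem exists_char {M : Type} [AddCommGroup M] (B : MB G M) (h : FinDimS B) (g0 : G)
    (hg : ∀ N : ℕ, 0 < N → ∀ k : ℕ, ∃ a : M, ∀ n : ℕ, 0 < n →
      n • (((B.ρ g0) ^ N - 1) ^ k) a ≠ 0) :
    ∃ (L : Type) (_ : Field L) (_ : NumberField L) (χ : G →* Lˣ) (x : M →+ L),
      (∀ g a, x (B.ρ g a) = (χ g : L) * x a) ∧ Submodule.span ℚ (Set.range x) = ⊤ ∧
      ∀ N : ℕ, 0 < N → χ g0 ^ N ≠ 1 := by
  -- the rational module and the operators
  let j : M →+ (ℚ ⊗[ℤ] M) := (TensorProduct.mk ℤ ℚ M 1).toAddMonoidHom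
  have hj : ∀ a, j a = 1 ⊗ₜ[ℤ] a := fun a => rfl
  let ρV : AddMonoid.End M →+* Module.End ℚ (ℚ ⊗[ℤ] M) :=
    (Module.End.baseChangeHom ℤ ℚ M).toRingHom.comp (addMonoidEndRingEquivInt M).toRingHom
  have hρ : ∀ (f : AddMonoid.End M) a, ρV f (j a) = j (f a) := by
    intro f a
    rfl
  have hspan : Submodule.span ℚ (Set.range j) = ⊤ := by
    rw [eq_top_iff]
    rintro z -
    induction z using TensorProduct.induction_on with
    | zero => exact Submodule.zero_mem _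
    | tmul q a =>
      have : q ⊗ₜ[ℤ] a = q • j a := by
        rw [hj, TensorProduct.smul_tmul', smul_eq_mul, mul_one]
      rw [this]
      exact Submodule.smul_mem _ _ (Submodule.subset_span ⟨a, rfl⟩)
    | add z w hz hw => exact Submodule.add_mem _ hz hw
  have hfd : FiniteDimensional ℚ (ℚ ⊗[ℤ] M) :=
    h ℚ (ℚ ⊗[ℤ] M) j (fun g => ρV (B.ρ g)) hspan (fun g a => (hρ _ _).symm)
  have htor : ∀ a, j a = 0 → ∃ n : ℕ, 0 < n ∧ n • a = 0 := by
    intro a ha
    have hloc : IsLocalizedModule (nonZeroDivisors ℤ) (TensorProduct.mk ℤ ℚ M 1) :=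
      (isLocalizedModule_iff_isBaseChange (nonZeroDivisors ℤ) ℚ _).2
        (TensorProduct.isBaseChange ℤ M ℚ)
    obtain ⟨s, hs⟩ := (IsLocalizedModule.eq_zero_iff (nonZeroDivisors ℤ)
      (TensorProduct.mk ℤ ℚ M 1)).1 ha
    have hs0 : (s : ℤ) ≠ 0 := nonZeroDivisors.coe_ne_zero s
    refine ⟨(s : ℤ).natAbs, Int.natAbs_pos.2 hs0, ?_⟩
    have hs' : (s : ℤ) • a = 0 := hs
    rcases Int.natAbs_eq (s : ℤ) with h1 | h1
    · rw [h1] at hs'
      exact_mod_cast hs'
    · rw [h1, neg_smul, neg_eq_zero] at hs'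
      exact_mod_cast hs'
  -- commutativity
  have hcomm : ∀ g g' : G, B.ρ g * B.ρ g' = B.ρ g' * B.ρ g := by
    intro g g'
    obtain ⟨c, hc⟩ := B.comm g g'
    have h1 : g * g' = B.i c * (g' * g) := by rw [hc]; group
    have h2 : B.ρ (B.i c) = 1 := by
      ext a
      apply B.i_inj
      rw [← B.conj]
      have h3 : B.i c * B.i a = B.i a * B.i c := by
        rw [← B.i_add, ← B.i_add, add_comm]
      rw [h3, mul_inv_cancel_right]
      rfl
    rw [← map_mul, h1, map_mul, h2, one_mul, map_mul]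
  let R : Subalgebra ℚ (Module.End ℚ (ℚ ⊗[ℤ] M)) :=
    Algebra.adjoin ℚ (Set.range (fun g : G => ρV (B.ρ g)))
  have hRc : IsMulCommutative R := by
    apply Algebra.isMulCommutative_adjoin
    rintro _ ⟨g, rfl⟩ _ ⟨g', rfl⟩
    change ρV (B.ρ g) * ρV (B.ρ g') = ρV (B.ρ g') * ρV (B.ρ g)
    rw [← map_mul, hcomm, map_mul]
  let _ : CommRing R := { (inferInstance : Ring R) with mul_comm := hRc.is_comm.comm }
  have hRfd : FiniteDimensional ℚ R := inferInstance
  let r : G →* R :=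
    { toFun := fun g => ⟨ρV (B.ρ g), Algebra.subset_adjoin ⟨g, rfl⟩⟩
      map_one' := Subtype.ext (by simp)
      map_mul' := fun g g' => Subtype.ext (by simp) }
  have hr : ∀ g v, (r g) • v = ρV (B.ρ g) v := fun g v => rfl
  obtain ⟨L, fL, nL, π, φ, hφs, hφ, hπ⟩ := J1555_gen (R := R) (V := ℚ ⊗[ℤ] M)
    (fun a ha => Subtype.ext (LinearMap.ext fun v => ha v)) (r g0) (by
      rintro N hN ⟨k, hk⟩
      obtain ⟨a, ha⟩ := hg N hN k
      have h1 : ρV (((B.ρ g0) ^ N - 1) ^ k) = 0 := by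
        have h2 : ((r g0 ^ N - 1) ^ k : R) = (0 : R) := hk
        have h3 := congrArg (Subtype.val) h2
        simpa [r] using h3
      have h4 : j ((((B.ρ g0) ^ N - 1) ^ k) a) = 0 := by
        rw [← hρ, h1]; rfl
      obtain ⟨n, hn, hn0⟩ := htor _ h4
      exact ha n hn hn0)
  refine ⟨L, fL, nL, ((π : R →* L).comp r).toHomUnits, φ.comp j, ?_, ?_, ?_⟩
  · intro g a
    change φ (j (B.ρ g a)) = π (r g) * φ (j a)
    rw [← hφ, hr, hρ]
  · have h1 : Set.range (φ.comp j) = φ.toRatLinearMap '' (Set.range j) := by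
      rw [← Set.range_comp]; rfl
    rw [h1, Submodule.span_image, hspan, Submodule.map_top, LinearMap.range_eq_top]
    exact hφs
  · intro N hN h1
    apply hπ N hN
    have h2 := congrArg (Units.val) h1
    simpa using h2

end Pool.Agent.TH109.M.J
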