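import Mathlib
import Pool.Agent.TH109.M.Defs

set_option autoImplicit false
open scoped Classical
namespace Pool.Agent.TH109.M.J
open Pool.Agent.Helper943.LM (UA wpow)
open Pool.Agent.TH109.M
variable {G : Type} [Group G]

open NumberField Module

/-- the product of the archimedean absolute values over all embeddings -/
lemma J1556_prod_embed {L : Type} [Field L] [NumberField L] (x : L) :
    ∏ σ : L →+* ℂ, ‖σ x‖ = |((Algebra.norm ℚ x : ℚ) : ℝ)| := by
  rw [Fintype.prod_equiv (RingHom.equivRatAlgHom L ℂ) (fun f => ‖f x‖)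
      (fun φ => ‖φ x‖) fun _ => by simp [RingHom.equivRatAlgHom_apply]]
  rw [← norm_prod]
  rw [← Algebra.norm_eq_prod_embeddings ℚ ℂ x]
  simp

lemma J1556_int {L : Type} [Field L] [NumberField L] (x : L)
    (h : ∀ w : FinitePlace L, w x ≤ 1) : IsIntegral ℤ x := by
  have h1 : x ∈ (algebraMap (𝓞 L) L).range := by
    apply IsDedekindDomain.HeightOneSpectrum.mem_integers_of_valuation_le_one
    intro v
    have h2 := h (FinitePlace.mk v)
    rw [FinitePlace.mk_apply, FinitePlace.norm_embedding'] at h2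
    have h3 := (WithZeroMulInt.toNNReal_le_one_iff
      (m := v.valuation L x) (HeightOneSpectrum.one_lt_absNorm_nnreal v)).1 (by exact_mod_cast h2)
    exact h3
  obtain ⟨y, rfl⟩ := h1
  exact y.isIntegral_coe

lemma J1556_basis {L : Type} [Field L] [NumberField L] {m : ℕ} (e : Fin m ≃ (L →+* ℂ))
    (T : Set L) (hT : Submodule.span ℚ T = ⊤) : ∃ b : Fin m → L, (∀ j, b j ∈ T) ∧
        (Matrix.of fun k j => e k (b j)).det ≠ 0 := by
  obtain ⟨b, hbT, hbs, hbi⟩ := exists_linearIndependent ℚ T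
  have hsp : ⊤ ≤ Submodule.span ℚ (Set.range ((↑) : b → L)) := by
    rw [Subtype.range_coe, hbs, hT]
  let B : Basis b ℚ L := Basis.mk hbi hsp
  have : Fintype b := FiniteDimensional.fintypeBasisIndex B
  have hc : Fintype.card (Fin m) = Fintype.card b := by
    rw [Fintype.card_congr e, NumberField.Embeddings.card L ℂ, Module.finrank_eq_card_basis B]
  let f : b ≃ Fin m := (Fintype.equivOfCardEq hc).symm
  let B' : Basis (Fin m) ℚ L := B.reindex f
  refine ⟨B', fun j => ?_, ?_⟩
  · have : B' j = ((f.symm j : b) : L) := by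
      simp [B', B]
    rw [this]
    exact hbT (f.symm j).2
  · intro h
    have h1 := Algebra.discr_not_zero_of_basis ℚ B'
    have h2 := Algebra.discr_eq_det_embeddingsMatrixReindex_pow_two ℚ ℂ B'
      (e.trans (RingHom.equivRatAlgHom L ℂ))
    have h3 : Algebra.embeddingsMatrixReindex ℚ ℂ B' (e.trans (RingHom.equivRatAlgHom L ℂ)) =
        (Matrix.of fun k j => e k (B' j)).transpose := by
      ext i j
      simp [Algebra.embeddingsMatrixReindex, Algebra.embeddingsMatrix]
    rw [h3, Matrix.det_transpose, h] at h2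
    simp at h2
    exact h1 h2

theorem places {L : Type} [Field L] [NumberField L] (S : Finset G)
    (hS : Subgroup.closure (S : Set G) = ⊤) (χ : G →* Lˣ) (g0 : G)
    (h0 : ∀ N : ℕ, 0 < N → χ g0 ^ N ≠ 1) :
    ∃ (m s : ℕ) (σ : Fin m → L →+* ℂ) (v : Fin s → AbsoluteValue L ℝ), 0 < m ∧
      (∀ i, IsNonarchimedean (v i)) ∧
      (∀ g, (∏ k, ‖σ k (χ g : L)‖) * ∏ i, v i (χ g : L) = 1) ∧
      (∀ i, ∃ q, 1 < v i (χ q : L)) ∧ (s = 0 → ∃ k, 1 < ‖σ k (χ g0 : L)‖) ∧
      ∀ T : Set L, Submodule.span ℚ T = ⊤ → ∃ b : Fin m → L, (∀ j, b j ∈ T) ∧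
        (Matrix.of fun k j => σ k (b j)).det ≠ 0 := by
  classical
  let e : Fin (Fintype.card (L →+* ℂ)) ≃ (L →+* ℂ) := (Fintype.equivFin (L →+* ℂ)).symm
  let P : Set (FinitePlace L) :=
    ⋃ s ∈ S, Function.mulSupport (fun w : FinitePlace L => w (χ s : L))
  have hP : P.Finite := Set.Finite.biUnion S.finite_toSet
    (fun s _ => FinitePlace.hasFiniteMulSupport (χ s).ne_zero)
  have hout : ∀ w : FinitePlace L, w ∉ P → ∀ g, w (χ g : L) = 1 := by
    intro w hw g
    have hg : g ∈ Subgroup.closure (S : Set G) := by rw [hS]; trivial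
    induction hg using Subgroup.closure_induction with
    | mem x hx => by_contra h; exact hw (Set.mem_biUnion hx h)
    | one => simp
    | mul x y _ _ hx hy => simp [hx, hy]
    | inv x _ hx => simp [hx]
  let f : Fin (hP.toFinset.card) ≃ hP.toFinset := hP.toFinset.equivFin.symm
  have hprod : ∀ g, (∏ k, ‖e k (χ g : L)‖) * ∏ i, (f i).1.1 (χ g : L) = 1 := by
    intro g
    have h1 : (∏ k, ‖e k (χ g : L)‖) = |((Algebra.norm ℚ (χ g : L) : ℚ) : ℝ)| := by
      rw [← J1556_prod_embed]
      exact Fintype.prod_equiv e _ _ (fun _ => rfl)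
    have h2 : (∏ i, (f i).1.1 (χ g : L)) = ∏ᶠ w : FinitePlace L, w (χ g : L) := by
      rw [finprod_eq_prod_of_mulSupport_subset (s := hP.toFinset)]
      · rw [← Finset.prod_coe_sort hP.toFinset (fun w : FinitePlace L => w (χ g : L))]
        exact Fintype.prod_equiv f _ _ (fun _ => rfl)
      · intro w hw
        by_contra h
        exact hw (hout w (by simpa using h) g)
    rw [h1, h2, FinitePlace.prod_eq_inv_abs_norm (χ g).ne_zero]
    have h3 : (Algebra.norm ℚ (χ g : L)) ≠ 0 := by
      simp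
    have h4 : |((Algebra.norm ℚ (χ g : L) : ℚ) : ℝ)| ≠ 0 := by
      rw [abs_ne_zero]; exact_mod_cast h3
    push_cast
    field_simp
  refine ⟨Fintype.card (L →+* ℂ), hP.toFinset.card, fun k => e k, fun i => (f i).1.1,
    Fintype.card_pos, ?_, hprod, ?_, ?_, fun T hT => J1556_basis e T hT⟩
  · intro i x y
    exact FinitePlace.add_le (f i).1 x y
  · intro i
    have hi : (f i).1 ∈ P := hP.mem_toFinset.1 (f i).2
    obtain ⟨s, hs, hw⟩ := Set.mem_iUnion₂.1 hi
    have hw' : (f i).1.1 (χ s : L) ≠ 1 := hw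
    rcases lt_or_gt_of_ne hw' with h | h
    · refine ⟨s⁻¹, ?_⟩
      have hpos : 0 < (f i).1.1 (χ s : L) := (f i).1.1.pos (χ s).ne_zero
      rw [map_inv, Units.val_inv_eq_inv_val, map_inv₀]
      exact (one_lt_inv₀ hpos).2 h
    · exact ⟨s, h⟩
  · intro hs
    by_contra hcon
    push Not at hcon
    have hPe : hP.toFinset = ∅ := Finset.card_eq_zero.1 hs
    have h1 : ∀ w : FinitePlace L, w (χ g0 : L) ≤ 1 := by
      intro w
      refine (hout w ?_ g0).le
      intro hw
      have : w ∈ hP.toFinset := by simpa using hw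
      rw [hPe] at this
      simp at this
    have h2 := J1556_int _ h1
    obtain ⟨n, hn, hn1⟩ := NumberField.Embeddings.pow_eq_one_of_norm_le_one L ℂ
      (χ g0).ne_zero h2 (fun φ => by
        have := hcon (e.symm φ)
        simpa using this)
    exact h0 n hn (Units.ext (by simpa using hn1))

end Pool.Agent.TH109.M.J
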