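import Pool.Agent.TH605.AP.WF

/-! Ping-pong (job 2851, helper89) -/

set_option autoImplicit false
set_option linter.unusedVariables false

open Set Topology Filter

namespace Pool.Agent.TH89.J2851

open Pool.Agent.TH605.AP

/-- the word of a letter -/
def attr (t : Option (List (Fin 4))) (ε : Bool) : List (Fin 4) := if ε then pw t else mw t

theorem gw_attr (t : Option (List (Fin 4))) (ε : Bool) : gw t (attr t ε) := by
  cases ε
  · left; rfl
  · right; rfl

theorem getLast_mem {v : List (Fin 4)} (hv : v ≠ []) : v.getLast? = some (v.getLastD 0) := by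
  rw [List.getLastD_eq_getLast?]
  cases h : v.getLast? with
  | none => exact absurd (List.getLast?_eq_none_iff.1 h) hv
  | some a => rfl

theorem red_attr {T : Set (Option (List (Fin 4)))} (hT : Good T) {t : Option (List (Fin 4))}
    (ht : t ∈ T) (ε : Bool) : IsRed (attr t ε) := by
  cases t with
  | none =>
    cases ε
    · change IsRed [1]
      unfold IsRed
      simp
    · change IsRed [3, 1, 0, 1]
      unfold IsRed
      simp
  | some v =>
    have hv := hT.ne v ht
    have hr := hT.red v ht
    unfold IsRed at hr ⊢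
    have e1 : ∀ l : Fin 4, l ≠ l + 1 := by decide
    have e2 : ∀ l : Fin 4, l ≠ l + 2 := by decide
    have e3 : ∀ l : Fin 4, l + 2 ≠ l + 1 := by decide
    cases ε
    · change List.IsChain (· ≠ ·) (v ++ [v.getLastD 0 + 1])
      refine hr.append (List.isChain_singleton _) ?_
      intro x hx y hy
      rw [getLast_mem hv] at hx
      simp only [Option.mem_def, Option.some.injEq, List.head?_cons] at hx hy
      rw [← hx, ← hy]
      exact e1 _
    · change List.IsChain (· ≠ ·) (v ++ [v.getLastD 0 + 2, v.getLastD 0 + 1])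
      refine hr.append (by simp [e3]) ?_
      intro x hx y hy
      rw [getLast_mem hv] at hx
      simp only [Option.mem_def, Option.some.injEq, List.head?_cons] at hx hy
      rw [← hx, ← hy]
      exact e2 _

theorem attr_ne_nil (t : Option (List (Fin 4))) (ε : Bool) : attr t ε ≠ [] := by
  cases t <;> cases ε <;> simp [attr, pw, mw]

theorem incomp {T : Set (Option (List (Fin 4)))} (hT : Good T)
    {t t' : Option (List (Fin 4))} (ht : t ∈ T) (ht' : t' ∈ T) {ε ε' : Bool}
    (hne : ¬ (t = t' ∧ ε = ε')) : ¬ attr t ε <+: attr t' ε' := by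
  by_cases htt : t = t'
  · subst htt
    have hε : ε ≠ ε' := fun h => hne ⟨rfl, h⟩
    have e3 : ∀ l : Fin 4, l + 2 ≠ l + 1 := by decide
    cases t with
    | none =>
      cases ε <;> cases ε' <;> first | exact absurd rfl hε | decide
    | some v =>
      cases ε <;> cases ε'
      · exact absurd rfl hε
      · change ¬ (v ++ [v.getLastD 0 + 1]) <+: (v ++ [v.getLastD 0 + 2, v.getLastD 0 + 1])
        rw [List.prefix_append_right_inj]
        intro h
        rw [List.cons_prefix_cons] at h
        exact e3 _ h.1.symm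
      · change ¬ (v ++ [v.getLastD 0 + 2, v.getLastD 0 + 1]) <+: (v ++ [v.getLastD 0 + 1])
        rw [List.prefix_append_right_inj]
        intro h
        have := h.length_le
        simp at this
      · exact absurd rfl hε
  · exact hT.anti t ht t' ht' htt _ _ (gw_attr t ε) (gw_attr t' ε')

/-- the value of a letter -/
noncomputable def val (t : Option (List (Fin 4))) (ε : Bool) :
    Matrix.GeneralLinearGroup (Fin 2) ℂ := cond ε (gen t) (gen t)⁻¹

theorem val_maps
    (hmaps : ∀ (t : Option (List (Fin 4))) (z : OnePoint ℂ),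
      (gen t • z ∈ DL (pw t) ↔ z ∉ DLI (mw t)) ∧ (gen t • z ∈ DLI (pw t) ↔ z ∉ DL (mw t)))
    (t : Option (List (Fin 4))) (ε : Bool) (z : OnePoint ℂ) (hz : z ∉ DLI (attr t (!ε))) :
    val t ε • z ∈ DL (attr t ε) := by
  cases ε
  · change z ∉ DLI (pw t) at hz
    change (gen t)⁻¹ • z ∈ DL (mw t)
    have h := (hmaps t ((gen t)⁻¹ • z)).2
    rw [smul_inv_smul] at h
    by_contra hcon
    exact hz (h.2 hcon)
  · change z ∉ DLI (mw t) at hz
    change gen t • z ∈ DL (pw t)
    exact (hmaps t z).1.2 hz

theorem main (W : WF) (K : KF)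
    (hmaps : ∀ (t : Option (List (Fin 4))) (z : OnePoint ℂ),
      (gen t • z ∈ DL (pw t) ↔ z ∉ DLI (mw t)) ∧ (gen t • z ∈ DLI (pw t) ↔ z ∉ DL (mw t)))
    (T : Set (Option (List (Fin 4)))) (hT : Good T) (L : List (T × Bool))
    (hL : FreeGroup.IsReduced L) :
    (∃ n : ℤ, (L.map fun x => val x.1.1 x.2).prod = gen none ^ n) ∨
      ∃ a L', L = a :: L' ∧ (fun w : OnePoint ℂ => (L.map fun x => val x.1.1 x.2).prod • w) '' KK ⊆
        DL (attr a.1.1 a.2) := by
  induction L with
  | nil =>
    left
    exact ⟨0, by simp⟩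
  | cons a L ih =>
    have hL' : FreeGroup.IsReduced L := by
      unfold FreeGroup.IsReduced at hL ⊢
      exact hL.tail
    rw [List.map_cons, List.prod_cons]
    rcases ih hL' with ⟨n, hn⟩ | ⟨b, L', hbL, hb⟩
    · obtain ⟨⟨t, ht⟩, ε⟩ := a
      cases t with
      | none =>
        left
        cases ε
        · refine ⟨-1 + n, ?_⟩
          rw [hn, zpow_add, zpow_neg_one]
          rfl
        · refine ⟨1 + n, ?_⟩
          rw [hn, zpow_add, zpow_one]
          rfl
      | some v =>
        right
        refine ⟨_, _, rfl, ?_⟩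
        rintro _ ⟨z, hz, rfl⟩
        simp only
        rw [hn, mul_smul]
        apply val_maps hmaps
        intro h1
        have h2 : (gen none ^ n) • z ∈ KK := (K.gen_KK n z).2 hz
        have h3 := W.DLI_subset _ h1
        have h4 : v <+: attr (some v) (!ε) := by
          cases ε
          · exact List.prefix_append _ _
          · exact List.prefix_append _ _
        have h5 := W.DL_prefix v _ (red_attr hT ht _) h4 h3
        exact Set.disjoint_left.1 (hT.avoid v ht) h5 h2
    · right
      refine ⟨_, _, rfl, ?_⟩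
      rintro _ ⟨z, hz, rfl⟩
      simp only
      rw [mul_smul]
      apply val_maps hmaps
      intro h1
      have h2 : (L.map fun x => val x.1.1 x.2).prod • z ∈ DL (attr b.1.1 b.2) :=
        hb ⟨z, hz, rfl⟩
      have hab : a.1 = b.1 → a.2 = b.2 := by
        rw [hbL] at hL
        exact (FreeGroup.isReduced_cons_cons.1 hL).1
      have hne1 : ¬ (a.1.1 = b.1.1 ∧ (!a.2) = b.2) := by
        rintro ⟨h3, h4⟩
        have h5 := hab (Subtype.ext h3)
        rw [← h5] at h4
        cases h6 : a.2 <;> rw [h6] at h4 <;> cases h4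
      have hne2 : ¬ (b.1.1 = a.1.1 ∧ b.2 = (!a.2)) := fun h => hne1 ⟨h.1.symm, h.2.symm⟩
      have hdis := W.DL_disj (attr a.1.1 (!a.2)) (attr b.1.1 b.2) (red_attr hT a.1.2 _)
        (red_attr hT b.1.2 _) (incomp hT a.1.2 b.1.2 hne1) (incomp hT b.1.2 a.1.2 hne2)
      exact Set.disjoint_left.1 hdis h1 h2

theorem pingpong (B : BF) (W : WF) (K : KF)
    (hmaps : ∀ (t : Option (List (Fin 4))) (z : OnePoint ℂ),
      (gen t • z ∈ DL (pw t) ↔ z ∉ DLI (mw t)) ∧ (gen t • z ∈ DLI (pw t) ↔ z ∉ DL (mw t)))
    (T : Set (Option (List (Fin 4)))) (hT : Good T)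
    (γ : Matrix.GeneralLinearGroup (Fin 2) ℂ) (hγ : γ ∈ GT T) :
    (∃ n : ℤ, γ = gen none ^ n) ∨ ∃ i, (fun w : OnePoint ℂ => γ • w) '' KK ⊆ Disc i := by
  classical
  have h1 : γ ∈ (FreeGroup.lift (fun t : T => gen t.1)).range := by
    rw [FreeGroup.range_lift_eq_closure]
    unfold GT at hγ
    rw [← Set.image_eq_range]
    exact hγ
  obtain ⟨x, hx⟩ := h1
  have h2 : γ = (x.toWord.map fun y : T × Bool => val y.1.1 y.2).prod := by
    rw [← hx]
    conv_lhs => rw [← FreeGroup.mk_toWord (x := x)]
    rw [FreeGroup.lift_mk]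
    rfl
  rw [h2]
  rcases main W K hmaps T hT x.toWord FreeGroup.isReduced_toWord with h | ⟨a, L', hL, h⟩
  · exact Or.inl h
  · right
    have hne := attr_ne_nil a.1.1 a.2
    have hred := red_attr hT a.1.2 a.2
    cases hw : attr a.1.1 a.2 with
    | nil => exact absurd hw hne
    | cons i w =>
      rw [hw] at hred h
      exact ⟨i, h.trans (W.DL_head i w hred)⟩

end Pool.Agent.TH89.J2851
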