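import Pool.Agent.TH149.WR.Key

set_option autoImplicit false

namespace Pool.Agent.TH89.J1080

open Finset MeasureTheory Filter Topology Pool.Agent.TH149.WR

variable {m : ℕ → ℕ} {h : ℕ}

/-- the set of the points where the random graph is `H` -/
def Gd (m : ℕ → ℕ) (Q : ∀ ℓ, SimpleGraph (Fin (m ℓ))) (H : SimpleGraph (Fin h)) :
    Set (Fin h → unitInterval) :=
  {x | ∀ i j : Fin h, i < j → (WAdj m Q (x i) (x j) ↔ H.Adj i j)}

theorem WAdj_symm (Q : ∀ ℓ, SimpleGraph (Fin (m ℓ))) {x y : unitInterval} (hxy : WAdj m Q x y) :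
    WAdj m Q y x := by
  obtain ⟨ℓ, a, b, h1, h2, h3⟩ := hxy
  exact ⟨ℓ, b, a, h2, h1, h3.symm⟩

theorem measurableSet_Gd (Q : ∀ ℓ, SimpleGraph (Fin (m ℓ))) (H : SimpleGraph (Fin h)) :
    MeasurableSet (Gd m Q H) := by
  have : Gd m Q H = ⋂ i : Fin h, ⋂ j : Fin h, {x | i < j → (WAdj m Q (x i) (x j) ↔ H.Adj i j)} := by
    ext x
    simp only [Gd, Set.mem_iInter]
    rfl
  rw [this]
  refine MeasurableSet.iInter fun i => MeasurableSet.iInter fun j => ?_
  have hp : Measurable (fun x : Fin h → unitInterval => (x i, x j)) :=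
    (measurable_pi_apply i).prodMk (measurable_pi_apply j)
  have hW : MeasurableSet {x : Fin h → unitInterval | WAdj m Q (x i) (x j)} :=
    hp (measurableSet_WAdj m Q)
  by_cases hij : i < j
  · by_cases hH : H.Adj i j
    · have : {x : Fin h → unitInterval | i < j → (WAdj m Q (x i) (x j) ↔ H.Adj i j)} =
          {x | WAdj m Q (x i) (x j)} := by
        ext x
        simp [hij, hH]
      rw [this]
      exact hW
    · have : {x : Fin h → unitInterval | i < j → (WAdj m Q (x i) (x j) ↔ H.Adj i j)} =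
          {x | WAdj m Q (x i) (x j)}ᶜ := by
        ext x
        simp [hij, hH]
      rw [this]
      exact hW.compl
  · have : {x : Fin h → unitInterval | i < j → (WAdj m Q (x i) (x j) ↔ H.Adj i j)} = Set.univ := by
      ext x
      simp [hij]
    rw [this]
    exact MeasurableSet.univ

theorem fac_eq (Q : ∀ ℓ, SimpleGraph (Fin (m ℓ))) (H : SimpleGraph (Fin h)) :
    (Wq m Q).fac H = (Gd m Q H).indicator 1 := by
  classical
  ext x
  by_cases hx : x ∈ Gd m Q H
  · rw [Set.indicator_of_mem hx]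
    unfold Graphon.fac
    refine Finset.prod_eq_one fun i _ => Finset.prod_eq_one fun j hj => ?_
    have hij : i < j := Finset.mem_Ioi.1 hj
    have h1 := hx i j hij
    by_cases hH : H.Adj i j
    · rw [if_pos hH]
      exact if_pos (h1.2 hH)
    · rw [if_neg hH]
      have h2 : ¬ WAdj m Q (x i) (x j) := fun h => hH (h1.1 h)
      have h3 : (Wq m Q).W (x i) (x j) = 0 := if_neg h2
      rw [h3, sub_zero]
  · rw [Set.indicator_of_notMem hx]
    simp only [Gd, Set.mem_ofPred_eq, not_forall] at hx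
    obtain ⟨i, j, hij, h1⟩ := hx
    unfold Graphon.fac
    refine Finset.prod_eq_zero (Finset.mem_univ i) (Finset.prod_eq_zero (Finset.mem_Ioi.2 hij) ?_)
    by_cases hH : H.Adj i j
    · rw [if_pos hH]
      have h2 : ¬ WAdj m Q (x i) (x j) := fun h => h1 ⟨fun _ => hH, fun _ => h⟩
      exact if_neg h2
    · rw [if_neg hH]
      have h2 : WAdj m Q (x i) (x j) := by
        by_contra h
        exact h1 ⟨fun h' => absurd h' h, fun h' => absurd h' hH⟩
      have h3 : (Wq m Q).W (x i) (x j) = 1 := if_pos h2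
      rw [h3, sub_self]

theorem dens_eq (Q : ∀ ℓ, SimpleGraph (Fin (m ℓ))) (H : SimpleGraph (Fin h)) :
    (Wq m Q).dens Set.univ H = volume.real (Gd m Q H) := by
  unfold Graphon.dens
  rw [Set.pi_univ, Measure.restrict_univ, fac_eq, integral_indicator_one (measurableSet_Gd Q H)]
  simp

/-- the box of a map -/
def Box (m : ℕ → ℕ) (ℓ : ℕ) (f : Fin h → Fin (Mm m ℓ)) : Set (Fin h → unitInterval) :=
  Set.univ.pi fun i => {x | dig m ℓ x = f i}

theorem volume_Box (h2 : ∀ ℓ, 2 ≤ m ℓ) (ℓ : ℕ) (f : Fin h → Fin (Mm m ℓ)) :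
    volume (Box m ℓ f) = ENNReal.ofReal (1 / (Mm m ℓ : ℝ)) ^ h := by
  unfold Box
  rw [volume_pi_pi]
  have : ∀ i ∈ (Finset.univ : Finset (Fin h)), volume {x : unitInterval | dig m ℓ x = f i} =
      ENNReal.ofReal (1 / (Mm m ℓ : ℝ)) := fun i _ => volume_cell h2 ℓ (f i) (f i).2
  rw [Finset.prod_congr rfl this, Finset.prod_const, Finset.card_univ, Fintype.card_fin]

theorem measurableSet_Box (ℓ : ℕ) (f : Fin h → Fin (Mm m ℓ)) : MeasurableSet (Box m ℓ f) :=
  MeasurableSet.univ_pi fun _ => measurableSet_cell ℓ _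

theorem mem_Box {ℓ : ℕ} {f : Fin h → Fin (Mm m ℓ)} {x : Fin h → unitInterval} :
    x ∈ Box m ℓ f ↔ ∀ i, dig m ℓ (x i) = f i := by
  simp [Box]

/-- the union of the boxes of the embeddings -/
def Ed (m : ℕ → ℕ) (Q : ∀ ℓ, SimpleGraph (Fin (m ℓ))) (H : SimpleGraph (Fin h)) (ℓ : ℕ) :
    Set (Fin h → unitInterval) :=
  ⋃ f : (H ↪g It m Q ℓ), Box m ℓ f

theorem finite_emb (H : SimpleGraph (Fin h)) {n : ℕ} (G : SimpleGraph (Fin n)) :
    Finite (H ↪g G) := DFunLike.finite _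

theorem volume_Ed (h2 : ∀ ℓ, 2 ≤ m ℓ) (Q : ∀ ℓ, SimpleGraph (Fin (m ℓ)))
    (H : SimpleGraph (Fin h)) (ℓ : ℕ) :
    volume.real (Ed m Q H ℓ) = (Nat.card (H ↪g It m Q ℓ) : ℝ) / (Mm m ℓ : ℝ) ^ h := by
  have := finite_emb H (It m Q ℓ)
  have := Fintype.ofFinite (H ↪g It m Q ℓ)
  have hM : (0 : ℝ) < Mm m ℓ := by exact_mod_cast Mm_pos h2 ℓ
  rw [measureReal_def]
  unfold Ed
  rw [measure_iUnion]
  · rw [tsum_fintype]
    have : ∀ f ∈ (Finset.univ : Finset (H ↪g It m Q ℓ)), volume (Box m ℓ f) =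
        ENNReal.ofReal (1 / (Mm m ℓ : ℝ)) ^ h := fun f _ => volume_Box h2 ℓ f
    rw [Finset.sum_congr rfl this, Finset.sum_const, Finset.card_univ, nsmul_eq_mul,
      ENNReal.toReal_mul, ENNReal.toReal_natCast, ENNReal.toReal_pow,
      ENNReal.toReal_ofReal (by positivity), Nat.card_eq_fintype_card, one_div, inv_pow,
      div_eq_mul_inv]
  · intro f g hfg
    rw [Function.onFun, Set.disjoint_left]
    intro x hf hg
    apply hfg
    ext i
    have h1 := mem_Box.1 hf i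
    have h3 := mem_Box.1 hg i
    have h4 : ((f i : Fin (Mm m ℓ)) : ℕ) = (g i : Fin (Mm m ℓ)) := by rw [← h1, h3]
    exact h4
  · intro f
    exact measurableSet_Box ℓ f

theorem Ed_sub (h2 : ∀ ℓ, 2 ≤ m ℓ) (Q : ∀ ℓ, SimpleGraph (Fin (m ℓ)))
    (H : SimpleGraph (Fin h)) (ℓ : ℕ) : Ed m Q H ℓ ⊆ Gd m Q H := by
  intro x hx
  obtain ⟨f, hf⟩ := Set.mem_iUnion.1 hx
  rw [mem_Box] at hf
  intro i j hij
  rw [key h2 Q (x i) (x j) ℓ (f i) (f j) (hf i) (hf j)
    (fun h => hij.ne (f.injective h))]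
  exact f.map_adj_iff

/-- the exceptional set -/
def Dd (m : ℕ → ℕ) (h ℓ : ℕ) : Set (Fin h → unitInterval) :=
  (⋃ i : Fin h, {x | x i = 1}) ∪ ⋃ i : Fin h, ⋃ j : Fin h, ⋃ (_ : i ≠ j),
    ⋃ a : Fin (Mm m ℓ), {x | dig m ℓ (x i) = a ∧ dig m ℓ (x j) = a}

theorem Gd_sub (h2 : ∀ ℓ, 2 ≤ m ℓ) (Q : ∀ ℓ, SimpleGraph (Fin (m ℓ)))
    (H : SimpleGraph (Fin h)) (ℓ : ℕ) : Gd m Q H ⊆ Ed m Q H ℓ ∪ Dd m h ℓ := by
  intro x hx
  by_cases hD : x ∈ Dd m h ℓ
  · exact Or.inr hD
  left
  have h1 : ∀ i, x i ≠ 1 := by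
    intro i hi
    exact hD (Or.inl (Set.mem_iUnion.2 ⟨i, hi⟩))
  have hlt : ∀ i, dig m ℓ (x i) < Mm m ℓ := fun i => dig_lt h2 ℓ (x i) (h1 i)
  let f : Fin h → Fin (Mm m ℓ) := fun i => ⟨dig m ℓ (x i), hlt i⟩
  have hf : Function.Injective f := by
    intro i j hij
    by_contra hne
    apply hD
    right
    refine Set.mem_iUnion.2 ⟨i, Set.mem_iUnion.2 ⟨j, Set.mem_iUnion.2 ⟨hne, Set.mem_iUnion.2
      ⟨f i, rfl, ?_⟩⟩⟩⟩
    rw [hij]
  have hadj : ∀ i j, (It m Q ℓ).Adj (f i) (f j) ↔ H.Adj i j := by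
    intro i j
    by_cases hne : i = j
    · subst hne
      simp
    · have hk := key h2 Q (x i) (x j) ℓ (f i) (f j) rfl rfl (fun h => hne (hf h))
      rw [← hk]
      rcases lt_or_gt_of_ne hne with hlt' | hlt'
      · exact hx i j hlt'
      · have h3 := hx j i hlt'
        constructor
        · intro h4
          exact (h3.1 (WAdj_symm Q h4)).symm
        · intro h4
          exact WAdj_symm Q (h3.2 h4.symm)
  refine Set.mem_iUnion.2 ⟨⟨⟨f, hf⟩, fun {i j} => hadj i j⟩, ?_⟩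
  rw [mem_Box]
  intro i
  rfl

theorem volume_one (i : Fin h) : volume {x : Fin h → unitInterval | x i = 1} = 0 := by
  have h1 := (measurePreserving_eval (fun _ : Fin h => (volume : Measure unitInterval)) i)
  have h3 := h1.measure_preimage (s := {1}) (measurableSet_singleton _).nullMeasurableSet
  have h4 : (volume : Measure unitInterval) {1} = 0 := by simp
  rw [h4] at h3
  exact h3

theorem volume_pair (h2 : ∀ ℓ, 2 ≤ m ℓ) (ℓ : ℕ) (i j : Fin h) (hij : i ≠ j)
    (a : Fin (Mm m ℓ)) :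
    volume {x : Fin h → unitInterval | dig m ℓ (x i) = a ∧ dig m ℓ (x j) = a} =
      ENNReal.ofReal (1 / (Mm m ℓ : ℝ)) ^ 2 := by
  classical
  have : {x : Fin h → unitInterval | dig m ℓ (x i) = a ∧ dig m ℓ (x j) = a} =
      Set.univ.pi (fun k : Fin h => if k = i ∨ k = j then {y : unitInterval | dig m ℓ y = a}
        else Set.univ) := by
    ext x
    simp only [Set.mem_ofPred_eq, Set.mem_pi, Set.mem_univ, true_implies]
    constructor
    · rintro ⟨h1, h3⟩ k
      by_cases hk : k = i ∨ k = j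
      · rw [if_pos hk]
        rcases hk with rfl | rfl
        · exact h1
        · exact h3
      · rw [if_neg hk]
        trivial
    · intro hk
      have h1 := hk i
      have h3 := hk j
      rw [if_pos (Or.inl rfl)] at h1
      rw [if_pos (Or.inr rfl)] at h3
      exact ⟨h1, h3⟩
  rw [this, volume_pi_pi]
  have h3 : ∀ k ∈ (Finset.univ : Finset (Fin h)), volume (if k = i ∨ k = j then
      {y : unitInterval | dig m ℓ y = a} else Set.univ) =
      if k = i ∨ k = j then ENNReal.ofReal (1 / (Mm m ℓ : ℝ)) else 1 := by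
    intro k _
    by_cases hk : k = i ∨ k = j
    · rw [if_pos hk, if_pos hk, volume_cell h2 ℓ a a.2]
    · rw [if_neg hk, if_neg hk]
      simp
  rw [Finset.prod_congr rfl h3, Finset.prod_ite, Finset.prod_const_one, mul_one,
    Finset.prod_const]
  congr 1
  have h4 : Finset.univ.filter (fun k : Fin h => k = i ∨ k = j) = {i, j} := by
    ext k
    simp
  rw [h4, Finset.card_pair hij]

theorem volume_Dd (h2 : ∀ ℓ, 2 ≤ m ℓ) (ℓ : ℕ) :
    volume.real (Dd m h ℓ) ≤ (h : ℝ) * h / (Mm m ℓ : ℝ) := by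
  have hM : (0 : ℝ) < Mm m ℓ := by exact_mod_cast Mm_pos h2 ℓ
  have key2 : volume (Dd m h ℓ) ≤ ENNReal.ofReal ((h : ℝ) * h / (Mm m ℓ : ℝ)) := by
    unfold Dd
    refine (measure_union_le _ _).trans ?_
    have e1 : volume (⋃ i : Fin h, {x : Fin h → unitInterval | x i = 1}) = 0 :=
      measure_iUnion_null fun i => volume_one i
    rw [e1, zero_add]
    have e2 : ∀ i j : Fin h, volume (⋃ (_ : i ≠ j), ⋃ a : Fin (Mm m ℓ),
        {x : Fin h → unitInterval | dig m ℓ (x i) = a ∧ dig m ℓ (x j) = a}) ≤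
        ENNReal.ofReal (1 / (Mm m ℓ : ℝ)) := by
      intro i j
      by_cases hij : i ≠ j
      · have e3 : (⋃ (_ : i ≠ j), ⋃ a : Fin (Mm m ℓ),
            {x : Fin h → unitInterval | dig m ℓ (x i) = a ∧ dig m ℓ (x j) = a}) =
            ⋃ a : Fin (Mm m ℓ),
              {x : Fin h → unitInterval | dig m ℓ (x i) = a ∧ dig m ℓ (x j) = a} := by
          simp [hij]
        rw [e3]
        refine (measure_iUnion_fintype_le _ _).trans ?_
        rw [Finset.sum_congr rfl fun a _ => volume_pair h2 ℓ i j hij a, Finset.sum_const,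
          Finset.card_univ, Fintype.card_fin, nsmul_eq_mul, ← ENNReal.ofReal_natCast,
          ← ENNReal.ofReal_pow (by positivity), ← ENNReal.ofReal_mul (by positivity)]
        apply le_of_eq
        congr 1
        field_simp
      · have e3 : (⋃ (_ : i ≠ j), ⋃ a : Fin (Mm m ℓ),
            {x : Fin h → unitInterval | dig m ℓ (x i) = a ∧ dig m ℓ (x j) = a}) = ∅ := by
          simp [hij]
        rw [e3, measure_empty]
        exact zero_le
    calc volume (⋃ i : Fin h, ⋃ j : Fin h, ⋃ (_ : i ≠ j), ⋃ a : Fin (Mm m ℓ),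
          {x : Fin h → unitInterval | dig m ℓ (x i) = a ∧ dig m ℓ (x j) = a})
        ≤ ∑ i : Fin h, volume (⋃ j : Fin h, ⋃ (_ : i ≠ j), ⋃ a : Fin (Mm m ℓ),
          {x : Fin h → unitInterval | dig m ℓ (x i) = a ∧ dig m ℓ (x j) = a}) :=
          measure_iUnion_fintype_le _ _
      _ ≤ ∑ i : Fin h, ∑ j : Fin h, volume (⋃ (_ : i ≠ j), ⋃ a : Fin (Mm m ℓ),
          {x : Fin h → unitInterval | dig m ℓ (x i) = a ∧ dig m ℓ (x j) = a}) :=
          Finset.sum_le_sum fun i _ => measure_iUnion_fintype_le _ _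
      _ ≤ ∑ i : Fin h, ∑ j : Fin h, ENNReal.ofReal (1 / (Mm m ℓ : ℝ)) :=
          Finset.sum_le_sum fun i _ => Finset.sum_le_sum fun j _ => e2 i j
      _ = ENNReal.ofReal ((h : ℝ) * h / (Mm m ℓ : ℝ)) := by
          simp only [Finset.sum_const, Finset.card_univ, Fintype.card_fin, nsmul_eq_mul]
          rw [← ENNReal.ofReal_natCast, ← ENNReal.ofReal_mul (by positivity),
            ← ENNReal.ofReal_mul (by positivity)]
          congr 1
          field_simp
  rw [measureReal_def]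
  exact (ENNReal.toReal_le_of_le_ofReal (by positivity) key2)

theorem close (h2 : ∀ ℓ, 2 ≤ m ℓ) (Q : ∀ ℓ, SimpleGraph (Fin (m ℓ)))
    (H : SimpleGraph (Fin h)) (ℓ : ℕ) :
    |(Nat.card (H ↪g It m Q ℓ) : ℝ) / (Mm m ℓ : ℝ) ^ h - volume.real (Gd m Q H)| ≤
      (h : ℝ) * h / (Mm m ℓ : ℝ) := by
  rw [← volume_Ed h2 Q H ℓ, abs_sub_comm, abs_of_nonneg]
  · have h1 : volume.real (Gd m Q H) ≤ volume.real (Ed m Q H ℓ) + volume.real (Dd m h ℓ) :=
      (measureReal_mono (Gd_sub h2 Q H ℓ)).trans (measureReal_union_le _ _)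
    have h3 := volume_Dd (m := m) (h := h) h2 ℓ
    linarith
  · have h1 : volume.real (Ed m Q H ℓ) ≤ volume.real (Gd m Q H) :=
      measureReal_mono (Ed_sub h2 Q H ℓ)
    linarith

theorem ratio_tendsto (h : ℕ) :
    Tendsto (fun M : ℕ => (M.descFactorial h : ℝ) / (M : ℝ) ^ h) atTop (𝓝 1) := by
  induction h with
  | zero => simp
  | succ h ih =>
    have h1 : Tendsto (fun M : ℕ => ((M - h : ℕ) : ℝ) / (M : ℝ)) atTop (𝓝 1) := by
      have h3 : Tendsto (fun M : ℕ => 1 - (h : ℝ) / (M : ℝ)) atTop (𝓝 (1 - 0)) :=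
        tendsto_const_nhds.sub (tendsto_const_div_atTop_nhds_zero_nat _)
      rw [sub_zero] at h3
      refine h3.congr' ?_
      filter_upwards [eventually_ge_atTop (h + 1)] with M hM
      have hM' : (0 : ℝ) < M := by
        have : 0 < M := by omega
        exact_mod_cast this
      rw [Nat.cast_sub (by omega)]
      field_simp
    have h3 := h1.mul ih
    rw [mul_one] at h3
    refine h3.congr fun M => ?_
    rw [Nat.descFactorial_succ]
    push_cast
    rw [pow_succ, mul_comm ((M : ℝ) ^ h), mul_div_mul_comm]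

theorem lim : S_lim := by
  intro m Q h2 h H
  rw [dens_eq]
  have hM := Mm_tendsto h2
  have h1 : Tendsto (fun ℓ => (Nat.card (H ↪g It m Q ℓ) : ℝ) / (Mm m ℓ : ℝ) ^ h) atTop
      (𝓝 (volume.real (Gd m Q H))) := by
    rw [tendsto_iff_norm_sub_tendsto_zero]
    refine squeeze_zero (fun _ => norm_nonneg _) (fun ℓ => close h2 Q H ℓ) ?_
    exact (tendsto_const_div_atTop_nhds_zero_nat _).comp hM
  have h3 : Tendsto (fun ℓ => ((Mm m ℓ).descFactorial h : ℝ) / (Mm m ℓ : ℝ) ^ h) atTop (𝓝 1) :=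
    (ratio_tendsto h).comp hM
  have h4 := h1.div h3 one_ne_zero
  rw [div_one] at h4
  refine h4.congr fun ℓ => ?_
  unfold gdens
  have hM0 : (0 : ℝ) < (Mm m ℓ : ℝ) ^ h := by
    have := Mm_pos h2 ℓ
    positivity
  rw [Pi.div_apply, div_div_div_cancel_right₀ hM0.ne']

end Pool.Agent.TH89.J1080
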