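import Pool.Agent.TH268.CD.Stm
import Pool.Agent.TH268.CC.Step2
import Pool.Agent.W337.CB.Mecke

/-!
# CD-DMB: second moment bound for the number of missing particles (job 2653 of helper268)
-/

set_option autoImplicit false

open MeasureTheory
open scoped ENNReal

namespace Pool.Agent.TH89.Dmb

open Pool.Agent.W761.CB Pool.Agent.TH268.CC

theorem mecke : S_MECKE :=
  Pool.Agent.W337.CB.proof_mecke Pool.Agent.W975.CB.proof_ms
    (Pool.Agent.W366.CB.proof_lam Pool.Agent.W975.CB.proof_ms)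

section

variable {X : Type} [MeasurableSpace X] (ν : Measure X) [IsFiniteMeasure ν]

theorem card_meas : Measurable fun γ : Cf X => (Multiset.card (ms γ) : ℝ) := by
  have h1 := (Pool.Agent.W975.CB.proof_ms X).2.2.2.1 Unit (fun _ _ => (1 : ℝ)) measurable_const
  have h2 := h1.comp (measurable_prodMk_left (x := ()) (β := Cf X))
  have h3 : (fun γ : Cf X => (Multiset.card (ms γ) : ℝ)) =
      (fun q : Unit × Cf X => ((ms q.2).map (fun _ : X => (1 : ℝ))).sum) ∘ Prod.mk () := by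
    funext γ
    simp
  rw [h3]
  exact h2

theorem fcard_meas (f : ℕ → ℝ≥0∞) : Measurable fun γ : Cf X => f (Multiset.card (ms γ)) := by
  have h1 : Measurable fun γ : Cf X => Multiset.card (ms γ) := by
    have h2 : Measurable fun γ : Cf X => ⌊(Multiset.card (ms γ) : ℝ)⌋₊ :=
      Nat.measurable_floor.comp card_meas
    simpa using h2
  exact (measurable_from_top (f := f)).comp h1

/-- the particle number -/
theorem nu_eq {F : Multiset X → ℂ} (hF : EB F) :
    nuE ν F = ∫⁻ γ, (Multiset.card (ms γ) : ℝ≥0∞) * ‖F (ms γ)‖ₑ ^ 2 ∂(lam ν) := by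
  have hm : Measurable fun p : X × Cf X => ‖F (ms p.2)‖ₑ ^ 2 :=
    (hF.meas.comp measurable_snd).enorm.pow_const 2
  have h := mecke X ν (fun _ S => ‖F S‖ₑ ^ 2) hm
  unfold nuE nE an
  rw [← h]
  apply lintegral_congr
  intro γ
  simp

/-- the pairs -/
theorem pair_eq {F : Multiset X → ℂ} (hF : EB F) :
    ∫⁻ γ, ((Multiset.card (ms γ) * (Multiset.card (ms γ) - 1) : ℕ) : ℝ≥0∞) *
      ‖F (ms γ)‖ₑ ^ 2 ∂(lam ν) = ∫⁻ x, ∫⁻ y, nE ν (an y (an x F)) ∂ν ∂ν := by
  have hm : Measurable fun p : X × Cf X =>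
      ((Multiset.card (ms p.2) - 1 : ℕ) : ℝ≥0∞) * ‖F (ms p.2)‖ₑ ^ 2 :=
    ((fcard_meas fun n => ((n - 1 : ℕ) : ℝ≥0∞)).comp measurable_snd).mul
      ((hF.meas.comp measurable_snd).enorm.pow_const 2)
  have h := mecke X ν (fun _ S => ((Multiset.card S - 1 : ℕ) : ℝ≥0∞) * ‖F S‖ₑ ^ 2) hm
  have h1 : ∀ x, ∫⁻ y, nE ν (an y (an x F)) ∂ν = ∫⁻ γ,
      ((Multiset.card (x ::ₘ ms γ) - 1 : ℕ) : ℝ≥0∞) * ‖F (x ::ₘ ms γ)‖ₑ ^ 2 ∂(lam ν) := by
    intro x
    have hx : EB (an x F) := (Pool.Agent.W150.CB.ebc X ν F F hF hF).1 x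
    have h2 := nu_eq ν hx
    unfold nuE at h2
    rw [h2]
    apply lintegral_congr
    intro γ
    rw [Multiset.card_cons, Nat.add_sub_cancel]
    rfl
  simp only [h1]
  rw [← h]
  apply lintegral_congr
  intro γ
  rw [Multiset.map_const', Multiset.sum_replicate, nsmul_eq_mul]
  push_cast
  ring

end

theorem dmb : Pool.Agent.TH268.CD.S_DMB := by
  intro X _ ν _ N C z V φ hC hz hV hνV hN hφ hnE hlo hhi hpair
  have hNn : (0 : ℝ) ≤ N := Nat.cast_nonneg N
  -- pairs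
  set E2 : ℝ≥0∞ := ∫⁻ γ, ((Multiset.card (ms γ) * (Multiset.card (ms γ) - 1) : ℕ) : ℝ≥0∞) *
      ‖φ (ms γ)‖ₑ ^ 2 ∂(lam ν) with hE2
  have hE2le : E2 ≤ ENNReal.ofReal (z ^ 2 * V ^ 2) := by
    rw [hE2, pair_eq ν hφ]
    calc ∫⁻ x, ∫⁻ y, nE ν (an y (an x φ)) ∂ν ∂ν
        ≤ ∫⁻ _x : X, ∫⁻ _y : X, ENNReal.ofReal (z ^ 2) ∂ν ∂ν :=
          lintegral_mono fun x => lintegral_mono fun y => hpair x y
      _ = ENNReal.ofReal (z ^ 2 * V ^ 2) := by
          rw [lintegral_const, lintegral_const, hνV, ← ENNReal.ofReal_mul (by positivity),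
            ← ENNReal.ofReal_mul (by positivity)]
          congr 1
          ring
  -- the identity
  have hpm : Measurable fun γ : Cf X => ‖φ (ms γ)‖ₑ ^ 2 := hφ.meas.enorm.pow_const 2
  have hid : m2 ν N φ + ENNReal.ofReal (2 * N) * nuE ν φ =
      E2 + nuE ν φ + ENNReal.ofReal (N ^ 2) * nE ν φ := by
    rw [nu_eq ν hφ, hE2]
    unfold m2 nE
    have g1 : Measurable fun γ : Cf X => ENNReal.ofReal (((N : ℝ) - Multiset.card (ms γ)) ^ 2) *
        ‖φ (ms γ)‖ₑ ^ 2 :=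
      (fcard_meas fun n => ENNReal.ofReal (((N : ℝ) - n) ^ 2)).mul hpm
    have g2 : Measurable fun γ : Cf X => (Multiset.card (ms γ) : ℝ≥0∞) * ‖φ (ms γ)‖ₑ ^ 2 :=
      (fcard_meas fun n => (n : ℝ≥0∞)).mul hpm
    have g3 : Measurable fun γ : Cf X =>
        ((Multiset.card (ms γ) * (Multiset.card (ms γ) - 1) : ℕ) : ℝ≥0∞) * ‖φ (ms γ)‖ₑ ^ 2 :=
      (fcard_meas fun n => ((n * (n - 1) : ℕ) : ℝ≥0∞)).mul hpm
    have g4 : Measurable fun γ : Cf X =>
        ((Multiset.card (ms γ) * (Multiset.card (ms γ) - 1) : ℕ) : ℝ≥0∞) * ‖φ (ms γ)‖ₑ ^ 2 +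
          (Multiset.card (ms γ) : ℝ≥0∞) * ‖φ (ms γ)‖ₑ ^ 2 := g3.add g2
    rw [← lintegral_const_mul _ g2, ← lintegral_const_mul _ hpm, ← lintegral_add_left g1,
      ← lintegral_add_left g3, ← lintegral_add_left g4]
    apply lintegral_congr
    intro γ
    set n := Multiset.card (ms γ) with hn
    have e1 : ENNReal.ofReal (((N : ℝ) - n) ^ 2) + ENNReal.ofReal (2 * N) * (n : ℝ≥0∞) =
        ((n * (n - 1) : ℕ) : ℝ≥0∞) + (n : ℝ≥0∞) + ENNReal.ofReal ((N : ℝ) ^ 2) := by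
      rw [← ENNReal.ofReal_natCast n, ← ENNReal.ofReal_natCast (n * (n - 1)),
        ← ENNReal.ofReal_mul (by positivity), ← ENNReal.ofReal_add (by positivity) (by positivity),
        ← ENNReal.ofReal_add (by positivity) (by positivity),
        ← ENNReal.ofReal_add (by positivity) (by positivity)]
      congr 1
      rcases Nat.eq_zero_or_pos n with h0 | h0
      · rw [h0]; push_cast; ring
      · obtain ⟨m, hm⟩ := Nat.exists_eq_succ_of_ne_zero h0.ne'
        rw [hm, Nat.succ_sub_one]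
        push_cast
        ring
    calc ENNReal.ofReal (((N : ℝ) - n) ^ 2) * ‖φ (ms γ)‖ₑ ^ 2 +
          ENNReal.ofReal (2 * N) * ((n : ℝ≥0∞) * ‖φ (ms γ)‖ₑ ^ 2)
        = (ENNReal.ofReal (((N : ℝ) - n) ^ 2) + ENNReal.ofReal (2 * N) * (n : ℝ≥0∞)) *
          ‖φ (ms γ)‖ₑ ^ 2 := by ring
      _ = _ := by rw [e1]; ring
  -- the bound of the second moment
  have hnu_top : nuE ν φ ≠ ⊤ := ne_top_of_le_ne_top ENNReal.ofReal_ne_top hhi
  have hE2_top : E2 ≠ ⊤ := ne_top_of_le_ne_top ENNReal.ofReal_ne_top hE2le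
  rw [hnE, mul_one] at hid
  have hm2_top : m2 ν N φ ≠ ⊤ := by
    intro h
    rw [h, top_add] at hid
    have : E2 + nuE ν φ + ENNReal.ofReal ((N : ℝ) ^ 2) ≠ ⊤ := by finiteness
    exact this hid.symm
  have hreal := congrArg ENNReal.toReal hid
  rw [ENNReal.toReal_add hm2_top (by finiteness), ENNReal.toReal_mul,
    ENNReal.toReal_add (by finiteness) (by finiteness), ENNReal.toReal_add hE2_top hnu_top,
    ENNReal.toReal_ofReal (by positivity), ENNReal.toReal_ofReal (by positivity)] at hreal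
  have h1 : E2.toReal ≤ z ^ 2 * V ^ 2 := by
    have := ENNReal.toReal_mono ENNReal.ofReal_ne_top hE2le
    rwa [ENNReal.toReal_ofReal (by positivity)] at this
  have h2 : (nuE ν φ).toReal ≤ z * V := by
    have := ENNReal.toReal_mono ENNReal.ofReal_ne_top hhi
    rwa [ENNReal.toReal_ofReal (by positivity)] at this
  have h3 : z * (1 - C * z) * V ≤ (nuE ν φ).toReal :=
    (ENNReal.ofReal_le_iff_le_toReal hnu_top).1 hlo
  have hm2 : (m2 ν N φ).toReal ≤ z * V + 2 * C * z * (z * V) ^ 2 := by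
    have h4 : 2 * (N : ℝ) * (z * (1 - C * z) * V) ≤ 2 * N * (nuE ν φ).toReal :=
      mul_le_mul_of_nonneg_left h3 (by positivity)
    generalize (m2 ν N φ).toReal = m at hreal ⊢
    generalize (nuE ν φ).toReal = w at hreal h2 h3 h4
    generalize E2.toReal = e at hreal h1
    rw [hN] at hreal h4
    linarith
  have hm2' : m2 ν N φ ≤ ENNReal.ofReal (z * V + 2 * C * z * (z * V) ^ 2) := by
    rw [← ENNReal.ofReal_toReal hm2_top]
    exact ENNReal.ofReal_le_ofReal hm2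
  refine (dm_le ν (le_refl (N : ℝ)) hφ).trans ?_
  rw [hnE, ENNReal.one_rpow, mul_one]
  calc (m2 ν N φ) ^ (1 / 2 : ℝ) ≤ (ENNReal.ofReal (z * V + 2 * C * z * (z * V) ^ 2)) ^ (1 / 2 : ℝ) :=
        ENNReal.rpow_le_rpow hm2' (by norm_num)
    _ = ENNReal.ofReal (√(z * V + 2 * C * z * (z * V) ^ 2)) := Pool.Agent.W150.CB.ofReal_half _
    _ ≤ _ := by
        apply ENNReal.ofReal_le_ofReal
        have e1 : √(2 * C * z * (z * V) ^ 2) = √(2 * C * z) * (z * V) := by
          rw [Real.sqrt_mul (by positivity : 0 ≤ 2 * C * z), Real.sqrt_sq (by positivity)]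
        rw [← e1, add_comm (z * V)]
        have a0 : 0 ≤ 2 * C * z * (z * V) ^ 2 := by positivity
        have b0 : 0 ≤ z * V := by positivity
        rw [Real.sqrt_le_left (by positivity)]
        nlinarith [Real.sq_sqrt a0, Real.sq_sqrt b0, Real.sqrt_nonneg (2 * C * z * (z * V) ^ 2),
          Real.sqrt_nonneg (z * V),
          mul_nonneg (Real.sqrt_nonneg (2 * C * z * (z * V) ^ 2)) (Real.sqrt_nonneg (z * V))]

end Pool.Agent.TH89.Dmb
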