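import Mathlib
import Pool.Agent.TH28.FL.Defs
import Pool.Agent.H364R2.NR
import Pool.Agent.Helper834.EC.Dim1

set_option autoImplicit false

universe u

namespace Pool.Agent.TH89.J1107

open IsLocalRing RingTheory.Sequence Pool.Agent.H364R2

section localring

variable {A : Type u} [CommRing A] [IsLocalRing A] [IsNoetherianRing A]

/-- The length of a weakly regular sequence is at most the dimension modulo an annihilator. -/
theorem key (rs : List A) :
    ∀ (M : Type u) [AddCommGroup M] [Module A M] [Module.Finite A M]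
      (_ : IsWeaklyRegular M rs) (_ : ∀ r ∈ rs, r ∈ maximalIdeal A)
      (z : M) (_ : z ≠ 0) (J : Ideal A) (_ : ∀ a ∈ J, a • z = 0),
      (rs.length : WithBot ℕ∞) ≤ ringKrullDim (A ⧸ J) := by
  induction rs with
  | nil =>
    intro M _ _ _ _ _ z hz J hJ
    have hJt : J ≠ ⊤ := by
      intro h
      apply hz
      have := hJ 1 (h ▸ Submodule.mem_top)
      simpa using this
    have : Nontrivial (A ⧸ J) := Ideal.Quotient.nontrivial_iff.2 hJt
    simpa using ringKrullDim_nonneg_of_nontrivial
  | cons y rs' ih =>
    intro M _ _ _ hreg hm z hz J hJ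
    rw [isWeaklyRegular_cons_iff] at hreg
    obtain ⟨hy, hreg'⟩ := hreg
    obtain ⟨P, hP, hzP⟩ := exists_le_isAssociatedPrime_of_isNoetherianRing A z hz
    rw [isAssociatedPrime_iff] at hP
    obtain ⟨hPp, w, hw⟩ := hP
    have hJP : J ≤ P := by
      intro a ha
      apply hzP
      rw [Submodule.mem_colon_singleton]
      simpa using hJ a ha
    have hPw : ∀ a, a ∈ P ↔ a • w = 0 := by
      intro a
      rw [hw, Submodule.mem_colon_singleton]
      simp
    have hw0 : w ≠ 0 := by
      intro h
      apply hPp.ne_top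
      rw [Ideal.eq_top_iff_one, hPw, h, smul_zero]
    have hyP : y ∉ P := by
      intro h
      apply hw0
      have := (hPw y).1 h
      apply hy
      simpa using this
    have hym : y ∈ maximalIdeal A := hm y (by simp)
    -- the submodule killed by `P`
    let N : Submodule A M :=
      { carrier := {m | ∀ a ∈ P, a • m = 0}
        add_mem' := by
          intro a b ha hb c hc
          rw [smul_add, ha c hc, hb c hc, add_zero]
        zero_mem' := by
          intro c _
          exact smul_zero c
        smul_mem' := by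
          intro c x hx a ha
          rw [smul_comm, hx a ha, smul_zero] }
    have hwN : w ∈ N := fun a ha => (hPw a).1 ha
    obtain ⟨n, hnN, hny⟩ : ∃ n ∈ N, ∀ m : M, n ≠ y • m := by
      by_contra hcon
      push Not at hcon
      have hle : N ≤ maximalIdeal A • N := by
        intro n hn
        obtain ⟨m, hm'⟩ := hcon n hn
        have hmN : m ∈ N := by
          intro a ha
          apply hy
          show y • (a • m) = y • 0
          rw [smul_comm, ← hm', hn a ha, smul_zero]
        rw [hm']
        exact Submodule.smul_mem_smul hym hmN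
      have hN : N = ⊥ := Submodule.eq_bot_of_le_smul_of_le_jacobson_bot _ N
        (IsNoetherian.noetherian N) hle (IsLocalRing.maximalIdeal_le_jacobson _)
      rw [hN] at hwN
      exact hw0 ((Submodule.mem_bot A).1 hwN)
    -- the class in the quotient
    have hz' : (Submodule.Quotient.mk n : QuotSMulTop y M) ≠ 0 := by
      intro h
      rw [Submodule.Quotient.mk_eq_zero] at h
      obtain ⟨m, -, hm'⟩ := (Submodule.mem_smul_pointwise_iff_exists _ _ _).1 h
      exact hny m hm'.symm
    have h1 := ih (QuotSMulTop y M) hreg' (fun r hr => hm r (List.mem_cons_of_mem _ hr))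
      (Submodule.Quotient.mk n) hz' (P ⊔ Ideal.span {y}) (by
        intro a ha
        obtain ⟨p, hp, q, hq, rfl⟩ := Submodule.mem_sup.1 ha
        obtain ⟨c, rfl⟩ := Ideal.mem_span_singleton'.1 hq
        rw [← Submodule.Quotient.mk_smul, Submodule.Quotient.mk_eq_zero, add_smul, hnN p hp,
          zero_add, mul_comm, mul_smul]
        exact Submodule.smul_mem_pointwise_smul _ _ _ Submodule.mem_top)
    have h2 : ringKrullDim (A ⧸ P ⊔ Ideal.span {y}) + 1 ≤ ringKrullDim (A ⧸ P) := by
      refine ringKrullDim_succ_le_of_surjective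
        (Ideal.Quotient.factor (le_sup_left : P ≤ P ⊔ Ideal.span {y}))
        (Ideal.Quotient.factor_surjective _) (r := Ideal.Quotient.mk P y) ?_ ?_
      · rw [mem_nonZeroDivisors_iff_ne_zero]
        rw [Ne, Ideal.Quotient.eq_zero_iff_mem]
        exact hyP
      · rw [Ideal.Quotient.factor_mk, Ideal.Quotient.eq_zero_iff_mem]
        exact Ideal.mem_sup_right (Ideal.mem_span_singleton_self y)
    have h3 : ringKrullDim (A ⧸ P) ≤ ringKrullDim (A ⧸ J) :=
      ringKrullDim_le_of_surjective (Ideal.Quotient.factor hJP)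
        (Ideal.Quotient.factor_surjective _)
    calc ((y :: rs').length : WithBot ℕ∞) = (rs'.length : WithBot ℕ∞) + 1 := by simp
      _ ≤ ringKrullDim (A ⧸ P ⊔ Ideal.span {y}) + 1 := by gcongr
      _ ≤ _ := h2.trans h3

theorem exists_reg_of_not_Zed (M : Type u) [AddCommGroup M] [Module A M] [Module.Finite A M]
    (h : ¬ Zed A M) : ∃ c ∈ maximalIdeal A, IsSMulRegular M c := by
  by_contra hcon
  push Not at hcon
  have hfin : (associatedPrimes A M).Finite := associatedPrimes.finite A M
  have hsub : ((maximalIdeal A : Ideal A) : Set A) ⊆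
      ⋃ i ∈ associatedPrimes A M, ((id i : Ideal A) : Set A) := by
    intro c hc
    have h2 := hcon c hc
    have h3 : c ∈ ⋃ p ∈ associatedPrimes A M, (p : Set A) := by
      rw [biUnion_associatedPrimes_eq_compl_regular]
      exact h2
    simpa using h3
  obtain ⟨P, hP, hle⟩ := ((maximalIdeal A).subset_union_prime_finite hfin (f := id) 0 0
    (fun i hi _ _ => hi.isPrime)).1 hsub
  have hPp : P.IsPrime := hP.isPrime
  change IsAssociatedPrime P M at hP
  rw [isAssociatedPrime_iff] at hP
  obtain ⟨-, w, hw⟩ := hP
  apply h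
  refine ⟨w, ?_, ?_⟩
  · rintro rfl
    apply hPp.ne_top
    rw [Ideal.eq_top_iff_one, hw, Submodule.mem_colon_singleton]
    simp
  · intro a ha
    have := hle ha
    rw [id, hw, Submodule.mem_colon_singleton] at this
    simpa using this

/-- extension of weakly regular sequences -/
theorem extend (xs : List A) (hx : ∀ x ∈ xs, x ∈ maximalIdeal A) (hxr : IsWeaklyRegular A xs) :
    ∀ (n : ℕ) (fs : List A), (∀ f ∈ fs, f ∈ maximalIdeal A) → IsWeaklyRegular A fs →
      fs.length + n = xs.length → ∃ gs : List A, (∀ g ∈ gs, g ∈ maximalIdeal A) ∧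
        gs.length = n ∧ IsWeaklyRegular A (fs ++ gs) := by
  intro n
  induction n with
  | zero =>
    intro fs hf hfr _
    exact ⟨[], by simp, rfl, by simpa using hfr⟩
  | succ n ih =>
    intro fs hf hfr hlen
    have h1 := not_Zed_of_longer A fs xs hf hx hfr hxr (by omega)
    obtain ⟨c, hc, hcr⟩ := exists_reg_of_not_Zed _ h1
    have h2 : IsWeaklyRegular A (fs ++ [c]) := by
      rw [isWeaklyRegular_append_iff, isWeaklyRegular_singleton_iff]
      exact ⟨hfr, hcr⟩
    obtain ⟨gs, hg, hgl, hgr⟩ := ih (fs ++ [c]) (by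
      intro f hf'
      rw [List.mem_append, List.mem_singleton] at hf'
      rcases hf' with hf' | rfl
      · exact hf f hf'
      · exact hc) h2 (by simp; omega)
    refine ⟨c :: gs, ?_, by simp [hgl], ?_⟩
    · intro g hg'
      rcases List.mem_cons.1 hg' with rfl | hg'
      · exact hc
      · exact hg g hg'
    · rwa [List.append_assoc] at hgr

theorem quot_dim (J : Ideal A) (hJ : J ≠ ⊤) (fs gs : List A)
    (hg : ∀ g ∈ gs, g ∈ maximalIdeal A) (hle : Ideal.ofList fs ≤ J ⊔ Ideal.ofList gs) :
    ringKrullDim (A ⧸ J) ≤ ringKrullDim (A ⧸ Ideal.ofList fs) + gs.length := by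
  classical
  have : Nontrivial (A ⧸ J) := Ideal.Quotient.nontrivial_iff.2 hJ
  have : IsLocalRing (A ⧸ J) :=
    IsLocalRing.of_surjective' (Ideal.Quotient.mk J) Ideal.Quotient.mk_surjective
  let s : Finset (A ⧸ J) := (gs.map (Ideal.Quotient.mk J)).toFinset
  have h1 := ringKrullDim_le_ringKrullDim_quotient_add_card s (by
    rw [IsLocalRing.ringJacobson_eq_maximalIdeal]
    intro x hx
    simp only [s, List.coe_toFinset, List.mem_map, Set.mem_ofPred_eq] at hx
    obtain ⟨a, ha, rfl⟩ := hx
    rw [SetLike.mem_coe, mem_maximalIdeal, mem_nonunits_iff]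
    intro hu
    obtain ⟨b, hb⟩ := hu.exists_right_inv
    obtain ⟨b, rfl⟩ := Ideal.Quotient.mk_surjective b
    rw [← map_mul, ← map_one (Ideal.Quotient.mk J), Ideal.Quotient.mk_eq_mk_iff_sub_mem] at hb
    have h2 : a * b - 1 ∈ maximalIdeal A := IsLocalRing.le_maximalIdeal hJ hb
    have h3 : a * b ∈ maximalIdeal A := Ideal.mul_mem_right _ _ (hg a ha)
    have h4 := Ideal.sub_mem _ h3 h2
    rw [sub_sub_cancel] at h4
    exact (Ideal.ne_top_iff_one _).1 (maximalIdeal.isMaximal A).ne_top h4)
  have hcard : (s.card : WithBot ℕ∞) ≤ (gs.length : WithBot ℕ∞) := by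
    have : s.card ≤ gs.length := by
      refine (List.toFinset_card_le _).trans ?_
      rw [List.length_map]
    exact_mod_cast this
  have h2 : ringKrullDim ((A ⧸ J) ⧸ Ideal.span (s : Set (A ⧸ J))) ≤
      ringKrullDim (A ⧸ Ideal.ofList fs) := by
    let φ : A →+* ((A ⧸ J) ⧸ Ideal.span (s : Set (A ⧸ J))) :=
      (Ideal.Quotient.mk _).comp (Ideal.Quotient.mk J)
    have hφs : Function.Surjective φ :=
      Ideal.Quotient.mk_surjective.comp Ideal.Quotient.mk_surjective
    have hφ : ∀ a ∈ Ideal.ofList fs, φ a = 0 := by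
      intro a ha
      have h3 := hle ha
      have h4 : J ⊔ Ideal.ofList gs ≤ RingHom.ker φ := by
        refine sup_le ?_ ?_
        · intro x hx
          rw [RingHom.mem_ker]
          change Ideal.Quotient.mk _ (Ideal.Quotient.mk J x) = 0
          rw [Ideal.Quotient.eq_zero_iff_mem.2 hx, map_zero]
        · unfold Ideal.ofList
          rw [Ideal.span_le]
          intro x hx
          rw [SetLike.mem_coe, RingHom.mem_ker]
          change Ideal.Quotient.mk _ (Ideal.Quotient.mk J x) = 0
          rw [Ideal.Quotient.eq_zero_iff_mem]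
          apply Ideal.subset_span
          simp only [s, List.coe_toFinset, List.mem_map, Set.mem_ofPred_eq]
          exact ⟨x, hx, rfl⟩
      exact h4 h3
    exact ringKrullDim_le_of_surjective (Ideal.Quotient.lift _ φ hφ)
      (Ideal.Quotient.lift_surjective_of_surjective _ hφ hφs)
  exact h1.trans (add_le_add h2 hcard)

/-- Noetherian local rings with a weakly regular sequence of length `N`: elements which cut down
the dimension to `N - m` form a weakly regular sequence. -/
theorem local_main (xs : List A) (hx : ∀ x ∈ xs, x ∈ maximalIdeal A)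
    (hxr : IsWeaklyRegular A xs) (fs : List A) (hf : ∀ f ∈ fs, f ∈ maximalIdeal A)
    (hdim : ringKrullDim (A ⧸ Ideal.ofList fs) + fs.length ≤ xs.length) :
    IsWeaklyRegular A fs := by
  have hfm : Ideal.ofList fs ≤ maximalIdeal A := by
    unfold Ideal.ofList
    rw [Ideal.span_le]
    exact hf
  have hne : Ideal.ofList fs ≠ ⊤ := by
    intro h
    rw [h] at hfm
    exact (maximalIdeal.isMaximal A).ne_top (top_le_iff.1 hfm)
  have : Nontrivial (A ⧸ Ideal.ofList fs) := Ideal.Quotient.nontrivial_iff.2 hne
  have hnn : 0 ≤ ringKrullDim (A ⧸ Ideal.ofList fs) := ringKrullDim_nonneg_of_nontrivial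
  have hlen : fs.length ≤ xs.length := by
    have : (fs.length : WithBot ℕ∞) ≤ xs.length := by
      calc (fs.length : WithBot ℕ∞) = 0 + fs.length := by rw [zero_add]
        _ ≤ ringKrullDim (A ⧸ Ideal.ofList fs) + fs.length := by gcongr
        _ ≤ _ := hdim
    exact_mod_cast this
  have main : ∀ n, n ≤ fs.length → IsWeaklyRegular A (fs.take n) := by
    intro n
    induction n with
    | zero => intro _; simp
    | succ n ih =>
      intro hn
      have hn' : n < fs.length := by omega
      have ih := ih (by omega)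
      rw [List.take_succ_eq_append_getElem hn', isWeaklyRegular_append_iff,
        isWeaklyRegular_singleton_iff]
      refine ⟨ih, ?_⟩
      by_contra hreg
      have hex : ∃ z : A ⧸ (Ideal.ofList (fs.take n) • (⊤ : Submodule A A)), fs[n] • z = 0 ∧
          z ≠ 0 := by
        by_contra hcon
        push Not at hcon
        apply hreg
        intro a b hab
        have h1 : fs[n] • (a - b) = 0 := by
          rw [smul_sub, sub_eq_zero]
          exact hab
        exact sub_eq_zero.1 (hcon _ h1)
      obtain ⟨z, hz0, hz⟩ := hex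
      obtain ⟨gs, hg, hgl, hgr⟩ := extend xs hx hxr (xs.length - n) (fs.take n)
        (fun f hf' => hf f (List.mem_of_mem_take hf')) ih (by simp; omega)
      rw [isWeaklyRegular_append_iff] at hgr
      let J : Ideal A := LinearMap.ker (LinearMap.toSpanSingleton A _ z)
      have hJ : ∀ a, a ∈ J ↔ a • z = 0 := fun a => by
        simp [J]
      have hk := key gs _ hgr.2 hg z hz J fun a ha => (hJ a).1 ha
      have hJt : J ≠ ⊤ := by
        intro h
        apply hz
        have : (1 : A) ∈ J := by rw [h]; trivial
        rw [hJ, one_smul] at this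
        exact this
      have hsub : Ideal.ofList fs ≤ J ⊔ Ideal.ofList (fs.drop (n + 1)) := by
        unfold Ideal.ofList
        rw [Ideal.span_le]
        intro f hf'
        change f ∈ fs at hf'
        rw [← List.take_append_drop (n + 1) fs, List.mem_append,
          List.take_succ_eq_append_getElem hn', List.mem_append, List.mem_singleton] at hf'
        rcases hf' with (hf' | hf') | hf'
        · apply Ideal.mem_sup_left
          rw [hJ]
          obtain ⟨a, rfl⟩ := Submodule.Quotient.mk_surjective _ z
          rw [← Submodule.Quotient.mk_smul, Submodule.Quotient.mk_eq_zero]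
          exact Submodule.smul_mem_smul (Ideal.subset_span hf') trivial
        · apply Ideal.mem_sup_left
          rw [hJ, hf']
          exact hz0
        · apply Ideal.mem_sup_right
          exact Ideal.subset_span hf'
      have hq := quot_dim J hJt fs (fs.drop (n + 1))
        (fun g hg' => hf g (List.mem_of_mem_drop hg')) hsub
      rw [hgl] at hk
      have h1 := hk.trans hq
      rw [List.length_drop] at h1
      -- arithmetic
      have h2 : ((xs.length - n : ℕ) : WithBot ℕ∞) + ((n + 1 : ℕ) : WithBot ℕ∞) ≤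
          ringKrullDim (A ⧸ Ideal.ofList fs) + fs.length := by
        calc ((xs.length - n : ℕ) : WithBot ℕ∞) + ((n + 1 : ℕ) : WithBot ℕ∞)
            ≤ (ringKrullDim (A ⧸ Ideal.ofList fs) + ((fs.length - (n + 1) : ℕ) : WithBot ℕ∞)) +
              ((n + 1 : ℕ) : WithBot ℕ∞) := by gcongr
          _ = ringKrullDim (A ⧸ Ideal.ofList fs) + fs.length := by
              rw [add_assoc, ← Nat.cast_add, Nat.sub_add_cancel hn]
      have h3 := h2.trans hdim
      have h4 : xs.length - n + (n + 1) ≤ xs.length := by exact_mod_cast h3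
      omega
  have := main fs.length le_rfl
  rwa [List.take_length] at this

end localring

open MvPolynomial

/-- f.g. domains: there is `s` with `ringKrullDim = s` and `trdeg = s`. -/
theorem exists_dim_trdeg (k A : Type u) [Field k] [CommRing A] [IsDomain A]
    [Algebra k A] [Algebra.FiniteType k A] :
    ∃ s : ℕ, ringKrullDim A = s ∧ Algebra.trdeg k A = s := by
  obtain ⟨s, g, hg1, hg2⟩ := exists_integral_inj_algHom_of_fg k A
  refine ⟨s, ?_, ?_⟩
  · let : Algebra (MvPolynomial (Fin s) k) A := g.toRingHom.toAlgebra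
    have : Algebra.IsIntegral (MvPolynomial (Fin s) k) A := ⟨hg2⟩
    have h1 : ringKrullDim A ≤ ringKrullDim (MvPolynomial (Fin s) k) :=
      Pool.Agent.Helper834.EC.ringKrullDim_le_of_integral
    have h2 : ringKrullDim (MvPolynomial (Fin s) k) ≤ ringKrullDim A :=
      Pool.Agent.Helper834.EC.ringKrullDim_ge_of_integral hg1
    rw [le_antisymm h1 h2, MvPolynomial.ringKrullDim_of_isNoetherianRing,
      ringKrullDim_eq_zero_of_field]
    simp
  · have hai : AlgebraicIndependent k (fun i => g (MvPolynomial.X i)) := by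
      have : MvPolynomial.aeval (fun i => g (MvPolynomial.X i)) = g := by
        ext i; simp
      rw [AlgebraicIndependent, this]
      exact hg1
    have hb : IsTranscendenceBasis k (fun i => g (MvPolynomial.X i)) := by
      rw [hai.isTranscendenceBasis_iff_isAlgebraic]
      refine ⟨fun x => ?_⟩
      obtain ⟨p, hp1, hp2⟩ := hg2 x
      have hr : ∀ q : MvPolynomial (Fin s) k,
          g q ∈ Algebra.adjoin k (Set.range fun i => g (MvPolynomial.X i)) := by
        intro q
        have h1 : g q = MvPolynomial.aeval (fun i => g (MvPolynomial.X i)) q := by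
          have : MvPolynomial.aeval (fun i => g (MvPolynomial.X i)) = g := by
            ext i; simp
          rw [this]
        rw [h1, ← MvPolynomial.aeval_range]
        exact ⟨q, rfl⟩
      let g' : MvPolynomial (Fin s) k →ₐ[k]
          Algebra.adjoin k (Set.range fun i => g (MvPolynomial.X i)) :=
        g.codRestrict _ hr
      refine ⟨p.map g'.toRingHom, (hp1.map _).ne_zero, ?_⟩
      rw [Polynomial.aeval_def, Polynomial.eval₂_map]
      exact hp2
    have := hb.lift_cardinalMk_eq_trdeg
    simpa using this.symm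

theorem ringKrullDim_quotient_le_of_primes {R : Type*} [CommRing R] (I : Ideal R)
    (m : WithBot ℕ∞) (h : ∀ P : Ideal R, P.IsPrime → I ≤ P → ringKrullDim (R ⧸ P) ≤ m) :
    ringKrullDim (R ⧸ I) ≤ m := by
  rw [ringKrullDim_quotient]
  refine iSup_le fun p => ?_
  set P0 : Ideal R := (p.head).1.asIdeal with hP0
  refine le_trans ?_ (h P0 (p.head).1.isPrime (p.head).2)
  rw [ringKrullDim_quotient]
  let q : LTSeries (PrimeSpectrum.zeroLocus (P0 : Set R)) :=
    LTSeries.mk p.length (fun i => ⟨(p i).1, fun x hx => (p.head_le i) hx⟩)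
      (fun i j hij => p.strictMono hij)
  exact Order.LTSeries.length_le_krullDim q

/-- Quotients by primes of a localization. -/
theorem dim_localization {R A : Type*} [CommRing R] [CommRing A] [Algebra R A] (T : Submonoid R)
    [IsLocalization T A] (P : Ideal A) :
    ringKrullDim (A ⧸ P) ≤ ringKrullDim (R ⧸ P.comap (algebraMap R A)) := by
  rw [ringKrullDim_quotient, ringKrullDim_quotient]
  let F : PrimeSpectrum.zeroLocus (P : Set A) →
      PrimeSpectrum.zeroLocus ((P.comap (algebraMap R A) : Ideal R) : Set R) :=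
    fun q => ⟨PrimeSpectrum.comap (algebraMap R A) q.1, fun x hx => q.2 hx⟩
  refine Order.krullDim_le_of_strictMono F ?_
  apply Monotone.strictMono_of_injective
  · intro q q' h
    exact Ideal.comap_mono h
  · intro q q' h
    have h1 : PrimeSpectrum.comap (algebraMap R A) q.1 = PrimeSpectrum.comap (algebraMap R A) q'.1 :=
      congrArg Subtype.val h
    exact Subtype.ext (PrimeSpectrum.localization_comap_injective A T h1)

theorem regular_vars (K : Type*) [Field K] (d : ℕ) :
    IsWeaklyRegular (MvPolynomial (Fin d) K)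
      (List.ofFn (fun i : Fin d => (X i : MvPolynomial (Fin d) K))) := by
  constructor
  intro i hi
  have hid : i < d := by simpa using hi
  rw [isSMulRegular_quotient_iff_mem_of_smul_mem]
  have hI : (Ideal.ofList ((List.ofFn (fun i : Fin d => (X i : MvPolynomial (Fin d) K))).take i) • ⊤ :
      Submodule (MvPolynomial (Fin d) K) (MvPolynomial (Fin d) K)) =
      Ideal.span (X '' {j : Fin d | (j : ℕ) < i}) := by
    rw [smul_eq_mul, Ideal.mul_top, Ideal.ofList]
    congr 1
    ext r
    simp only [Set.mem_ofPred_eq, List.mem_take_iff_getElem, Set.mem_image, List.length_ofFn,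
      List.getElem_ofFn]
    constructor
    · rintro ⟨j, hj, rfl⟩
      have hj' : j < i := by omega
      exact ⟨⟨j, by omega⟩, hj', rfl⟩
    · rintro ⟨j, hj, rfl⟩
      exact ⟨j, by omega, rfl⟩
  rw [hI]
  intro f hf
  rw [List.getElem_ofFn, smul_eq_mul, mem_ideal_span_X_image] at hf
  rw [mem_ideal_span_X_image]
  intro m hm
  obtain ⟨j, hj, hj'⟩ := hf (m + Finsupp.single ⟨i, hid⟩ 1) (by
    rw [mem_support_iff] at hm ⊢
    rwa [mul_comm, coeff_mul_X])
  refine ⟨j, hj, ?_⟩
  have hne : (⟨i, hid⟩ : Fin d) ≠ j := by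
    intro h
    have : (j : ℕ) < i := hj
    rw [← h] at this
    exact lt_irrefl _ this
  simpa [Finsupp.single_apply, hne] using hj'

section graded

variable {k : Type u} [Field k] {N : ℕ}

attribute [local instance] MvPolynomial.gradedAlgebra

theorem dec_eq (p : MvPolynomial (Fin N) k) (n : ℕ) :
    (DirectSum.decompose (homogeneousSubmodule (Fin N) k) p n : MvPolynomial (Fin N) k) =
      homogeneousComponent n p := decomposition.decompose'_apply p n

/-- Descent from the localization at the origin, for homogeneous ideals. -/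
theorem descend (I : Ideal (MvPolynomial (Fin N) k))
    (hI : I.IsHomogeneous (homogeneousSubmodule (Fin N) k)) {h : MvPolynomial (Fin N) k} {d : ℕ}
    (hh : h.IsHomogeneous d)
    (H : ∀ g, h * g ∈ I → ∃ s : MvPolynomial (Fin N) k, coeff 0 s ≠ 0 ∧ s * g ∈ I)
    (g : MvPolynomial (Fin N) k) (hg : h * g ∈ I) : g ∈ I := by
  classical
  rw [← DirectSum.sum_support_decompose (homogeneousSubmodule (Fin N) k) g]
  refine Ideal.sum_mem _ fun n _ => ?_
  set gn : MvPolynomial (Fin N) k :=
    (DirectSum.decompose (homogeneousSubmodule (Fin N) k) g n : MvPolynomial (Fin N) k) with hgn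
  have hgmem : gn ∈ homogeneousSubmodule (Fin N) k n := SetLike.coe_mem _
  have h1 : h * gn ∈ I := by
    have h2 := hI (d + n) hg
    rwa [DirectSum.coe_decompose_mul_add_of_left_mem (homogeneousSubmodule (Fin N) k)
      (show h ∈ homogeneousSubmodule (Fin N) k d from hh)] at h2
  obtain ⟨s, hs, hsg⟩ := H gn h1
  have h2 := hI (0 + n) hsg
  rw [DirectSum.coe_decompose_mul_add_of_right_mem (homogeneousSubmodule (Fin N) k) hgmem,
    dec_eq, homogeneousComponent_zero] at h2
  have h3 := I.mul_mem_left (C (coeff 0 s)⁻¹) h2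
  rwa [← mul_assoc, ← C_mul, inv_mul_cancel₀ hs, C_1, one_mul] at h3

end graded

attribute [local instance] MvPolynomial.gradedAlgebra

theorem reg : Pool.Agent.TH28.FL.S_REG.{u} := by
  intro k _ N m f hf htr
  have hf0 : ∀ i, coeff 0 (f i) = 0 := by
    intro i
    obtain ⟨d, hd, hh⟩ := hf i
    exact hh.coeff_eq_zero (d := 0) (by simpa using hd.ne)
  -- the maximal ideal at the origin
  let M0 : Ideal (MvPolynomial (Fin N) k) := RingHom.ker (constantCoeff : MvPolynomial (Fin N) k →+* k)
  have hM0 : ∀ p : (MvPolynomial (Fin N) k), p ∈ M0 ↔ coeff 0 p = 0 := fun p => Iff.rfl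
  have hmax : M0.IsMaximal := RingHom.ker_isMaximal_of_surjective _ fun c => ⟨C c, constantCoeff_C _ c⟩
  have hprime : M0.IsPrime := hmax.isPrime
  let A := Localization.AtPrime M0
  have hnoe : IsNoetherianRing A := IsLocalization.isNoetherianRing M0.primeCompl _ inferInstance
  have hmN : m ≤ N := by
    have h1 := htr M0 hprime fun i => (hM0 _).2 (hf0 i)
    have h2 : (m : Cardinal) ≤ (N : Cardinal) := le_trans le_add_self h1
    exact_mod_cast h2
  let F : List (MvPolynomial (Fin N) k) := List.ofFn f
  let φ := algebraMap (MvPolynomial (Fin N) k) A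
  have hφ : Function.Injective φ :=
    IsLocalization.injective A (Ideal.primeCompl_le_nonZeroDivisors M0)
  have hreg : IsWeaklyRegular A (F.map φ) := by
    refine local_main ((List.ofFn fun i : Fin N => (X i : (MvPolynomial (Fin N) k))).map φ) ?_ ?_ (F.map φ) ?_ ?_
    · intro x hx
      obtain ⟨p, hp, rfl⟩ := List.mem_map.1 hx
      obtain ⟨i, rfl⟩ := (List.mem_ofFn' _ _).1 hp
      rw [IsLocalization.AtPrime.to_map_mem_maximal_iff A M0, hM0]
      simp
    · exact IsWeaklyRegular.of_isLocalization A M0.primeCompl (regular_vars k N)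
    · intro x hx
      obtain ⟨p, hp, rfl⟩ := List.mem_map.1 hx
      obtain ⟨i, rfl⟩ := (List.mem_ofFn' _ _).1 hp
      rw [IsLocalization.AtPrime.to_map_mem_maximal_iff A M0, hM0]
      exact hf0 i
    · rw [List.length_map, List.length_map, List.length_ofFn, List.length_ofFn]
      have h1 : ringKrullDim (A ⧸ Ideal.ofList (F.map φ)) ≤ ((N - m : ℕ) : WithBot ℕ∞) := by
        refine ringKrullDim_quotient_le_of_primes _ _ fun P hP hle => ?_
        refine (dim_localization M0.primeCompl P).trans ?_
        have hPc : (P.comap φ).IsPrime := Ideal.comap_isPrime _ _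
        have hfP : ∀ i, f i ∈ P.comap φ := by
          intro i
          rw [Ideal.mem_comap]
          apply hle
          apply Ideal.subset_span
          exact List.mem_map.2 ⟨f i, (List.mem_ofFn' _ _).2 ⟨i, rfl⟩, rfl⟩
        have : IsDomain ((MvPolynomial (Fin N) k) ⧸ P.comap φ) := Ideal.Quotient.isDomain _
        obtain ⟨s, hs1, hs2⟩ := exists_dim_trdeg k ((MvPolynomial (Fin N) k) ⧸ P.comap φ)
        have h2 := htr (P.comap φ) hPc hfP
        rw [hs2] at h2
        have h3 : s + m ≤ N := by exact_mod_cast h2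
        rw [hs1]
        have h4 : s ≤ N - m := by omega
        exact_mod_cast h4
      calc ringKrullDim (A ⧸ Ideal.ofList (F.map φ)) + (m : WithBot ℕ∞)
          ≤ ((N - m : ℕ) : WithBot ℕ∞) + (m : WithBot ℕ∞) := by gcongr
        _ = (N : WithBot ℕ∞) := by rw [← Nat.cast_add, Nat.sub_add_cancel hmN]
  have hweak : IsWeaklyRegular (MvPolynomial (Fin N) k) F := by
    constructor
    intro i hi
    have him : i < m := by simpa [F] using hi
    rw [isSMulRegular_quotient_iff_mem_of_smul_mem, smul_eq_mul, Ideal.mul_top]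
    have hA := hreg.regular_mod_prev i (by simpa using hi)
    rw [isSMulRegular_quotient_iff_mem_of_smul_mem, smul_eq_mul, Ideal.mul_top] at hA
    have e1 : Ideal.ofList ((F.map φ).take i) = (Ideal.ofList (F.take i)).map φ := by
      rw [← List.map_take, Ideal.map_ofList]
    rw [e1] at hA
    have e2 : (F.map φ)[i]'(by simpa using hi) = φ (f ⟨i, him⟩) := by
      simp [F]
    have e3 : F[i]'hi = f ⟨i, him⟩ := by simp [F]
    intro g hg
    rw [e3, smul_eq_mul] at hg
    obtain ⟨d, hd, hh⟩ := hf ⟨i, him⟩
    refine descend _ ?_ hh ?_ g hg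
    · refine Ideal.homogeneous_span _ _ ?_
      intro x hx
      have hx' : x ∈ F := List.mem_of_mem_take hx
      obtain ⟨j, rfl⟩ := (List.mem_ofFn' _ _).1 hx'
      obtain ⟨e, he, hhe⟩ := hf j
      exact ⟨e, hhe⟩
    · intro g hg
      have h1 : φ (f ⟨i, him⟩) * φ g ∈ (Ideal.ofList (F.take i)).map φ := by
        rw [← map_mul]
        exact Ideal.mem_map_of_mem _ hg
      have h2 := hA (φ g) (by rw [e2, smul_eq_mul]; exact h1)
      rw [IsLocalization.mem_map_algebraMap_iff M0.primeCompl] at h2
      obtain ⟨⟨⟨a, ha⟩, ⟨s, hs⟩⟩, h3⟩ := h2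
      refine ⟨s, fun h0 => hs ((hM0 s).2 h0), ?_⟩
      have h4 : φ (g * s) = φ a := by
        rw [map_mul]
        exact h3
      rw [mul_comm, hφ h4]
      exact ha
  refine ⟨hweak, ?_⟩
  intro h
  have h1 : (1 : (MvPolynomial (Fin N) k)) ∈ Ideal.ofList F := by
    rw [smul_eq_mul, Ideal.mul_top] at h
    rw [← h]
    trivial
  have h2 : Ideal.ofList F ≤ M0 := by
    unfold Ideal.ofList
    rw [Ideal.span_le]
    intro x hx
    obtain ⟨i, rfl⟩ := (List.mem_ofFn' _ _).1 hx
    exact (hM0 _).2 (hf0 i)
  exact (Ideal.ne_top_iff_one _).1 hprime.ne_top (h2 h1)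

end Pool.Agent.TH89.J1107
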