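import Pool.Agent.TH317.CC.Geo

/-!
# Ribbon graph and cell system of a square tiling (job 2570 of helper317)
-/

set_option autoImplicit false
set_option linter.unusedSectionVars false

universe u

namespace Pool.Agent.TH317.CC

namespace H89

/-! ### The unit square -/

theorem side_one (k : Fin 4) : side k 1 = side (k + 1) 0 := by
  fin_cases k <;> simp [side]

theorem side_mem (k : Fin 4) {t : ℝ} (ht : t ∈ Set.Icc (0 : ℝ) 1) : side k t ∈ I2 := by
  obtain ⟨h0, h1⟩ := ht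
  unfold I2
  fin_cases k <;> simp [side, Prod.le_def, h0, h1]

theorem side_cont (k : Fin 4) : Continuous (side k) := by
  have : side k = fun t => side k t := rfl
  rw [this]
  fin_cases k <;> simp only [side] <;> fun_prop

theorem side_corner {i k : Fin 4} {t : ℝ} (h : side i t = side k 0) : t = 0 ∨ t = 1 := by
  fin_cases i <;> fin_cases k <;> simp [side, Prod.ext_iff] at h <;>
    first
      | (left; linarith)
      | (right; linarith)

theorem side_inj0 {i k : Fin 4} (h : side i 0 = side k 0) : i = k := by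
  fin_cases i <;> fin_cases k <;> simp [side, Prod.ext_iff] at h ⊢

theorem side_int {i i' : Fin 4} {t t' : ℝ} (h : side i t = side i' t') (h0 : 0 < t) (h1 : t < 1)
    (_ : 0 ≤ t') (_ : t' ≤ 1) : i = i' := by
  fin_cases i <;> fin_cases i' <;> simp [side, Prod.ext_iff] at h ⊢ <;>
    (obtain ⟨h2, h3⟩ := h; linarith)

section flags

variable {M : Type u} [MetricSpace M] (T : SqTiling M)

/-- the corner of a flag -/
def ct (x : T.F × Fin 4) : M := T.sq x.1 (side x.2 0)

/-- the next flag around the corner -/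
def sg (x : T.F × Fin 4) : T.F × Fin 4 := T.nb (x.1, x.2 - 1)

theorem ct_next (f : T.F) (k : Fin 4) : ct T (f, k + 1) = ct T (T.nb (f, k)) := by
  have h := T.glue f k 1 ⟨zero_le_one, le_rfl⟩
  rw [side_one, sub_self] at h
  exact h

theorem ct_nb (x : T.F × Fin 4) : ct T ((T.nb x).1, (T.nb x).2 + 1) = ct T x := by
  rw [ct_next]
  show ct T (T.nb (T.nb x)) = _
  rw [T.nb_nb]

theorem ct_sg (x : T.F × Fin 4) : ct T (sg T x) = ct T x := by
  unfold sg
  rw [← ct_next, sub_add_cancel]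

theorem sg_inj : Function.Injective (sg T) := by
  intro x y h
  have h1 := congrArg T.nb h
  unfold sg at h1
  rw [T.nb_nb, T.nb_nb, Prod.mk.injEq] at h1
  have h2 : x.2 = y.2 := sub_left_injective h1.2
  exact Prod.ext h1.1 h2

theorem sg_ne (x : T.F × Fin 4) : sg T x ≠ x := by
  intro h
  have h1 : (sg T x).1 = x.1 := by rw [h]
  exact T.nb_ne (x.1, x.2 - 1) h1

theorem cyc {x y : T.F × Fin 4} (h : ct T x = ct T y) : ∃ n, (sg T)^[n] x = y :=
  T.cycle x.1 y.1 x.2 y.2 h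

theorem corner_mem (x : T.F × Fin 4) : side x.2 0 ∈ I2 := side_mem _ ⟨le_rfl, zero_le_one⟩

theorem ct_inj {f : T.F} {k m : Fin 4} (h : ct T (f, k) = ct T (f, m)) : k = m :=
  side_inj0 (T.inj f (corner_mem T (f, k)) (corner_mem T (f, m)) h)

/-- base flags -/
noncomputable def bs (v : M) (h : ∃ y, ct T y = v) : T.F × Fin 4 := h.choose

theorem ct_bs (v : M) (h : ∃ y, ct T y = v) : ct T (bs T v h) = v := h.choose_spec

open Classical in
/-- index of a flag -/
noncomputable def idx (x : T.F × Fin 4) : ℕ := Nat.find (cyc T (ct_bs T (ct T x) ⟨x, rfl⟩))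

theorem idx_spec (x : T.F × Fin 4) : (sg T)^[idx T x] (bs T (ct T x) ⟨x, rfl⟩) = x := by
  classical
  exact Nat.find_spec (cyc T (ct_bs T (ct T x) ⟨x, rfl⟩))

theorem idx_le {x : T.F × Fin 4} {n : ℕ} (h : (sg T)^[n] (bs T (ct T x) ⟨x, rfl⟩) = x) :
    idx T x ≤ n := by
  classical
  exact Nat.find_min' (cyc T (ct_bs T (ct T x) ⟨x, rfl⟩)) h

theorem bs_congr {v v' : M} (h : v = v') (hv : ∃ y, ct T y = v) (hv' : ∃ y, ct T y = v') :
    bs T v hv = bs T v' hv' := by
  subst h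
  rfl

theorem idx_inj {x y : T.F × Fin 4} (h : ct T x = ct T y) (h' : idx T x = idx T y) : x = y := by
  rw [← idx_spec T x, ← idx_spec T y, h', bs_congr T h]

/-- the successor around a vertex -/
theorem idx_sg (x : T.F × Fin 4) : idx T (sg T x) = idx T x + 1 ∨
    (idx T (sg T x) = 0 ∧ 0 < idx T x ∧ ∀ y, ct T y = ct T x → idx T y ≤ idx T x) := by
  set b := bs T (ct T x) ⟨x, rfl⟩ with hb
  have hx : (sg T)^[idx T x] b = x := idx_spec T x
  have hsx : (sg T)^[idx T x + 1] b = sg T x := by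
    rw [Function.iterate_succ_apply', hx]
  have hbs : bs T (ct T (sg T x)) ⟨sg T x, rfl⟩ = b := bs_congr T (ct_sg T x) _ _
  by_cases h : sg T x = b
  · right
    have h0 : idx T (sg T x) = 0 := by
      have : idx T (sg T x) ≤ 0 := idx_le T (by rw [hbs]; exact h.symm)
      omega
    have h1 : 0 < idx T x := by
      rcases Nat.eq_zero_or_pos (idx T x) with h2 | h2
      · exfalso
        rw [h2] at hx
        have h3 : b = x := hx
        exact sg_ne T x (h.trans h3)
      · exact h2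
    refine ⟨h0, h1, fun y hy => ?_⟩
    obtain ⟨m, hm⟩ := cyc T (x := b) (y := y) ((ct_bs T _ _).trans hy.symm)
    have hper : Function.IsPeriodicPt (sg T) (idx T x + 1) b := by
      show (sg T)^[idx T x + 1] b = b
      rw [hsx, h]
    have h2 : (sg T)^[m % (idx T x + 1)] b = y := by
      rw [hper.iterate_mod_apply, hm]
    have h3 : idx T y ≤ m % (idx T x + 1) := by
      apply idx_le
      rw [bs_congr T hy _ ⟨x, rfl⟩]
      exact h2
    have h4 : m % (idx T x + 1) < idx T x + 1 := Nat.mod_lt m (Nat.succ_pos (idx T x))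
    omega
  · left
    apply le_antisymm
    · exact idx_le T (by rw [hbs]; exact hsx)
    · have h1 : (sg T)^[idx T (sg T x)] b = sg T x := by
        have := idx_spec T (sg T x)
        rwa [hbs] at this
      rcases Nat.eq_zero_or_pos (idx T (sg T x)) with h2 | h2
      · exfalso
        rw [h2] at h1
        exact h h1.symm
      · obtain ⟨m, hm⟩ := Nat.exists_eq_succ_of_ne_zero h2.ne'
        rw [hm, Nat.succ_eq_add_one, Function.iterate_succ_apply'] at h1
        have h3 := idx_le T (sg_inj T h1)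
        omega

theorem ct_mem (f : T.F) (k : Fin 4) : ct T (f, k) ∈ T.sq f '' I2 :=
  ⟨_, corner_mem T (f, k), rfl⟩

/-- a corner in the square `f` is a corner of `f` -/
theorem corner_of {x : T.F × Fin 4} {f : T.F} (h : ct T x ∈ T.sq f '' I2) :
    ∃ k, ct T x = ct T (f, k) := by
  obtain ⟨q, hq, hqx⟩ := h
  by_cases hf : x.1 = f
  · subst hf
    exact ⟨x.2, rfl⟩
  · rcases T.meet x.1 f hf with h1 | ⟨i, j, h1⟩ | ⟨i, j, h1, h2⟩
    · exact absurd hqx.symm (h1 _ (corner_mem T x) _ hq)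
    · obtain ⟨-, h3⟩ := (h1 _ (corner_mem T x) _ hq).1 hqx.symm
      refine ⟨j, ?_⟩
      rw [← hqx, h3]
      rfl
    · obtain ⟨t, ht, h3, h4⟩ := (h2 _ (corner_mem T x) _ hq).1 hqx.symm
      rcases side_corner h3.symm with h5 | h5
      · refine ⟨j + 1, ?_⟩
        rw [← hqx, h4, h5, sub_zero, side_one]
        rfl
      · refine ⟨j, ?_⟩
        rw [← hqx, h4, h5, sub_self]
        rfl

end flags

section rib

variable {M : Type u} [MetricSpace M] [LinearOrder M] (T : SqTiling M) (F₀ : Set T.F)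

/-- the darts -/
abbrev Dt : Type u := {x : T.F × Fin 4 // x.1 ∈ F₀ ∨ (T.nb x).1 ∈ F₀}

/-- the ribbon graph -/
noncomputable def rib : Rib (Dt T F₀) M (M ×ₗ ℕ) where
  inv d := ⟨T.nb d.1, by
    rw [T.nb_nb]
    exact d.2.symm⟩
  pos d := toLex (ct T d.1, idx T d.1)
  tl d := ct T d.1
  inv_inv d := Subtype.ext (T.nb_nb _)
  noloop d := by
    intro h
    have h1 : ct T (d.1.1, d.1.2 + 1) = ct T (d.1.1, d.1.2) := (ct_next T d.1.1 d.1.2).trans h
    have h2 := ct_inj T h1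
    revert h2
    generalize d.1.2 = k
    fin_cases k <;> decide
  pos_inj d d' h := by
    have h1 := congrArg ofLex h
    simp only [ofLex_toLex, Prod.mk.injEq] at h1
    exact Subtype.ext (idx_inj T h1.1 h1.2)
  block a b c h1 h2 := by
    simp only [Prod.Lex.toLex_lt_toLex]
    constructor
    · rintro (h | h)
      · left; rwa [← h1]
      · exact absurd h.1 h2
    · rintro (h | h)
      · left; rwa [h1]
      · exact absurd (h.1.trans h1.symm) h2

theorem pos_lt {d d' : Dt T F₀} (h : ct T d.1 = ct T d'.1) :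
    (rib T F₀).pos d < (rib T F₀).pos d' ↔ idx T d.1 < idx T d'.1 := by
  simp only [rib, Prod.Lex.toLex_lt_toLex]
  constructor
  · rintro (h1 | h1)
    · rw [h] at h1
      exact absurd h1 (lt_irrefl _)
    · exact h1.2
  · intro h1
    exact Or.inr ⟨h, h1⟩

theorem pos_le {d d' : Dt T F₀} (h : ct T d.1 = ct T d'.1) :
    (rib T F₀).pos d ≤ (rib T F₀).pos d' ↔ idx T d.1 ≤ idx T d'.1 := by
  rw [← not_lt, ← not_lt, pos_lt T F₀ h.symm]

/-- the dart `k` of the square `f` -/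
def dt (f : T.F) (hf : f ∈ F₀) (k : Fin 4) : Dt T F₀ := ⟨(f, k), Or.inl hf⟩

variable {F₀}

theorem hd_dt {f : T.F} (hf : f ∈ F₀) (k : Fin 4) :
    (rib T F₀).hd (dt T F₀ f hf k) = ct T (f, k + 1) := (ct_next T f k).symm

theorem tl_inv {f : T.F} (hf : f ∈ F₀) (k : Fin 4) :
    (rib T F₀).tl ((rib T F₀).inv (dt T F₀ f hf k)) = ct T (f, k + 1) := (ct_next T f k).symm

theorem hd_inv {f : T.F} (hf : f ∈ F₀) (k : Fin 4) :
    (rib T F₀).hd ((rib T F₀).inv (dt T F₀ f hf k)) = ct T (f, k) := by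
  unfold Rib.hd
  rw [(rib T F₀).inv_inv]
  rfl

/-- arcs of the boundary of a square -/
def arc (f : T.F) (hf : f ∈ F₀) : Fin 4 → ℕ → List (Dt T F₀)
  | _, 0 => []
  | k, n + 1 => dt T F₀ f hf k :: arc f hf (k + 1) n

theorem walk_append {v v' v'' : M} {w w' : List (Dt T F₀)} (h : Walk (rib T F₀) v v' w)
    (h' : Walk (rib T F₀) v' v'' w') : Walk (rib T F₀) v v'' (w ++ w') := by
  induction w generalizing v with
  | nil =>
    have : v = v' := h
    subst this
    exact h'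
  | cons d l ih => exact ⟨h.1, ih h.2⟩

/-- the end of an arc -/
def sh : Fin 4 → ℕ → Fin 4
  | k, 0 => k
  | k, n + 1 => sh (k + 1) n

theorem sh_sub : ∀ k k' : Fin 4, sh k (k' - k).val = k' := by decide

theorem sh4 : ∀ k : Fin 4, sh k 4 = k := by decide

theorem sh3 : ∀ k : Fin 4, sh (k + 1) 3 = k := by decide

theorem e4 : ∀ m : Fin 4, m + 1 + 1 + 1 + 1 = m := by decide

theorem e3 : ∀ m : Fin 4, m + 1 + 1 + 1 = m + 3 := by decide

theorem e13 : ∀ m : Fin 4, m + 1 + 3 = m := by decide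

theorem arc_walk {f : T.F} (hf : f ∈ F₀) (n : ℕ) : ∀ k : Fin 4,
    Walk (rib T F₀) (ct T (f, k)) (ct T (f, sh k n)) (arc T f hf k n) := by
  induction n with
  | zero => intro k; rfl
  | succ n ih =>
    intro k
    refine ⟨rfl, ?_⟩
    rw [hd_dt]
    exact ih (k + 1)

theorem arc_walk' {f : T.F} (hf : f ∈ F₀) (k k' : Fin 4) :
    Walk (rib T F₀) (ct T (f, k)) (ct T (f, k')) (arc T f hf k (k' - k).val) := by
  have h1 := arc_walk T hf (k' - k).val k
  rwa [sh_sub] at h1

theorem arc_mem {f : T.F} (hf : f ∈ F₀) (n : ℕ) : ∀ (k : Fin 4), ∀ e ∈ arc T f hf k n,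
    e.1.1 = f := by
  induction n with
  | zero => intro k e he; simp [arc] at he
  | succ n ih =>
    intro k e he
    simp only [arc, List.mem_cons] at he
    rcases he with rfl | he
    · rfl
    · exact ih _ _ he

theorem arc4 {f : T.F} (hf : f ∈ F₀) (k : Fin 4) :
    arc T f hf k 4 = arc T f hf k 3 ++ [dt T F₀ f hf (k + 3)] := by
  simp only [arc, List.cons_append, List.nil_append]
  rw [e3]

/-- the faces -/
def Fcs (F₀ : Set T.F) : Set (List (Dt T F₀)) :=
  {w | ∃ (f : T.F) (hf : f ∈ F₀) (k : Fin 4), w = arc T f hf k 4}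

theorem rotate_arc {f : T.F} (hf : f ∈ F₀) (k : Fin 4) (n : ℕ) : ∃ m : Fin 4,
    (arc T f hf k 4).rotate n = arc T f hf m 4 := by
  induction n with
  | zero => exact ⟨k, by rw [List.rotate_zero]⟩
  | succ n ih =>
    obtain ⟨m, hm⟩ := ih
    refine ⟨m + 1, ?_⟩
    rw [← List.rotate_rotate, hm]
    simp only [arc, List.rotate_cons_succ, List.rotate_zero, List.cons_append, List.nil_append]
    rw [e4]

theorem isFace {w : List (Dt T F₀)} (hw : w ∈ Fcs T F₀) : IsFace (rib T F₀) w := by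
  obtain ⟨f, hf, k, rfl⟩ := hw
  refine ⟨by simp [arc], ⟨ct T (f, k), ?_⟩, ?_, ?_⟩
  · have := arc_walk T hf 4 k
    rwa [sh4] at this
  · have e : (arc T f hf k 4).map (rib T F₀).tl =
        [ct T (f, k), ct T (f, k + 1), ct T (f, k + 1 + 1), ct T (f, k + 1 + 1 + 1)] := rfl
    rw [e]
    have hne : ∀ a b : Fin 4, a ≠ b → ct T (f, a) ≠ ct T (f, b) := fun a b hab h =>
      hab (ct_inj T h)
    simp only [List.nodup_cons, List.mem_cons, List.not_mem_nil, or_false, not_or,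
      List.nodup_nil, and_true, not_false_eq_true]
    have h4 : ∀ k : Fin 4, (k ≠ k + 1 ∧ k ≠ k + 1 + 1 ∧ k ≠ k + 1 + 1 + 1) ∧
        (k + 1 ≠ k + 1 + 1 ∧ k + 1 ≠ k + 1 + 1 + 1) ∧ k + 1 + 1 ≠ k + 1 + 1 + 1 := by decide
    obtain ⟨⟨a1, a2, a3⟩, ⟨a4, a5⟩, a6⟩ := h4 k
    exact ⟨⟨hne _ _ a1, hne _ _ a2, hne _ _ a3⟩, ⟨hne _ _ a4, hne _ _ a5⟩, hne _ _ a6⟩
  · intro n a b l hab d hd
    obtain ⟨m, hm⟩ := rotate_arc T hf k n
    rw [hm] at hab
    simp only [arc, List.cons.injEq] at hab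
    obtain ⟨rfl, rfl, -⟩ := hab
    -- `inv a = σ b`
    have hinv : ((rib T F₀).inv (dt T F₀ f hf m)).1 = sg T (dt T F₀ f hf (m + 1)).1 := by
      show T.nb (f, m) = T.nb (f, m + 1 - 1)
      rw [add_sub_cancel_right]
    have hct : ct T ((rib T F₀).inv (dt T F₀ f hf m)).1 = ct T (dt T F₀ f hf (m + 1)).1 := by
      rw [hinv, ct_sg]
    have hd' : ct T d.1 = ct T (dt T F₀ f hf (m + 1)).1 := hd
    rw [pos_lt T F₀ hct.symm, pos_lt T F₀ hd'.symm, pos_lt T F₀ (hd'.trans hct.symm),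
      pos_lt T F₀ hct, pos_le T F₀ (hct.trans hd'.symm), pos_le T F₀ hd', hinv]
    rcases idx_sg T (dt T F₀ f hf (m + 1)).1 with h1 | ⟨h1, h2, h3⟩
    · left
      omega
    · right
      have := h3 d.1 hd'
      omega

/-- the cell of a square -/
def cl (j : {f : T.F // f ∈ F₀}) : Set M := T.sq j.1 '' I2

/-- darts of a cell -/
def inc (j : {f : T.F // f ∈ F₀}) (d : Dt T F₀) : Prop := d.1.1 = j.1 ∨ (T.nb d.1).1 = j.1

theorem inc_cases {j : {f : T.F // f ∈ F₀}} {d : Dt T F₀} (h : inc T j d) :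
    (∃ k, d = dt T F₀ j.1 j.2 k) ∨ (∃ k, d = (rib T F₀).inv (dt T F₀ j.1 j.2 k)) := by
  rcases h with h | h
  · left
    exact ⟨d.1.2, Subtype.ext (Prod.ext h rfl)⟩
  · right
    refine ⟨(T.nb d.1).2, Subtype.ext ?_⟩
    show d.1 = T.nb (j.1, (T.nb d.1).2)
    have : (j.1, (T.nb d.1).2) = T.nb d.1 := Prod.ext h.symm rfl
    rw [this, T.nb_nb]

theorem tl_mem' {j : {f : T.F // f ∈ F₀}} {d : Dt T F₀} (h : inc T j d) :
    ∃ k, (rib T F₀).tl d = ct T (j.1, k) := by
  rcases inc_cases T h with ⟨k, rfl⟩ | ⟨k, rfl⟩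
  · exact ⟨k, rfl⟩
  · exact ⟨k + 1, tl_inv T j.2 k⟩

theorem inc_dt (j : {f : T.F // f ∈ F₀}) (k : Fin 4) : inc T j (dt T F₀ j.1 j.2 k) := Or.inl rfl

theorem inc_inv {j : {f : T.F // f ∈ F₀}} {d : Dt T F₀} (h : inc T j d) :
    inc T j ((rib T F₀).inv d) := by
  rcases h with h | h
  · right
    show (T.nb (T.nb d.1)).1 = j.1
    rw [T.nb_nb]
    exact h
  · left
    exact h

/-- the steps between walks in a cell -/
def RR (j : {f : T.F // f ∈ F₀}) (v v' : M) (z z' : List (Dt T F₀)) : Prop :=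
  (Del (rib T F₀) (Fcs T F₀) z z' ∨ Del (rib T F₀) (Fcs T F₀) z' z) ∧
    Walk (rib T F₀) v v' z' ∧ ∀ e ∈ z', inc T j e

theorem del_cons {z z' : List (Dt T F₀)} (d : Dt T F₀) (h : Del (rib T F₀) (Fcs T F₀) z z') :
    Del (rib T F₀) (Fcs T F₀) (d :: z) (d :: z') := by
  cases h with
  | spur u a v => exact Del.spur (d :: u) a v
  | face u f v hf => exact Del.face (d :: u) f v hf

theorem rr_cons {j : {f : T.F // f ∈ F₀}} {v' : M} {z z' : List (Dt T F₀)} {d : Dt T F₀}
    (hd : inc T j d) (h : Relation.ReflTransGen (RR T j ((rib T F₀).hd d) v') z z') :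
    Relation.ReflTransGen (RR T j ((rib T F₀).tl d) v') (d :: z) (d :: z') := by
  refine Relation.ReflTransGen.lift (fun z => d :: z) ?_ _ _ h
  intro a b ⟨h1, h2, h3⟩
  refine ⟨h1.imp (del_cons T d) (del_cons T d), ⟨rfl, h2⟩, ?_⟩
  intro e he
  rcases List.mem_cons.1 he with rfl | he
  · exact hd
  · exact h3 e he

theorem arc_inc {j : {f : T.F // f ∈ F₀}} {k : Fin 4} {n : ℕ} : ∀ e ∈ arc T j.1 j.2 k n,
    inc T j e := fun e he => Or.inl (arc_mem T j.2 n k e he)

/-- every walk in a cell is equivalent to the canonical walk -/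
theorem canon (j : {f : T.F // f ∈ F₀}) (w : List (Dt T F₀)) : ∀ k k' : Fin 4,
    Walk (rib T F₀) (ct T (j.1, k)) (ct T (j.1, k')) w → (∀ e ∈ w, inc T j e) →
    Relation.ReflTransGen (RR T j (ct T (j.1, k)) (ct T (j.1, k'))) w
      (arc T j.1 j.2 k (k' - k).val) := by
  induction w with
  | nil =>
    intro k k' h _
    have h1 : k = k' := ct_inj T h
    subst h1
    rw [sub_self]
    exact Relation.ReflTransGen.refl
  | cons d l ih =>
    intro k k' h hinc
    have hd := hinc d (List.mem_cons_self ..)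
    have hl : ∀ e ∈ l, inc T j e := fun e he => hinc e (List.mem_cons_of_mem _ he)
    obtain ⟨h1, h2⟩ := h
    rcases inc_cases T hd with ⟨m, rfl⟩ | ⟨m, rfl⟩
    · have hm : m = k := ct_inj T h1
      subst hm
      rw [hd_dt] at h2
      have h3 := ih _ _ h2 hl
      rw [← hd_dt T j.2 m] at h3
      have h4 := rr_cons T hd h3
      have key : ∀ m k' : Fin 4, (k' - m).val = (k' - (m + 1)).val + 1 ∨
          (k' = m ∧ (k' - (m + 1)).val = 3 ∧ (k' - m).val = 0) := by decide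
      rcases key m k' with h5 | ⟨h5, h6, h7⟩
      · rw [h5]
        exact h4
      · subst h5
        rw [h7]
        rw [h6] at h4
        refine h4.tail ⟨Or.inl ?_, rfl, by simp [arc]⟩
        have := Del.face (G := rib T F₀) (Fc := Fcs T F₀) [] (arc T j.1 j.2 k' 4) []
          ⟨j.1, j.2, k', rfl⟩
        rw [List.nil_append, List.append_nil, List.nil_append] at this
        exact this
    · rw [tl_inv] at h1
      have hm : m + 1 = k := ct_inj T h1
      subst hm
      rw [hd_inv] at h2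
      have h3 := ih _ _ h2 hl
      rw [← hd_inv T j.2 m] at h3
      have h4 := rr_cons T hd h3
      rw [tl_inv] at h4
      have key : ∀ m k' : Fin 4, (k' - m).val = (k' - (m + 1)).val + 1 ∨
          (k' = m ∧ (k' - m).val = 0 ∧ (k' - (m + 1)).val = 3) := by decide
      rcases key m k' with h5 | ⟨h5, h6, h7⟩
      · rw [h5] at h4
        refine h4.tail ⟨Or.inl ?_, arc_walk' T j.2 _ _, arc_inc T⟩
        have := Del.spur (G := rib T F₀) (Fc := Fcs T F₀) []
          ((rib T F₀).inv (dt T F₀ j.1 j.2 m)) (arc T j.1 j.2 (m + 1) (k' - (m + 1)).val)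
        rw [(rib T F₀).inv_inv] at this
        exact this
      · subst h5
        rw [h7]
        rw [h6] at h4
        -- insert the face, delete the spur
        have e4 : arc T j.1 j.2 (k' + 1) 4 =
            arc T j.1 j.2 (k' + 1) 3 ++ [dt T F₀ j.1 j.2 k'] := by
          rw [arc4, e13]
        have w4 : Walk (rib T F₀) (ct T (j.1, k' + 1)) (ct T (j.1, k' + 1))
            (arc T j.1 j.2 (k' + 1) 4) := by
          have := arc_walk T j.2 4 (k' + 1)
          rwa [sh4] at this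
        have w1 : Walk (rib T F₀) (ct T (j.1, k' + 1)) (ct T (j.1, k'))
            [(rib T F₀).inv (dt T F₀ j.1 j.2 k')] := by
          refine ⟨tl_inv T j.2 k', ?_⟩
          rw [hd_inv]
          rfl
        have s1 : RR T j (ct T (j.1, k' + 1)) (ct T (j.1, k'))
            [(rib T F₀).inv (dt T F₀ j.1 j.2 k')]
            (arc T j.1 j.2 (k' + 1) 4 ++ [(rib T F₀).inv (dt T F₀ j.1 j.2 k')]) := by
          refine ⟨Or.inr ?_, walk_append T w4 w1, ?_⟩
          · exact Del.face (G := rib T F₀) (Fc := Fcs T F₀) [] (arc T j.1 j.2 (k' + 1) 4)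
              [(rib T F₀).inv (dt T F₀ j.1 j.2 k')] ⟨j.1, j.2, k' + 1, rfl⟩
          · intro e he
            rcases List.mem_append.1 he with he | he
            · exact arc_inc T e he
            · rw [List.mem_singleton.1 he]
              exact hd
        have s2 : RR T j (ct T (j.1, k' + 1)) (ct T (j.1, k'))
            (arc T j.1 j.2 (k' + 1) 4 ++ [(rib T F₀).inv (dt T F₀ j.1 j.2 k')])
            (arc T j.1 j.2 (k' + 1) 3) := by
          refine ⟨Or.inl ?_, ?_, arc_inc T⟩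
          · have := Del.spur (G := rib T F₀) (Fc := Fcs T F₀) (arc T j.1 j.2 (k' + 1) 3)
              (dt T F₀ j.1 j.2 k') []
            rw [e4]
            simpa using this
          · have := arc_walk T j.2 3 (k' + 1)
            rwa [sh3] at this
        exact (h4.tail s1).tail s2

end rib

section star

variable {M : Type u} [MetricSpace M] (T : SqTiling M)

theorem cell_compact (f : T.F) : IsCompact (T.sq f '' I2) :=
  (isCompact_Icc (a := ((0 : ℝ), (0 : ℝ))) (b := (1, 1))).image_of_continuousOn (T.cont f)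

/-- a neighborhood meeting only the squares which contain `y` -/
theorem exists_nhd (y : M) : ∃ O ∈ nhds y, ∀ f, (T.sq f '' I2 ∩ O).Nonempty →
    y ∈ T.sq f '' I2 := by
  have h1 : LocallyFinite (fun f : {f // y ∉ T.sq f '' I2} => T.sq f.1 '' I2) :=
    T.locfin.comp_injective Subtype.val_injective
  have h2 := h1.isClosed_iUnion fun f => (cell_compact T f.1).isClosed
  refine ⟨_, h2.isOpen_compl.mem_nhds ?_, ?_⟩
  · intro h
    obtain ⟨f, hf⟩ := Set.mem_iUnion.1 h
    exact f.2 hf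
  · intro f ⟨x, hx1, hx2⟩
    by_contra hcon
    exact hx2 (Set.mem_iUnion.2 ⟨⟨f, hcon⟩, hx1⟩)

/-- the squares containing a point have a common corner -/
theorem exists_corner (y : M) : ∃ x : T.F × Fin 4, y ∈ T.sq x.1 '' I2 ∧
    ∀ f, y ∈ T.sq f '' I2 → ct T x ∈ T.sq f '' I2 := by
  obtain ⟨f, p, hp, hpy⟩ := T.cover y
  have hyf : y ∈ T.sq f '' I2 := ⟨p, hp, hpy⟩
  by_cases hall : ∀ g, y ∈ T.sq g '' I2 → g = f
  · refine ⟨(f, 0), hyf, fun g hg => ?_⟩
    rw [hall g hg]
    exact ct_mem T f 0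
  push Not at hall
  obtain ⟨g, ⟨q, hq, hqy⟩, hgf⟩ := hall
  -- if `y` is a corner
  have hcorner : ∀ x : T.F × Fin 4, y = ct T x → ∃ x : T.F × Fin 4, y ∈ T.sq x.1 '' I2 ∧
      ∀ f, y ∈ T.sq f '' I2 → ct T x ∈ T.sq f '' I2 := by
    intro x hx
    refine ⟨x, ?_, fun f hf => by rwa [← hx]⟩
    rw [hx]
    exact ct_mem T x.1 x.2
  rcases T.meet f g (Ne.symm hgf) with h1 | ⟨i, j, h1⟩ | ⟨i, j, h1, h2⟩
  · exact absurd (hpy.trans hqy.symm) (h1 p hp q hq)
  · obtain ⟨h3, -⟩ := (h1 p hp q hq).1 (hpy.trans hqy.symm)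
    apply hcorner (f, i)
    rw [← hpy, h3]
    rfl
  · obtain ⟨t, ⟨ht0, ht1⟩, h3, h4⟩ := (h2 p hp q hq).1 (hpy.trans hqy.symm)
    rcases eq_or_lt_of_le ht0 with h5 | h5
    · apply hcorner (f, i)
      rw [← hpy, h3, ← h5]
      rfl
    rcases eq_or_lt_of_le ht1 with h6 | h6
    · apply hcorner (f, i + 1)
      rw [← hpy, h3, h6, side_one]
      rfl
    refine ⟨(f, i), hyf, fun h hh => ?_⟩
    by_cases hhf : h = f
    · rw [hhf]
      exact ct_mem T f i
    obtain ⟨q', hq', hq'y⟩ := hh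
    rcases T.meet f h (Ne.symm hhf) with k1 | ⟨i', j', k1⟩ | ⟨i', j', k1, k2⟩
    · exact absurd (hpy.trans hq'y.symm) (k1 p hp q' hq')
    · obtain ⟨k3, -⟩ := (k1 p hp q' hq').1 (hpy.trans hq'y.symm)
      rcases side_corner (h3.symm.trans k3) with k4 | k4 <;> linarith
    · obtain ⟨t', ⟨ht0', ht1'⟩, k3, k4⟩ := (k2 p hp q' hq').1 (hpy.trans hq'y.symm)
      have k5 : i = i' := side_int (h3.symm.trans k3) h5 h6 ht0' ht1'
      subst k5
      have k6 : ct T (f, i) = ct T (h, j' + 1) := by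
        have := ct_next T h j'
        rw [this, ← k1, T.nb_nb]
      rw [k6]
      exact ct_mem T h _

end star

end H89

open H89 in
theorem tiling_cellsys {M : Type u} [MetricSpace M] (T : SqTiling M) (F₀ : Set T.F)
    (hne : F₀.Nonempty) (U : Set M) (hU : IsOpen U) (hUF : ∀ f, ∀ p ∈ I2, T.sq f p ∈ U → f ∈ F₀)
    (ρ : ℝ) (hρ : ∀ f ∈ F₀, ∀ p ∈ I2, ∀ q ∈ I2, dist (T.sq f p) (T.sq f q) ≤ ρ) :
    ∃ (D Λ J : Type u) (_ : LinearOrder Λ) (_ : Inhabited D) (G : Rib D M Λ)
      (Fc : Set (List D)) (cell : J → Set M) (inC : J → D → Prop),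
      (∀ f ∈ Fc, IsFace G f) ∧ (∀ f ∈ Fc, ∃ j, ∀ c ∈ f, inC j c) ∧
      (∀ j, ∃ f ∈ F₀, cell j = T.sq f '' I2) ∧ CellSys G Fc cell inC U ρ := by
  classical
  let _ : LinearOrder M := linearOrderOfSTO (WellOrderingRel (α := M))
  obtain ⟨f0, hf0⟩ := hne
  have hUF' : ∀ y ∈ U, ∀ f, y ∈ T.sq f '' I2 → f ∈ F₀ := by
    rintro y hy f ⟨p, hp, rfl⟩
    exact hUF f p hp hy
  refine ⟨Dt T F₀, M ×ₗ ℕ, {f : T.F // f ∈ F₀}, inferInstance, ⟨dt T F₀ f0 hf0 0⟩, rib T F₀,
    Fcs T F₀, cl T, inc T, fun w hw => isFace T hw, ?_, fun j => ⟨j.1, j.2, rfl⟩, ?_⟩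
  · rintro w ⟨f, hf, k, rfl⟩
    exact ⟨⟨f, hf⟩, fun c hc => Or.inl (arc_mem T hf 4 k c hc)⟩
  refine ⟨?_, ?_, ?_, ?_, ?_, ?_, ?_, ?_, ?_, ?_⟩
  · intro j d hd
    obtain ⟨k, hk⟩ := tl_mem' T hd
    rw [hk]
    exact ct_mem T j.1 k
  · intro j d hd
    exact inc_inv T hd
  · intro j d d' h h'
    obtain ⟨k, hk⟩ := corner_of T (x := d.1) h
    obtain ⟨k', hk'⟩ := corner_of T (x := d'.1) h'
    refine ⟨arc T j.1 j.2 k (k' - k).val, ?_, fun e he => arc_inc T e he⟩
    have := arc_walk' T j.2 k k'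
    rw [← hk, ← hk'] at this
    exact this
  · intro j v w hw hinc
    cases w with
    | nil => exact Relation.ReflTransGen.refl
    | cons d l =>
      obtain ⟨k, hk⟩ := tl_mem' T (hinc d (List.mem_cons_self ..))
      have hv : v = ct T (j.1, k) := hw.1.symm.trans hk
      subst hv
      have := canon T j (d :: l) k k hw hinc
      rw [sub_self] at this
      exact this
  · intro j j' hjj d d' hdd h1 h2 h3 h4
    have hne : j.1 ≠ j'.1 := fun h => hjj (Subtype.ext h)
    obtain ⟨p, hp, hpd⟩ := h1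
    obtain ⟨q, hq, hqd⟩ := h2
    obtain ⟨p', hp', hpd'⟩ := h3
    obtain ⟨q', hq', hqd'⟩ := h4
    rcases T.meet j.1 j'.1 hne with k1 | ⟨i, i', k1⟩ | ⟨i, i', k1, k2⟩
    · exact absurd (hpd.trans hqd.symm) (k1 p hp q hq)
    · exfalso
      apply hdd
      rw [← hpd, ← hpd', ((k1 p hp q hq).1 (hpd.trans hqd.symm)).1,
        ((k1 p' hp' q' hq').1 (hpd'.trans hqd'.symm)).1]
    · obtain ⟨t, ht, a1, a2⟩ := (k2 p hp q hq).1 (hpd.trans hqd.symm)
      obtain ⟨t', ht', b1, b2⟩ := (k2 p' hp' q' hq').1 (hpd'.trans hqd'.symm)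
      obtain ⟨k, hk⟩ := corner_of T (x := d.1) (f := j.1) ⟨p, hp, hpd⟩
      obtain ⟨k', hk'⟩ := corner_of T (x := d'.1) (f := j.1) ⟨p', hp', hpd'⟩
      have c1 : side i t = side k 0 := by
        rw [← a1]
        exact T.inj j.1 hp (corner_mem T (j.1, k)) (hpd.trans hk)
      have c2 : side i t' = side k' 0 := by
        rw [← b1]
        exact T.inj j.1 hp' (corner_mem T (j.1, k')) (hpd'.trans hk')
      have hinc : inc T j' (dt T F₀ j.1 j.2 i) := by
        right
        show (T.nb (j.1, i)).1 = j'.1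
        rw [k1]
      have hA : ∀ {x : M}, T.sq j.1 (side i 0) = x → (rib T F₀).tl (dt T F₀ j.1 j.2 i) = x :=
        fun h => h
      have hB : ∀ {x : M}, T.sq j.1 (side i 1) = x → (rib T F₀).hd (dt T F₀ j.1 j.2 i) = x := by
        intro x h
        rw [hd_dt, ← h, side_one]
        rfl
      have hne' : t ≠ t' := by
        intro h
        apply hdd
        rw [← hpd, ← hpd', a1, b1, h]
      rcases side_corner c1 with t0 | t0 <;> rcases side_corner c2 with t1 | t1
      · exact absurd (t0.trans t1.symm) hne'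
      · refine ⟨dt T F₀ j.1 j.2 i, hA ?_, hB ?_, inc_dt T j i, hinc⟩
        · rw [← t0, ← a1]; exact hpd
        · rw [← t1, ← b1]; exact hpd'
      · refine ⟨(rib T F₀).inv (dt T F₀ j.1 j.2 i), ?_, ?_, inc_inv T (inc_dt T j i),
          inc_inv T hinc⟩
        · apply hB
          rw [← t0, ← a1]; exact hpd
        · unfold Rib.hd
          rw [(rib T F₀).inv_inv]
          apply hA
          rw [← t1, ← b1]; exact hpd'
      · exact absurd (t0.trans t1.symm) hne'
  · intro y hy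
    obtain ⟨x, hx, hall⟩ := exists_corner T y
    obtain ⟨O, hO, hOf⟩ := exists_nhd T y
    exact ⟨⟨x, Or.inl (hUF' y hy _ hx)⟩, O, hO, fun j hj => hall _ (hOf _ hj)⟩
  · intro d hd
    obtain ⟨O, hO, hOf⟩ := exists_nhd T (ct T d.1)
    exact ⟨O, hO, fun j hj => hOf _ hj⟩
  · intro y hy
    obtain ⟨f, p, hp, hpy⟩ := T.cover y
    exact ⟨⟨f, hUF' y hy f ⟨p, hp, hpy⟩⟩, p, hp, hpy⟩
  · intro d
    have hside : ∀ (f : T.F) (k : Fin 4), ContinuousOn (fun t => T.sq f (side k t))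
        (Set.Icc 0 1) := fun f k =>
      (T.cont f).comp (side_cont k).continuousOn fun t ht => side_mem k ht
    have hmem : ∀ t ∈ Set.Icc (0 : ℝ) 1, 1 - t ∈ Set.Icc (0 : ℝ) 1 := fun t ht =>
      ⟨by linarith [ht.2], by linarith [ht.1]⟩
    rcases d.2 with h | h
    · refine ⟨⟨d.1.1, h⟩, Or.inl rfl, fun t => T.sq d.1.1 (side d.1.2 t), hside _ _, rfl, ?_,
        fun t ht => ⟨_, side_mem _ ht, rfl⟩⟩
      show T.sq d.1.1 (side d.1.2 1) = ct T (T.nb d.1)
      rw [side_one]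
      exact ct_next T d.1.1 d.1.2
    · refine ⟨⟨(T.nb d.1).1, h⟩, Or.inr rfl, fun t => T.sq (T.nb d.1).1 (side (T.nb d.1).2 (1 - t)),
        (hside _ _).comp (by fun_prop) hmem, ?_, ?_, fun t ht => ⟨_, side_mem _ (hmem t ht), rfl⟩⟩
      · show T.sq (T.nb d.1).1 (side (T.nb d.1).2 (1 - 0)) = ct T d.1
        rw [sub_zero, side_one]
        exact ct_nb T d.1
      · show T.sq (T.nb d.1).1 (side (T.nb d.1).2 (1 - 1)) = ct T (T.nb d.1)
        rw [sub_self]
        rfl
  · rintro j y ⟨p, hp, rfl⟩ y' ⟨q, hq, rfl⟩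
    exact hρ j.1 j.2 p hp q hq

end Pool.Agent.TH317.CC
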