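import Pool.Agent.TH331.HV.Defs

set_option autoImplicit false

open MeasureTheory UpperHalfPlane Set
open scoped UpperHalfPlane MeasureTheory

namespace Pool.Agent.TH89.HV3

open Pool.Agent.TH331.HV

/-- the affine function attached to `p` -/
noncomputable def g (p : ℍ) (X U : ℝ) : ℝ := (U - 2 * X * p.re + (p.re ^ 2 + p.im ^ 2)) / p.im

theorem cosh_eq (z p : ℍ) : Real.cosh (dist z p) = g p z.re (z.re ^ 2 + z.im ^ 2) / (2 * z.im) := by
  rw [cosh_dist', g]
  have h1 := z.im_pos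
  have h2 := p.im_pos
  field_simp
  ring

theorem dist_le_iff (z p q : ℍ) : dist z p ≤ dist z q ↔
    g p z.re (z.re ^ 2 + z.im ^ 2) ≤ g q z.re (z.re ^ 2 + z.im ^ 2) := by
  have h1 : dist z p ≤ dist z q ↔ Real.cosh (dist z p) ≤ Real.cosh (dist z q) := by
    rw [Real.cosh_le_cosh, abs_of_nonneg dist_nonneg, abs_of_nonneg dist_nonneg]
  rw [h1, cosh_eq, cosh_eq]
  have h2 := z.im_pos
  exact div_le_div_iff_of_pos_right (by positivity)

/-- the squared imaginary part along the path -/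
noncomputable def D (a b : ℍ) (t : ℝ) : ℝ :=
  ((1 - t) * (a.re ^ 2 + a.im ^ 2) + t * (b.re ^ 2 + b.im ^ 2)) -
    ((1 - t) * a.re + t * b.re) ^ 2

theorem D_pos (a b : ℍ) {t : ℝ} (ht : t ∈ Icc (0 : ℝ) 1) : 0 < D a b t := by
  have e : D a b t = (1 - t) * a.im ^ 2 + t * b.im ^ 2 + t * (1 - t) * (a.re - b.re) ^ 2 := by
    unfold D; ring
  rw [e]
  have h1 : 0 < a.im ^ 2 := pow_pos a.im_pos 2
  have h2 : 0 < b.im ^ 2 := pow_pos b.im_pos 2
  have h3 : 0 ≤ t * (1 - t) * (a.re - b.re) ^ 2 :=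
    mul_nonneg (mul_nonneg ht.1 (by linarith [ht.2])) (sq_nonneg _)
  rcases eq_or_lt_of_le ht.1 with h | h
  · rw [← h]; nlinarith
  · have h4 : 0 ≤ (1 - t) * a.im ^ 2 := mul_nonneg (by linarith [ht.2]) h1.le
    have h5 : 0 < t * b.im ^ 2 := mul_pos h h2
    linarith

open Classical in
/-- the geodesic path -/
noncomputable def pth (a b : ℍ) (t : ℝ) : ℍ :=
  if h : 0 < D a b t then
    UpperHalfPlane.mk ⟨(1 - t) * a.re + t * b.re, √(D a b t)⟩ (Real.sqrt_pos.mpr h)
  else a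

theorem pth_re (a b : ℍ) {t : ℝ} (ht : t ∈ Icc (0 : ℝ) 1) :
    (pth a b t).re = (1 - t) * a.re + t * b.re := by
  unfold pth
  rw [dif_pos (D_pos a b ht)]
  rfl

theorem pth_im (a b : ℍ) {t : ℝ} (ht : t ∈ Icc (0 : ℝ) 1) :
    (pth a b t).im = √(D a b t) := by
  unfold pth
  rw [dif_pos (D_pos a b ht)]
  rfl

theorem pth_U (a b : ℍ) {t : ℝ} (ht : t ∈ Icc (0 : ℝ) 1) :
    (pth a b t).re ^ 2 + (pth a b t).im ^ 2 =
      (1 - t) * (a.re ^ 2 + a.im ^ 2) + t * (b.re ^ 2 + b.im ^ 2) := by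
  rw [pth_re a b ht, pth_im a b ht, Real.sq_sqrt (D_pos a b ht).le]
  unfold D; ring

theorem g_aff (p : ℍ) (a b : ℍ) {t : ℝ} (ht : t ∈ Icc (0 : ℝ) 1) :
    g p (pth a b t).re ((pth a b t).re ^ 2 + (pth a b t).im ^ 2) =
      (1 - t) * g p a.re (a.re ^ 2 + a.im ^ 2) + t * g p b.re (b.re ^ 2 + b.im ^ 2) := by
  rw [pth_U a b ht, pth_re a b ht]
  unfold g
  have := p.im_pos
  field_simp
  ring

theorem exists_path (a b : ℍ) : ∃ γ : ℝ → ℍ, ContinuousOn γ (Set.Icc 0 1) ∧ γ 0 = a ∧ γ 1 = b ∧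
    ∀ (S : Set ℍ) (p : ℍ), a ∈ cell S p → b ∈ cell S p → ∀ t ∈ Set.Icc (0 : ℝ) 1, γ t ∈ cell S p := by
  refine ⟨pth a b, ?_, ?_, ?_, ?_⟩
  · rw [UpperHalfPlane.isOpenEmbedding_coe.isInducing.continuousOn_iff]
    have h1 : ContinuousOn (fun t : ℝ => (⟨(1 - t) * a.re + t * b.re, √(D a b t)⟩ : ℂ)) (Icc 0 1) := by
      apply Continuous.continuousOn
      have h2 : Continuous fun t : ℝ => (1 - t) * a.re + t * b.re := by fun_prop
      have h3 : Continuous fun t : ℝ => √(D a b t) := by unfold D; fun_prop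
      exact Complex.equivRealProdCLM.symm.continuous.comp (h2.prodMk h3)
    refine h1.congr ?_
    intro t ht
    apply Complex.ext
    · exact pth_re a b ht
    · exact pth_im a b ht
  · have h0 : (0 : ℝ) ∈ Icc (0 : ℝ) 1 := by simp
    apply UpperHalfPlane.ext
    apply Complex.ext
    · have := pth_re a b h0
      simpa using this
    · have h1 := pth_im a b h0
      have h2 : D a b 0 = a.im ^ 2 := by unfold D; ring
      rw [h2, Real.sqrt_sq a.im_pos.le] at h1
      simpa using h1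
  · have h0 : (1 : ℝ) ∈ Icc (0 : ℝ) 1 := by simp
    apply UpperHalfPlane.ext
    apply Complex.ext
    · have := pth_re a b h0
      simpa using this
    · have h1 := pth_im a b h0
      have h2 : D a b 1 = b.im ^ 2 := by unfold D; ring
      rw [h2, Real.sqrt_sq b.im_pos.le] at h1
      simpa using h1
  · intro S p ha hb t ht q hq
    rw [dist_le_iff, g_aff p a b ht, g_aff q a b ht]
    have h1 := (dist_le_iff a p q).mp (ha q hq)
    have h2 := (dist_le_iff b p q).mp (hb q hq)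
    have h3 : 0 ≤ 1 - t := by linarith [ht.2]
    exact add_le_add (mul_le_mul_of_nonneg_left h1 h3) (mul_le_mul_of_nonneg_left h2 ht.1)

theorem self_mem_cell (S : Set ℍ) (p : ℍ) : p ∈ cell S p := by
  intro q _
  rw [dist_self]
  exact dist_nonneg

theorem isClosed_cell (S : Set ℍ) (p : ℍ) : IsClosed (cell S p) := by
  have : cell S p = ⋂ q ∈ S, {z | dist z p ≤ dist z q} := by
    ext z; simp [cell]
  rw [this]
  apply isClosed_biInter
  intro q _
  exact isClosed_le (continuous_id.dist continuous_const) (continuous_id.dist continuous_const)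

theorem length_pos (S : Set ℍ) (p q a b : ℍ) (hab : a ≠ b) (ha : a ∈ cell S p ∩ cell S q)
    (hb : b ∈ cell S p ∩ cell S q) : 0 < μH[1] (cell S p ∩ cell S q) := by
  obtain ⟨γ, hγ, h0, h1, h⟩ := exists_path a b
  have hL : LipschitzWith 1 (fun z : ℍ => dist a z) := LipschitzWith.dist_right a
  have hsub : Icc 0 (dist a b) ⊆ (fun z : ℍ => dist a z) '' (cell S p ∩ cell S q) := by
    have hc : ContinuousOn (fun t => dist a (γ t)) (Icc (0 : ℝ) 1) :=
      hL.continuous.comp_continuousOn hγ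
    have h2 := intermediate_value_Icc (zero_le_one' ℝ) hc
    rw [h0, h1, dist_self] at h2
    intro s hs
    obtain ⟨t, ht, rfl⟩ := h2 hs
    exact ⟨γ t, ⟨h S p ha.1 hb.1 t ht, h S q ha.2 hb.2 t ht⟩, rfl⟩
  have h3 : μH[1] (Icc 0 (dist a b)) ≤ μH[1] ((fun z : ℍ => dist a z) '' (cell S p ∩ cell S q)) :=
    measure_mono hsub
  have h4 := hL.hausdorffMeasure_image_le (zero_le_one' ℝ) (cell S p ∩ cell S q)
  rw [hausdorffMeasure_real, Real.volume_Icc, sub_zero] at h3
  have h5 : 0 < ENNReal.ofReal (dist a b) := ENNReal.ofReal_pos.mpr (dist_pos.mpr hab)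
  have h6 := h5.trans_le (h3.trans (by simpa [hausdorffMeasure_real] using h4))
  exact h6

end Pool.Agent.TH89.HV3
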