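import Pool.Agent.TH598.GV.Defs
import Pool.Agent.TH763.J3415

set_option autoImplicit false

namespace Pool.Agent.TH89.GVE

open Finset MeasureTheory Pool.Agent.TH598.GV
open scoped ComplexConjugate ComplexOrder

/-- real determinant of the complex linear map of a matrix -/
lemma det_real {ι : Type} [Fintype ι] [DecidableEq ι] (M : Matrix ι ι ℂ) :
    LinearMap.det ((Matrix.toLin' M).restrictScalars ℝ) = ‖M.det‖ ^ 2 := by
  rw [LinearMap.det_restrictScalars, Algebra.norm_complex_apply, LinearMap.det_toLin',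
    Complex.normSq_eq_norm_sq]

/-- linear change of variables -/
lemma cov {ι : Type} [Fintype ι] [DecidableEq ι] (M : Matrix ι ι ℂ) (hM : M.det ≠ 0)
    (g : (ι → ℂ) → ℝ) :
    (Integrable g ↔ Integrable (fun z => g (M.mulVec z))) ∧
    ∫ y, g y = ‖M.det‖ ^ 2 * ∫ z, g (M.mulVec z) := by
  have hpos : 0 < ‖M.det‖ ^ 2 := by positivity
  have hd : LinearMap.det ((Matrix.toLin' M).restrictScalars ℝ) ≠ 0 := by
    rw [det_real]; exact hpos.ne'
  have hmap := Measure.map_linearMap_addHaar_eq_smul_addHaar (volume : Measure (ι → ℂ)) hd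
  have emb : MeasurableEmbedding (fun z : ι → ℂ => M.mulVec z) :=
    (LinearMap.equivOfDetNeZero _ hd).toContinuousLinearEquiv.toHomeomorph.measurableEmbedding
  have hmap' : Measure.map (fun z : ι → ℂ => M.mulVec z) volume =
      ENNReal.ofReal |(‖M.det‖ ^ 2)⁻¹| • (volume : Measure (ι → ℂ)) := by
    rw [← det_real]; exact hmap
  have hc : |(‖M.det‖ ^ 2)⁻¹| = (‖M.det‖ ^ 2)⁻¹ := abs_of_pos (by positivity)
  rw [hc] at hmap'
  constructor
  · have h := emb.integrable_map_iff (μ := (volume : Measure (ι → ℂ))) (g := g)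
    rw [hmap', integrable_smul_measure] at h
    · exact h
    · rw [Ne, ENNReal.ofReal_eq_zero, not_le]; positivity
    · exact ENNReal.ofReal_ne_top
  · have h := emb.integral_map (μ := (volume : Measure (ι → ℂ))) g
    rw [hmap', integral_smul_measure, ENNReal.toReal_ofReal (by positivity), smul_eq_mul] at h
    rw [← h, ← mul_assoc, mul_inv_cancel₀ hpos.ne', one_mul]

/-- splitting of the coordinates -/
lemma split {K P : Type} [Fintype K] [Fintype P] (g : (K ⊕ P → ℂ) → ℝ) (hg : Integrable g) :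
    Integrable (fun p : (P → ℂ) × (K → ℂ) => g (Sum.elim p.2 p.1)) (volume.prod volume) ∧
    ∫ z, g z = ∫ x : P → ℂ, ∫ y : K → ℂ, g (Sum.elim y x) := by
  have mp := volume_measurePreserving_sumPiEquivProdPi_symm (fun _ : K ⊕ P => ℂ)
  have emb := (MeasurableEquiv.sumPiEquivProdPi (fun _ : K ⊕ P => ℂ)).symm.measurableEmbedding
  have he : ∀ p, (MeasurableEquiv.sumPiEquivProdPi (fun _ : K ⊕ P => ℂ)).symm p =
      Sum.elim p.1 p.2 := by
    intro p
    funext s
    cases s <;> rfl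
  have h1 : Integrable (g ∘ (MeasurableEquiv.sumPiEquivProdPi (fun _ : K ⊕ P => ℂ)).symm) volume :=
    (mp.integrable_comp_emb emb).2 hg
  have h2 : Integrable (fun p : (K → ℂ) × (P → ℂ) => g (Sum.elim p.1 p.2))
      (volume.prod volume) := by
    refine h1.congr (Filter.Eventually.of_forall fun p => ?_)
    simp only [Function.comp_apply, he]
  have h3 : Integrable (fun p : (P → ℂ) × (K → ℂ) => g (Sum.elim p.2 p.1))
      (volume.prod volume) := h2.swap
  refine ⟨h3, ?_⟩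
  have h4 := mp.integral_comp emb g
  rw [← h4]
  simp only [he]
  have h5 := integral_prod_swap (μ := (volume : Measure (K → ℂ))) (ν := (volume : Measure (P → ℂ)))
    (fun p : (K → ℂ) × (P → ℂ) => g (Sum.elim p.1 p.2))
  have h6 : ∫ p : (K → ℂ) × (P → ℂ), g (Sum.elim p.1 p.2) =
      ∫ p : (P → ℂ) × (K → ℂ), g (Sum.elim p.2 p.1) ∂(volume.prod volume) := by
    exact h5.symm
  rw [h6]
  exact integral_prod _ h3

/-- the matrix of the change of variables on the fibre -/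
lemma zu_eq {K P : Type} [Fintype K] (D : (P → ℂ) →ₗ[ℂ] Matrix K K ℂ) (u : K → ℂ) (x : P → ℂ) :
    Sum.elim ((-(D x).transpose).mulVec u) x = zu D u x := by
  funext s
  cases s with
  | inl j =>
    simp only [Sum.elim_inl, zu, Matrix.mulVec, dotProduct, Matrix.neg_apply,
      Matrix.transpose_apply, neg_mul, Finset.sum_neg_distrib]
    congr 1
    exact Finset.sum_congr rfl fun a _ => mul_comm _ _
  | inr p => rfl

lemma norm_det_neg {K : Type} [Fintype K] [DecidableEq K] (M : Matrix K K ℂ) :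
    ‖(-M.transpose).det‖ = ‖M.det‖ := by
  rw [Matrix.det_neg, Matrix.det_transpose, norm_mul, norm_pow, norm_neg, norm_one, one_pow,
    one_mul]

lemma continuous_gw {S : Type} [Fintype S] : Continuous (gw : (S → ℂ) → ℝ) := by
  unfold gw
  fun_prop

lemma continuous_D {K P : Type} [Fintype K] [DecidableEq K] [Fintype P]
    (D : (P → ℂ) →ₗ[ℂ] Matrix K K ℂ) : Continuous fun x => D x :=
  D.continuous_of_finiteDimensional

lemma continuous_zu {K P : Type} [Fintype K] [DecidableEq K] [Fintype P]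
    (D : (P → ℂ) →ₗ[ℂ] Matrix K K ℂ) :
    Continuous fun p : (P → ℂ) × (K → ℂ) => zu D p.2 p.1 := by
  refine continuous_pi fun s => ?_
  cases s with
  | inl j =>
    simp only [zu, Sum.elim_inl]
    refine Continuous.neg (continuous_finsetSum _ fun a _ => ?_)
    refine Continuous.mul (by fun_prop) ?_
    exact ((continuous_D D).comp continuous_fst).matrix_elem a j
  | inr q =>
    simp only [zu, Sum.elim_inr]
    fun_prop

/-- the determinant as a polynomial -/
lemma exists_detpoly {K P : Type} [Fintype K] [DecidableEq K] [Fintype P] [DecidableEq P]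
    (D : (P → ℂ) →ₗ[ℂ] Matrix K K ℂ) :
    ∃ q : MvPolynomial P ℂ, ∀ x, MvPolynomial.eval x q = (D x).det := by
  refine ⟨(Matrix.of fun i j => ∑ p, MvPolynomial.C (D (Pi.single p 1) i j) *
    MvPolynomial.X p).det, ?_⟩
  intro x
  rw [RingHom.map_det]
  congr 1
  ext i j
  have hx : x = ∑ p, x p • (Pi.single p (1 : ℂ) : P → ℂ) := by
    funext r
    simp [Finset.sum_apply, Pi.single_apply]
  conv_rhs => rw [hx, map_sum]
  simp only [RingHom.mapMatrix_apply, Matrix.map_apply, Matrix.of_apply, map_sum, map_mul,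
    MvPolynomial.eval_C, MvPolynomial.eval_X, map_smul, Matrix.sum_apply, Matrix.smul_apply,
    smul_eq_mul]
  exact Finset.sum_congr rfl fun p _ => mul_comm _ _

/-- J6, with J3 and J5 as hypotheses -/
theorem disint_of {K P : Type} [Fintype K] [DecidableEq K] [Fintype P] [DecidableEq P]
    (fibre : ∀ (N : (P → ℂ) →ₗ[ℂ] (K ⊕ P → ℂ)), Function.Injective N →
      ∀ (Q : MvPolynomial P ℂ) (v : P → ℂ) (Γ : ℝ), -(∑ s, ‖N v s‖ ^ 2) ≤ Γ →
      0 ≤ ∫ x : P → ℂ, ‖MvPolynomial.eval x Q‖ ^ 2 *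
        (‖∑ s, N x s * conj (N v s)‖ ^ 2 + Γ) * gw (N x))
    (poly_null : ∀ Q : MvPolynomial P ℂ, Q ≠ 0 →
      volume {x : P → ℂ | MvPolynomial.eval x Q = 0} = 0)
    (L : Matrix (K ⊕ P) (K ⊕ P) ℂ) (hL : IsUnit L.det)
    (D : (P → ℂ) →ₗ[ℂ] Matrix K K ℂ) (hD : ∃ x, (D x).det ≠ 0)
    (F : (K ⊕ P → ℂ) → ℝ) (hFc : Continuous F) (hF : Integrable fun ξ => F ξ * gw ξ)
    (fib : ∀ u : K → ℂ, ∃ (q : MvPolynomial P ℂ) (v : P → ℂ) (Γ : ℝ),
      -(∑ s, ‖(L⁻¹.mulVec (zu D u v)) s‖ ^ 2) ≤ Γ ∧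
      ∀ x, F (L⁻¹.mulVec (zu D u x)) = ‖MvPolynomial.eval x q‖ ^ 2 *
        (‖∑ s, (L⁻¹.mulVec (zu D u x)) s * conj ((L⁻¹.mulVec (zu D u v)) s)‖ ^ 2 + Γ)) :
    0 ≤ ∫ ξ : K ⊕ P → ℂ, F ξ * gw ξ := by
  obtain ⟨dp, hdp⟩ := exists_detpoly D
  have hdp0 : dp ≠ 0 := by
    rintro rfl
    obtain ⟨x, hx⟩ := hD
    exact hx (by rw [← hdp, map_zero])
  have hae : ∀ᵐ x : P → ℂ, (D x).det ≠ 0 := by
    rw [ae_iff]
    have := poly_null dp hdp0
    simpa only [hdp, not_not] using this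
  have hLi : L⁻¹.det ≠ 0 := by
    have : IsUnit L⁻¹.det := by
      rw [Matrix.isUnit_nonsing_inv_det_iff]; exact hL
    exact this.ne_zero
  obtain ⟨c1, c2⟩ := cov L⁻¹ hLi fun ξ => F ξ * gw ξ
  set G : (K ⊕ P → ℂ) → ℝ := fun z => F (L⁻¹.mulVec z) * gw (L⁻¹.mulVec z) with hG
  have hGc : Continuous G := by
    have h1 : Continuous fun z : K ⊕ P → ℂ => L⁻¹.mulVec z :=
      Continuous.matrix_mulVec continuous_const continuous_id
    exact (hFc.comp h1).mul (continuous_gw.comp h1)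
  have hGi : Integrable G := c1.1 hF
  rw [c2]
  refine mul_nonneg (by positivity) ?_
  change 0 ≤ ∫ z, G z
  obtain ⟨s1, s2⟩ := split G hGi
  rw [s2]
  set Φ : (P → ℂ) × (K → ℂ) → ℝ := fun p => ‖(D p.1).det‖ ^ 2 * G (zu D p.2 p.1) with hΦ
  -- change of variables on the fibres
  have hcov : ∀ x : P → ℂ, (D x).det ≠ 0 → ∀ g : (K ⊕ P → ℂ) → ℝ,
      (Integrable (fun y : K → ℂ => g (Sum.elim y x)) ↔ Integrable fun u => g (zu D u x)) ∧
      ∫ y : K → ℂ, g (Sum.elim y x) = ‖(D x).det‖ ^ 2 * ∫ u, g (zu D u x) := by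
    intro x hx g
    have hM : (-(D x).transpose).det ≠ 0 := by
      rw [← norm_pos_iff, norm_det_neg, norm_pos_iff]; exact hx
    have h := cov (-(D x).transpose) hM fun y => g (Sum.elim y x)
    simp only [zu_eq, norm_det_neg] at h
    exact h
  have hΦc : Continuous Φ := by
    have h1 : Continuous fun p : (P → ℂ) × (K → ℂ) => (D p.1).det :=
      ((continuous_D D).comp continuous_fst).matrix_det
    exact (h1.norm.pow 2).mul (hGc.comp (continuous_zu D))
  have hΦi : Integrable Φ (volume.prod volume) := by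
    rw [integrable_prod_iff hΦc.aestronglyMeasurable]
    constructor
    · filter_upwards [hae, s1.prod_right_ae] with x hx hx2
      exact ((hcov x hx G).1.1 hx2).const_mul (‖(D x).det‖ ^ 2)
    · have h1 := s1.norm.integral_prod_left
      refine h1.congr ?_
      filter_upwards [hae] with x hx
      have h2 := (hcov x hx fun z => ‖G z‖).2
      rw [h2, ← integral_const_mul]
      refine integral_congr_ae (Filter.Eventually.of_forall fun u => ?_)
      simp only [hΦ, norm_mul, norm_pow, norm_norm]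
  have e1 : ∫ x : P → ℂ, ∫ y : K → ℂ, G (Sum.elim y x) = ∫ x : P → ℂ, ∫ u : K → ℂ, Φ (x, u) := by
    refine integral_congr_ae ?_
    filter_upwards [hae] with x hx
    rw [(hcov x hx G).2, ← integral_const_mul]
  rw [e1, integral_integral_swap hΦi]
  refine integral_nonneg fun u => ?_
  change 0 ≤ ∫ x : P → ℂ, Φ (x, u)
  obtain ⟨q, v, Γ, hΓ, hq⟩ := fib u
  -- the linear map
  have zadd : ∀ x y : P → ℂ, zu D u (x + y) = zu D u x + zu D u y := by
    intro x y
    funext s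
    cases s with
    | inl j =>
      simp only [zu, Sum.elim_inl, Pi.add_apply, map_add, Matrix.add_apply, mul_add,
        Finset.sum_add_distrib, neg_add]
    | inr p => simp only [zu, Sum.elim_inr, Pi.add_apply]
  have zsmul : ∀ (c : ℂ) (x : P → ℂ), zu D u (c • x) = c • zu D u x := by
    intro c x
    funext s
    cases s with
    | inl j =>
      simp only [zu, Sum.elim_inl, Pi.smul_apply, map_smul, Matrix.smul_apply, smul_eq_mul,
        Finset.mul_sum, mul_neg]
      congr 1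
      exact Finset.sum_congr rfl fun a _ => by ring
    | inr p => simp only [zu, Sum.elim_inr, Pi.smul_apply]
  let N : (P → ℂ) →ₗ[ℂ] (K ⊕ P → ℂ) :=
    { toFun := fun x => L⁻¹.mulVec (zu D u x)
      map_add' := fun x y => by rw [zadd, Matrix.mulVec_add]
      map_smul' := fun c x => by rw [zsmul, Matrix.mulVec_smul, RingHom.id_apply] }
  have hNinj : Function.Injective N := by
    intro x y hxy
    have h1 : L⁻¹.mulVec (zu D u x) = L⁻¹.mulVec (zu D u y) := hxy
    have h2 : L.mulVec (L⁻¹.mulVec (zu D u x)) = L.mulVec (L⁻¹.mulVec (zu D u y)) := by rw [h1]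
    rw [Matrix.mulVec_mulVec, Matrix.mulVec_mulVec, Matrix.mul_nonsing_inv _ hL,
      Matrix.one_mulVec, Matrix.one_mulVec] at h2
    funext p
    exact congrFun h2 (Sum.inr p)
  have h := fibre N hNinj (dp * q) v Γ hΓ
  refine h.trans_eq (integral_congr_ae (Filter.Eventually.of_forall fun x => ?_))
  simp only [hΦ, hG]
  rw [hq x, map_mul, hdp, norm_mul]
  change _ * (‖∑ s, (L⁻¹.mulVec (zu D u x)) s * conj ((L⁻¹.mulVec (zu D u v)) s)‖ ^ 2 + Γ) *
    gw (L⁻¹.mulVec (zu D u x)) = _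
  ring

/-- J6, with J3 (the fibre inequality) as the only hypothesis -/
theorem disint_fib {K P : Type} [Fintype K] [DecidableEq K] [Fintype P] [DecidableEq P]
    (fibre : ∀ (N : (P → ℂ) →ₗ[ℂ] (K ⊕ P → ℂ)), Function.Injective N →
      ∀ (Q : MvPolynomial P ℂ) (v : P → ℂ) (Γ : ℝ), -(∑ s, ‖N v s‖ ^ 2) ≤ Γ →
      0 ≤ ∫ x : P → ℂ, ‖MvPolynomial.eval x Q‖ ^ 2 *
        (‖∑ s, N x s * conj (N v s)‖ ^ 2 + Γ) * gw (N x))
    (L : Matrix (K ⊕ P) (K ⊕ P) ℂ) (hL : IsUnit L.det)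
    (D : (P → ℂ) →ₗ[ℂ] Matrix K K ℂ) (hD : ∃ x, (D x).det ≠ 0)
    (F : (K ⊕ P → ℂ) → ℝ) (hFc : Continuous F) (hF : Integrable fun ξ => F ξ * gw ξ)
    (fib : ∀ u : K → ℂ, ∃ (q : MvPolynomial P ℂ) (v : P → ℂ) (Γ : ℝ),
      -(∑ s, ‖(L⁻¹.mulVec (zu D u v)) s‖ ^ 2) ≤ Γ ∧
      ∀ x, F (L⁻¹.mulVec (zu D u x)) = ‖MvPolynomial.eval x q‖ ^ 2 *
        (‖∑ s, (L⁻¹.mulVec (zu D u x)) s * conj ((L⁻¹.mulVec (zu D u v)) s)‖ ^ 2 + Γ)) :
    0 ≤ ∫ ξ : K ⊕ P → ℂ, F ξ * gw ξ :=
  disint_of fibre (fun Q hQ => Pool.Agent.TH763.J3415.poly_null Q hQ) L hL D hD F hFc hF fib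

end Pool.Agent.TH89.GVE
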