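import Pool.Agent.TH387.EI.Defs
import Pool.Agent.H770R2.Kad.Kap2

set_option autoImplicit false
open scoped ComplexOrder InnerProductSpace Topology
open Filter
noncomputable section
namespace Pool.Agent.TH89.EIK
universe u

open Pool.Agent.TH387.EI

variable {A : Type u} [NonUnitalCStarAlgebra A]
    {H : Type u} [NormedAddCommGroup H] [InnerProductSpace ℂ H] [CompleteSpace H]

/-- The vectors `ρ a w` span a dense subspace. -/
theorem dense_span (ρ : A →⋆ₙₐ[ℂ] (H →L[ℂ] H)) (h : Nd ρ) :
    (Submodule.span ℂ {v : H | ∃ a w, v = ρ a w}).topologicalClosure = ⊤ := by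
  rw [Submodule.topologicalClosure_eq_top_iff, Submodule.eq_bot_iff]
  intro v hv
  refine h v fun a w => ?_
  exact (Submodule.mem_orthogonal _ _).1 hv _ (Submodule.subset_span ⟨a, w, rfl⟩)

/-- Strong convergence along an approximate unit. -/
theorem tendsto_unit (ρ : A →⋆ₙₐ[ℂ] (H →L[ℂ] H)) (h : Nd ρ) (l : Filter A)
    (hl : ∀ m : A, Tendsto (· * m) l (𝓝 m)) (hn : ∀ᶠ e in l, ‖e‖ ≤ 1) (v : H) :
    Tendsto (fun e => ρ e v) l (𝓝 v) := by
  have hspan : ∀ u ∈ Submodule.span ℂ {v : H | ∃ a w, v = ρ a w},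
      Tendsto (fun e => ρ e u) l (𝓝 u) := by
    intro u hu
    induction hu using Submodule.span_induction with
    | mem x hx =>
      obtain ⟨a, w, rfl⟩ := hx
      have h1 : Tendsto (fun e => ρ (e * a)) l (𝓝 (ρ a)) := by
        have hc : Continuous ρ := (NonUnitalStarAlgHom.norm_apply_le ρ |> fun h2 =>
          AddMonoidHomClass.continuous_of_bound ρ 1 (fun x => by simpa using h2 x))
        exact (hc.tendsto a).comp (hl a)
      have h2 : Tendsto (fun e => (ρ (e * a)) w) l (𝓝 (ρ a w)) :=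
        ((ContinuousLinearMap.apply ℂ H w).continuous.tendsto (ρ a)).comp h1
      refine h2.congr fun e => ?_
      rw [map_mul]; rfl
    | zero => simpa using (tendsto_const_nhds : Tendsto (fun _ : A => (0 : H)) l (𝓝 0))
    | add x y _ _ hx hy =>
      refine (hx.add hy).congr fun e => ?_
      rw [map_add]
    | smul c x _ hx =>
      refine (hx.const_smul c).congr fun e => ?_
      rw [map_smul]
  have hcl : v ∈ closure (Submodule.span ℂ {v : H | ∃ a w, v = ρ a w} : Set H) := by
    have := dense_span ρ h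
    rw [← Submodule.topologicalClosure_coe, this]
    trivial
  rw [Metric.tendsto_nhds]
  intro ε hε
  obtain ⟨u, hu, huv⟩ := Metric.mem_closure_iff.1 hcl (ε / 3) (by positivity)
  have h3 := Metric.tendsto_nhds.1 (hspan u hu) (ε / 3) (by positivity)
  filter_upwards [h3, hn] with e he1 he2
  rw [dist_eq_norm] at *
  have h4 : ‖ρ e (v - u)‖ ≤ ‖v - u‖ := by
    refine ((ρ e).le_opNorm _).trans ?_
    have : ‖ρ e‖ ≤ 1 := (NonUnitalStarAlgHom.norm_apply_le ρ e).trans he2
    exact mul_le_of_le_one_left (norm_nonneg _) this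
  calc ‖ρ e v - v‖ = ‖ρ e (v - u) + (ρ e u - u) + (u - v)‖ := by
        rw [map_sub]; congr 1; abel
    _ ≤ ‖ρ e (v - u)‖ + ‖ρ e u - u‖ + ‖u - v‖ := norm_add₃_le
    _ < ε := by rw [norm_sub_rev u v]; linarith

end Pool.Agent.TH89.EIK

namespace Pool.Agent.TH387.EI
universe u

theorem kap_bic : KapBicP.{u} := by
  intro A _ H _ _ _ ρ hρ T hT hTs hTn F τ hτ
  let _ : PartialOrder A := CStarAlgebra.spectralOrder A
  have _ : StarOrderedRing A := CStarAlgebra.spectralOrderedRing A
  set π : Unitization ℂ A →⋆ₐ[ℂ] (H →L[ℂ] H) := Unitization.starLift ρ with hπdef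
  have hπ : ∀ a : A, π (a : Unitization ℂ A) = ρ a := fun a => by
    have h0 := Unitization.starLift_symm_apply_apply π a
    rw [← h0, hπdef, Equiv.symm_apply_apply]
  obtain ⟨c, hcs, hcn, hc⟩ := H770R2.Kad.prove_kap (Unitization ℂ A) H π T hTs hTn
    (fun y hy => hT y fun a => by rw [← hπ a]; exact hy _) F.card
    (fun i => (F.equivFin.symm i : H)) (τ / 3) (by positivity)
  have hc' : ∀ v ∈ F, ‖π c v - T v‖ < τ / 3 := fun v hv => by
    have := hc (F.equivFin ⟨v, hv⟩)
    simpa using this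
  have hau := CStarAlgebra.increasingApproximateUnit A
  have key := fun v : H => Pool.Agent.TH89.EIK.tendsto_unit ρ hρ (CStarAlgebra.approximateUnit A)
    (fun m => hau.tendsto_mul_right m) hau.eventually_norm v
  have h1 : ∀ᶠ e in CStarAlgebra.approximateUnit A, ∀ v ∈ F, ‖ρ e v - v‖ < τ / 3 := by
    rw [Filter.eventually_all_finset]
    intro v _
    have := Metric.tendsto_nhds.1 (key v) (τ / 3) (by positivity)
    simpa [dist_eq_norm] using this
  have h2 : ∀ᶠ e in CStarAlgebra.approximateUnit A, ∀ v ∈ F, ‖ρ e (π c v) - π c v‖ < τ / 3 := by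
    rw [Filter.eventually_all_finset]
    intro v _
    have := Metric.tendsto_nhds.1 (key (π c v)) (τ / 3) (by positivity)
    simpa [dist_eq_norm] using this
  haveI := hau.neBot
  obtain ⟨e, he1, he2, hes, hen⟩ := (h1.and (h2.and (hau.eventually_isSelfAdjoint.and
    hau.eventually_norm))).exists
  have hinr : (((e : Unitization ℂ A) * c * (e : Unitization ℂ A)).snd : Unitization ℂ A) =
      (e : Unitization ℂ A) * c * (e : Unitization ℂ A) := by
    ext
    · simp
    · simp
  refine ⟨((e : Unitization ℂ A) * c * (e : Unitization ℂ A)).snd, ?_, ?_, ?_⟩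
  · have : IsSelfAdjoint ((e : Unitization ℂ A) * c * (e : Unitization ℂ A)) := by
      rw [IsSelfAdjoint, star_mul, star_mul, hcs.star_eq, ← Unitization.inr_star, hes.star_eq,
        mul_assoc]
    rw [← hinr] at this
    rw [IsSelfAdjoint, ← Unitization.inr_star] at this
    exact Unitization.inr_injective this
  · rw [← Unitization.norm_inr (𝕜 := ℂ), hinr]
    have hen' : ‖(e : Unitization ℂ A)‖ ≤ 1 := by rw [Unitization.norm_inr]; exact hen
    calc ‖(e : Unitization ℂ A) * c * (e : Unitization ℂ A)‖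
        ≤ ‖(e : Unitization ℂ A)‖ * ‖c‖ * ‖(e : Unitization ℂ A)‖ := norm_mul₃_le
      _ ≤ 1 * 1 * 1 := by gcongr
      _ = 1 := by norm_num
  · intro v hv
    have h3 : ρ ((e : Unitization ℂ A) * c * (e : Unitization ℂ A)).snd v =
        ρ e (π c (ρ e v)) := by
      rw [← hπ, hinr, map_mul, map_mul, hπ]; rfl
    have hρe : ∀ w, ‖ρ e w‖ ≤ ‖w‖ := fun w => by
      refine ((ρ e).le_opNorm _).trans ?_
      have : ‖ρ e‖ ≤ 1 := (NonUnitalStarAlgHom.norm_apply_le ρ e).trans hen
      exact mul_le_of_le_one_left (norm_nonneg _) this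
    have hπc : ∀ w, ‖π c w‖ ≤ ‖w‖ := fun w => by
      refine ((π c).le_opNorm _).trans ?_
      have : ‖π c‖ ≤ 1 := (NonUnitalStarAlgHom.norm_apply_le π c).trans hcn
      exact mul_le_of_le_one_left (norm_nonneg _) this
    have h4 : ‖ρ e (π c (ρ e v - v))‖ < τ / 3 :=
      lt_of_le_of_lt ((hρe _).trans (hπc _)) (he1 v hv)
    calc ‖ρ ((e : Unitization ℂ A) * c * (e : Unitization ℂ A)).snd v - T v‖
        = ‖ρ e (π c (ρ e v - v)) + (ρ e (π c v) - π c v) + (π c v - T v)‖ := by
          rw [h3, map_sub, map_sub]; congr 1; abel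
      _ ≤ ‖ρ e (π c (ρ e v - v))‖ + ‖ρ e (π c v) - π c v‖ + ‖π c v - T v‖ := norm_add₃_le
      _ ≤ τ := by linarith [he2 v hv, hc' v hv]

end Pool.Agent.TH387.EI
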