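import Mathlib
set_option autoImplicit false
open MeasureTheory Filter
namespace Pool.Agent.TH443.MJ

namespace TH89K

theorem block (Φ : ℕ → ℝ) (h0 : ∀ n, 0 < Φ n) (hm : Antitone Φ) (K : ℕ) :
    ∑ n ∈ Finset.range (2 ^ K), (n : ℝ) * Φ n ≤ ∑ k ∈ Finset.range K, 2 * (4 ^ k * Φ (2 ^ k)) := by
  induction K with
  | zero => simp
  | succ K ih =>
    rw [Finset.sum_range_succ, Finset.range_eq_Ico,
      ← Finset.sum_Ico_consecutive (fun n : ℕ => (n : ℝ) * Φ n) (Nat.zero_le (2 ^ K))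
        (Nat.pow_le_pow_right (by norm_num) (Nat.le_succ K)), ← Finset.range_eq_Ico]
    refine add_le_add ih ?_
    calc ∑ n ∈ Finset.Ico (2 ^ K : ℕ) (2 ^ (K + 1)), (n : ℝ) * Φ n
        ≤ ∑ n ∈ Finset.Ico (2 ^ K : ℕ) (2 ^ (K + 1)), (2 ^ (K + 1) : ℝ) * Φ (2 ^ K) := by
          apply Finset.sum_le_sum
          intro n hn
          rw [Finset.mem_Ico] at hn
          have h1 : (n : ℝ) ≤ 2 ^ (K + 1) := by exact_mod_cast hn.2.le
          have h2 : Φ n ≤ Φ (2 ^ K) := hm hn.1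
          exact mul_le_mul h1 h2 (h0 n).le (by positivity)
      _ = 2 * (4 ^ K * Φ (2 ^ K)) := by
          rw [Finset.sum_const, Nat.card_Ico, nsmul_eq_mul]
          have : ((2 ^ (K + 1) - 2 ^ K : ℕ) : ℝ) = 2 ^ K := by
            rw [pow_succ, Nat.mul_two, Nat.add_sub_cancel]
            push_cast
            rfl
          rw [this]
          have e : (4 : ℝ) ^ K = 2 ^ K * 2 ^ K := by
            rw [← mul_pow]; norm_num
          rw [e, pow_succ]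
          ring

theorem summable_of (Φ : ℕ → ℝ) (h0 : ∀ n, 0 < Φ n) (hm : Antitone Φ)
    (hs : Summable (fun k : ℕ => Φ (2 ^ (k + 1)) * 4 ^ k)) :
    Summable (fun n : ℕ => (n : ℝ) * Φ n) := by
  have h1 : Summable (fun k : ℕ => 2 * (4 ^ k * Φ (2 ^ k))) := by
    apply Summable.mul_left
    rw [← summable_nat_add_iff 1]
    have h2 := hs.mul_left 4
    refine h2.congr fun k => ?_
    rw [pow_succ 4 k]
    ring
  refine summable_of_sum_range_le (c := ∑' k : ℕ, 2 * (4 ^ k * Φ (2 ^ k)))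
    (fun n => mul_nonneg (Nat.cast_nonneg n) (h0 n).le) ?_
  intro N
  have hN : N ≤ 2 ^ N := Nat.lt_two_pow_self.le
  calc ∑ n ∈ Finset.range N, (n : ℝ) * Φ n ≤ ∑ n ∈ Finset.range (2 ^ N), (n : ℝ) * Φ n := by
        apply Finset.sum_le_sum_of_subset_of_nonneg
        · exact Finset.range_subset_range.mpr hN
        · intro n _ _
          exact mul_nonneg (Nat.cast_nonneg n) (h0 n).le
    _ ≤ ∑ k ∈ Finset.range N, 2 * (4 ^ k * Φ (2 ^ k)) := block Φ h0 hm N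
    _ ≤ _ := h1.sum_le_tsum _ (fun k _ => by
        have := h0 (2 ^ k)
        positivity)

end TH89K

open TH89K in
theorem kg_zero
    (hc : ∀ θ : ℝ, ∃ κ : ℝ, 0 < κ ∧ ∀ a b : ℝ, 0 ≤ a → a < b → b ≤ 1 →
      ∀ᶠ k : ℕ in atTop,
        volume (Set.Icc a b \ {x : ℝ | ∃ n : ℕ, ∃ p : ℤ, 2 ^ k < n ∧ n ≤ 2 ^ (k + 1) ∧
          |x - (p + θ) / n| < κ / 4 ^ k}) ≤ ENNReal.ofReal ((b - a) / 8))
    (hu : ∀ (κ : ℝ) (_ : 0 < κ) (P : ℕ → Set ℝ) (Φ : ℕ → ℝ) (_ : ∀ k, 0 < Φ k)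
      (_ : ∀ k, Φ k ≤ κ / 4 ^ k) (_ : ¬ Summable (fun k : ℕ => Φ k * 4 ^ k))
      (_ : ∀ a b : ℝ, 0 ≤ a → a < b → b ≤ 1 → ∀ᶠ k : ℕ in atTop,
        volume (Set.Icc a b \ {x : ℝ | ∃ c ∈ P k, |x - c| < κ / 4 ^ k}) ≤
          ENNReal.ofReal ((b - a) / 8)),
      ∀ᵐ x : ℝ ∂(volume.restrict (Set.Icc 0 1)), ∃ᶠ k : ℕ in atTop, ∃ c ∈ P k, |x - c| < Φ k)
    (θ : ℝ) (Φ : ℕ → ℝ) (h0 : ∀ n, 0 < Φ n) (hm : Antitone Φ)
    (hdiv : ¬ Summable (fun n : ℕ => (n : ℝ) * Φ n)) :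
    ∀ᵐ x : Fin 1 → ℝ ∂(volume.restrict (Set.Icc 0 1)),
      {i : (Fin 1 → ℤ) × ℤ | 0 < i.1 0 ∧ (∀ j, |i.1 j| ≤ i.1 0) ∧
        |∑ j, (i.1 j : ℝ) * x j - i.2 - θ| < (i.1 0 : ℝ) * Φ (i.1 0).toNat}.Infinite := by
  obtain ⟨κ, hκ, hcov⟩ := hc θ
  have key := hu κ hκ
    (fun k => {c : ℝ | ∃ n : ℕ, ∃ p : ℤ, 2 ^ k < n ∧ n ≤ 2 ^ (k + 1) ∧ c = (p + θ) / n})
    (fun k => min (Φ (2 ^ (k + 1))) (κ / 4 ^ k))
    (fun k => lt_min (h0 _) (by positivity)) (fun k => min_le_right _ _)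
    (by
      intro hs
      apply hdiv
      apply summable_of Φ h0 hm
      have h1 := hs.tendsto_atTop_zero
      have h2 : ∀ᶠ k : ℕ in atTop, min (Φ (2 ^ (k + 1))) (κ / 4 ^ k) * 4 ^ k < κ :=
        h1.eventually (gt_mem_nhds hκ)
      have h3 : ∀ᶠ k : ℕ in atTop, min (Φ (2 ^ (k + 1))) (κ / 4 ^ k) * 4 ^ k
          = Φ (2 ^ (k + 1)) * 4 ^ k := by
        filter_upwards [h2] with k hk
        by_cases hle : Φ (2 ^ (k + 1)) ≤ κ / 4 ^ k
        · rw [min_eq_left hle]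
        · rw [min_eq_right (le_of_not_ge hle)] at hk
          exfalso
          have : κ / 4 ^ k * 4 ^ k = κ := by field_simp
          linarith
      exact hs.congr_atTop h3)
    (by
      intro a b ha hab hb
      filter_upwards [hcov a b ha hab hb] with k hk
      refine le_trans (le_of_eq ?_) hk
      congr 2
      ext x
      simp only [Set.mem_ofPred_eq]
      constructor
      · rintro ⟨c, ⟨n, p, h1, h2, rfl⟩, h3⟩
        exact ⟨n, p, h1, h2, h3⟩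
      · rintro ⟨n, p, h1, h2, h3⟩
        exact ⟨_, ⟨n, p, h1, h2, rfl⟩, h3⟩)
  have hmp := (volume_preserving_funUnique (Fin 1) ℝ)
  have hpre : (MeasurableEquiv.funUnique (Fin 1) ℝ) ⁻¹' (Set.Icc (0 : ℝ) 1)
      = Set.Icc (0 : Fin 1 → ℝ) 1 := by
    ext x
    simp [Pi.le_def, Set.mem_Icc]
  have hmp2 := hmp.restrict_preimage (s := Set.Icc (0 : ℝ) 1) measurableSet_Icc
  rw [hpre] at hmp2
  have hae := hmp2.quasiMeasurePreserving.ae key
  filter_upwards [hae] with x hx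
  have hx0 : (MeasurableEquiv.funUnique (Fin 1) ℝ) x = x 0 := rfl
  rw [hx0] at hx
  intro hfin
  -- the first components are bounded
  obtain ⟨B, hB⟩ : ∃ B : ℤ, ∀ i ∈ {i : (Fin 1 → ℤ) × ℤ | 0 < i.1 0 ∧ (∀ j, |i.1 j| ≤ i.1 0) ∧
        |∑ j, (i.1 j : ℝ) * x j - i.2 - θ| < (i.1 0 : ℝ) * Φ (i.1 0).toNat}, i.1 0 ≤ B := by
    obtain ⟨B, hB⟩ := (hfin.image (fun i => i.1 0)).bddAbove
    exact ⟨B, fun i hi => hB (Set.mem_image_of_mem _ hi)⟩
  have hev : ∀ᶠ k : ℕ in atTop, B.toNat ≤ 2 ^ k := by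
    filter_upwards [eventually_ge_atTop B.toNat] with k hk
    exact hk.trans Nat.lt_two_pow_self.le
  obtain ⟨k, ⟨c, ⟨n, p, hn1, hn2, rfl⟩, hlt⟩, hkB⟩ := (hx.and_eventually hev).exists
  have hn0 : 0 < n := lt_of_le_of_lt (Nat.zero_le _) hn1
  have hn0' : (0 : ℝ) < n := by exact_mod_cast hn0
  have hmem : ((fun _ => (n : ℤ)), p) ∈ {i : (Fin 1 → ℤ) × ℤ | 0 < i.1 0 ∧
      (∀ j, |i.1 j| ≤ i.1 0) ∧
        |∑ j, (i.1 j : ℝ) * x j - i.2 - θ| < (i.1 0 : ℝ) * Φ (i.1 0).toNat} := by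
    refine ⟨Int.natCast_pos.mpr hn0, fun j => by simp, ?_⟩
    simp only [Finset.univ_unique, Finset.sum_singleton, Int.cast_natCast, Int.toNat_natCast]
    have h1 : |x 0 - (p + θ) / n| < Φ n :=
      hlt.trans_le ((min_le_left _ _).trans (hm hn2))
    have h2 : (n : ℝ) * x default - p - θ = n * (x 0 - (p + θ) / n) := by
      field_simp
      have : x default = x 0 := rfl
      rw [this]
      ring
    rw [h2, abs_mul, abs_of_pos hn0']
    exact mul_lt_mul_of_pos_left h1 hn0'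
  have h3 := hB _ hmem
  simp only at h3
  omega

end Pool.Agent.TH443.MJ
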