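import Mathlib
import Pool.Agent.TH444.ML.Defs

/-!
# Uniform counting of ideals of bounded norm (`IdealUnif`)

The nonzero ideals of `𝓞 M`, `[M : ℚ] = D`, embed into the `D`-tuples of positive integers with
product `≤` the norm of the ideal, since there are at most `D` primes above every `p`.
-/

set_option autoImplicit false

open NumberField Ideal UniqueFactorizationMonoid

namespace Pool.Agent.TH89.J3091

open Pool.Agent.TH444.ML

/-- the rational prime below `P` -/
noncomputable def pr {M : Type} [Field M] [NumberField M] (P : Ideal (𝓞 M)) : ℕ :=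
  absNorm (under ℤ P)

section
variable {M : Type} [Field M] [NumberField M]

lemma pr_prime {P : Ideal (𝓞 M)} (hP : P.IsPrime) (h0 : P ≠ ⊥) : (pr P).Prime := by
  have : NeZero P := ⟨h0⟩
  exact Nat.absNorm_under_prime P

lemma pr_le {P : Ideal (𝓞 M)} (h0 : P ≠ ⊥) : pr P ≤ absNorm P := by
  refine Nat.le_of_dvd (Nat.pos_of_ne_zero ?_) (Int.absNorm_under_dvd_absNorm P)
  rw [Ne, absNorm_eq_zero_iff]
  exact h0

lemma above (p : ℕ) (hp : p.Prime) :
    {P : Ideal (𝓞 M) | P.IsPrime ∧ P ≠ ⊥ ∧ pr P = p}.Finite ∧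
    Set.ncard {P : Ideal (𝓞 M) | P.IsPrime ∧ P ≠ ⊥ ∧ pr P = p} ≤ Module.finrank ℚ M := by
  have : Fact p.Prime := ⟨hp⟩
  have hp0 : Ideal.span {(p : ℤ)} ≠ ⊥ := by
    rw [Ne, Ideal.span_singleton_eq_bot]
    exact_mod_cast hp.ne_zero
  have hsub : {P : Ideal (𝓞 M) | P.IsPrime ∧ P ≠ ⊥ ∧ pr P = p} ⊆
      (IsDedekindDomain.primesOverFinset (Ideal.span {(p : ℤ)}) (𝓞 M) : Set (Ideal (𝓞 M))) := by
    rintro P ⟨hP, hP0, hPp⟩
    rw [Finset.mem_coe, IsDedekindDomain.mem_primesOverFinset_iff hp0]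
    refine ⟨hP, ?_⟩
    have := Int.liesOver_span_absNorm P
    rw [← hPp]
    exact this
  refine ⟨(Finset.finite_toSet _).subset hsub, ?_⟩
  refine (Set.ncard_le_ncard hsub (Finset.finite_toSet _)).trans ?_
  rw [Set.ncard_coe_finset]
  exact Ideal.card_primesOverFinset_le_finrank (𝓞 M) ℚ M hp0

lemma exists_index : ∃ j : Ideal (𝓞 M) → ℕ,
    (∀ P : Ideal (𝓞 M), P.IsPrime → P ≠ ⊥ → j P < Module.finrank ℚ M) ∧
    (∀ P Q : Ideal (𝓞 M), P.IsPrime → P ≠ ⊥ → Q.IsPrime → Q ≠ ⊥ → pr P = pr Q → j P = j Q →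
      P = Q) := by
  classical
  have h : ∀ p : ℕ, ∃ f : Ideal (𝓞 M) → ℕ, p.Prime →
      (∀ P ∈ {P : Ideal (𝓞 M) | P.IsPrime ∧ P ≠ ⊥ ∧ pr P = p}, f P < Module.finrank ℚ M) ∧
      Set.InjOn f {P : Ideal (𝓞 M) | P.IsPrime ∧ P ≠ ⊥ ∧ pr P = p} := by
    intro p
    by_cases hp : p.Prime
    · obtain ⟨hfin, hcard⟩ := above (M := M) p hp
      set S := {P : Ideal (𝓞 M) | P.IsPrime ∧ P ≠ ⊥ ∧ pr P = p} with hS
      have : Finite S := hfin
      have e := (Finite.equivFin S)
      refine ⟨fun P => if h : P ∈ S then (e ⟨P, h⟩ : ℕ) else 0, fun _ => ⟨?_, ?_⟩⟩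
      · intro P hP
        simp only [hP, dif_pos]
        refine lt_of_lt_of_le (e ⟨P, hP⟩).2 ?_
        rw [Nat.card_coe_set_eq]
        exact hcard
      · intro P hP Q hQ hPQ
        simp only [hP, hQ, dif_pos] at hPQ
        have := e.injective (Fin.ext hPQ)
        exact congrArg Subtype.val this
    · exact ⟨fun _ => 0, fun h => absurd h hp⟩
  choose f hf using h
  refine ⟨fun P => f (pr P) P, ?_, ?_⟩
  · intro P hP hP0
    exact (hf (pr P) (pr_prime hP hP0)).1 P ⟨hP, hP0, rfl⟩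
  · intro P Q hP hP0 hQ hQ0 hPQ hj
    refine (hf (pr P) (pr_prime hP hP0)).2 ⟨hP, hP0, rfl⟩ ⟨hQ, hQ0, hPQ.symm⟩ ?_
    simp only [← hPQ] at hj
    exact hj

lemma mem_nf {I P : Ideal (𝓞 M)} (h : P ∈ normalizedFactors I) : P.IsPrime ∧ P ≠ ⊥ := by
  have hPp : Prime P := prime_of_normalized_factor P h
  exact ⟨Ideal.isPrime_of_prime hPp, hPp.ne_zero⟩

open Classical in
/-- the coordinates of the tuple attached to an ideal -/
noncomputable def co (j : Ideal (𝓞 M) → ℕ) (i : ℕ) (I : Ideal (𝓞 M)) : ℕ :=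
  (((normalizedFactors I).filter (fun P => j P = i)).map pr).prod

open Classical in
lemma co_pos (j : Ideal (𝓞 M) → ℕ) (i : ℕ) (I : Ideal (𝓞 M)) : 1 ≤ co j i I := by
  rw [Nat.one_le_iff_ne_zero, co, Ne, Multiset.prod_eq_zero_iff, Multiset.mem_map]
  rintro ⟨P, hP, h⟩
  obtain ⟨h1, h2⟩ := mem_nf (Multiset.mem_of_mem_filter hP)
  exact (pr_prime h1 h2).ne_zero h

open Classical in
lemma prod_filter_eq {α : Type*} (s : Multiset α) (j : α → ℕ) (D : ℕ) (h : ∀ x ∈ s, j x < D)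
    (g : α → ℕ) :
    ∏ i ∈ Finset.range D, ((s.filter (fun x => j x = i)).map g).prod = (s.map g).prod := by
  induction s using Multiset.induction_on with
  | empty => simp
  | cons a s ih =>
    have h1 : ∀ x ∈ s, j x < D := fun x hx => h x (Multiset.mem_cons_of_mem hx)
    have h2 : j a < D := h a (Multiset.mem_cons_self a s)
    rw [Multiset.map_cons, Multiset.prod_cons, ← ih h1]
    have h3 : ∀ i, (((a ::ₘ s).filter (fun x => j x = i)).map g).prod =
        (if j a = i then g a else 1) * ((s.filter (fun x => j x = i)).map g).prod := by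
      intro i
      by_cases hi : j a = i
      · rw [Multiset.filter_cons_of_pos (p := fun x => j x = i) s hi, if_pos hi,
          Multiset.map_cons, Multiset.prod_cons]
      · rw [Multiset.filter_cons_of_neg (p := fun x => j x = i) s hi, if_neg hi, one_mul]
    rw [Finset.prod_congr rfl fun i _ => h3 i, Finset.prod_mul_distrib]
    congr 1
    rw [Finset.prod_ite_eq]
    simp [h2]

lemma prod_co_le (j : Ideal (𝓞 M) → ℕ)
    (hj : ∀ P : Ideal (𝓞 M), P.IsPrime → P ≠ ⊥ → j P < Module.finrank ℚ M)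
    (I : Ideal (𝓞 M)) (hI : I ≠ ⊥) :
    ∏ i ∈ Finset.range (Module.finrank ℚ M), co j i I ≤ absNorm I := by
  classical
  unfold co
  rw [prod_filter_eq]
  · have h : absNorm I = ((normalizedFactors I).map absNorm).prod := by
      conv_lhs => rw [← Ideal.prod_normalizedFactors_eq_self hI]
      rw [map_multiset_prod]
    rw [h]
    refine Multiset.prod_map_le_prod_map₀ _ _ (fun P _ => Nat.zero_le _) ?_
    intro P hP
    exact pr_le (mem_nf hP).2
  · intro P hP
    exact hj P (mem_nf hP).1 (mem_nf hP).2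

lemma co_inj (j : Ideal (𝓞 M) → ℕ)
    (hj : ∀ P : Ideal (𝓞 M), P.IsPrime → P ≠ ⊥ → j P < Module.finrank ℚ M)
    (hinj : ∀ P Q : Ideal (𝓞 M), P.IsPrime → P ≠ ⊥ → Q.IsPrime → Q ≠ ⊥ → pr P = pr Q →
      j P = j Q → P = Q)
    (I J : Ideal (𝓞 M)) (hI : I ≠ ⊥) (hJ : J ≠ ⊥)
    (h : ∀ i < Module.finrank ℚ M, co j i I = co j i J) : I = J := by
  classical
  -- recover the multiset of primes
  have key : ∀ I : Ideal (𝓞 M), I ≠ ⊥ → ∀ P : Ideal (𝓞 M), P.IsPrime → P ≠ ⊥ →
      (normalizedFactors I).count P = (co j (j P) I).factorization (pr P) := by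
    intro I hI P hP hP0
    have hgen : ∀ s : Multiset (Ideal (𝓞 M)), (∀ Q ∈ s, Q.IsPrime ∧ Q ≠ ⊥) →
        s.count P = ((s.filter (fun Q => j Q = j P)).map pr).prod.factorization (pr P) := by
      intro s
      induction s using Multiset.induction_on with
      | empty => intro _; simp
      | cons a s ih =>
        intro hs
        have hs' : ∀ Q ∈ s, Q.IsPrime ∧ Q ≠ ⊥ := fun Q hQ => hs Q (Multiset.mem_cons_of_mem hQ)
        obtain ⟨ha, ha0⟩ := hs a (Multiset.mem_cons_self a s)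
        have hne : ((s.filter (fun Q => j Q = j P)).map pr).prod ≠ 0 := by
          rw [Ne, Multiset.prod_eq_zero_iff, Multiset.mem_map]
          rintro ⟨Q, hQ, h⟩
          obtain ⟨h1, h2⟩ := hs' Q (Multiset.mem_of_mem_filter hQ)
          exact (pr_prime h1 h2).ne_zero h
        by_cases haP : a = P
        · subst haP
          rw [Multiset.count_cons_self,
            Multiset.filter_cons_of_pos (p := fun Q => j Q = j a) s rfl, Multiset.map_cons,
            Multiset.prod_cons, Nat.factorization_mul (pr_prime ha ha0).ne_zero hne, ih hs']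
          simp [(pr_prime ha ha0).factorization_self, add_comm]
        · rw [Multiset.count_cons_of_ne (Ne.symm haP), ih hs']
          by_cases hja : j a = j P
          · rw [Multiset.filter_cons_of_pos (p := fun Q => j Q = j P) s hja, Multiset.map_cons,
              Multiset.prod_cons, Nat.factorization_mul (pr_prime ha ha0).ne_zero hne]
            have hpr : pr a ≠ pr P := fun hpr => haP (hinj a P ha ha0 hP hP0 hpr hja)
            have : (pr a).factorization (pr P) = 0 := by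
              rw [(pr_prime ha ha0).factorization, Finsupp.single_apply, if_neg hpr]
            simp [this]
          · rw [Multiset.filter_cons_of_neg (p := fun Q => j Q = j P) s hja]
    exact hgen _ (fun Q hQ => mem_nf hQ)
  have heq : normalizedFactors I = normalizedFactors J := by
    ext P
    by_cases hP : P.IsPrime ∧ P ≠ ⊥
    · rw [key I hI P hP.1 hP.2, key J hJ P hP.1 hP.2, h _ (hj P hP.1 hP.2)]
    · rw [Multiset.count_eq_zero_of_notMem (fun h => hP (mem_nf h)),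
        Multiset.count_eq_zero_of_notMem (fun h => hP (mem_nf h))]
  rw [← Ideal.prod_normalizedFactors_eq_self hI, ← Ideal.prod_normalizedFactors_eq_self hJ, heq]

end

/-- **Uniform counting of ideals.** -/
theorem idealUnif : IdealUnif := by
  classical
  intro D
  set ζ : ℝ := ∑' n : ℕ, (1 : ℝ) / (n : ℝ) ^ (5 / 4 : ℝ) with hζ
  have hsum : Summable (fun n : ℕ => (1 : ℝ) / (n : ℝ) ^ (5 / 4 : ℝ)) :=
    Real.summable_one_div_nat_rpow.2 (by norm_num)
  refine ⟨ζ ^ D, ?_⟩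
  intro M _ _ hD Z hZ
  have hfin : {I : Ideal (𝓞 M) | I ≠ ⊥ ∧ (Ideal.absNorm I : ℝ) ≤ Z}.Finite := by
    refine (Ideal.finite_setOfPred_absNorm_le (S := 𝓞 M) ⌊Z⌋₊).subset ?_
    rintro I ⟨-, hI⟩
    exact Nat.le_floor hI
  refine ⟨hfin, ?_⟩
  obtain ⟨j, hj, hinj⟩ := exists_index (M := M)
  set F : Finset (Ideal (𝓞 M)) := hfin.toFinset with hF
  have hmemF : ∀ I, I ∈ F ↔ I ≠ ⊥ ∧ (Ideal.absNorm I : ℝ) ≤ Z := by
    intro I; simp [hF]
  have hcard : Set.ncard {I : Ideal (𝓞 M) | I ≠ ⊥ ∧ (Ideal.absNorm I : ℝ) ≤ Z} = F.card := by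
    rw [Set.ncard_eq_toFinset_card _ hfin]
  rw [hcard]
  -- the tuple
  set Φ : Ideal (𝓞 M) → (Fin D → ℕ) := fun I i => co j i I with hΦ
  have hprod : ∀ I ∈ F, ((∏ i, Φ I i : ℕ) : ℝ) ≤ Z := by
    intro I hI
    rw [hmemF] at hI
    have h := prod_co_le j hj I hI.1
    rw [hD, Finset.prod_range] at h
    refine le_trans ?_ hI.2
    exact_mod_cast h
  have hΦinj : Set.InjOn Φ F := by
    intro I hI J hJ h
    rw [Finset.mem_coe, hmemF] at hI hJ
    refine co_inj j hj hinj I J hI.1 hJ.1 ?_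
    intro i hi
    rw [hD] at hi
    exact congrFun h ⟨i, hi⟩
  have hΦpos : ∀ I i, 1 ≤ Φ I i := fun I i => co_pos j i I
  set N : ℕ := ⌊Z⌋₊ with hN
  have hmem : ∀ I ∈ F, Φ I ∈ Fintype.piFinset (fun _ : Fin D => Finset.Icc 1 N) := by
    intro I hI
    rw [Fintype.mem_piFinset]
    intro i
    rw [Finset.mem_Icc]
    refine ⟨hΦpos I i, ?_⟩
    refine Nat.le_floor (le_trans ?_ (hprod I hI))
    have : Φ I i ∣ ∏ i, Φ I i := Finset.dvd_prod_of_mem _ (Finset.mem_univ i)
    exact_mod_cast Nat.le_of_dvd (Finset.prod_pos fun i _ => hΦpos I i) this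
  have hZ0 : (0 : ℝ) < Z := by linarith
  set w : (Fin D → ℕ) → ℝ := fun x => ∏ i, (1 : ℝ) / ((x i : ℕ) : ℝ) ^ (5 / 4 : ℝ) with hw
  have hw0 : ∀ x, 0 ≤ w x := fun x => Finset.prod_nonneg fun i _ => by positivity
  have h1 : ∀ I ∈ F, (1 : ℝ) ≤ Z ^ (5 / 4 : ℝ) * w (Φ I) := by
    intro I hI
    have hp : (0 : ℝ) < ((∏ i, Φ I i : ℕ) : ℝ) := by
      exact_mod_cast Finset.prod_pos fun i _ => hΦpos I i
    have : w (Φ I) = 1 / ((∏ i, Φ I i : ℕ) : ℝ) ^ (5 / 4 : ℝ) := by
      rw [hw]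
      simp only
      rw [Finset.prod_div_distrib, Finset.prod_const_one, Nat.cast_prod,
        ← Real.finsetProd_rpow _ _ (fun i _ => Nat.cast_nonneg _)]
    rw [this, mul_one_div, le_div_iff₀ (Real.rpow_pos_of_pos hp _), one_mul]
    exact Real.rpow_le_rpow hp.le (hprod I hI) (by norm_num)
  calc (F.card : ℝ) = ∑ I ∈ F, (1 : ℝ) := by simp
    _ ≤ ∑ I ∈ F, Z ^ (5 / 4 : ℝ) * w (Φ I) := Finset.sum_le_sum h1
    _ = Z ^ (5 / 4 : ℝ) * ∑ I ∈ F, w (Φ I) := by rw [Finset.mul_sum]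
    _ = Z ^ (5 / 4 : ℝ) * ∑ x ∈ F.image Φ, w x := by rw [Finset.sum_image hΦinj]
    _ ≤ Z ^ (5 / 4 : ℝ) * ∑ x ∈ Fintype.piFinset (fun _ : Fin D => Finset.Icc 1 N), w x := by
        refine mul_le_mul_of_nonneg_left ?_ (by positivity)
        refine Finset.sum_le_sum_of_subset_of_nonneg ?_ (fun x _ _ => hw0 x)
        intro x hx
        rw [Finset.mem_image] at hx
        obtain ⟨I, hI, rfl⟩ := hx
        exact hmem I hI
    _ = Z ^ (5 / 4 : ℝ) * ∏ _i : Fin D, ∑ n ∈ Finset.Icc 1 N, (1 : ℝ) / (n : ℝ) ^ (5 / 4 : ℝ) := by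
        rw [Finset.prod_univ_sum]
    _ ≤ Z ^ (5 / 4 : ℝ) * ∏ _i : Fin D, ζ := by
        refine mul_le_mul_of_nonneg_left ?_ (by positivity)
        refine Finset.prod_le_prod (fun i _ => Finset.sum_nonneg fun n _ => by positivity) ?_
        intro i _
        exact hsum.sum_le_tsum _ (fun n _ => by positivity)
    _ = ζ ^ D * Z ^ (5 / 4 : ℝ) := by
        rw [Finset.prod_const, Finset.card_univ, Fintype.card_fin, mul_comm]

end Pool.Agent.TH89.J3091
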