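import Pool.Agent.TH714.TD.Defs
import Pool.Agent.TH921.Pmin

/-!
# Elements of `L M` with small projections are in `L` (job 2155 of helper714)
-/

set_option autoImplicit false

namespace Pool.Agent.TH89.J2155

open Pool.Agent.TH64 Pool.Agent.TH714.TD

theorem closing {G : Type*} [Group G] {H : Hyp G} {x : G} (A : Ax H x) (L : Subgroup G)
    (hfix : Fixes L x) (hpig : PigL A.toPAx L) : Clos A L := by
  intro C
  obtain ⟨θ, hθ⟩ := hpig
  refine ⟨4 * θ + 48 * A.th + C + (A.c * (4 * A.c) + A.c + 1) + 1, ?_⟩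
  intro N hN M F p hp hl
  classical
  have hex : ∃ n : ℕ, ∃ l ∈ L, l⁻¹ * p ∈ M ∧ H.d p l = n := by
    obtain ⟨l, h1, h2⟩ := hl
    exact ⟨_, l, h1, h2, rfl⟩
  obtain ⟨l, hlL, hlM, hld⟩ := Nat.find_spec hex
  have hmin : ∀ l' ∈ L, l'⁻¹ * p ∈ M → H.d p l ≤ H.d p l' := by
    intro l' h1 h2
    rw [hld]
    exact Nat.find_min' hex ⟨l', h1, h2, rfl⟩
  by_cases hlp : l = p
  · rwa [← hlp]
  exfalso
  have hK1 : (0 : ℤ) ≤ (A.c : ℤ) * (4 * (A.c : ℤ)) := by positivity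
  have hN' : (4 * (θ : ℤ) + 48 * A.th + C + ((A.c : ℤ) * (4 * (A.c : ℤ)) + A.c + 1) + 1) ≤ N := by
    exact_mod_cast hN
  have hn : l * p⁻¹ ∈ M := by
    have h1 := F.normal.conj_mem _ (M.inv_mem hlM) l
    rwa [show l * (l⁻¹ * p)⁻¹ * l⁻¹ = l * p⁻¹ by group] at h1
  have hn1 : l * p⁻¹ ≠ 1 := fun h => hlp (mul_inv_eq_one.1 h)
  obtain ⟨u, hu⟩ := F.gr _ hn hn1 p
  rw [inv_mul_cancel_right] at hu
  have hpu := hp u
  have hadd := A.s_add u 1 p l
  have habs : |A.s u p l| ≤ |A.s u 1 l| + |A.s u 1 p| := by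
    have e : A.s u p l = A.s u 1 l - A.s u 1 p := by omega
    rw [e]
    exact abs_sub _ _
  have hbig : (θ : ℤ) < |A.s u 1 l| := by omega
  have hxL := hfix u (hθ u 1 L.one_mem l hlL hbig)
  have hrL : ∀ k : ℤ, PAx.rt x u k ∈ L := by
    intro k
    have h1 := L.zpow_mem hxL k
    rw [conj_zpow] at h1
    exact h1
  obtain ⟨k, hk⟩ : ∃ k : ℤ, |A.s u p l + N * k| = |(|A.s u p l| - N)| := by
    rcases le_or_gt 0 (A.s u p l) with h | h
    · refine ⟨-1, ?_⟩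
      rw [abs_of_nonneg h]
      congr 1
      ring
    · refine ⟨1, ?_⟩
      rw [abs_of_neg h, ← abs_neg]
      congr 1
      ring
  have h1 := hmin (PAx.rt x u (N * k) * l) (L.mul_mem (hrL _) hlL) (by
    have h2 := F.normal.conj_mem _ (M.inv_mem (F.rot u k)) l⁻¹
    have h3 := M.mul_mem h2 hlM
    rwa [show l⁻¹ * (PAx.rt x u (N * k))⁻¹ * l⁻¹⁻¹ * (l⁻¹ * p) =
      (PAx.rt x u (N * k) * l)⁻¹ * p by group] at h3)
  have h2 := A.proj_pr u p l (by omega)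
  have h3 := A.d_le_pr u p (PAx.rt x u (N * k) * l)
  rw [A.d_rt_pr, A.s_rt_right] at h3
  have h4 := A.len_gap (i := A.s u p l) (j := A.s u p l + N * k) (m := 4 * A.c) (by
    rw [hk]
    push_cast
    rcases le_or_gt (N : ℤ) (|A.s u p l|) with h | h
    · rw [abs_of_nonneg (by omega : (0 : ℤ) ≤ |A.s u p l| - N)]
      omega
    · rw [abs_of_nonpos (by omega : |A.s u p l| - (N : ℤ) ≤ 0)]
      omega)
  omega

end Pool.Agent.TH89.J2155
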