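import Pool.Agent.TH716.TW.Defs

set_option autoImplicit false

namespace Pool.Agent.TH89.J1418

open Pool.Agent.TH716.TW NumberField Polynomial

/-- the cubic -/
def ff {R : Type*} [CommRing R] (a : R) : R := a ^ 3 + a ^ 2 - 2 * a - 1

section fin

/-- elements of an extension fixed by Frobenius lie in the base field -/
theorem mem_of_pow {k κ : Type*} [Field k] [Fintype k] [Field κ] [Algebra k κ] (x : κ)
    (hx : x ^ Fintype.card k = x) : ∃ a : k, algebraMap k κ a = x := by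
  classical
  have h1 : (X ^ Fintype.card k - X : k[X]).Monic :=
    monic_X_pow_sub (by rw [degree_X]; exact_mod_cast Fintype.one_lt_card)
  have h2 := prod_multiset_X_sub_C_of_monic_of_roots_card_eq h1 (by
    rw [FiniteField.roots_X_pow_card_sub_X,
      FiniteField.X_pow_card_sub_X_natDegree_eq k Fintype.one_lt_card]
    rfl)
  rw [FiniteField.roots_X_pow_card_sub_X] at h2
  have h3 := congrArg (fun p => Polynomial.aeval x p) h2
  simp only [map_multiset_prod, Multiset.map_map, Function.comp_def, map_sub, aeval_X, map_pow,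
    aeval_C, hx, sub_self] at h3
  have h4 := Multiset.prod_eq_zero_iff.mp h3
  rw [Multiset.mem_map] at h4
  obtain ⟨a, -, ha⟩ := h4
  exact ⟨a, (sub_eq_zero.mp ha).symm⟩

/-- the roots of the cubic are fixed by Frobenius -/
theorem root_pow {κ : Type*} [Field κ] (p n q : ℕ) [Fact p.Prime] [CharP κ p] (hq : q = p ^ n)
    (h7 : q % 7 = 1 ∨ q % 7 = 6) (t : κ) (ht : ff t = 0) : t ^ q = t := by
  -- pass to the algebraic closure
  let Ω := AlgebraicClosure κ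
  have hinj : Function.Injective (algebraMap κ Ω) := (algebraMap κ Ω).injective
  apply hinj
  rw [map_pow]
  set T : Ω := algebraMap κ Ω t with hT
  have hT0 : T ^ 3 + T ^ 2 - 2 * T - 1 = 0 := by
    have := congrArg (algebraMap κ Ω) ht
    simpa [ff, map_ofNat] using this
  have : CharP Ω p := charP_of_injective_algebraMap hinj p
  obtain ⟨z, hz⟩ := IsAlgClosed.exists_root (X ^ 2 - C T * X + 1 : Polynomial Ω) (by
    have : (X ^ 2 - C T * X + 1 : Polynomial Ω).degree = 2 := by compute_degree!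
    rw [this]; norm_num)
  have hz' : z ^ 2 - T * z + 1 = 0 := by
    simpa [IsRoot.def] using hz
  have hz7 : z ^ 7 = 1 := by
    have h1 : z ^ 6 + z ^ 5 + z ^ 4 + z ^ 3 + z ^ 2 + z + 1 = 0 := by
      have e : T * z = z ^ 2 + 1 := by linear_combination -hz'
      have : z ^ 3 * (T ^ 3 + T ^ 2 - 2 * T - 1) = 0 := by rw [hT0, mul_zero]
      have e2 : z ^ 3 * (T ^ 3 + T ^ 2 - 2 * T - 1)
        = (T * z) ^ 3 + z * (T * z) ^ 2 - 2 * z ^ 2 * (T * z) - z ^ 3 := by ring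
      rw [e2, e] at this
      linear_combination this
    linear_combination (z - 1) * h1
  have hTz : T = z + z ^ 6 := by
    have e : T * z = z ^ 2 + 1 := by linear_combination -hz'
    calc T = T * z ^ 7 := by rw [hz7, mul_one]
      _ = (T * z) * z ^ 6 := by ring
      _ = (z ^ 2 + 1) * z ^ 6 := by rw [e]
      _ = z * z ^ 7 + z ^ 6 := by ring
      _ = z + z ^ 6 := by rw [hz7, mul_one]
  have hzq : z ^ q = z ^ (q % 7) := by
    conv_lhs => rw [← Nat.mod_add_div q 7]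
    rw [pow_add, pow_mul, hz7, one_pow, mul_one]
  have key : T ^ q = z ^ q + (z ^ q) ^ 6 := by
    rw [hTz, hq, add_pow_char_pow, ← pow_mul, ← pow_mul, mul_comm 6]
  rw [key, hzq]
  rcases h7 with h | h
  · rw [h, pow_one, ← hTz]
  · rw [h, hTz]
    have : (z ^ 6) ^ 6 = z := by
      calc (z ^ 6) ^ 6 = (z ^ 7) ^ 5 * z := by ring
        _ = z := by rw [hz7]; ring
    rw [this, add_comm]

end fin

section fields

variable {K M : Type} [Field K] [NumberField K] [Field M] [NumberField M] [Algebra K M] {θ : 𝓞 M}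

theorem intNorm_sub (ha : S_aut) (h : Sit K M θ) (a : 𝓞 K) :
    Algebra.intNorm (𝓞 K) (𝓞 M) (θ - algebraMap (𝓞 K) (𝓞 M) a) = - ff a := by
  obtain ⟨τ, σ, hτσ, hσ, h3, hn⟩ := ha K M θ h
  have hθ : (θ : M) ^ 3 + (θ : M) ^ 2 - 2 * (θ : M) - 1 = 0 := by
    have := congrArg (algebraMap (𝓞 M) M) h.eq
    simpa [map_ofNat] using this
  have hτθ : τ (θ : M) = (θ : M) ^ 2 - 2 := by
    have h1 := hτσ θ
    rw [show σ θ = θ ^ 2 - 2 from hσ] at h1
    rw [← h1]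
    simp [map_ofNat]
  have hinj : Function.Injective (algebraMap K M) := (algebraMap K M).injective
  have hinj' : Function.Injective (algebraMap (𝓞 K) K) := RingOfIntegers.coe_injective
  apply hinj'
  apply hinj
  rw [Algebra.algebraMap_intNorm (L := M), hn]
  have e1 : algebraMap (𝓞 M) M (θ - algebraMap (𝓞 K) (𝓞 M) a) = (θ : M) - algebraMap K M (a : K) := by
    rw [map_sub]
    congr 1
  have e2 : τ ((θ : M) - algebraMap K M (a : K)) = (θ : M) ^ 2 - 2 - algebraMap K M (a : K) := by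
    rw [map_sub, hτθ, AlgEquiv.commutes]
  have e3 : τ ((θ : M) ^ 2 - 2 - algebraMap K M (a : K))
      = ((θ : M) ^ 2 - 2) ^ 2 - 2 - algebraMap K M (a : K) := by
    rw [map_sub, map_sub, map_pow, hτθ, AlgEquiv.commutes]
    simp [map_ofNat]
  rw [e1, e2, e3]
  have e4 : algebraMap K M (algebraMap (𝓞 K) K (- ff a)) = - ff (algebraMap K M (a : K)) := by
    simp [ff, map_ofNat]
  rw [e4]
  set t : M := (θ : M)
  set b : M := algebraMap K M (a : K)
  unfold ff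
  linear_combination (t ^ 4 - t ^ 3 * b - t ^ 3 - 3 * t ^ 2 + t * b ^ 2 + 4 * t * b + 2 * t - b ^ 2
    - 2 * b + 1) * hθ

theorem relNorm_sub (ha : S_aut) (h : Sit K M θ) (a : 𝓞 K) :
    Ideal.relNorm (𝓞 K) (Ideal.span {θ - algebraMap (𝓞 K) (𝓞 M) a}) = Ideal.span {ff a} := by
  rw [Ideal.relNorm_singleton, intNorm_sub ha h, Ideal.span_singleton_neg]

theorem relNorm_map (h : Sit K M θ) (I : Ideal (𝓞 K)) :
    Ideal.relNorm (𝓞 K) (I.map (algebraMap (𝓞 K) (𝓞 M))) = I ^ 3 := by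
  rw [Ideal.relNorm_algebraMap]
  congr 1
  rw [← h.three]
  exact (IsFractionRing.finrank_eq (𝓞 K) K (𝓞 M) M).symm

/-- if `7` is in a prime `v`, then `v = p` -/
theorem eq_of_seven {p : Ideal (𝓞 K)} (hp : p ^ 2 = Ideal.span {7}) (h2 : Module.finrank ℚ K = 2) :
    p.IsMaximal ∧ p ≠ ⊥ ∧ ∀ v : Ideal (𝓞 K), v.IsPrime → (7 : 𝓞 K) ∈ v → v = p := by
  have hN : Ideal.absNorm p = 7 := by
    have h1 : Ideal.absNorm p ^ 2 = 49 := by
      rw [← map_pow, hp, Ideal.absNorm_span_singleton]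
      have : (7 : 𝓞 K) = algebraMap ℤ (𝓞 K) 7 := by simp [map_ofNat]
      rw [this, Algebra.norm_algebraMap, RingOfIntegers.rank, h2]
      norm_num
    nlinarith
  have hprime : p.IsPrime := Ideal.isPrime_of_irreducible_absNorm (by
    rw [hN]; exact (Nat.prime_iff.mp (by norm_num)).irreducible)
  have hbot : p ≠ ⊥ := by
    intro h
    rw [h, Ideal.absNorm_bot] at hN
    norm_num at hN
  have hmax : p.IsMaximal := hprime.isMaximal hbot
  refine ⟨hmax, hbot, ?_⟩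
  intro v hv h7
  have h1 : p ^ 2 ≤ v := by
    rw [hp, Ideal.span_singleton_le_iff_mem]
    exact h7
  have h3 : p ≤ v := hv.le_of_pow_le h1
  exact (hmax.eq_of_le hv.ne_top h3).symm

theorem good_p (ha : S_aut) (h : Sit K M θ) {p : Ideal (𝓞 K)} (hp : p ^ 2 = Ideal.span {7}) :
    ∃ J : Ideal (𝓞 M), J ≠ ⊥ ∧ Ideal.relNorm (𝓞 K) J = p := by
  obtain ⟨hmax, hbot, huniq⟩ := eq_of_seven hp h.two
  have hff : ff (2 : 𝓞 K) = 7 := by unfold ff; norm_num
  have hn := relNorm_sub ha h (2 : 𝓞 K)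
  rw [hff, ← hp] at hn
  have hne : Ideal.span {θ - algebraMap (𝓞 K) (𝓞 M) 2} ≠ ⊤ := by
    intro ht
    rw [ht, Ideal.relNorm_top] at hn
    have : p ^ 2 ≤ p := Ideal.pow_le_self (by norm_num)
    rw [← hn] at this
    exact hmax.ne_top (top_le_iff.mp this)
  obtain ⟨P, hPmax, hPle⟩ := Ideal.exists_le_maximal _ hne
  have h1 : p ^ 2 ≤ Ideal.relNorm (𝓞 K) P := by
    rw [← hn]
    exact Ideal.relNorm_mono _ hPle
  have h2 : Ideal.relNorm (𝓞 K) P ≤ Ideal.comap (algebraMap (𝓞 K) (𝓞 M)) P :=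
    Ideal.relNorm_le_comap (𝓞 K) P
  have h7 : (7 : 𝓞 K) ∈ Ideal.comap (algebraMap (𝓞 K) (𝓞 M)) P := by
    apply h2
    apply h1
    rw [hp]
    exact Ideal.mem_span_singleton_self _
  have hprime : (Ideal.comap (algebraMap (𝓞 K) (𝓞 M)) P).IsPrime :=
    Ideal.comap_isPrime _ _
  have hc := huniq _ hprime h7
  have hlies : P.LiesOver p := ⟨hc.symm⟩
  have hpp : p.IsPrime := hmax.isPrime
  obtain ⟨s, hs⟩ := Ideal.exists_relNorm_eq_pow_of_isPrime P p
  have hs2 : s ≤ 2 := by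
    rw [hs] at h1
    exact (Ideal.pow_right_strictAnti p hbot hmax.ne_top).le_iff_ge.mp h1
  have hs0 : s ≠ 0 := by
    intro h0
    rw [h0, pow_zero, Ideal.one_eq_top] at hs
    rw [hs, hc] at h2
    exact hmax.ne_top (top_le_iff.mp h2)
  have hcase : s = 1 ∨ s = 2 := by omega
  rcases hcase with rfl | rfl
  · rw [pow_one] at hs
    refine ⟨P, ?_, hs⟩
    intro hP
    rw [hP, Ideal.relNorm_bot] at hs
    exact hbot hs.symm
  · have h3 : p.map (algebraMap (𝓞 K) (𝓞 M)) ≤ P := by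
      rw [Ideal.map_le_iff_le_comap, hc]
    obtain ⟨R, hR⟩ := Ideal.dvd_iff_le.mpr h3
    have h4 := relNorm_map h p
    rw [hR, map_mul, hs] at h4
    have h5 : p ^ 2 * Ideal.relNorm (𝓞 K) R = p ^ 2 * p := by rw [h4]; ring
    have h6 : Ideal.relNorm (𝓞 K) R = p :=
      mul_left_cancel₀ (pow_ne_zero 2 hbot) h5
    refine ⟨R, ?_, h6⟩
    intro hR0
    rw [hR0, Ideal.relNorm_bot] at h6
    exact hbot h6.symm

theorem ff_map {R S : Type*} [CommRing R] [CommRing S] (f : R →+* S) (a : R) :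
    f (ff a) = ff (f a) := by
  unfold ff; simp [map_ofNat]

/-- choice of `a` with `θ ≡ a` modulo `P` -/
theorem exists_cong (h : Sit K M θ) (v : Ideal (𝓞 K)) [hv : v.IsMaximal] (hbot : v ≠ ⊥)
    (P : Ideal (𝓞 M)) [P.IsMaximal] [P.LiesOver v]
    (hq : Ideal.absNorm v % 7 = 1 ∨ Ideal.absNorm v % 7 = 6) :
    ∃ a : 𝓞 K, θ - algebraMap (𝓞 K) (𝓞 M) a ∈ P := by
  classical
  let : Field (𝓞 K ⧸ v) := Ideal.Quotient.field v
  let : Field (𝓞 M ⧸ P) := Ideal.Quotient.field P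
  have hfin : Finite (𝓞 K ⧸ v) := Ideal.finiteQuotientOfFreeOfNeBot v hbot
  let : Fintype (𝓞 K ⧸ v) := Fintype.ofFinite _
  have hcard : Fintype.card (𝓞 K ⧸ v) = Ideal.absNorm v := by
    rw [Ideal.absNorm_apply, Submodule.cardQuot_apply, Nat.card_eq_fintype_card]
  obtain ⟨p, hp⟩ := CharP.exists (𝓞 K ⧸ v)
  obtain ⟨n, hpp, hn⟩ := FiniteField.card (𝓞 K ⧸ v) p
  have : Fact p.Prime := ⟨hpp⟩
  have hinj : Function.Injective (algebraMap (𝓞 K ⧸ v) (𝓞 M ⧸ P)) :=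
    (algebraMap (𝓞 K ⧸ v) (𝓞 M ⧸ P)).injective
  have : CharP (𝓞 M ⧸ P) p := charP_of_injective_algebraMap hinj p
  have ht : ff (Ideal.Quotient.mk P θ) = 0 := by
    rw [← ff_map]
    have : ff θ = 0 := h.eq
    rw [this, map_zero]
  have h1 := root_pow p n (Ideal.absNorm v) (by rw [← hcard, hn]) hq _ ht
  rw [← hcard] at h1
  obtain ⟨a', ha'⟩ := mem_of_pow (k := 𝓞 K ⧸ v) _ h1
  obtain ⟨a, rfl⟩ := Ideal.Quotient.mk_surjective a'
  refine ⟨a, ?_⟩
  rw [← Ideal.Quotient.eq_zero_iff_mem, map_sub, sub_eq_zero, ← ha']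
  rfl

theorem seven_notMem (v : Ideal (𝓞 K)) [hv : v.IsMaximal]
    (hq : Ideal.absNorm v % 7 = 1 ∨ Ideal.absNorm v % 7 = 6) : (7 : 𝓞 K) ∉ v := by
  intro h7
  have h1 : ((Ideal.absNorm v : ℕ) : 𝓞 K) ∈ v := Ideal.absNorm_mem v
  have h2 : Nat.gcd (Ideal.absNorm v) 7 = 1 := by
    rcases hq with h | h
    · rw [Nat.gcd_comm, Nat.gcd_rec, h]
      norm_num
    · rw [Nat.gcd_comm, Nat.gcd_rec, h]
      norm_num
  have h3 := Nat.gcd_eq_gcd_ab (Ideal.absNorm v) 7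
  rw [h2] at h3
  have h4 : (1 : 𝓞 K) ∈ v := by
    have : (1 : 𝓞 K) = ((Ideal.absNorm v : ℕ) : 𝓞 K) * ((Nat.gcdA (Ideal.absNorm v) 7 : ℤ) : 𝓞 K)
        + 7 * ((Nat.gcdB (Ideal.absNorm v) 7 : ℤ) : 𝓞 K) := by
      have := congrArg (fun z : ℤ => (z : 𝓞 K)) h3
      push_cast at this
      exact this
    rw [this]
    exact v.add_mem (v.mul_mem_right _ h1) (v.mul_mem_right _ h7)
  exact hv.ne_top ((Ideal.eq_top_iff_one v).mpr h4)

theorem good_v (ha : S_aut) (h : Sit K M θ) (v : Ideal (𝓞 K)) [hv : v.IsMaximal] (hbot : v ≠ ⊥)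
    (hq : Ideal.absNorm v % 7 = 1 ∨ Ideal.absNorm v % 7 = 6) :
    ∃ J : Ideal (𝓞 M), J ≠ ⊥ ∧ Ideal.relNorm (𝓞 K) J = v := by
  obtain ⟨P, hP, hlies⟩ := Ideal.exists_maximal_ideal_liesOver_of_isIntegral (S := 𝓞 M) v
  obtain ⟨a₀, ha₀⟩ := exists_cong h v hbot P hq
  have hc : v = Ideal.comap (algebraMap (𝓞 K) (𝓞 M)) P := hlies.over
  have h7 := seven_notMem v hq
  have hv' : v.IsPrime := hv.isPrime
  have hmem : ∀ a : 𝓞 K, θ - algebraMap (𝓞 K) (𝓞 M) a ∈ P → ff a ∈ v := by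
    intro a haP
    rw [hc, Ideal.mem_comap, ff_map]
    have h1 : ff θ = 0 := h.eq
    have h2 : ff (algebraMap (𝓞 K) (𝓞 M) a) = -((θ - algebraMap (𝓞 K) (𝓞 M) a) *
        (θ ^ 2 + θ * algebraMap (𝓞 K) (𝓞 M) a + (algebraMap (𝓞 K) (𝓞 M) a) ^ 2 + θ +
          algebraMap (𝓞 K) (𝓞 M) a - 2)) := by
      unfold ff at h1 ⊢
      linear_combination h1
    rw [h2]
    exact P.neg_mem (P.mul_mem_right _ haP)
  -- choose `a` with `f(a) ∉ v²`
  obtain ⟨a, haP, hav⟩ : ∃ a : 𝓞 K, θ - algebraMap (𝓞 K) (𝓞 M) a ∈ P ∧ ff a ∉ v ^ 2 := by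
    by_cases h0 : ff a₀ ∈ v ^ 2
    · obtain ⟨π, hπ, hπ2⟩ := Ideal.exists_mem_pow_notMem_pow_succ v hbot hv.ne_top 1
      rw [pow_one] at hπ
      refine ⟨a₀ + π, ?_, ?_⟩
      · have : algebraMap (𝓞 K) (𝓞 M) π ∈ P := by
          rw [hc, Ideal.mem_comap] at hπ
          exact hπ
        rw [map_add, ← sub_sub]
        exact P.sub_mem ha₀ this
      · intro h1
        have hπ22 : π ^ 2 ∈ v ^ 2 := Ideal.pow_mem_pow hπ 2
        have h2 : (3 * a₀ ^ 2 + 2 * a₀ - 2) * π ∈ v ^ 2 := by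
          have e : (3 * a₀ ^ 2 + 2 * a₀ - 2) * π = ff (a₀ + π) - ff a₀ - (3 * a₀ + 1 + π) * π ^ 2 := by
            unfold ff; ring
          rw [e]
          exact (v ^ 2).sub_mem ((v ^ 2).sub_mem h1 h0) ((v ^ 2).mul_mem_left _ hπ22)
        by_cases h3 : (3 * a₀ ^ 2 + 2 * a₀ - 2) ∈ v
        · apply h7
          have h4 := hmem a₀ ha₀
          have e : (7 : 𝓞 K) = -(6 * a₀ + 1) * ff a₀ + (2 * a₀ ^ 2 + a₀ - 3) * (3 * a₀ ^ 2 + 2 * a₀ - 2) := by
            unfold ff; ring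
          rw [e]
          exact v.add_mem (v.mul_mem_left _ h4) (v.mul_mem_left _ h3)
        · obtain ⟨y, hy⟩ := Ideal.Quotient.exists_inv (I := v)
            (a := Ideal.Quotient.mk v (3 * a₀ ^ 2 + 2 * a₀ - 2)) (by
              rwa [Ne, Ideal.Quotient.eq_zero_iff_mem])
          obtain ⟨y, rfl⟩ := Ideal.Quotient.mk_surjective y
          rw [← map_mul, ← map_one (Ideal.Quotient.mk v), Ideal.Quotient.mk_eq_mk_iff_sub_mem] at hy
          apply hπ2
          have e : π = y * ((3 * a₀ ^ 2 + 2 * a₀ - 2) * π) -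
              ((3 * a₀ ^ 2 + 2 * a₀ - 2) * y - 1) * π := by ring
          rw [show (1 + 1 : ℕ) = 2 from rfl, e]
          refine (v ^ 2).sub_mem ((v ^ 2).mul_mem_left _ h2) ?_
          rw [pow_two]
          exact Ideal.mul_mem_mul hy hπ
    · exact ⟨a₀, ha₀, h0⟩
  obtain ⟨s, hs⟩ := Ideal.exists_relNorm_eq_pow_of_isPrime P v
  have h1 : Ideal.span {ff a} ≤ v ^ s := by
    rw [← hs, ← relNorm_sub ha h a]
    apply Ideal.relNorm_mono
    rw [Ideal.span_singleton_le_iff_mem]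
    exact haP
  have hs1 : s ≤ 1 := by
    by_contra hcon
    push Not at hcon
    apply hav
    have h2 : v ^ s ≤ v ^ 2 := Ideal.pow_le_pow_right hcon
    exact h2 (h1 (Ideal.mem_span_singleton_self _))
  have hs0 : s ≠ 0 := by
    intro h0
    rw [h0, pow_zero, Ideal.one_eq_top] at hs
    have h2 := Ideal.relNorm_le_comap (𝓞 K) P
    rw [hs, ← hc] at h2
    exact hv.ne_top (top_le_iff.mp h2)
  have hs' : s = 1 := by omega
  rw [hs', pow_one] at hs
  refine ⟨P, ?_, hs⟩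
  intro hP0
  rw [hP0, Ideal.relNorm_bot] at hs
  exact hbot hs.symm

/-- primes of norm divisible by `7` -/
theorem seven_mem (v : Ideal (𝓞 K)) [hv : v.IsMaximal] (hbot : v ≠ ⊥)
    (hq : Ideal.absNorm v % 7 = 0) : (7 : 𝓞 K) ∈ v := by
  classical
  let : Field (𝓞 K ⧸ v) := Ideal.Quotient.field v
  have hfin : Finite (𝓞 K ⧸ v) := Ideal.finiteQuotientOfFreeOfNeBot v hbot
  let : Fintype (𝓞 K ⧸ v) := Fintype.ofFinite _
  have hcard : Fintype.card (𝓞 K ⧸ v) = Ideal.absNorm v := by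
    rw [Ideal.absNorm_apply, Submodule.cardQuot_apply, Nat.card_eq_fintype_card]
  obtain ⟨p, hp⟩ := CharP.exists (𝓞 K ⧸ v)
  obtain ⟨n, hpp, hn⟩ := FiniteField.card (𝓞 K ⧸ v) p
  have h1 : 7 ∣ p ^ (n : ℕ) := by
    rw [← hn, hcard]
    exact Nat.dvd_of_mod_eq_zero hq
  have h2 : 7 ∣ p := Nat.Prime.dvd_of_dvd_pow (by norm_num) h1
  have h3 : 7 = p := (Nat.prime_dvd_prime_iff_eq (by norm_num) hpp).mp h2
  have h4 : ((7 : ℕ) : 𝓞 K ⧸ v) = 0 := by
    rw [h3]; exact CharP.cast_eq_zero _ p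
  rw [← Ideal.Quotient.eq_zero_iff_mem]
  have : Ideal.Quotient.mk v (7 : 𝓞 K) = ((7 : ℕ) : 𝓞 K ⧸ v) := by
    simp [map_ofNat]
  rw [this, h4]

end fields

theorem result (ha : S_aut) : S_idnorm := by
  intro K M _ _ _ _ _ θ h I hI hcond
  obtain ⟨p, hp⟩ := h.ram
  obtain ⟨-, -, huniq⟩ := eq_of_seven hp h.two
  have hpow : ∀ (J : Ideal (𝓞 K)) (n : ℕ), (∃ A : Ideal (𝓞 M), A ≠ ⊥ ∧ Ideal.relNorm (𝓞 K) A = J) →
      ∃ A : Ideal (𝓞 M), A ≠ ⊥ ∧ Ideal.relNorm (𝓞 K) A = J ^ n := by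
    rintro J n ⟨A, hA, rfl⟩
    exact ⟨A ^ n, pow_ne_zero n hA, by rw [map_pow]⟩
  rw [← Ideal.finprod_heightOneSpectrum_factorization hI]
  refine finprod_induction (fun J => ∃ A : Ideal (𝓞 M), A ≠ ⊥ ∧ Ideal.relNorm (𝓞 K) A = J) ?_ ?_ ?_
  · exact ⟨⊤, top_ne_bot, by rw [Ideal.relNorm_top, Ideal.one_eq_top]⟩
  · rintro x y ⟨A, hA, rfl⟩ ⟨B, hB, rfl⟩
    exact ⟨A * B, mul_ne_zero hA hB, by rw [map_mul]⟩
  · intro v
    have hmax : v.asIdeal.IsMaximal := v.isMaximal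
    show ∃ A : Ideal (𝓞 M), A ≠ ⊥ ∧ Ideal.relNorm (𝓞 K) A =
      v.asIdeal ^ (Associates.mk v.asIdeal).count (Associates.mk I).factors
    by_cases h0 : Ideal.absNorm v.asIdeal % 7 = 0
    · have h1 := huniq v.asIdeal v.isPrime (seven_mem v.asIdeal v.ne_bot h0)
      apply hpow
      rw [h1]
      exact good_p ha h hp
    · by_cases h1 : Ideal.absNorm v.asIdeal % 7 = 1 ∨ Ideal.absNorm v.asIdeal % 7 = 6
      · apply hpow
        exact good_v ha h v.asIdeal v.ne_bot h1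
      · have h2 := hcond v (by
          rintro (h | h | h)
          · exact h0 h
          · exact h1 (Or.inl h)
          · exact h1 (Or.inr h))
        obtain ⟨n, hn⟩ := h2
        rw [hn, pow_mul]
        apply hpow
        refine ⟨v.asIdeal.map (algebraMap (𝓞 K) (𝓞 M)), ?_, relNorm_map h _⟩
        rw [Ne, Ideal.map_eq_bot_iff_of_injective (RingOfIntegers.algebraMap.injective K M)]
        exact v.ne_bot

end Pool.Agent.TH89.J1418
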