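import Pool.Agent.TH981.SD.Stm

/-!
# Capped number of marks (job 2252 of helper981)
-/

set_option autoImplicit false

open Pool.Agent.TH981.SD
open Finset Set Filter
open scoped BigOperators Topology Classical

namespace Pool.Agent.TH89.J2252

theorem lam_nonneg (α : ℝ) (d : ℕ) : 0 ≤ lam α d := by unfold lam; positivity

theorem lam_mono {α : ℝ} (h : 0 < α) (d : ℕ) : lam α d ≤ lam α (d + 1) := by
  unfold lam
  apply Real.rpow_le_rpow (by positivity) _ h.le
  push_cast; linarith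

theorem bet_pos {α : ℝ} (h0 : 0 < α) (h1 : α < 1) : 0 < bet α := by
  unfold bet
  have h2 : (1 : ℝ) < (2 : ℝ) ^ α := Real.one_lt_rpow (by norm_num) h0
  have h3 : (2 : ℝ) ^ α < 2 := by
    have := Real.rpow_lt_rpow_of_exponent_lt (x := 2) (by norm_num) h1
    rwa [Real.rpow_one] at this
  apply div_pos <;> linarith

theorem cont_of {f : ℝ → ℝ} {f' : ℝ → ℝ}
    (h : ∀ t, 0 ≤ t → HasDerivWithinAt f (f' t) (Set.Ici 0) t) : ContinuousOn f (Set.Ici 0) :=
  fun t ht => (h t ht).continuousWithinAt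

section Y

variable {α z : ℝ} {Y : ℕ → ℝ → ℝ} (hY : IsY α z Y) (hz : z < 1)

include hY

theorem Y_cont (d : ℕ) : ContinuousOn (Y d) (Set.Ici 0) := cont_of (hY.deriv d)

theorem m1_cont : ContinuousOn (m1 Y) (Set.Ici 0) := by
  unfold m1
  exact (Y_cont hY 1).mul (continuousOn_const.sub (Y_cont hY 2))

include hz

theorem m1_nonneg {t : ℝ} (ht : 0 ≤ t) : 0 ≤ m1 Y t := by
  unfold m1
  have h1 := hY.pos 1 t ht
  have h2 := hY.le 2 t ht
  exact mul_nonneg h1.le (by linarith)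

theorem m1_le {t : ℝ} (ht : 0 ≤ t) : m1 Y t ≤ 1 := by
  unfold m1
  have h1 := hY.pos 1 t ht
  have h2 := hY.le 1 t ht
  have h3 := hY.pos 2 t ht
  have h4 := hY.le 2 t ht
  nlinarith

theorem cc_nonneg {K : ℝ} (hK : 0 ≤ K) {t : ℝ} (ht : 0 ≤ t) : 0 ≤ cc Y K t := by
  unfold cc
  have h1 := hY.pos 1 t ht
  have h2 := m1_nonneg hY hz ht
  positivity

theorem V_lower {K : ℝ} (hK : 0 ≤ K) {V : ℕ → ℝ → ℝ} (hV : IsV α Y K V) (d : ℕ) {s t : ℝ}
    (hs : 0 ≤ s) (hst : s ≤ t) : Real.exp (-(lam α d * (t - s))) * V d s ≤ V d t := by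
  have hmono : MonotoneOn (fun t => Real.exp (lam α d * t) * V d t) (Set.Ici 0) := by
    have hd : ∀ t, 0 ≤ t → HasDerivWithinAt (fun t => Real.exp (lam α d * t) * V d t)
        (Real.exp (lam α d * t) * (lam α d * (cc Y K t * V (d + 1) t))) (Set.Ici 0) t := by
      intro t ht
      have h1 : HasDerivWithinAt (fun t => Real.exp (lam α d * t))
          (Real.exp (lam α d * t) * lam α d) (Set.Ici 0) t := by
        have h2 : HasDerivAt (fun t : ℝ => lam α d * t) (lam α d) t := by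
          simpa using (hasDerivAt_id t).const_mul (lam α d)
        exact h2.exp.hasDerivWithinAt
      refine (h1.mul (hV.deriv d t ht)).congr_deriv ?_
      ring
    apply monotoneOn_of_hasDerivWithinAt_nonneg (convex_Ici 0) (cont_of hd)
      (f' := fun t => Real.exp (lam α d * t) * (lam α d * (cc Y K t * V (d + 1) t)))
    · intro x hx
      rw [interior_Ici, Set.mem_Ioi] at hx
      exact (hd x hx.le).mono interior_subset
    · intro x hx
      rw [interior_Ici, Set.mem_Ioi] at hx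
      have h1 := cc_nonneg hY hz hK hx.le
      have h2 := (hV.pos (d + 1) x hx.le).le
      have h3 := lam_nonneg α d
      positivity
  have h1 := hmono (Set.mem_Ici.2 hs) (Set.mem_Ici.2 (hs.trans hst)) hst
  simp only at h1
  have h2 : Real.exp (-(lam α d * (t - s))) = Real.exp (lam α d * s) / Real.exp (lam α d * t) := by
    rw [← Real.exp_sub]
    congr 1
    ring
  rw [h2, div_mul_eq_mul_div, div_le_iff₀ (Real.exp_pos _)]
  linarith

end Y

/-- the decomposition of `V` -/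
theorem decomp (h4 : S_LIN) {α z K : ℝ} {Y V : ℕ → ℝ → ℝ} (h0 : 0 < α) (h1 : α < 1) (hz : z < 1)
    (hK : 0 ≤ K) (hY : IsY α z Y) (hV : IsV α Y K V) {g₁ g₂ g₃ : ℕ → ℝ} {u₁ u₂ u₃ : ℕ → ℕ → ℝ → ℝ}
    (hg : ∀ r, g₁ r + g₂ r + g₃ r = 1)
    (H₁ : IsHub α Y K g₁ u₁) (H₂ : IsHub α Y K g₂ u₂) (H₃ : IsHub α Y K g₃ u₃) :
    ∀ d r t, 0 ≤ t → V d t = u₁ d r t + u₂ d r t + u₃ d r t := by
  obtain ⟨-, huniq, -⟩ := h4 α (Y 1) (fun t => K * m1 Y t) (fun _ => 1) h0 h1 (Y_cont hY 1)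
    (continuousOn_const.mul (m1_cont hY)) (fun t ht => (hY.pos 1 t ht).le)
    (fun t ht => mul_nonneg hK (m1_nonneg hY hz ht)) (fun _ => zero_le_one) (fun _ => le_rfl)
  refine huniq (fun d _ t => V d t) (fun d r t => u₁ d r t + u₂ d r t + u₃ d r t) ?_ ?_
  · refine ⟨fun d _ => hV.init d, fun d r t ht => ?_, fun d r t ht => (hV.pos d t ht).le,
      fun T hT => ?_⟩
    · refine (hV.deriv d t ht).congr_deriv ?_
      unfold cc
      ring
    · obtain ⟨B, C, hB, hC, h⟩ := hV.bdd T hT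
      exact ⟨B, C, hB, hC, fun d _ t ht htT => h d t ht htT⟩
  · refine ⟨fun d r => ?_, fun d r t ht => ?_, fun d r t ht => ?_, fun T hT => ?_⟩
    · rw [H₁.init, H₂.init, H₃.init, hg]
    · refine (((H₁.deriv d r t ht).add (H₂.deriv d r t ht)).add
        (H₃.deriv d r t ht)).congr_deriv ?_
      ring
    · have e1 := H₁.nonneg d r t ht
      have e2 := H₂.nonneg d r t ht
      have e3 := H₃.nonneg d r t ht
      positivity
    · obtain ⟨B₁, C₁, hB₁, hC₁, e1⟩ := H₁.bdd T hT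
      obtain ⟨B₂, C₂, hB₂, hC₂, e2⟩ := H₂.bdd T hT
      obtain ⟨B₃, C₃, hB₃, hC₃, e3⟩ := H₃.bdd T hT
      refine ⟨B₁ + B₂ + B₃, C₁ + C₂ + C₃, by positivity, by linarith, fun d r t ht htT => ?_⟩
      have f1 : C₁ ^ d ≤ (C₁ + C₂ + C₃) ^ d := by gcongr; linarith
      have f2 : C₂ ^ d ≤ (C₁ + C₂ + C₃) ^ d := by gcongr; linarith
      have f3 : C₃ ^ d ≤ (C₁ + C₂ + C₃) ^ d := by gcongr; linarith
      have k1 := (e1 d r t ht htT).trans (mul_le_mul_of_nonneg_left f1 hB₁)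
      have k2 := (e2 d r t ht htT).trans (mul_le_mul_of_nonneg_left f2 hB₂)
      have k3 := (e3 d r t ht htT).trans (mul_le_mul_of_nonneg_left f3 hB₃)
      linarith

/-- many marks have small weight -/
theorem high (h5 : S_POS) {α z K : ℝ} {Y V : ℕ → ℝ → ℝ} (h0 : 0 < α) (h1 : α < 1) (hz : z < 1)
    (hK : 0 ≤ K) (hY : IsY α z Y) (hV : IsV α Y (2 * K) V) {M : ℕ} {w : ℕ → ℕ → ℝ → ℝ}
    (hw : IsHub α Y K (fun r => if M < r then 1 else 0) w) :
    ∀ d r t, 0 ≤ t → w d r t ≤ 2 ^ r / 2 ^ M * V d t := by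
  intro d r T hT
  obtain ⟨B₁, C₁, hB₁, hC₁, e1⟩ := hV.bdd T hT
  obtain ⟨B₂, C₂, hB₂, hC₂, e2⟩ := hw.bdd T hT
  have hder : ∀ d r t, 0 ≤ t → HasDerivWithinAt (fun t => 2 ^ r / 2 ^ M * V d t - w d r t)
      (2 ^ r / 2 ^ M * (lam α d * (cc Y (2 * K) t * V (d + 1) t - V d t)) -
        lam α d * (Y 1 t * w (d + 1) r t + K * m1 Y t * w (d + 1) (r + 1) t - w d r t))
      (Set.Ici 0) t := by
    intro d r t ht
    exact ((hV.deriv d t ht).const_mul _).sub (hw.deriv d r t ht)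
  have key := h5 α 0 T (1 + K) (B₁ + B₂) (2 * (C₁ + C₂)) h0 h1 hT (by linarith) (by linarith)
    (by linarith) (fun d r t => 2 ^ r / 2 ^ M * V d t - w d r t)
    (fun d r t => 2 ^ r / 2 ^ M * (lam α d * (cc Y (2 * K) t * V (d + 1) t - V d t)) -
      lam α d * (Y 1 t * w (d + 1) r t + K * m1 Y t * w (d + 1) (r + 1) t - w d r t))
    (fun d r t => lam α d * Y 1 t) (fun d r t => lam α d * (K * m1 Y t)) (fun d r t => lam α d)
    (fun d r => (cont_of (hder d r)).mono Set.Icc_subset_Ici_self)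
    (fun d r t ht => (hder d r t ht.1).mono (Set.Ici_subset_Ici.2 ht.1))
    ?_ ?_ ?_ ?_ d r T ⟨hT, le_rfl⟩
  · linarith
  · intro d r t ht
    apply le_of_eq
    unfold cc
    rw [pow_succ]
    ring
  · intro d r t ht
    have a1 := lam_nonneg α d
    have a2 := lam_mono h0 d
    have a3 := lam_nonneg α (d + 1)
    have a4 := hY.pos 1 t ht.1
    have a5 := hY.le 1 t ht.1
    have a6 := m1_nonneg hY hz ht.1
    have a7 := m1_le hY hz ht.1
    refine ⟨by positivity, ?_, by positivity, ?_, by linarith⟩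
    · have : lam α d * Y 1 t ≤ lam α (d + 1) * 1 :=
        mul_le_mul a2 (by linarith) a4.le a3
      nlinarith [mul_nonneg hK a3]
    · have b1 : K * m1 Y t ≤ K * 1 := mul_le_mul_of_nonneg_left a7 hK
      have : lam α d * (K * m1 Y t) ≤ lam α (d + 1) * (K * 1) :=
        mul_le_mul a2 b1 (by positivity) a3
      nlinarith
  · intro d r
    rw [hV.init, hw.init, mul_one]
    split_ifs with h
    · rw [sub_nonneg, le_div_iff₀ (by positivity), one_mul]
      exact pow_le_pow_right₀ (by norm_num) h.le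
    · rw [sub_zero]
      positivity
  · intro d r t ht
    have b1 := e1 d t ht.1 ht.2
    have b2 := e2 d r t ht.1 ht.2
    have b3 := (hV.pos d t ht.1).le
    have b4 := hw.nonneg d r t ht.1
    have c1 : (1 : ℝ) ≤ 2 ^ M := one_le_pow₀ (by norm_num)
    have c2 : (2 : ℝ) ^ r / 2 ^ M ≤ 2 ^ r := div_le_self (by positivity) c1
    have c3 : (2 : ℝ) ^ r / 2 ^ M * V d t ≤ 2 ^ r * (B₁ * C₁ ^ d) :=
      mul_le_mul c2 b1 b3 (by positivity)
    have c4 : (2 : ℝ) ^ r * C₁ ^ d ≤ (2 * (C₁ + C₂)) ^ (d + r) := by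
      rw [pow_add, mul_comm]
      apply mul_le_mul _ _ (by positivity) (by positivity)
      · gcongr; linarith
      · gcongr; linarith
    have c5 : C₂ ^ d ≤ (2 * (C₁ + C₂)) ^ (d + r) := by
      calc C₂ ^ d ≤ (2 * (C₁ + C₂)) ^ d := by gcongr; linarith
        _ ≤ (2 * (C₁ + C₂)) ^ (d + r) := pow_le_pow_right₀ (by linarith) (by omega)
    have c6 : 0 ≤ (2 : ℝ) ^ r / 2 ^ M * V d t := by positivity
    have d1 : (2 : ℝ) ^ r * (B₁ * C₁ ^ d) ≤ B₁ * (2 * (C₁ + C₂)) ^ (d + r) := by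
      calc (2 : ℝ) ^ r * (B₁ * C₁ ^ d) = B₁ * (2 ^ r * C₁ ^ d) := by ring
        _ ≤ _ := mul_le_mul_of_nonneg_left c4 hB₁
    have d2 : B₂ * C₂ ^ d ≤ B₂ * (2 * (C₁ + C₂)) ^ (d + r) := mul_le_mul_of_nonneg_left c5 hB₂
    rw [add_mul, abs_le]
    have d3 : 0 ≤ B₁ * (2 * (C₁ + C₂)) ^ (d + r) := by positivity
    have d4 : 0 ≤ B₂ * (2 * (C₁ + C₂)) ^ (d + r) := by positivity
    constructor <;> linarith

/-- the exponential beats the powers -/
theorem beat {α : ℝ} (h1 : α < 1) (c C : ℝ) (n : ℕ) (hc : 0 < c) :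
    ∃ K0 : ℝ, 2 ≤ K0 ∧ ∀ K, K0 ≤ K → 1 ≤ DK α K ∧
      C * DK α K ^ n ≤ Real.exp (c * DK α K) := by
  have hD : Tendsto (fun K : ℝ => DK α K) atTop atTop := by
    unfold DK
    exact tendsto_rpow_atTop (by apply div_pos one_pos; linarith)
  have hx : ∀ᶠ x : ℝ in atTop, C * x ^ n ≤ Real.exp (c * x) := by
    have h2 := Real.tendsto_pow_mul_exp_neg_atTop_nhds_zero n
    have h3 : Tendsto (fun x : ℝ => c * x) atTop atTop := tendsto_id.const_mul_atTop hc
    have h4 := (h2.comp h3).const_mul (|C| / c ^ n)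
    rw [mul_zero] at h4
    filter_upwards [h4.eventually (gt_mem_nhds (zero_lt_one)), eventually_ge_atTop 0] with x hx hx0
    simp only [Function.comp] at hx
    have h5 : |C| / c ^ n * ((c * x) ^ n * Real.exp (-(c * x))) =
        |C| * x ^ n * Real.exp (-(c * x)) := by
      rw [mul_pow]
      field_simp
    rw [h5, Real.exp_neg, ← div_eq_mul_inv, div_lt_one (Real.exp_pos _)] at hx
    exact (mul_le_mul_of_nonneg_right (le_abs_self C) (by positivity)).trans hx.le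
  obtain ⟨a, ha⟩ := eventually_atTop.1 (hD.eventually (hx.and (eventually_ge_atTop 1)))
  refine ⟨max 2 a, le_max_left _ _, fun K hK => ?_⟩
  have := ha K ((le_max_right _ _).trans hK)
  exact ⟨this.2, this.1⟩

theorem capm (h1 : S_LOW) (h2 : S_VB) (h3 : S_VEX) (h4 : S_LIN) (h5 : S_POS) (h6 : S_GROW)
    (h7 : S_TM) (h8 : S_MONO) (h9 : S_YF) : S_CAPM := by
  intro α N hα0 hα1
  obtain ⟨c3, hc3, Kg, hKg2, hgrow⟩ := h6 α hα0 hα1
  obtain ⟨Kb, hKb2, hbeat⟩ := beat hα1 c3 (16 * (9 * (1 + N)) ^ 3) (2 * N + 3) hc3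
  refine ⟨max (max Kg Kb) 32, by
    exact (by norm_num : (2 : ℝ) ≤ 32).trans (le_max_right _ _), ?_⟩
  intro K hK
  have hK32 : 32 ≤ K := (le_max_right _ _).trans hK
  have hKg : Kg ≤ K := ((le_max_left _ _).trans (le_max_left _ _)).trans hK
  have hKb : Kb ≤ K := ((le_max_right _ _).trans (le_max_left _ _)).trans hK
  have hK0 : 0 ≤ K := by linarith
  obtain ⟨B, z0, hz0, hz01, hVB⟩ := h2 α (2 * K) (2 * LK α K) N hα0 hα1 (by linarith)
  set E : ℝ := Real.exp (1 + bet α) with hE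
  have hE0 : 0 < E := Real.exp_pos _
  have hE1 : E / (1 + E) < 1 := by
    rw [div_lt_one (by linarith)]
    linarith
  obtain ⟨M1, hM1⟩ := pow_unbounded_of_one_lt (4 * (2 ^ N * B)) (one_lt_two (α := ℝ))
  refine ⟨max z0 (E / (1 + E)), lt_of_lt_of_le hz0 (le_max_left _ _), max_lt hz01 hE1,
    max M1 4, ?_⟩
  intro M hM z Y V u tM hz hz1 hY hV hu htM hYtM d r t hd hdN hrN htMt htt
  have hM4 : 4 ≤ M := (le_max_right _ _).trans hM
  have hMM : M1 ≤ M := (le_max_left _ _).trans hM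
  have hzz0 : z0 < z := lt_of_le_of_lt (le_max_left _ _) hz
  have hzE : E / (1 + E) < z := lt_of_le_of_lt (le_max_right _ _) hz
  have hz2 : 1 / 2 < z := hz0.trans hzz0
  have hzpos : 0 < z := by linarith
  have ht0 : 0 ≤ t := htM.trans htMt
  have hbet := bet_pos hα0 hα1
  -- tM ≥ 1
  have htM1 : 1 ≤ tM := by
    obtain ⟨h, -⟩ := (h7 α z Y hα0 hα1 hz2 hz1 hY).2 tM htM hYtM
    have e1 : E < z / (1 - z) := by
      rw [div_lt_iff₀ (by linarith)] at hzE
      rw [lt_div_iff₀ (by linarith)]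
      linarith
    have e2 : 1 + bet α < Real.log (z / (1 - z)) := by
      have := Real.log_lt_log hE0 e1
      rwa [hE, Real.log_exp] at this
    nlinarith
  -- the functions
  obtain ⟨⟨l, hl⟩, -, -⟩ := h4 α (Y 1) (fun t => K * m1 Y t) glow hα0 hα1 (Y_cont hY 1)
    (continuousOn_const.mul (m1_cont hY)) (fun t ht => (hY.pos 1 t ht).le)
    (fun t ht => mul_nonneg hK0 (m1_nonneg hY hz1 ht))
    (fun r => by unfold glow; split_ifs <;> norm_num)
    (fun r => by unfold glow; split_ifs <;> norm_num)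
  obtain ⟨⟨w, hw⟩, -, -⟩ := h4 α (Y 1) (fun t => K * m1 Y t) (fun r => if M < r then 1 else 0)
    hα0 hα1 (Y_cont hY 1)
    (continuousOn_const.mul (m1_cont hY)) (fun t ht => (hY.pos 1 t ht).le)
    (fun t ht => mul_nonneg hK0 (m1_nonneg hY hz1 ht))
    (fun r => by split_ifs <;> norm_num)
    (fun r => by split_ifs <;> norm_num)
  obtain ⟨⟨V', hV'⟩, -, -⟩ := h3 α z (2 * K) Y hα0 hα1 hzpos hz1 (by linarith) hY
  have hdec := decomp h4 hα0 hα1 hz1 hK0 hY hV (g₁ := glow) (g₂ := gM M)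
    (g₃ := fun r => if M < r then 1 else 0) (by
      intro r
      unfold glow gM
      by_cases a1 : r ≤ 3
      · rw [if_pos a1, if_neg (by omega), if_neg (by omega)]; norm_num
      · by_cases a2 : r ≤ M
        · rw [if_neg a1, if_pos (by omega), if_neg (by omega)]; norm_num
        · rw [if_neg a1, if_neg (by omega), if_pos (by omega)]; norm_num) hl hu hw d r t ht0
  have hlow := h1 α z K Y l hα0 hα1 hzpos hz1 hK32 hY hl d r t hd ht0
  have hhigh := high h5 hα0 hα1 hz1 hK0 hY hV' hw d r t ht0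
  have hV'B := hVB z Y V' tM hzz0 hz1 hY hV' htM hYtM d t hd hdN ht0 htt
  -- w ≤ 1/4
  have hw4 : w d r t ≤ 1 / 4 := by
    have e1 : (2 : ℝ) ^ r ≤ 2 ^ N := pow_le_pow_right₀ (by norm_num) hrN
    have e2 : (2 : ℝ) ^ M1 ≤ 2 ^ M := pow_le_pow_right₀ (by norm_num) hMM
    have e3 := (hV'.pos d t ht0).le
    have e4 : (2 : ℝ) ^ r / 2 ^ M * V' d t ≤ 2 ^ N * B / 2 ^ M := by
      rw [div_mul_eq_mul_div]
      apply div_le_div_of_nonneg_right _ (by positivity)
      exact mul_le_mul e1 hV'B e3 (by positivity)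
    have e5 : 2 ^ N * B / 2 ^ M ≤ 1 / 4 := by
      rw [div_le_iff₀ (by positivity)]
      linarith
    linarith
  -- lower bound of V
  obtain ⟨hD1, hbig⟩ := hbeat K hKb
  set D := DK α K with hD
  have hD0 : 0 < D := by linarith
  have hV1 : Real.exp (c3 * D) ≤ V 1 tM := hgrow K z Y V tM hKg hz2 hz1 hY hV htM1 hYtM
  have hmono : ∀ k, 1 ≤ k → V 1 tM ≤ V k tM := by
    have h := (h8 α z K Y V hα0 hα1 hzpos hz1 (by linarith) hY hV tM htM
      (by rw [hYtM]; linarith) tM htM le_rfl).2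
    intro k hk
    induction k, hk using Nat.le_induction with
    | base => exact le_rfl
    | succ k hk ih => exact ih.trans (h k hk).1
  have hlowV := V_lower hY hz1 hK0 hV d htM htMt
  have hVd := hmono d hd
  have hLK : Real.log D = LK α K := by
    rw [hD, DK, LK, Real.log_rpow (by linarith)]
    ring
  have hexp : (D ^ (2 * N))⁻¹ ≤ Real.exp (-(lam α d * (t - tM))) := by
    have e1 : D ^ (2 * N) = Real.exp ((2 * N : ℕ) * Real.log D) := by
      rw [Real.exp_nat_mul, Real.exp_log hD0]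
    rw [e1, ← Real.exp_neg]
    apply Real.exp_le_exp.2
    rw [neg_le_neg_iff, hLK]
    have e2 : lam α d ≤ N := by
      unfold lam
      have e3 : (1 : ℝ) ≤ d := by exact_mod_cast hd
      have e4 := Real.rpow_le_rpow_of_exponent_le e3 hα1.le
      rw [Real.rpow_one] at e4
      exact e4.trans (by exact_mod_cast hdN)
    have e3 : t - tM ≤ 2 * LK α K := by linarith
    have e4 : 0 ≤ LK α K := by rw [← hLK]; exact Real.log_nonneg hD1
    have e5 := lam_nonneg α d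
    push_cast
    calc lam α d * (t - tM) ≤ N * (2 * LK α K) :=
          mul_le_mul e2 e3 (by linarith) (by positivity)
      _ = 2 * N * LK α K := by ring
  have hVbig : 16 * (9 * (1 + N)) ^ 3 * D ^ 3 ≤ V d t := by
    calc (16 * (9 * (1 + N)) ^ 3 * D ^ 3 : ℝ)
        = (D ^ (2 * N))⁻¹ * (16 * (9 * (1 + N)) ^ 3 * D ^ (2 * N + 3)) := by
          rw [pow_add]
          field_simp
      _ ≤ (D ^ (2 * N))⁻¹ * Real.exp (c3 * D) := by gcongr
      _ ≤ Real.exp (-(lam α d * (t - tM))) * V d tM :=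
          mul_le_mul hexp (hV1.trans hVd) (by positivity) (by positivity)
      _ ≤ V d t := hlowV
  have hNn : (0 : ℝ) ≤ N := by positivity
  have hV1' : 1 ≤ V d t := by
    refine le_trans ?_ hVbig
    have e1 : (1 : ℝ) ≤ D ^ 3 := one_le_pow₀ hD1
    have e2 : (1 : ℝ) ≤ (9 * (1 + N)) ^ 3 := one_le_pow₀ (by linarith)
    nlinarith
  have hl4 : l d r t ≤ V d t / 4 := by
    refine hlow.trans ?_
    have e1 : (d : ℝ) / D ≤ N := by
      rw [div_le_iff₀ hD0]
      have : (d : ℝ) ≤ N := by exact_mod_cast hdN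
      nlinarith
    have e2 : (1 + 8 * D) * (1 + (d : ℝ) / D) ≤ 9 * D * (1 + N) := by
      apply mul_le_mul _ _ (by positivity) (by positivity) <;> linarith
    have e3 : ((1 + 8 * D) * (1 + (d : ℝ) / D)) ^ 3 ≤ (9 * D * (1 + N)) ^ 3 := by gcongr
    have e4 : (9 * D * (1 + N)) ^ 3 = (9 * (1 + N)) ^ 3 * D ^ 3 := by ring
    rw [e4] at e3
    linarith
  linarith

end Pool.Agent.TH89.J2252
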