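import Pool.Agent.TH981.SD.Stm

/-!
# Assembly: systems satisfying all facts exist (job 2254 of helper981)
-/

set_option autoImplicit false

open Pool.Agent.TH981.SD
open Finset Set Filter
open scoped BigOperators Topology Classical

namespace Pool.Agent.TH89.J2254

theorem bet_pos {α : ℝ} (h0 : 0 < α) (h1 : α < 1) : 0 < bet α := by
  unfold bet
  have h2 : (1 : ℝ) < (2 : ℝ) ^ α := Real.one_lt_rpow (by norm_num) h0
  have h3 : (2 : ℝ) ^ α < 2 := by
    have := Real.rpow_lt_rpow_of_exponent_lt (x := 2) (by norm_num) h1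
    rwa [Real.rpow_one] at this
  apply div_pos <;> linarith

theorem bet_lt {α : ℝ} (h0 : 0 < α) (h1 : α < 1) : 1 + bet α < 1 / (1 - α) := by
  have h3 : (2 : ℝ) ^ α < 1 + α := by
    have := rpow_one_add_lt_one_add_mul_self (s := 1) (by norm_num) (by norm_num) h0 h1
    norm_num at this
    exact this
  have h4 : 1 + bet α = 1 / (2 - (2 : ℝ) ^ α) := by
    unfold bet
    have : (2 : ℝ) - (2 : ℝ) ^ α ≠ 0 := by linarith
    field_simp
    ring
  rw [h4]
  exact one_div_lt_one_div_of_lt (by linarith) (by linarith)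

theorem cont_of {f : ℝ → ℝ} {f' : ℝ → ℝ}
    (h : ∀ t, 0 ≤ t → HasDerivWithinAt f (f' t) (Set.Ici 0) t) : ContinuousOn f (Set.Ici 0) :=
  fun t ht => (h t ht).continuousWithinAt

/-- linear equations of first order -/
theorem ode (f g : ℝ → ℝ) (hf : ContinuousOn f (Set.Ici 0)) (hg : ContinuousOn g (Set.Ici 0))
    (hg0 : ∀ t, 0 ≤ t → 0 ≤ g t) : ∃ Z : ℝ → ℝ, Z 0 = 0 ∧
      (∀ t, 0 ≤ t → HasDerivWithinAt Z (f t * Z t + g t) (Set.Ici 0) t) ∧
      (∀ t, 0 ≤ t → 0 ≤ Z t) := by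
  have hmax : Continuous fun t : ℝ => max t 0 := continuous_id.max continuous_const
  have hf' : Continuous fun t : ℝ => f (max t 0) :=
    hf.comp_continuous hmax fun t => Set.mem_Ici.2 (le_max_right _ _)
  have hg' : Continuous fun t : ℝ => g (max t 0) :=
    hg.comp_continuous hmax fun t => Set.mem_Ici.2 (le_max_right _ _)
  set M : ℝ → ℝ := fun t => ∫ s in (0:ℝ)..t, f (max s 0) with hM
  have hMd : ∀ t, HasDerivAt M (f (max t 0)) t := fun t =>
    (hf'.integral_hasStrictDerivAt 0 t).hasDerivAt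
  have hMc : Continuous M := continuous_iff_continuousAt.2 fun t => (hMd t).continuousAt
  have hh : Continuous fun t : ℝ => Real.exp (-M t) * g (max t 0) :=
    (Real.continuous_exp.comp hMc.neg).mul hg'
  set I : ℝ → ℝ := fun t => ∫ s in (0:ℝ)..t, Real.exp (-M s) * g (max s 0) with hI
  have hId : ∀ t, HasDerivAt I (Real.exp (-M t) * g (max t 0)) t := fun t =>
    (hh.integral_hasStrictDerivAt 0 t).hasDerivAt
  refine ⟨fun t => Real.exp (M t) * I t, ?_, ?_, ?_⟩
  · simp [hI]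
  · intro t ht
    refine (((hMd t).exp.mul (hId t)).congr_deriv ?_).hasDerivWithinAt
    rw [max_eq_left ht]
    have : Real.exp (M t) * Real.exp (-M t) = 1 := by
      rw [← Real.exp_add, add_neg_cancel, Real.exp_zero]
    linear_combination g t * this
  · intro t ht
    apply mul_nonneg (Real.exp_pos _).le
    apply intervalIntegral.integral_nonneg ht
    intro s hs
    exact mul_nonneg (Real.exp_pos _).le (hg0 _ (le_max_right _ _))

section Y

variable {α z : ℝ} {Y : ℕ → ℝ → ℝ} (hY : IsY α z Y) (hz : z < 1)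

include hY

theorem Y_cont (d : ℕ) : ContinuousOn (Y d) (Set.Ici 0) := cont_of (hY.deriv d)

theorem m1_cont : ContinuousOn (m1 Y) (Set.Ici 0) := by
  unfold m1
  exact (Y_cont hY 1).mul (continuousOn_const.sub (Y_cont hY 2))

include hz

theorem m1_nonneg {t : ℝ} (ht : 0 ≤ t) : 0 ≤ m1 Y t := by
  unfold m1
  have h1 := hY.pos 1 t ht
  have h2 := hY.le 2 t ht
  exact mul_nonneg h1.le (by linarith)

end Y

/-- thresholds for the exponents -/
theorem rpow_ge {K g x : ℝ} (hx : 2 ≤ x) (hK : x ^ 2 ≤ K) (hg : 1 / 2 ≤ g) : x ≤ K ^ g := by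
  have hK1 : 1 ≤ K := by nlinarith
  calc x = (x ^ 2) ^ ((1 : ℝ) / 2) := by
        rw [← Real.sqrt_eq_rpow, Real.sqrt_sq (by linarith)]
    _ ≤ K ^ ((1 : ℝ) / 2) := Real.rpow_le_rpow (by positivity) hK (by norm_num)
    _ ≤ K ^ g := Real.rpow_le_rpow_of_exponent_le hK1 hg

theorem DK_rpow {α K g : ℝ} (hK : 0 ≤ K) : DK α (K ^ g) = DK α K ^ g := by
  unfold DK
  rw [← Real.rpow_mul hK, ← Real.rpow_mul hK, mul_comm]

theorem LK_rpow {α K g : ℝ} (hK : 0 < K) : LK α (K ^ g) = g * LK α K := by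
  unfold LK
  rw [Real.log_rpow hK]
  ring

theorem facts (h1 : S_YEX) (h2 : S_YF) (h3 : S_TM) (h4 : S_LIN) (h5 : S_VEX) (h6 : S_EARLY)
    (h7 : S_RATIO) (h8 : S_HK) (h9 : S_MARKS) (h10 : S_CAPM) (h11 : S_MONO) : S_FACTS := by
  intro α e0 ep N j hP
  obtain ⟨ha0, ha1, hN3, hj1, hjN, he0, he0le, hep, heple⟩ := hP
  have hN3' : (3 : ℝ) ≤ N := by exact_mod_cast hN3
  have he0s : e0 ≤ 1 / 9000 := by
    refine he0le.trans ?_
    rw [div_le_div_iff₀ (by positivity) (by norm_num)]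
    nlinarith
  have hq0 : (0 : ℝ) < 1 / (16 * (N : ℝ)) := by positivity
  have hq1 : 1 / (16 * (N : ℝ)) ≤ 1 := by
    rw [div_le_one (by positivity)]
    linarith
  have heps : ep ≤ e0 := by
    refine heple.trans ?_
    rw [div_le_iff₀ (by positivity)]
    have e1 : (1 / (16 * (N : ℝ))) ^ N ≤ 1 := pow_le_one₀ hq0.le hq1
    have e2 : (1 : ℝ) ≤ 1000 * (N : ℝ) ^ 2 := by nlinarith
    calc e0 * (1 / (16 * (N : ℝ))) ^ N ≤ e0 * 1 := mul_le_mul_of_nonneg_left e1 he0.le
      _ ≤ e0 * (1000 * (N : ℝ) ^ 2) := mul_le_mul_of_nonneg_left e2 he0.le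
  set gm : Fin j → ℝ := fun i =>
    1 - (if i.val = 0 then 0 else e0 * (1 / (16 * (N : ℝ))) ^ i.val) with hgm
  have hgm1 : ∀ i, gm i ≤ 1 := by
    intro i
    simp only [hgm]
    split_ifs
    · norm_num
    · have : 0 < e0 * (1 / (16 * (N : ℝ))) ^ i.val := by positivity
      linarith
  have hgm2 : ∀ i, 1 - e0 ≤ gm i := by
    intro i
    simp only [hgm]
    split_ifs
    · linarith
    · have e1 : (1 / (16 * (N : ℝ))) ^ i.val ≤ 1 := pow_le_one₀ hq0.le hq1
      have := mul_le_mul_of_nonneg_left e1 he0.le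
      linarith
  have hgm3 : ∀ i, 1 / 2 ≤ gm i := fun i => by linarith [hgm2 i]
  have hbet := bet_pos ha0 ha1
  have hbet2 := bet_lt ha0 ha1
  obtain ⟨e1', he1', Kh, hKh2, hHK⟩ := h8 α ep N ha0 ha1 hep (by linarith)
  obtain ⟨Kr, hKr2, hR⟩ := h7 α ep ha0 ha1 hep
  obtain ⟨Kc, hKc2, hC⟩ := h10 α N ha0 ha1
  obtain ⟨C1, hC1, hE⟩ := h6 α ha0 ha1
  obtain ⟨Ke, hKe⟩ : ∃ Ke : ℝ, ∀ K, 32 ≤ K → Ke ≤ K →
      2 * Real.exp ((1 + bet α) * (Real.log K + C1)) < 2 ^ (j + 6) * DK α K := by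
    set δ := 1 / (1 - α) - (1 + bet α) with hδ
    have hδ0 : 0 < δ := by rw [hδ]; linarith
    refine ⟨Real.exp ((1 + bet α) * C1 / δ) + 1, fun K hK32 hK => ?_⟩
    have hK0 : 0 < K := by linarith
    have e1 : (1 + bet α) * C1 / δ < Real.log K := by
      rw [Real.lt_log_iff_exp_lt hK0]
      linarith
    rw [div_lt_iff₀ hδ0] at e1
    have e2 : DK α K = Real.exp (Real.log K * (1 / (1 - α))) := by
      unfold DK
      rw [Real.rpow_def_of_pos hK0]
    have e3 : (1 + bet α) * (Real.log K + C1) < Real.log K * (1 / (1 - α)) := by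
      have : Real.log K * (1 / (1 - α)) = Real.log K * δ + (1 + bet α) * Real.log K := by
        rw [hδ]; ring
      rw [this]
      linarith
    have e4 := Real.exp_lt_exp.2 e3
    rw [← e2] at e4
    have e5 : (2 : ℝ) ≤ 2 ^ (j + 6) := by
      calc (2 : ℝ) = 2 ^ 1 := by norm_num
        _ ≤ 2 ^ (j + 6) := pow_le_pow_right₀ (by norm_num) (by omega)
    have e6 : 0 < DK α K := by rw [e2]; exact Real.exp_pos _
    nlinarith
  refine ⟨e1' / 2, by positivity, max (max (max (Kh ^ 2) (Kr ^ 2)) (Kc ^ 2)) (max Ke 32), ?_, ?_⟩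
  · exact (by norm_num : (2 : ℝ) ≤ 32).trans ((le_max_right _ _).trans (le_max_right _ _))
  intro K hK
  have hK32 : 32 ≤ K := ((le_max_right _ _).trans (le_max_right _ _)).trans hK
  have hKKe : Ke ≤ K := ((le_max_left _ _).trans (le_max_right _ _)).trans hK
  have hKKc : Kc ^ 2 ≤ K := ((le_max_right _ _).trans (le_max_left _ _)).trans hK
  have hKKr : Kr ^ 2 ≤ K :=
    ((le_max_right _ _).trans ((le_max_left _ _).trans (le_max_left _ _))).trans hK
  have hKKh : Kh ^ 2 ≤ K :=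
    ((le_max_left _ _).trans ((le_max_left _ _).trans (le_max_left _ _))).trans hK
  have hK0 : 0 < K := by linarith
  have hearly := hKe K hK32 hKKe
  -- thresholds in z
  choose zr hzr1 hzr2 hzr using fun i => hR (K ^ gm i) (rpow_ge hKr2 hKKr (hgm3 i))
  choose zh hzh1 hzh2 hzh using fun i => hHK (K ^ gm i) (rpow_ge hKh2 hKKh (hgm3 i))
  choose zc hzc1 hzc2 Mc hzc using fun i => hC (K ^ gm i) (rpow_ge hKc2 hKKc (hgm3 i))
  have : Nonempty (Fin j) := ⟨⟨0, hj1⟩⟩
  obtain ⟨i0, hi0⟩ := Finite.exists_max fun i => max (zr i) (max (zh i) (zc i))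
  obtain ⟨i1, hi1⟩ := Finite.exists_max fun i => Mc i
  set E : ℝ := Real.exp ((1 + bet α) * (Real.log K + C1)) with hEdef
  have hE0 : 0 < E := Real.exp_pos _
  have hE1 : E / (1 + E) < 1 := by
    rw [div_lt_one (by linarith)]
    linarith
  set D := DK α K with hD
  have hD1 : 1 ≤ D := by
    rw [hD, DK]
    apply Real.one_le_rpow (by linarith)
    apply div_nonneg zero_le_one (by linarith)
  have hD0 : 0 < D := by linarith
  refine ⟨max (max (zr i0) (max (zh i0) (zc i0))) (max (1 - 1 / (2 ^ (j + 6) * D)) (E / (1 + E))),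
    ?_, ?_, Mc i1, ?_⟩
  · exact lt_of_lt_of_le (hzr1 i0) ((le_max_left _ _).trans (le_max_left _ _))
  · refine max_lt (max_lt (hzr2 i0) (max_lt (hzh2 i0) (hzc2 i0))) (max_lt ?_ hE1)
    have : 0 < 1 / (2 ^ (j + 6) * D) := by positivity
    linarith
  intro z hz0 hz1
  have hzi : ∀ i, max (zr i) (max (zh i) (zc i)) < z := fun i =>
    lt_of_le_of_lt ((hi0 i).trans (le_max_left _ _)) hz0
  have hzzr : ∀ i, zr i < z := fun i => lt_of_le_of_lt (le_max_left _ _) (hzi i)
  have hzzh : ∀ i, zh i < z := fun i =>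
    lt_of_le_of_lt ((le_max_left _ _).trans (le_max_right _ _)) (hzi i)
  have hzzc : ∀ i, zc i < z := fun i =>
    lt_of_le_of_lt ((le_max_right _ _).trans (le_max_right _ _)) (hzi i)
  have hzD : 1 - 1 / (2 ^ (j + 6) * D) < z :=
    lt_of_le_of_lt ((le_max_left _ _).trans (le_max_right _ _)) hz0
  have hzE : E / (1 + E) < z :=
    lt_of_le_of_lt ((le_max_right _ _).trans (le_max_right _ _)) hz0
  have hz2 : 1 / 2 < z := (hzr1 i0).trans (hzzr i0)
  have hzp : 0 < z := by linarith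
  obtain ⟨Y, hY⟩ := h1 α z ha0 ha1 hzp hz1
  obtain ⟨-, -, -, -, -, hanti, -⟩ := h2 α z Y ha0 ha1 hzp hz1 hY
  obtain ⟨⟨tM, htM0, htM⟩, hTM⟩ := h3 α z Y ha0 ha1 hz2 hz1 hY
  obtain ⟨hTM1, -, hTM3⟩ := hTM tM htM0.le htM
  have hKv0 : ∀ i, 0 < K ^ gm i := fun i => Real.rpow_pos_of_pos hK0 _
  have hKvK : ∀ i, K ^ gm i ≤ K := by
    intro i
    calc K ^ gm i ≤ K ^ (1 : ℝ) := Real.rpow_le_rpow_of_exponent_le (by linarith) (hgm1 i)
      _ = K := Real.rpow_one K
  have hKv2 : ∀ i, 2 ≤ K ^ gm i := fun i => rpow_ge le_rfl (by linarith) (hgm3 i)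
  choose V hV using fun i => (h5 α z (K ^ gm i) Y ha0 ha1 hzp hz1 (hKv0 i).le hY).1
  have hlin : ∀ (i : Fin j) (g : ℕ → ℝ), (∀ r, 0 ≤ g r) → (∀ r, g r ≤ 1) →
      ∃ u, IsHub α Y (K ^ gm i) g u := by
    intro i g hg0 hg1
    exact (h4 α (Y 1) (fun t => K ^ gm i * m1 Y t) g ha0 ha1 (Y_cont hY 1)
      (continuousOn_const.mul (m1_cont hY)) (fun t ht => (hY.pos 1 t ht).le)
      (fun t ht => mul_nonneg (hKv0 i).le (m1_nonneg hY hz1 ht)) hg0 hg1).1
  choose u hu using fun i => hlin i g4 (fun r => by unfold g4; split_ifs <;> norm_num)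
    (fun r => by unfold g4; split_ifs <;> norm_num)
  choose uM huM using fun i => hlin i (gM (Mc i1)) (fun r => by unfold gM; split_ifs <;> norm_num)
    (fun r => by unfold gM; split_ifs <;> norm_num)
  -- the time a1
  have hhc : ContinuousOn (fun t => (2 : ℝ) ^ (j + 6) * D * (1 - Y 1 t)) (Set.Ici 0) :=
    continuousOn_const.mul (continuousOn_const.sub (Y_cont hY 1))
  have hpw : (1 : ℝ) ≤ 2 ^ (j + 5) := one_le_pow₀ (by norm_num)
  have hpw6 : (2 : ℝ) ^ (j + 6) = 2 * 2 ^ (j + 5) := by rw [pow_succ]; ring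
  have hmono : ∀ s t, 0 ≤ s → s ≤ t →
      (2 : ℝ) ^ (j + 6) * D * (1 - Y 1 s) ≤ (2 : ℝ) ^ (j + 6) * D * (1 - Y 1 t) := by
    intro s t hs hst
    have := hanti 1 (Set.mem_Ici.2 hs) (Set.mem_Ici.2 (hs.trans hst)) hst
    have h0 : 0 ≤ (2 : ℝ) ^ (j + 6) * D := by positivity
    exact mul_le_mul_of_nonneg_left (by linarith) h0
  obtain ⟨a1, ⟨ha1nn, ha1le⟩, ha1e⟩ : ∃ a1 ∈ Set.Icc 0 tM,
      (2 : ℝ) ^ (j + 6) * D * (1 - Y 1 a1) = 1 := by
    have := intermediate_value_Icc htM0.le (hhc.mono Set.Icc_subset_Ici_self)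
    apply this
    constructor
    · simp only [hY.init]
      have e1 : 1 - z < 1 / (2 ^ (j + 6) * D) := by linarith
      rw [lt_div_iff₀ (by positivity)] at e1
      linarith
    · simp only [htM]
      rw [hpw6]
      nlinarith
  have htM_large : Real.log K + C1 ≤ tM := by
    have e1 : E < z / (1 - z) := by
      rw [div_lt_iff₀ (by linarith)] at hzE
      rw [lt_div_iff₀ (by linarith)]
      linarith
    have e2 : (1 + bet α) * (Real.log K + C1) < Real.log (z / (1 - z)) := by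
      have := Real.log_lt_log hE0 e1
      rwa [hEdef, Real.log_exp] at this
    have e3 : (1 + bet α) * (Real.log K + C1) < (1 + bet α) * tM := by linarith
    exact (lt_of_mul_lt_mul_left e3 (by linarith)).le
  have ha1early : a1 ≤ tM - Real.log K - C1 := by
    by_contra hcon
    push Not at hcon
    have hlogK : 0 ≤ Real.log K := Real.log_nonneg (by linarith)
    obtain ⟨e1, -⟩ := hTM3 (tM - Real.log K - C1) (by linarith) (by linarith)
    have e2 := hmono (tM - Real.log K - C1) a1 (by linarith) hcon.le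
    rw [ha1e] at e2
    have e3 : Real.exp ((1 + bet α) * (tM - Real.log K - C1 - tM)) = E⁻¹ := by
      rw [hEdef, ← Real.exp_neg]
      congr 1
      ring
    rw [e3] at e1
    have e4 : (2 : ℝ) ^ (j + 6) * D * (E⁻¹ / 2) ≤ 1 :=
      (mul_le_mul_of_nonneg_left e1 (by positivity)).trans e2
    have e5 : (2 : ℝ) ^ (j + 6) * D * (E⁻¹ / 2) = (2 : ℝ) ^ (j + 6) * D / (2 * E) := by
      field_simp
    rw [e5, div_le_one (by positivity)] at e4
    linarith
  -- the system
  let s0 : Sys j := ⟨α, z, K, e0, ep, e1' / 2, tM, a1, N, Mc i1, Y, V, u, uM,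
    fun _ _ => 0, fun _ => 0⟩
  have hccC : ContinuousOn (fun t => cc Y K t) (Set.Ici 0) := by
    unfold cc
    exact (Y_cont hY 1).add (continuousOn_const.mul (m1_cont hY))
  have hVc : ∀ i d, ContinuousOn (V i d) (Set.Ici 0) := fun i d => cont_of ((hV i).deriv d)
  have hAmC : ContinuousOn s0.Am (Set.Ici 0) := by
    unfold Sys.Am
    exact continuous_min.comp_continuousOn (hhc.prodMk continuousOn_const)
  have hAm0 : ∀ t, 0 ≤ t → 0 ≤ s0.Am t := by
    intro t ht
    unfold Sys.Am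
    apply le_min _ zero_le_one
    have := hY.le 1 t ht
    have h0 : 0 ≤ (2 : ℝ) ^ (j + 6) * D := by positivity
    exact mul_nonneg h0 (by show (0:ℝ) ≤ 1 - Y 1 t; linarith)
  have hmuC : ContinuousOn s0.mu (Set.Ici 0) := by
    unfold Sys.mu
    exact continuousOn_const.mul hccC
  have hx4C : ∀ i, ContinuousOn (s0.x4 i) (Set.Ici 0) := by
    intro i
    unfold Sys.x4
    exact (continuousOn_const.mul (hAmC.pow 4)).mul (hVc i 1)
  have hx3C : ∀ i, ContinuousOn (s0.x3 i) (Set.Ici 0) := by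
    intro i
    unfold Sys.x3
    exact (continuousOn_const.mul (hAmC.pow 3)).mul (hVc i 1)
  have hx40 : ∀ i t, 0 ≤ t → 0 ≤ s0.x4 i t := by
    intro i t ht
    unfold Sys.x4
    have e1 := hAm0 t ht
    have e2 : 0 < s0.V i 1 t := (hV i).pos 1 t ht
    positivity
  have hx30 : ∀ i t, 0 ≤ t → 0 ≤ s0.x3 i t := by
    intro i t ht
    unfold Sys.x3
    have e1 := hAm0 t ht
    have e2 : 0 < s0.V i 1 t := (hV i).pos 1 t ht
    positivity
  have hkap : 0 ≤ s0.kap := by
    unfold Sys.kap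
    have : 0 ≤ s0.D := hD0.le
    positivity
  choose Z hZ0 hZd hZn using fun i => ode s0.mu (fun t => s0.kap * s0.x4 i t) hmuC
    (continuousOn_const.mul (hx4C i)) (fun t ht => mul_nonneg hkap (hx40 i t ht))
  have hZc : ∀ i, ContinuousOn (Z i) (Set.Ici 0) := fun i => cont_of (hZd i)
  have hYne : ∀ t, 0 ≤ t → 0 < 1 - Y 1 t := fun t ht => by linarith [hY.le 1 t ht]
  obtain ⟨Eh, hE0', hEd, hEn⟩ := ode (fun _ => 0) (fun t => (1 + K) * (32 / (1 - Y 1 t) ^ 2) *
    ∑ w, s0.x3 w t * ∏ l ∈ Finset.univ.erase w, Z l t) continuousOn_const (by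
      refine ContinuousOn.mul (continuousOn_const.mul (ContinuousOn.div continuousOn_const
        ((continuousOn_const.sub (Y_cont hY 1)).pow 2) fun t ht => ?_)) ?_
      · exact pow_ne_zero _ (hYne t ht).ne'
      · apply continuousOn_finsetSum
        intro w _
        apply (hx3C w).mul
        apply continuousOn_finsetProd
        intro l _
        exact hZc l) (by
      intro t ht
      have e1 := hYne t ht
      apply mul_nonneg (by positivity)
      apply Finset.sum_nonneg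
      intro w _
      apply mul_nonneg (hx30 w t ht)
      apply Finset.prod_nonneg
      intro l _
      exact hZn l t ht)
  refine ⟨⟨α, z, K, e0, ep, e1' / 2, tM, a1, N, Mc i1, Y, V, u, uM, Z, Eh⟩,
    rfl, rfl, rfl, rfl, rfl, rfl, rfl, rfl, ?_⟩
  have hLK0 : 0 ≤ LK α K := by
    unfold LK
    exact div_nonneg (Real.log_nonneg (by linarith)) (by linarith)
  refine
    { par := ⟨ha0, ha1, hN3, hj1, hjN, he0, he0le, hep, heple, by positivity, by
        show (2 : ℝ) ≤ K; linarith⟩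
      z2 := hz2
      z1 := hz1
      hY := hY
      tMpos := htM0
      htM := htM
      hV := hV
      hu := hu
      huM := huM
      ratio := ?_
      grow := ?_
      late := ?_
      a1nn := ha1nn
      a1le := ha1le
      a1A := fun t ht htt => (hmono t a1 ht htt).trans_eq ha1e
      a1B := fun t htt => ha1e.symm.le.trans (hmono a1 t ha1nn htt)
      early := ?_
      marks := ?_
      capM := ?_
      Z0 := hZ0
      Zd := fun i t ht => hZd i t ht
      Znn := hZn
      E0 := hE0'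
      Ed := fun t ht => by
        have := hEd t ht
        rw [zero_mul, zero_add] at this
        exact this
      Enn := hEn }
  · intro i d t hd ht
    have := hzr i z Y (V i) (hzzr i) hz1 hY (hV i) d t hd ht
    rw [DK_rpow hK0.le] at this
    exact this
  · intro i k t hk hkN ht htt
    have := ((hzh i z Y (V i) tM (hzzh i) hz1 hY (hV i) htM0.le htM k hk hkN).1 t ht (by
      rw [LK_rpow hK0]
      exact htt))
    refine le_trans (mul_le_mul_of_nonneg_right ?_ ((hV i).pos k t (htM0.le.trans ht)).le) this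
    rw [DK_rpow hK0.le, ← Real.rpow_mul hD0.le]
    apply Real.rpow_le_rpow_of_exponent_le hD1
    nlinarith [hgm3 i]
  · intro i k t hk hkN ht
    have := ((hzh i z Y (V i) tM (hzzh i) hz1 hY (hV i) htM0.le htM k hk hkN).2 t (by
      rw [LK_rpow hK0]
      exact ht))
    rw [LK_rpow hK0] at this
    exact this
  · intro i d t hd ht htt
    refine (hE (K ^ gm i) z Y (V i) tM (hKv2 i) hz2 hz1 hY (hV i) htM0.le htM t ht ?_).2 d hd
    have e1 : Real.log (K ^ gm i) ≤ Real.log K := Real.log_le_log (hKv0 i) (hKvK i)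
    have e2 : t ≤ a1 := htt
    linarith
  · intro i d r t hd ht
    refine h9 α z (K ^ gm i) K (2 ^ (j + 6)) a1 Y (V i) (u i) ha0 ha1 hzp hz1 (hKv0 i).le
      (hKvK i) hK32 ?_ ha1nn hY (hV i) (hu i) (fun t ht htt => (hmono t a1 ht htt).trans_eq ha1e)
      ?_ (fun t htt => ha1e.symm.le.trans (hmono a1 t ha1nn htt)) d r t hd ht
    · calc (8 : ℝ) = 2 ^ 3 := by norm_num
        _ ≤ 2 ^ (j + 6) := pow_le_pow_right₀ (by norm_num) (by omega)
    · intro d t hd ht htt
      refine (hE (K ^ gm i) z Y (V i) tM (hKv2 i) hz2 hz1 hY (hV i) htM0.le htM t ht ?_).2 d hd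
      have e1 : Real.log (K ^ gm i) ≤ Real.log K := Real.log_le_log (hKv0 i) (hKvK i)
      linarith
  · intro i d r t hd hdN hrN ht htt
    refine hzc i (Mc i1) (hi1 i) z Y (V i) (uM i) tM (hzzc i) hz1 hY (hV i) (huM i) htM0.le htM
      d r t hd hdN hrN ht ?_
    rw [LK_rpow hK0]
    have e1 : t ≤ tM + (1 + ep) * LK α K := htt
    have e2 : (1 + ep) * LK α K ≤ 2 * (gm i * LK α K) := by
      have e3 : 1 + ep ≤ 2 * gm i := by linarith only [hgm2 i, heps, he0s]
      have e4 := mul_le_mul_of_nonneg_right e3 hLK0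
      linarith only [e4]
    linarith only [e1, e2]

end Pool.Agent.TH89.J2254
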