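import Pool.Agent.TH89.J3416
import Pool.Agent.TH928.J3413

/-!
The final form disint of job 3416: the fibre inequality is supplied by TH928.J3413.
-/

set_option autoImplicit false

namespace Pool.Agent.TH89.GVE

open Finset MeasureTheory Pool.Agent.TH598.GV
open scoped ComplexConjugate ComplexOrder

theorem disint {K P : Type} [Fintype K] [DecidableEq K] [Fintype P] [DecidableEq P]
    (L : Matrix (K ⊕ P) (K ⊕ P) ℂ) (hL : IsUnit L.det)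
    (D : (P → ℂ) →ₗ[ℂ] Matrix K K ℂ) (hD : ∃ x, (D x).det ≠ 0)
    (F : (K ⊕ P → ℂ) → ℝ) (hFc : Continuous F) (hF : Integrable fun ξ => F ξ * gw ξ)
    (fib : ∀ u : K → ℂ, ∃ (q : MvPolynomial P ℂ) (v : P → ℂ) (Γ : ℝ),
      -(∑ s, ‖(L⁻¹.mulVec (zu D u v)) s‖ ^ 2) ≤ Γ ∧
      ∀ x, F (L⁻¹.mulVec (zu D u x)) = ‖MvPolynomial.eval x q‖ ^ 2 *
        (‖∑ s, (L⁻¹.mulVec (zu D u x)) s * conj ((L⁻¹.mulVec (zu D u v)) s)‖ ^ 2 + Γ)) :
    0 ≤ ∫ ξ : K ⊕ P → ℂ, F ξ * gw ξ :=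
  disint_fib (fun N hN Q v G h => Pool.Agent.TH928.GV.fibre N hN Q v G h) L hL D hD F hFc hF fib

end Pool.Agent.TH89.GVE
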