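import Pool.Agent.TH490.StmP

set_option autoImplicit false

namespace Pool.Agent.TH89.MP325

open Finset Classical Pool.Agent.TH490

noncomputable section

/-- sum over `f` of the number of injective tuples with `T` -/
theorem sum_tup (h1 : P1_one) (I P : Type) [Fintype I] [DecidableEq I] [Fintype P] [Nonempty P]
    (q : ℕ) (T : (Fin q → P) → Prop) :
    (∑ f : I → P, (univ.filter (fun τ : Fin q → I => Function.Injective τ ∧
        T (fun j => f (τ j)))).card) * Fintype.card P ^ q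
      ≤ Fintype.card I ^ q * (univ.filter (fun t : Fin q → P => T t)).card
          * Fintype.card P ^ Fintype.card I := by
  have e1 : ∑ f : I → P, (univ.filter (fun τ : Fin q → I => Function.Injective τ ∧
        T (fun j => f (τ j)))).card
      = ∑ τ : Fin q → I, (univ.filter (fun f : I → P => Function.Injective τ ∧
        T (fun j => f (τ j)))).card := by
    simp only [card_filter]
    rw [sum_comm]
  rw [e1, sum_mul]
  have e2 : ∀ τ : Fin q → I, (univ.filter (fun f : I → P => Function.Injective τ ∧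
        T (fun j => f (τ j)))).card * Fintype.card P ^ q
      ≤ (univ.filter (fun t : Fin q → P => T t)).card * Fintype.card P ^ Fintype.card I := by
    intro τ
    by_cases hτ : Function.Injective τ
    · rw [← h1 I P q T τ hτ]
      apply Nat.mul_le_mul_right
      apply card_le_card
      intro f hf
      simp only [mem_filter, mem_univ, true_and] at hf ⊢
      exact hf.2
    · have : (univ.filter (fun f : I → P => Function.Injective τ ∧
        T (fun j => f (τ j)))) = ∅ := by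
        apply filter_eq_empty_iff.mpr
        intro f _ hf
        exact hτ hf.1
      rw [this]
      simp
  calc _ ≤ ∑ τ : Fin q → I, (univ.filter (fun t : Fin q → P => T t)).card
          * Fintype.card P ^ Fintype.card I := sum_le_sum (fun τ _ => e2 τ)
    _ = _ := by
      rw [sum_const, card_univ, Fintype.card_fun, Fintype.card_fin, smul_eq_mul, mul_assoc]

theorem cardPos (N : ℕ) : Fintype.card (Pos N) = N ^ 3 := by
  simp [Pos]

/-- one of the nine tuple terms -/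
theorem term (h : P1_bad) (N n R q : ℕ) (hN : 1 ≤ N) (T : (Fin q → Pos N) → Prop) (c L : ℝ)
    (hq1 : 1 ≤ q) (hq : q ≤ 9) (hc : 0 ≤ c) (hR : 1 ≤ R) (hL : 1 ≤ L)
    (hn : (n : ℝ) ≤ N * L)
    (hT : ((univ.filter (fun t : Fin q → Pos N => T t)).card : ℝ)
      ≤ c * L ^ 3 * (N : ℝ) ^ (2 * q + 1) / (R : ℝ) ^ 10) :
    ∑ f : Fin n × Fin (2 * R) → Pos N, ((BadTup q T f).card : ℝ)
      ≤ (2304 * c * (L ^ 11 / R)) * (n * (2 * R)) * ((N : ℝ) ^ 3) ^ (n * (2 * R)) := by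
  have : NeZero N := ⟨by omega⟩
  have : Nonempty (Pos N) := ⟨fun _ => 0⟩
  have h0 := h (Fin n × Fin (2 * R)) (Pos N) q T
  rw [cardPos] at h0
  have hcI : Fintype.card (Fin n × Fin (2 * R)) = n * (2 * R) := by simp
  rw [hcI] at h0
  have h2 : (∑ f : Fin n × Fin (2 * R) → Pos N, ((BadTup q T f).card : ℝ)) * ((N : ℝ) ^ 3) ^ q
      ≤ q * ((n : ℝ) * (2 * R)) ^ q * ((univ.filter (fun t : Fin q → Pos N => T t)).card : ℝ)
        * ((N : ℝ) ^ 3) ^ (n * (2 * R)) := by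
    exact_mod_cast h0
  have hx : (0 : ℝ) < (N : ℝ) ^ 3 := by positivity
  have hN' : (1 : ℝ) ≤ N := by exact_mod_cast hN
  have hR' : (1 : ℝ) ≤ R := by exact_mod_cast hR
  have hm : (n : ℝ) * (2 * R) ≤ 2 * R * (N * L) := by nlinarith
  have hm0 : (0 : ℝ) ≤ (n : ℝ) * (2 * R) := by positivity
  -- key inequality
  obtain ⟨p, rfl⟩ : ∃ p, q = p + 1 := ⟨q - 1, by omega⟩
  have hp : p ≤ 8 := by omega
  set m : ℝ := (n : ℝ) * (2 * R) with hmdef
  have hkey : ((p + 1 : ℕ) : ℝ) * m ^ (p + 1) *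
        ((univ.filter (fun t : Fin (p + 1) → Pos N => T t)).card : ℝ)
      ≤ (2304 * c * (L ^ 11 / R)) * m * ((N : ℝ) ^ 3) ^ (p + 1) := by
    have hp1 : ((p + 1 : ℕ) : ℝ) ≤ 9 := by
      have : (p + 1 : ℕ) ≤ 9 := by omega
      exact_mod_cast this
    have s1 : m ^ p ≤ (2 * R * (N * L)) ^ p := pow_le_pow_left₀ hm0 hm p
    calc ((p + 1 : ℕ) : ℝ) * m ^ (p + 1) *
        ((univ.filter (fun t : Fin (p + 1) → Pos N => T t)).card : ℝ)
        ≤ 9 * (m * (2 * R * (N * L)) ^ p) *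
          (c * L ^ 3 * (N : ℝ) ^ (2 * (p + 1) + 1) / (R : ℝ) ^ 10) := by
          have : m ^ (p + 1) ≤ m * (2 * R * (N * L)) ^ p := by
            rw [pow_succ, mul_comm]
            exact mul_le_mul_of_nonneg_left s1 hm0
          gcongr
      _ = 9 * c * m * (N : ℝ) ^ (3 * (p + 1)) * (2 ^ p * (L ^ (p + 3)) * ((R : ℝ) ^ p / (R : ℝ) ^ 10)) := by
          rw [mul_pow, mul_pow, mul_pow]
          have : (N : ℝ) ^ (3 * (p + 1)) = (N : ℝ) ^ p * (N : ℝ) ^ (2 * (p + 1) + 1) := by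
            rw [← pow_add]; congr 1; ring
          rw [this, pow_add L p 3]
          ring
      _ ≤ 9 * c * m * (N : ℝ) ^ (3 * (p + 1)) * (2 ^ 8 * (L ^ 11) * (1 / R)) := by
          have a1 : (2 : ℝ) ^ p ≤ 2 ^ 8 := pow_le_pow_right₀ (by norm_num) hp
          have a2 : L ^ (p + 3) ≤ L ^ 11 := pow_le_pow_right₀ hL (by omega)
          have a3 : (R : ℝ) ^ p / (R : ℝ) ^ 10 ≤ 1 / R := by
            rw [div_le_div_iff₀ (by positivity) (by positivity), one_mul, ← pow_succ]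
            exact pow_le_pow_right₀ hR' (by omega)
          gcongr
      _ = _ := by
          rw [pow_mul]
          ring
  have hfin : (∑ f : Fin n × Fin (2 * R) → Pos N, ((BadTup (p + 1) T f).card : ℝ))
      * ((N : ℝ) ^ 3) ^ (p + 1) ≤ ((2304 * c * (L ^ 11 / R)) * m
        * ((N : ℝ) ^ 3) ^ (n * (2 * R))) * ((N : ℝ) ^ 3) ^ (p + 1) := by
    refine h2.trans ?_
    have : (0 : ℝ) ≤ ((N : ℝ) ^ 3) ^ (n * (2 * R)) := by positivity
    calc _ ≤ ((2304 * c * (L ^ 11 / R)) * m * ((N : ℝ) ^ 3) ^ (p + 1)) * ((N : ℝ) ^ 3) ^ (n * (2 * R)) :=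
          mul_le_mul_of_nonneg_right hkey this
      _ = _ := by ring
  exact le_of_mul_le_mul_right hfin (by positivity)

/-- count of tuples through the first coordinate -/
theorem count_pair {P : Type} [Fintype P] (W : P → P → Prop) (B : ℝ)
    (h : ∀ y, ((univ.filter (fun z : P => W y z)).card : ℝ) ≤ B) :
    ((univ.filter (fun t : Fin 2 → P => W (t 0) (t 1))).card : ℝ) ≤ Fintype.card P * B := by
  have e : (univ.filter (fun t : Fin 2 → P => W (t 0) (t 1))).card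
      = ∑ y : P, ((univ.filter (fun t : Fin 2 → P => W (t 0) (t 1))).filter
          (fun t => t 0 = y)).card :=
    card_eq_sum_card_fiberwise (fun t _ => mem_univ _)
  rw [e]
  push_cast
  calc _ ≤ ∑ y : P, B := by
        apply sum_le_sum
        intro y _
        refine le_trans ?_ (h y)
        norm_cast
        apply card_le_card_of_injOn (fun t => t 1)
        · intro t ht
          simp only [coe_filter, mem_filter, mem_univ, true_and, Set.mem_ofPred_eq] at ht ⊢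
          rw [← ht.2]; exact ht.1
        · intro t ht t' ht' hh
          simp only [coe_filter, mem_filter, mem_univ, true_and, Set.mem_ofPred_eq] at ht ht'
          funext i
          fin_cases i
          · exact ht.2.trans ht'.2.symm
          · exact hh
    _ = _ := by rw [sum_const, card_univ, nsmul_eq_mul]

theorem count_triple {P : Type} [Fintype P] (W : P → P → P → Prop) (B : ℝ)
    (h : ∀ y, ((univ.filter (fun z : P × P => W y z.1 z.2)).card : ℝ) ≤ B) :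
    ((univ.filter (fun t : Fin 3 → P => W (t 0) (t 1) (t 2))).card : ℝ)
      ≤ Fintype.card P * B := by
  have e : (univ.filter (fun t : Fin 3 → P => W (t 0) (t 1) (t 2))).card
      = ∑ y : P, ((univ.filter (fun t : Fin 3 → P => W (t 0) (t 1) (t 2))).filter
          (fun t => t 0 = y)).card :=
    card_eq_sum_card_fiberwise (fun t _ => mem_univ _)
  rw [e]
  push_cast
  calc _ ≤ ∑ y : P, B := by
        apply sum_le_sum
        intro y _
        refine le_trans ?_ (h y)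
        norm_cast
        apply card_le_card_of_injOn (fun t => (t 1, t 2))
        · intro t ht
          simp only [coe_filter, mem_filter, mem_univ, true_and, Set.mem_ofPred_eq] at ht ⊢
          rw [← ht.2]; exact ht.1
        · intro t ht t' ht' hh
          simp only [coe_filter, mem_filter, mem_univ, true_and, Set.mem_ofPred_eq] at ht ht'
          simp only [Prod.mk.injEq] at hh
          funext i
          fin_cases i
          · exact ht.2.trans ht'.2.symm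
          · exact hh.1
          · exact hh.2
    _ = _ := by rw [sum_const, card_univ, nsmul_eq_mul]

theorem count_quad {P : Type} [Fintype P] (W : P → P → P → P → Prop) (B : ℝ)
    (h : ∀ y, ((univ.filter (fun z : P × P × P => W y z.1 z.2.1 z.2.2)).card : ℝ) ≤ B) :
    ((univ.filter (fun t : Fin 4 → P => W (t 0) (t 1) (t 2) (t 3))).card : ℝ)
      ≤ Fintype.card P * B := by
  have e : (univ.filter (fun t : Fin 4 → P => W (t 0) (t 1) (t 2) (t 3))).card
      = ∑ y : P, ((univ.filter (fun t : Fin 4 → P => W (t 0) (t 1) (t 2) (t 3))).filter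
          (fun t => t 0 = y)).card :=
    card_eq_sum_card_fiberwise (fun t _ => mem_univ _)
  rw [e]
  push_cast
  calc _ ≤ ∑ y : P, B := by
        apply sum_le_sum
        intro y _
        refine le_trans ?_ (h y)
        norm_cast
        apply card_le_card_of_injOn (fun t => (t 1, t 2, t 3))
        · intro t ht
          simp only [coe_filter, mem_filter, mem_univ, true_and, Set.mem_ofPred_eq] at ht ⊢
          rw [← ht.2]; exact ht.1
        · intro t ht t' ht' hh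
          simp only [coe_filter, mem_filter, mem_univ, true_and, Set.mem_ofPred_eq] at ht ht'
          simp only [Prod.mk.injEq] at hh
          funext i
          fin_cases i
          · exact ht.2.trans ht'.2.symm
          · exact hh.1
          · exact hh.2.1
          · exact hh.2.2
    _ = _ := by rw [sum_const, card_univ, nsmul_eq_mul]

/-- related pairs: union bound -/
theorem badDeg_le {I : Type} [Fintype I] {N : ℕ} (M Q : ℕ) (f : I → Pos N) :
    Q * (BadDeg M Q f).card ≤ Fintype.card I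
      + (univ.filter (fun τ : Fin 2 → I => Function.Injective τ ∧
          RS M (f (τ 0)) (f (τ 1)))).card
      + (univ.filter (fun τ : Fin 4 → I => Function.Injective τ ∧
          LCop M (f (τ 0)) (f (τ 1)) (f (τ 2)) (f (τ 3)))).card := by
  have h1 : Q * (BadDeg M Q f).card
      ≤ ∑ u : I, (univ.filter (fun v => relf M f u v)).card := by
    calc Q * (BadDeg M Q f).card = ∑ u ∈ BadDeg M Q f, Q := by
          rw [sum_const, smul_eq_mul, mul_comm]
      _ ≤ ∑ u ∈ BadDeg M Q f, (univ.filter (fun v => relf M f u v)).card := by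
          apply sum_le_sum
          intro u hu
          simp only [BadDeg, mem_filter, mem_univ, true_and] at hu
          exact hu.le
      _ ≤ _ := sum_le_sum_of_subset (subset_univ _)
  have h2 : ∑ u : I, (univ.filter (fun v => relf M f u v)).card
      = (univ.filter (fun p : I × I => relf M f p.1 p.2)).card := by
    have e := card_eq_sum_card_fiberwise (s := univ.filter (fun p : I × I => relf M f p.1 p.2))
      (t := (univ : Finset I)) (f := fun p => p.1) (fun t _ => mem_univ _)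
    rw [e]
    apply sum_congr rfl
    intro u _
    apply card_bij (fun v _ => (u, v))
    · intro v hv
      simp only [mem_filter, mem_univ, true_and] at hv
      simpa using hv
    · intro v _ v' _ hh
      simpa using hh
    · rintro ⟨a, b⟩ hb
      simp only [mem_filter, mem_univ, true_and] at hb
      obtain ⟨hb, rfl⟩ := hb
      exact ⟨b, by simpa using hb, rfl⟩
  have h3 : (univ.filter (fun p : I × I => relf M f p.1 p.2)) ⊆
      ((univ : Finset I).image (fun u => (u, u)) ∪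
        (univ.filter (fun τ : Fin 2 → I => Function.Injective τ ∧
          RS M (f (τ 0)) (f (τ 1)))).image (fun τ => (τ 0, τ 1))) ∪
        (univ.filter (fun τ : Fin 4 → I => Function.Injective τ ∧
          LCop M (f (τ 0)) (f (τ 1)) (f (τ 2)) (f (τ 3)))).image (fun τ => (τ 0, τ 1)) := by
    rintro ⟨u, v⟩ huv
    simp only [mem_filter, mem_univ, true_and] at huv
    by_cases huv' : u = v
    · subst huv'
      simp
    · rcases huv with h | h | ⟨a, b, h1, h2, h3, h4, h5, h6⟩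
      · exact absurd h huv'
      · apply mem_union_left
        apply mem_union_right
        rw [mem_image]
        refine ⟨![u, v], ?_, by simp⟩
        simp only [mem_filter, mem_univ, true_and]
        refine ⟨?_, by simpa using h⟩
        intro i j hij
        fin_cases i <;> fin_cases j <;> simp_all
      · apply mem_union_right
        rw [mem_image]
        refine ⟨![u, v, a, b], ?_, by simp⟩
        simp only [mem_filter, mem_univ, true_and]
        refine ⟨?_, by simpa using h6⟩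
        have h1' := Ne.symm h1
        have h2' := Ne.symm h2
        have h3' := Ne.symm h3
        have h4' := Ne.symm h4
        have h5' := Ne.symm h5
        have h7' := Ne.symm huv'
        intro i j hij
        fin_cases i <;> fin_cases j <;> simp_all
  calc _ ≤ _ := h1
    _ = _ := h2
    _ ≤ _ := card_le_card h3
    _ ≤ _ := card_union_le _ _
    _ ≤ _ := Nat.add_le_add (card_union_le _ _) card_image_le
    _ ≤ _ := by
      have a1 : ((univ : Finset I).image (fun u => (u, u))).card ≤ Fintype.card I := by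
        rw [← card_univ]; exact card_image_le
      have a2 := card_image_le (s := univ.filter (fun τ : Fin 2 → I => Function.Injective τ ∧
          RS M (f (τ 0)) (f (τ 1)))) (f := fun τ => (τ 0, τ 1))
      omega

/-- the degree term -/
theorem degterm (h : P1_one) (N n R : ℕ) (hN : 1 ≤ N) (c₁ c₂ L : ℝ)
    (hc₁ : 0 ≤ c₁) (hc₂ : 0 ≤ c₂) (hR : 1 ≤ R) (hL : 1 ≤ L)
    (hn : (n : ℝ) ≤ N * L)
    (hrs : ∀ y : Pos N, ((univ.filter (fun z : Pos N => RS (R ^ 5) y z)).card : ℝ)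
      ≤ c₁ * (R : ℝ) ^ 10 * (N : ℝ) ^ 2)
    (hcop : ∀ y : Pos N,
      ((univ.filter (fun t : Pos N × Pos N × Pos N => Cop y t.1 t.2.1 t.2.2)).card : ℝ)
      ≤ c₂ * (N : ℝ) ^ 6 * L) :
    ∑ f : Fin n × Fin (2 * R) → Pos N, ((BadDeg (R ^ 5) (R ^ 12) f).card : ℝ)
      ≤ ((1 + 2 * c₁ + 8 * c₂) * (L ^ 11 / R)) * (n * (2 * R)) *
        ((N : ℝ) ^ 3) ^ (n * (2 * R)) := by
  have : NeZero N := ⟨by omega⟩
  have : Nonempty (Pos N) := ⟨fun _ => 0⟩
  have hx : (0 : ℝ) < (N : ℝ) := by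
    have : (1 : ℝ) ≤ N := by exact_mod_cast hN
    linarith
  have hR' : (1 : ℝ) ≤ R := by exact_mod_cast hR
  have hcI : Fintype.card (Fin n × Fin (2 * R)) = n * (2 * R) := by simp
  -- the two sums
  have s2 := sum_tup h (Fin n × Fin (2 * R)) (Pos N) 2 (fun t => RS (R ^ 5) (t 0) (t 1))
  have s4 := sum_tup h (Fin n × Fin (2 * R)) (Pos N) 4
    (fun t => LCop (R ^ 5) (t 0) (t 1) (t 2) (t 3))
  rw [hcI, cardPos] at s2 s4
  have c2 := count_pair (P := Pos N) (fun y z => RS (R ^ 5) y z) _ hrs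
  have c4 : ((univ.filter (fun t : Fin 4 → Pos N => LCop (R ^ 5) (t 0) (t 1) (t 2) (t 3))).card : ℝ)
      ≤ Fintype.card (Pos N) * (c₂ * (N : ℝ) ^ 6 * L) := by
    refine le_trans ?_ (count_quad (P := Pos N) (fun y z w v => Cop y z w v) _ hcop)
    norm_cast
    apply card_le_card
    intro t ht
    simp only [mem_filter, mem_univ, true_and] at ht ⊢
    exact ht.1
  rw [cardPos] at c2 c4
  push_cast at c2 c4
  set m : ℝ := (n : ℝ) * (2 * R) with hmdef
  have hm : m ≤ 2 * R * (N * L) := by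
    rw [hmdef]; nlinarith
  have hm0 : (0 : ℝ) ≤ m := by positivity
  set X : ℝ := ((N : ℝ) ^ 3) ^ (n * (2 * R)) with hX
  have hX0 : 0 ≤ X := by positivity
  set A : ℝ := ∑ f : Fin n × Fin (2 * R) → Pos N,
    ((univ.filter (fun τ : Fin 2 → Fin n × Fin (2 * R) => Function.Injective τ ∧
          RS (R ^ 5) (f (τ 0)) (f (τ 1)))).card : ℝ) with hA
  set B : ℝ := ∑ f : Fin n × Fin (2 * R) → Pos N,
    ((univ.filter (fun τ : Fin 4 → Fin n × Fin (2 * R) => Function.Injective τ ∧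
          LCop (R ^ 5) (f (τ 0)) (f (τ 1)) (f (τ 2)) (f (τ 3)))).card : ℝ) with hB
  have sA : A * ((N : ℝ) ^ 3) ^ 2 ≤ m ^ 2 *
      ((univ.filter (fun t : Fin 2 → Pos N => RS (R ^ 5) (t 0) (t 1))).card : ℝ) * X := by
    rw [hA, hmdef, hX]
    exact_mod_cast s2
  have sB : B * ((N : ℝ) ^ 3) ^ 4 ≤ m ^ 4 *
      ((univ.filter (fun t : Fin 4 → Pos N => LCop (R ^ 5) (t 0) (t 1) (t 2) (t 3))).card : ℝ)
        * X := by
    rw [hB, hmdef, hX]
    exact_mod_cast s4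
  have bA : A ≤ (2 * c₁ * L * (R : ℝ) ^ 11) * m * X := by
    have : A * ((N : ℝ) ^ 3) ^ 2 ≤ ((2 * c₁ * L * (R : ℝ) ^ 11) * m * X) * ((N : ℝ) ^ 3) ^ 2 := by
      calc _ ≤ _ := sA
        _ ≤ (m * (2 * R * (N * L))) * ((N : ℝ) ^ 3 * (c₁ * (R : ℝ) ^ 10 * (N : ℝ) ^ 2)) * X := by
          have : m ^ 2 ≤ m * (2 * R * (N * L)) := by
            rw [pow_two]; exact mul_le_mul_of_nonneg_left hm hm0
          gcongr
        _ = _ := by ring
    exact le_of_mul_le_mul_right this (by positivity)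
  have bB : B ≤ (8 * c₂ * L ^ 4 * (R : ℝ) ^ 3) * m * X := by
    have : B * ((N : ℝ) ^ 3) ^ 4 ≤ ((8 * c₂ * L ^ 4 * (R : ℝ) ^ 3) * m * X) * ((N : ℝ) ^ 3) ^ 4 := by
      calc _ ≤ _ := sB
        _ ≤ (m * (2 * R * (N * L)) ^ 3) * ((N : ℝ) ^ 3 * (c₂ * (N : ℝ) ^ 6 * L)) * X := by
          have : m ^ 4 ≤ m * (2 * R * (N * L)) ^ 3 := by
            rw [pow_succ, mul_comm]
            exact mul_le_mul_of_nonneg_left (pow_le_pow_left₀ hm0 hm 3) hm0
          gcongr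
        _ = _ := by ring
    exact le_of_mul_le_mul_right this (by positivity)
  have cardF : ((Fintype.card (Fin n × Fin (2 * R) → Pos N) : ℕ) : ℝ) = X := by
    rw [Fintype.card_fun, hcI, cardPos, hX]
    push_cast
    ring
  have tot : (R : ℝ) ^ 12 * ∑ f : Fin n × Fin (2 * R) → Pos N,
      ((BadDeg (R ^ 5) (R ^ 12) f).card : ℝ) ≤ m * X + A + B := by
    rw [mul_sum]
    have : m * X = ∑ f : Fin n × Fin (2 * R) → Pos N, m := by
      rw [sum_const, card_univ, nsmul_eq_mul, cardF, mul_comm]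
    rw [this, hA, hB, ← sum_add_distrib, ← sum_add_distrib]
    apply sum_le_sum
    intro f _
    have := badDeg_le (R ^ 5) (R ^ 12) f
    rw [hcI] at this
    have t2 : (((R ^ 12 * (BadDeg (R ^ 5) (R ^ 12) f).card : ℕ)) : ℝ) ≤ _ := Nat.cast_le.mpr this
    push_cast at t2
    rw [hmdef]
    refine le_trans t2 (le_of_eq ?_)
    congr!
  have hR12 : (0 : ℝ) < (R : ℝ) ^ 12 := by positivity
  have h3 : (R : ℝ) ^ 12 * ∑ f : Fin n × Fin (2 * R) → Pos N,
      ((BadDeg (R ^ 5) (R ^ 12) f).card : ℝ) ≤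
      (R : ℝ) ^ 12 * (((1 + 2 * c₁ + 8 * c₂) * (L ^ 11 / R)) * m * X) := by
    calc _ ≤ m * X + A + B := tot
      _ ≤ m * X + (2 * c₁ * L * (R : ℝ) ^ 11) * m * X + (8 * c₂ * L ^ 4 * (R : ℝ) ^ 3) * m * X := by
        gcongr
      _ = (1 + 2 * c₁ * (L * (R : ℝ) ^ 11) + 8 * c₂ * (L ^ 4 * (R : ℝ) ^ 3)) * m * X := by ring
      _ ≤ (L ^ 11 * (R : ℝ) ^ 11 + 2 * c₁ * (L ^ 11 * (R : ℝ) ^ 11)
            + 8 * c₂ * (L ^ 11 * (R : ℝ) ^ 11)) * m * X := by
        have l1 : L ≤ L ^ 11 := le_self_pow₀ hL (by norm_num)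
        have l4 : L ^ 4 ≤ L ^ 11 := pow_le_pow_right₀ hL (by norm_num)
        have r3 : (R : ℝ) ^ 3 ≤ (R : ℝ) ^ 11 := pow_le_pow_right₀ hR' (by norm_num)
        have l0 : (1 : ℝ) ≤ L ^ 11 := one_le_pow₀ hL
        have r0 : (1 : ℝ) ≤ (R : ℝ) ^ 11 := one_le_pow₀ hR'
        have : (1 : ℝ) ≤ L ^ 11 * (R : ℝ) ^ 11 := by nlinarith
        gcongr
      _ = _ := by
        have : (R : ℝ) ^ 12 * (L ^ 11 / R) = L ^ 11 * (R : ℝ) ^ 11 := by
          field_simp
        calc _ = (1 + 2 * c₁ + 8 * c₂) * (L ^ 11 * (R : ℝ) ^ 11) * m * X := by ring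
          _ = (1 + 2 * c₁ + 8 * c₂) * ((R : ℝ) ^ 12 * (L ^ 11 / R)) * m * X := by rw [this]
          _ = _ := by ring
  exact le_of_mul_le_mul_left h3 hR12

/-- `log(R+1)^11/R → 0` -/
theorem small (C : ℝ) (hC : 0 < C) : ∃ R₁ : ℕ, 1 ≤ R₁ ∧ ∀ R : ℕ, R₁ ≤ R →
    C * ((100 * Real.log (R + 1)) ^ 11 / R) ≤ 1 / 1024 := by
  have h1 := (Real.isLittleO_pow_log_id_atTop (n := 11))
  have h2 := h1.def (c := 1 / (2048 * C * 100 ^ 11)) (by positivity)
  have h3 : Filter.Tendsto (fun R : ℕ => ((R : ℝ) + 1)) Filter.atTop Filter.atTop :=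
    Filter.tendsto_atTop_add_const_right _ _ tendsto_natCast_atTop_atTop
  have h4 := h3.eventually h2
  obtain ⟨R₁, hR₁⟩ := Filter.eventually_atTop.mp h4
  refine ⟨max R₁ 1, le_max_right _ _, ?_⟩
  intro R hR
  have hR1 : 1 ≤ R := le_trans (le_max_right _ _) hR
  have hR' : (1 : ℝ) ≤ R := by exact_mod_cast hR1
  have h5 := hR₁ R (le_trans (le_max_left _ _) hR)
  simp only [id, Real.norm_eq_abs] at h5
  have h6 : Real.log ((R : ℝ) + 1) ^ 11 ≤ 1 / (2048 * C * 100 ^ 11) * (2 * R) := by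
    refine (le_abs_self _).trans (h5.trans ?_)
    rw [abs_of_nonneg (by positivity)]
    have : (R : ℝ) + 1 ≤ 2 * R := by linarith
    gcongr
  rw [mul_pow]
  have h7 : C * (100 ^ 11 * Real.log ((R : ℝ) + 1) ^ 11 / R)
      ≤ C * (100 ^ 11 * (1 / (2048 * C * 100 ^ 11) * (2 * R)) / R) := by
    gcongr
  refine h7.trans (le_of_eq ?_)
  field_simp
  norm_num

theorem eqcount (N R : ℕ) (L : ℝ) (hN : 1 ≤ N) (hL : 1 ≤ L) (hr : (R : ℝ) ^ 10 ≤ N) (hR1 : 1 ≤ R) :
    ((@Finset.filter (Fin 2 → Pos N) (fun t => t 0 = t 1) (fun _ => Classical.propDecidable _)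
      univ).card : ℝ) ≤ 1 * L ^ 3 * (N : ℝ) ^ (2 * 2 + 1) / (R : ℝ) ^ 10 := by
  have hR' : (1 : ℝ) ≤ R := by exact_mod_cast hR1
  have hN' : (1 : ℝ) ≤ N := by exact_mod_cast hN
  have hr10 : (0 : ℝ) < (R : ℝ) ^ 10 := pow_pos (lt_of_lt_of_le one_pos hR') 10
  have a1 := count_pair (P := Pos N) (fun y z => y = z) 1 (fun y => by
      norm_cast
      apply card_le_one.mpr
      intro a ha b hb
      simp only [mem_filter, mem_univ, true_and] at ha hb
      rw [← ha, ← hb])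
  rw [cardPos] at a1
  have hL3 : (1 : ℝ) ≤ L ^ 3 := one_le_pow₀ hL
  have a2 : (((N ^ 3 : ℕ) : ℝ)) * 1 ≤ 1 * L ^ 3 * (N : ℝ) ^ (2 * 2 + 1) / (R : ℝ) ^ 10 := by
    rw [le_div_iff₀ hr10]
    push_cast
    calc (N : ℝ) ^ 3 * 1 * (R : ℝ) ^ 10 ≤ (N : ℝ) ^ 3 * 1 * N := by
          gcongr
      _ ≤ (N : ℝ) ^ 3 * (N * L ^ 3) * N := by
          have : (1 : ℝ) ≤ N * L ^ 3 := by nlinarith
          gcongr
      _ = _ := by ring
  refine le_trans (le_of_eq ?_) (a1.trans a2)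
  congr!

theorem Zg_le {I : Type} [Fintype I] {N : ℕ} (M Q : ℕ) (f : I → Pos N) :
    ((Zg M Q f).card : ℝ) ≤
        ((BadTup 2 (fun t => t 0 = t 1) f).card : ℝ)
        + ((BadTup 3 (fun t => Col (t 0) (t 1) (t 2)) f).card : ℝ)
        + ((BadTup 6 (TLL M) f).card : ℝ) + ((BadTup 4 (TLS M) f).card : ℝ)
        + ((BadTup 2 (TSS M) f).card : ℝ) + ((BadTup 3 (TSSS M) f).card : ℝ)
        + ((BadTup 5 (TLSS M) f).card : ℝ) + ((BadTup 7 (TLLS M) f).card : ℝ)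
        + ((BadTup 9 (TLLL M) f).card : ℝ) + ((BadDeg M Q f).card : ℝ) := by
  norm_cast
  unfold Zg
  refine (card_union_le _ _).trans (Nat.add_le_add_right ?_ _)
  refine (card_union_le _ _).trans (Nat.add_le_add_right ?_ _)
  refine (card_union_le _ _).trans (Nat.add_le_add_right ?_ _)
  refine (card_union_le _ _).trans (Nat.add_le_add_right ?_ _)
  refine (card_union_le _ _).trans (Nat.add_le_add_right ?_ _)
  refine (card_union_le _ _).trans (Nat.add_le_add_right ?_ _)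
  refine (card_union_le _ _).trans (Nat.add_le_add_right ?_ _)
  refine (card_union_le _ _).trans (Nat.add_le_add_right ?_ _)
  exact card_union_le _ _

theorem core (p1 : P1_one) (p2 : P1_bad) (N R n : ℕ) (c1 c2 c3 c4 c5 c6 c7 c8 L C : ℝ)
    (hc1 : 0 < c1) (hc2 : 0 < c2) (hc3 : 0 < c3) (hc4 : 0 < c4) (hc5 : 0 < c5) (hc6 : 0 < c6)
    (hc7 : 0 < c7) (hc8 : 0 < c8)
    (hC : C = 2304 * (1 + c1 + c4 + c5 + 729 + 19683 + c6 + c7 + c8) + (1 + 2 * c3 + 8 * c2))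
    (g1 : ∀ y : Pos N, ((univ.filter (fun t : Pos N × Pos N => Col y t.1 t.2)).card : ℝ)
      ≤ c1 * (N : ℝ) ^ 3)
    (g2 : ∀ y : Pos N,
      ((univ.filter (fun t : Pos N × Pos N × Pos N => Cop y t.1 t.2.1 t.2.2)).card : ℝ)
      ≤ c2 * (N : ℝ) ^ 6 * L)
    (g3 : ∀ y : Pos N, ((univ.filter (fun z : Pos N => RS (R ^ 5) y z)).card : ℝ)
      ≤ c3 * ((R ^ 5 : ℕ) : ℝ) ^ 2 * (N : ℝ) ^ 2)
    (g4 : ((univ.filter (fun t : Fin 6 → Pos N => TLL (R ^ 5) t)).card : ℝ)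
      ≤ c4 * (N : ℝ) ^ 13 * L ^ 2 / ((R ^ 5 : ℕ) : ℝ) ^ 2)
    (g5 : ((univ.filter (fun t : Fin 4 → Pos N => TLS (R ^ 5) t)).card : ℝ)
      ≤ c5 * ((R ^ 5 : ℕ) : ℝ) ^ 3 * (N : ℝ) ^ 8 * L ^ 2)
    (gSS : ((univ.filter (fun t : Fin 2 → Pos N => TSS (R ^ 5) t)).card : ℝ)
      ≤ 729 * ((R ^ 5 : ℕ) : ℝ) ^ 6 * (N : ℝ) ^ 4)
    (gSSS : ((univ.filter (fun t : Fin 3 → Pos N => TSSS (R ^ 5) t)).card : ℝ)
      ≤ 19683 * ((R ^ 5 : ℕ) : ℝ) ^ 9 * (N : ℝ) ^ 6)
    (g6 : ((univ.filter (fun t : Fin 5 → Pos N => TLSS (R ^ 5) t)).card : ℝ)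
      ≤ c6 * ((R ^ 5 : ℕ) : ℝ) ^ 6 * (N : ℝ) ^ 10 * L)
    (g7 : ((univ.filter (fun t : Fin 7 → Pos N => TLLS (R ^ 5) t)).card : ℝ)
      ≤ c7 * ((R ^ 5 : ℕ) : ℝ) ^ 3 * (N : ℝ) ^ 14 * Real.sqrt N * L ^ 3)
    (g8 : ((univ.filter (fun t : Fin 9 → Pos N => TLLL (R ^ 5) t)).card : ℝ)
      ≤ c8 * (N : ℝ) ^ 19 * L ^ 3 / ((R ^ 5 : ℕ) : ℝ) ^ 2)
    (hR1 : 1 ≤ R) (hR' : (1 : ℝ) ≤ R) (hN' : (3 : ℝ) ≤ N) (hnL : (n : ℝ) ≤ N * L)
    (hL1 : 1 ≤ L) (hrj : ∀ j : ℕ, j ≤ 100 → (R : ℝ) ^ j ≤ N) (hN1 : 1 ≤ N) :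
    ∑ f : Fin n × Fin (2 * R) → Pos N, ((Zg (R ^ 5) (R ^ 12) f).card : ℝ)
      ≤ (C * (L ^ 11 / R)) * (n * (2 * R)) * ((N : ℝ) ^ 3) ^ (n * (2 * R)) := by
  have hx : (0 : ℝ) < N := by linarith
  have hL3 : (1 : ℝ) ≤ L ^ 3 := one_le_pow₀ hL1
  have hr10 : (0 : ℝ) < (R : ℝ) ^ 10 := pow_pos (lt_of_lt_of_le one_pos hR') 10
  -- the nine counts
  have t2 : ((univ.filter (fun t : Fin 3 → Pos N => Col (t 0) (t 1) (t 2))).card : ℝ)
      ≤ c1 * L ^ 3 * (N : ℝ) ^ (2 * 3 + 1) / (R : ℝ) ^ 10 := by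
    have a1 := count_triple (P := Pos N) (fun y z w => Col y z w) _ g1
    rw [cardPos] at a1
    refine a1.trans ?_
    rw [le_div_iff₀ hr10]
    push_cast
    calc (N : ℝ) ^ 3 * (c1 * (N : ℝ) ^ 3) * (R : ℝ) ^ 10
        ≤ (N : ℝ) ^ 3 * (c1 * (N : ℝ) ^ 3) * N := by
          gcongr; exact hrj 10 (by norm_num)
      _ = (c1 * (N : ℝ) ^ 7) * 1 := by ring
      _ ≤ (c1 * (N : ℝ) ^ 7) * L ^ 3 := by gcongr
      _ = _ := by ring
  have t3 : ((univ.filter (fun t : Fin 6 → Pos N => TLL (R ^ 5) t)).card : ℝ)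
      ≤ c4 * L ^ 3 * (N : ℝ) ^ (2 * 6 + 1) / (R : ℝ) ^ 10 := by
    refine (g4).trans ?_
    have e : (((R ^ 5 : ℕ) : ℝ)) ^ 2 = (R : ℝ) ^ 10 := by push_cast; ring
    rw [e]
    have : L ^ 2 ≤ L ^ 3 := pow_le_pow_right₀ hL1 (by norm_num)
    calc _ ≤ c4 * (N : ℝ) ^ 13 * L ^ 3 / (R : ℝ) ^ 10 := by gcongr
      _ = _ := by ring
  have t4 : ((univ.filter (fun t : Fin 4 → Pos N => TLS (R ^ 5) t)).card : ℝ)
      ≤ c5 * L ^ 3 * (N : ℝ) ^ (2 * 4 + 1) / (R : ℝ) ^ 10 := by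
    refine (g5).trans ?_
    rw [le_div_iff₀ hr10]
    push_cast
    have : L ^ 2 ≤ L ^ 3 := pow_le_pow_right₀ hL1 (by norm_num)
    calc c5 * ((R : ℝ) ^ 5) ^ 3 * (N : ℝ) ^ 8 * L ^ 2 * (R : ℝ) ^ 10
        = c5 * (N : ℝ) ^ 8 * L ^ 2 * (R : ℝ) ^ 25 := by ring
      _ ≤ c5 * (N : ℝ) ^ 8 * L ^ 3 * N := by
          gcongr; exact hrj 25 (by norm_num)
      _ = _ := by ring
  have t5 : ((univ.filter (fun t : Fin 2 → Pos N => TSS (R ^ 5) t)).card : ℝ)
      ≤ 729 * L ^ 3 * (N : ℝ) ^ (2 * 2 + 1) / (R : ℝ) ^ 10 := by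
    refine (gSS).trans ?_
    rw [le_div_iff₀ hr10]
    push_cast
    calc 729 * ((R : ℝ) ^ 5) ^ 6 * (N : ℝ) ^ 4 * (R : ℝ) ^ 10
        = 729 * (N : ℝ) ^ 4 * 1 * (R : ℝ) ^ 40 := by ring
      _ ≤ 729 * (N : ℝ) ^ 4 * L ^ 3 * N := by
          gcongr; exact hrj 40 (by norm_num)
      _ = _ := by ring
  have t6 : ((univ.filter (fun t : Fin 3 → Pos N => TSSS (R ^ 5) t)).card : ℝ)
      ≤ 19683 * L ^ 3 * (N : ℝ) ^ (2 * 3 + 1) / (R : ℝ) ^ 10 := by
    refine (gSSS).trans ?_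
    rw [le_div_iff₀ hr10]
    push_cast
    calc 19683 * ((R : ℝ) ^ 5) ^ 9 * (N : ℝ) ^ 6 * (R : ℝ) ^ 10
        = 19683 * (N : ℝ) ^ 6 * 1 * (R : ℝ) ^ 55 := by ring
      _ ≤ 19683 * (N : ℝ) ^ 6 * L ^ 3 * N := by
          gcongr; exact hrj 55 (by norm_num)
      _ = _ := by ring
  have t7 : ((univ.filter (fun t : Fin 5 → Pos N => TLSS (R ^ 5) t)).card : ℝ)
      ≤ c6 * L ^ 3 * (N : ℝ) ^ (2 * 5 + 1) / (R : ℝ) ^ 10 := by
    refine (g6).trans ?_
    rw [le_div_iff₀ hr10]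
    push_cast
    have : L ≤ L ^ 3 := le_self_pow₀ hL1 (by norm_num)
    calc c6 * ((R : ℝ) ^ 5) ^ 6 * (N : ℝ) ^ 10 * L * (R : ℝ) ^ 10
        = c6 * (N : ℝ) ^ 10 * L * (R : ℝ) ^ 40 := by ring
      _ ≤ c6 * (N : ℝ) ^ 10 * L ^ 3 * N := by
          gcongr; exact hrj 40 (by norm_num)
      _ = _ := by ring
  have t8 : ((univ.filter (fun t : Fin 7 → Pos N => TLLS (R ^ 5) t)).card : ℝ)
      ≤ c7 * L ^ 3 * (N : ℝ) ^ (2 * 7 + 1) / (R : ℝ) ^ 10 := by
    refine (g7).trans ?_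
    rw [le_div_iff₀ hr10]
    push_cast
    have hs : (R : ℝ) ^ 25 ≤ Real.sqrt N := by
      apply Real.le_sqrt_of_sq_le
      rw [← pow_mul]
      exact hrj _ (by norm_num)
    calc c7 * ((R : ℝ) ^ 5) ^ 3 * (N : ℝ) ^ 14 * Real.sqrt N * L ^ 3 * (R : ℝ) ^ 10
        = c7 * (N : ℝ) ^ 14 * L ^ 3 * Real.sqrt N * (R : ℝ) ^ 25 := by ring
      _ ≤ c7 * (N : ℝ) ^ 14 * L ^ 3 * Real.sqrt N * Real.sqrt N := by
          gcongr
      _ = c7 * (N : ℝ) ^ 14 * L ^ 3 * (Real.sqrt N * Real.sqrt N) := by ring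
      _ = c7 * (N : ℝ) ^ 14 * L ^ 3 * N := by rw [Real.mul_self_sqrt hx.le]
      _ = _ := by ring
  have t9 : ((univ.filter (fun t : Fin 9 → Pos N => TLLL (R ^ 5) t)).card : ℝ)
      ≤ c8 * L ^ 3 * (N : ℝ) ^ (2 * 9 + 1) / (R : ℝ) ^ 10 := by
    refine (g8).trans ?_
    have e : (((R ^ 5 : ℕ) : ℝ)) ^ 2 = (R : ℝ) ^ 10 := by push_cast; ring
    rw [e]
    apply le_of_eq
    ring
  have b1 := term p2 N n R 2 hN1 (fun t => t 0 = t 1) 1 L (by norm_num) (by norm_num) (by norm_num) hR1 hL1 hnL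
    (eqcount N R L hN1 hL1 (hrj 10 (by norm_num)) hR1)
  have b2 := term p2 N n R 3 hN1 _ c1 L (by norm_num) (by norm_num) hc1.le hR1 hL1 hnL t2
  have b3 := term p2 N n R 6 hN1 _ c4 L (by norm_num) (by norm_num) hc4.le hR1 hL1 hnL t3
  have b4 := term p2 N n R 4 hN1 _ c5 L (by norm_num) (by norm_num) hc5.le hR1 hL1 hnL t4
  have b5 := term p2 N n R 2 hN1 _ 729 L (by norm_num) (by norm_num) (by norm_num) hR1 hL1 hnL t5
  have b6 := term p2 N n R 3 hN1 _ 19683 L (by norm_num) (by norm_num) (by norm_num) hR1 hL1 hnL t6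
  have b7 := term p2 N n R 5 hN1 _ c6 L (by norm_num) (by norm_num) hc6.le hR1 hL1 hnL t7
  have b8 := term p2 N n R 7 hN1 _ c7 L (by norm_num) (by norm_num) hc7.le hR1 hL1 hnL t8
  have b9 := term p2 N n R 9 hN1 _ c8 L (by norm_num) (by norm_num) hc8.le hR1 hL1 hnL t9
  have b10 := degterm p1 N n R hN1 c3 c2 L hc3.le hc2.le hR1 hL1 hnL
    (fun y => by
      refine (g3 y).trans (le_of_eq ?_)
      push_cast; ring)
    (g2)
  set X : ℝ := ((N : ℝ) ^ 3) ^ (n * (2 * R)) with hX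
  have hX0 : 0 ≤ X := by positivity
  have hm0 : (0 : ℝ) ≤ (n : ℝ) * (2 * R) := by positivity
  have hsum : ∑ f : Fin n × Fin (2 * R) → Pos N, ((Zg (R ^ 5) (R ^ 12) f).card : ℝ)
      ≤ (C * (L ^ 11 / R)) * (n * (2 * R)) * X := by
    refine (sum_le_sum (fun f _ => Zg_le (R ^ 5) (R ^ 12) f)).trans ?_
    simp only [sum_add_distrib]
    have e : (C * (L ^ 11 / R)) * (n * (2 * R)) * X =
        (2304 * 1 * (L ^ 11 / R)) * (n * (2 * R)) * X
        + (2304 * c1 * (L ^ 11 / R)) * (n * (2 * R)) * X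
        + (2304 * c4 * (L ^ 11 / R)) * (n * (2 * R)) * X
        + (2304 * c5 * (L ^ 11 / R)) * (n * (2 * R)) * X
        + (2304 * 729 * (L ^ 11 / R)) * (n * (2 * R)) * X
        + (2304 * 19683 * (L ^ 11 / R)) * (n * (2 * R)) * X
        + (2304 * c6 * (L ^ 11 / R)) * (n * (2 * R)) * X
        + (2304 * c7 * (L ^ 11 / R)) * (n * (2 * R)) * X
        + (2304 * c8 * (L ^ 11 / R)) * (n * (2 * R)) * X
        + ((1 + 2 * c3 + 8 * c2) * (L ^ 11 / R)) * (n * (2 * R)) * X := by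
      rw [hC]; ring
    rw [e]
    gcongr
  exact hsum

theorem dbg : G2_col → G3_cop → G3_rs → G5_LL → G5_LS → G5_SS → G5_SSS → G5_LSS → G5_LLS → G5_LLL →
    P1_one → P1_bad → D_badgeo := by
  rintro ⟨c1, hc1, g1⟩ ⟨c2, hc2, g2⟩ ⟨c3, hc3, g3⟩ ⟨c4, hc4, g4⟩ ⟨c5, hc5, g5⟩ gSS gSSS
    ⟨c6, hc6, g6⟩ ⟨c7, hc7, g7⟩ ⟨c8, hc8, g8⟩ p1 p2
  obtain ⟨C, hC⟩ : ∃ C : ℝ, C = 2304 * (1 + c1 + c4 + c5 + 729 + 19683 + c6 + c7 + c8)
    + (1 + 2 * c3 + 8 * c2) := ⟨_, rfl⟩
  have hC0 : 0 < C := by rw [hC]; positivity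
  obtain ⟨R₁, hR₁1, hR₁⟩ := small C hC0
  obtain ⟨e, he⟩ : ∃ e : ℕ, e = 100 := ⟨_, rfl⟩
  have hLlog : ∀ N R : ℕ, 1 ≤ N → N < (R + 1) ^ e → Real.log N ≤ 100 * Real.log (R + 1) := by
    intro N R h1 h2
    have h1' : (1 : ℝ) ≤ N := by exact_mod_cast h1
    have h2' : (N : ℝ) ≤ ((R : ℝ) + 1) ^ e := by exact_mod_cast h2.le
    have h3 := Real.log_le_log (by linarith) h2'
    rw [Real.log_pow, he] at h3
    exact_mod_cast h3
  refine ⟨max (R₁ ^ 100) 3, ?_⟩
  rw [← he]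
  intro N hN R hRN hNR n hn1 hnL
  have hN3 : 3 ≤ N := le_trans (le_max_right _ _) hN
  have hNR₁ : R₁ ^ e ≤ N := le_trans (le_max_left _ _) hN
  have hRR₁ : R₁ ≤ R := by
    have : R₁ ^ e < (R + 1) ^ e := lt_of_le_of_lt hNR₁ hNR
    have := lt_of_pow_lt_pow_left₀ e (by omega) this
    omega
  have hR1 : 1 ≤ R := le_trans hR₁1 hRR₁
  have hR' : (1 : ℝ) ≤ R := by exact_mod_cast hR1
  have hN' : (3 : ℝ) ≤ N := by exact_mod_cast hN3
  have hL1 : 1 ≤ Real.log N := by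
    have h1 : Real.exp 1 ≤ N := by
      have := Real.exp_one_lt_d9
      linarith
    rw [← Real.log_exp 1]
    exact Real.log_le_log (Real.exp_pos 1) h1
  have hL2 : Real.log N ≤ 100 * Real.log (R + 1) := hLlog N R (by omega) hNR
  have hrx : (R : ℝ) ^ e ≤ N := by exact_mod_cast hRN
  have hrj : ∀ j : ℕ, j ≤ 100 → (R : ℝ) ^ j ≤ N := fun j hj =>
    (pow_le_pow_right₀ hR' (by omega)).trans hrx
  have hM1 : 1 ≤ R ^ 5 := Nat.one_le_pow _ _ hR1
  have hM6 : (R ^ 5) ^ 6 ≤ N := by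
    rw [← pow_mul]
    exact (Nat.pow_le_pow_right hR1 (by omega)).trans hRN
  have hMN : R ^ 5 ≤ N := (Nat.pow_le_pow_right hR1 (by omega)).trans hRN
  have hN2 : 2 ≤ N := by omega
  have hN1 : 1 ≤ N := by omega
  have hsum := core p1 p2 N R n c1 c2 c3 c4 c5 c6 c7 c8 (Real.log N) C hc1 hc2 hc3 hc4 hc5 hc6
    hc7 hc8 hC (g1 N) (g2 N hN2) (g3 N hN1 (R ^ 5) hM1 hMN) (g4 N hN2 (R ^ 5) hM1 hM6)
    (g5 N hN2 (R ^ 5) hM1) (gSS N hN1 (R ^ 5) hM1) (gSSS N hN1 (R ^ 5) hM1)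
    (g6 N hN2 (R ^ 5) hM1) (g7 N hN2 (R ^ 5) hM1) (g8 N hN2 (R ^ 5) hM1 hM6) hR1 hR' hN' hnL hL1
    hrj hN1
  refine hsum.trans ?_
  have hfin : C * (Real.log N ^ 11 / R) ≤ 1 / 1024 := by
    refine le_trans ?_ (hR₁ R hRR₁)
    have h0 : (0 : ℝ) ≤ Real.log N := by linarith
    have h1 : Real.log N ^ 11 ≤ (100 * Real.log (R + 1)) ^ 11 := pow_le_pow_left₀ h0 hL2 11
    exact mul_le_mul_of_nonneg_left (div_le_div_of_nonneg_right h1 (by linarith)) hC0.le
  have hm0 : (0 : ℝ) ≤ (n : ℝ) * (2 * R) :=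
    mul_nonneg (Nat.cast_nonneg _) (by linarith)
  have hX : (0 : ℝ) ≤ ((N : ℝ) ^ 3) ^ (n * (2 * R)) := pow_nonneg (pow_nonneg (by linarith) _) _
  exact mul_le_mul_of_nonneg_right (mul_le_mul_of_nonneg_right hfin hm0) hX

end

end Pool.Agent.TH89.MP325
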